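import Pool.Agent.P.MP_2b4a47_lc.Layout

/-! The whole complex: cone points, the extra simplex, soundness and completeness. -/

namespace Pool.Agent.P.MP_2b4a47_lc

open Finset Filter Topology Sum Module Pool.Agent.Lib.ETR

section abstract

variable {V : Type} [DecidableEq V] {E E' : Type} [AddCommGroup E] [Module ℝ E] [AddCommGroup E']
  [Module ℝ E'] {v : V → E} {σ τ : Finset V}

theorem Good.map (h : Good v σ τ) (T : E →ₗ[ℝ] E') (hT : Function.Injective T) {w : V → E'}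
    (t : V → ℝ) (hw : ∀ i ∈ σ ∪ τ, 0 < t i ∧ w i = t i • T (v i)) : Good w σ τ := by
  intro z h1 h2 h3 i hi
  have := h (fun i => z i * t i)
    (fun i a b => mul_nonneg (h1 i a b) (hw i (mem_union_left _ a)).1.le)
    (fun i a b => mul_nonpos_of_nonpos_of_nonneg (h2 i a b) (hw i (mem_union_right _ a)).1.le)
    (hT (by
      rw [map_sum, map_zero, ← h3]
      exact sum_congr rfl fun i hi => by rw [(hw i hi).2, map_smul, mul_smul])) i hi
  exact (mul_eq_zero.1 this).resolve_right (hw i hi).1.ne'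

theorem Good.congr (h : Good v σ τ) {w : V → E} (hw : ∀ i ∈ σ ∪ τ, w i = v i) : Good w σ τ :=
  h.map .id Function.injective_id (fun _ => 1) fun i hi => ⟨one_pos, by simp [hw i hi]⟩

theorem ev_lin (F : E →ₗ[ℝ] ℝ) (a b : E) (h : 0 < F a) :
    ∀ᶠ ε in 𝓝[>] (0 : ℝ), 0 < F (a + ε • b) := by
  simp only [map_add, map_smul, smul_eq_mul]
  exact ev_pos (by fun_prop) (by simpa using h)

theorem SepR.ev (h : SepR v σ τ) (hd : Disjoint σ τ) (w : V → E) :
    ∀ᶠ ε in 𝓝[>] (0 : ℝ), SepR (fun i => v i + ε • w i) σ τ := by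
  obtain ⟨F, h1, h2, -⟩ := h
  filter_upwards [(eventually_all_finset σ).2 fun i hi =>
    ev_lin F _ (w i) (h1 i hi (disjoint_left.1 hd hi)), (eventually_all_finset τ).2 fun i hi =>
    ev_lin (-F) _ (w i) (neg_pos.2 (h2 i hi (disjoint_right.1 hd hi)))] with ε a b
  exact ⟨F, fun i h _ => a i h, fun i h _ => neg_pos.1 (b i h),
    fun i a b => absurd b (disjoint_left.1 hd a)⟩

theorem SepR.good' (h : SepR v σ τ) (hd : Disjoint σ τ) : Good v σ τ :=
  h.good (by rw [disjoint_iff_inter_eq_empty.1 hd]; exact fun _ _ _ h => absurd h (notMem_empty _))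

theorem Good.cone {w : V → E'} {Δ : Finset V} (hΔ : Ind w Δ) (hd : Disjoint (σ ∪ τ) Δ)
    (h : Good v σ τ) :
    Good (fun i => if i ∈ Δ then ((0, w i) : E × E') else (v i, 0)) (σ ∪ Δ) (τ ∪ Δ) := by
  intro z h1 h2 h3 i hi
  rw [show σ ∪ Δ ∪ (τ ∪ Δ) = σ ∪ τ ∪ Δ by ext; simp; tauto] at h3 hi
  beta_reduce at h3
  rw [sum_union hd, sum_congr rfl fun i hi => by rw [if_neg (disjoint_left.1 hd hi)],
    sum_congr (s₁ := Δ) rfl fun i hi => by rw [if_pos hi]] at h3
  simp only [Prod.ext_iff, Prod.fst_add, Prod.snd_add, Prod.fst_sum, Prod.snd_sum, Prod.smul_mk,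
    smul_zero, sum_const_zero, add_zero, zero_add, Prod.fst_zero, Prod.snd_zero] at h3
  rcases mem_union.1 hi with hi | hi
  · refine h z (fun i a b => h1 i (mem_union_left _ a) ?_)
      (fun i a b => h2 i (mem_union_left _ a) ?_) h3.1 i hi
    · simp [b, disjoint_left.1 hd (mem_union_left _ a)]
    · simp [b, disjoint_left.1 hd (mem_union_right _ a)]
  · exact hΔ z h3.2 i hi

theorem exists_extra [Countable V] [FiniteDimensional ℝ E] (v : V → E) (U X : Finset V)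
    (F G : E →ₗ[ℝ] ℝ) (hF : ∀ i ∈ U, 0 < F (v i)) {a b : E} (ha : F a = 0) (ha' : G a = 1)
    (hb : F b = 1) (hX : #X ≤ finrank ℝ E) (hd : Disjoint U X) :
    ∃ v' : V → E, (∀ i ∈ U, v' i = v i) ∧ (∀ i ∈ X, 0 < F (v' i)) ∧ Ind v' X ∧ SepR v' U X := by
  have e1 : ∀ᶠ ε in 𝓝[>] (0 : ℝ), ∀ i ∈ U, 0 < F (v i) - ε * G (v i) :=
    (eventually_all_finset U).2 fun i hi => ev_pos (by fun_prop) (by simpa using hF i hi)
  obtain ⟨ε, h1, h2⟩ := (e1.and self_mem_nhdsWithin).exists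
  obtain ⟨w, hw⟩ := exists_gp (fun _ : V => b + ((2 - ε * G b) / ε) • a) X
  obtain ⟨η, h3, h4, h5⟩ := (hw.and (((eventually_all_finset X).2 fun i _ =>
    ev_lin F (b + ((2 - ε * G b) / ε) • a) (w i) (by simp [ha, hb])).and
    ((eventually_all_finset X).2 fun i _ => ev_lin (ε • G - F) (b + ((2 - ε * G b) / ε) • a) (w i)
      (by
        simp only [LinearMap.sub_apply, LinearMap.smul_apply, map_add, map_smul, ha, hb, ha',
          smul_eq_mul, mul_one, mul_zero, add_zero]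
        rw [sub_zero, div_mul_cancel₀ _ (ne_of_gt h2)]
        linarith)))).exists
  refine ⟨fun i => if i ∈ X then b + ((2 - ε * G b) / ε) • a + η • w i else v i,
    fun i hi => if_neg (disjoint_left.1 hd hi), fun i hi => by simpa only [if_pos hi] using h4 i hi,
    (((h3 X Subset.rfl hX).mono (union_self X).subset).good.congr fun i hi =>
      if_pos (by simpa using hi)).ind, F - ε • G, fun i a b => by simpa [b] using h1 i a,
    fun i a _ => ?_, fun i a b => absurd b (disjoint_left.1 hd a)⟩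
  have := h5 i a
  simp only [if_pos a, LinearMap.sub_apply] at this ⊢
  linarith

theorem dehom [FiniteDimensional ℝ E] {d : ℕ} (hd : finrank ℝ E = d + 1) (v : V → E)
    (F : E →ₗ[ℝ] ℝ) {b : E} (hb : F b = 1) : ∃ f : V → Fin d → ℝ, ∀ σ τ : Finset V,
      (∀ i ∈ σ ∪ τ, 0 < F (v i)) → Good v σ τ → Good (hom f) σ τ := by
  have h1 := Module.Dual.finrank_ker_add_one_of_ne_zero (f := F) fun h => by simp [h] at hb
  let e : LinearMap.ker F ≃ₗ[ℝ] Fin d → ℝ := .ofFinrankEq _ _ (by simp; omega)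
  let π : E →ₗ[ℝ] LinearMap.ker F :=
    (LinearMap.id - F.smulRight b).codRestrict _ fun x => by simp [hb]
  refine ⟨fun i => (F (v i))⁻¹ • e (π (v i)), fun σ τ h2 h3 =>
    h3.map ((e.toLinearMap ∘ₗ π).prod F) ((injective_iff_map_eq_zero _).2 fun x hx => ?_)
      (fun i => (F (v i))⁻¹) fun i hi => ⟨inv_pos.2 (h2 i hi), ?_⟩⟩
  · have a1 : e (π x) = 0 := congrArg Prod.fst hx
    have a2 : F x = 0 := congrArg Prod.snd hx
    simpa [π, a2] using congrArg Subtype.val (e.map_eq_zero_iff.1 a1)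
  · simp [hom, (h2 i hi).ne']

theorem exists_proj [FiniteDimensional ℝ E] {Δ : Finset V} (h : Ind v Δ) {m : ℕ}
    (hm : #Δ + m = finrank ℝ E) : ∃ π : E →ₗ[ℝ] Fin m → ℝ, ∀ F : E →ₗ[ℝ] ℝ,
      (∀ i ∈ Δ, F (v i) = 0) → ∃ F' : (Fin m → ℝ) →ₗ[ℝ] ℝ, ∀ x, F x = F' (π x) := by
  let W := Submodule.span ℝ (Set.range fun i : Δ => v i)
  have h1 : finrank ℝ W = #Δ := by
    simpa using finrank_span_eq_card (linearIndepOn_finset_iff.2 h).linearIndependent
  have h2 := W.finrank_quotient_add_finrank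
  let e : (E ⧸ W) ≃ₗ[ℝ] Fin m → ℝ := .ofFinrankEq _ _ (by simp; omega)
  refine ⟨e.toLinearMap ∘ₗ W.mkQ, fun F hF => ⟨W.liftQ F (Submodule.span_le.2 ?_) ∘ₗ
    e.symm.toLinearMap, fun x => by simp⟩⟩
  rintro _ ⟨i, rfl⟩
  exact hF i i.2

end abstract

variable {r : ℕ} {κ : Type} [DecidableEq κ] [Countable κ] {S : Asg κ} {q k d : ℕ}

def seg (a n : ℕ) : Finset (Lab r κ) := (range n).image fun i => (inr (a + i), [])

def Top (S : Asg κ) (q k : ℕ) (σ : Finset (Lab r κ)) : Prop :=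
  (∃ c ∈ S, ∃ φ, Face c.1 φ ∧ σ = φ.image (lab c) ∪ seg 0 q) ∨ σ = seg q (k + 1)

theorem card_seg (a n : ℕ) : #(seg a n : Finset (Lab r κ)) = n := by
  rw [seg, card_image_of_injective _ fun i j h => by simpa using h, card_range]

theorem lab_notMem (c : Bool × κ × κ) (x : Sh r) (a n : ℕ) : lab c x ∉ seg a n := by
  unfold lab
  split_ifs <;> simp [seg]

theorem seg_disj : Disjoint (seg 0 q : Finset (Lab r κ)) (seg q (k + 1)) :=
  disjoint_left.2 (by simp [seg]; omega)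

noncomputable def verts (S : Asg κ) : Finset (Lab r κ) :=
  S.toFinset.biUnion fun c => univ.image (lab c)

theorem sub_verts {c : Bool × κ × κ} (hc : c ∈ S) (φ : Finset (Sh r)) :
    φ.image (lab c) ⊆ verts S := fun _ hx =>
  mem_biUnion.2 ⟨c, List.mem_toFinset.2 hc, image_subset_image (subset_univ _) hx⟩

theorem exists_used (S : Asg κ) (q : ℕ) : ∃ U : Finset (Lab r κ),
    (∀ x ∈ U, (∃ c ∈ S, ∃ φ, Face c.1 φ ∧ ∃ y ∈ φ, lab c y = x) ∨ x ∈ seg 0 q) ∧
    ∀ c ∈ S, ∀ φ, Face c.1 φ → φ.image (lab c) ∪ seg 0 q ⊆ U := by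
  classical
  refine ⟨(verts S).filter (fun x => ∃ c ∈ S, ∃ φ, Face c.1 φ ∧ ∃ y ∈ φ, lab c y = x) ∪ seg 0 q,
    fun x hx => ?_, fun c hc φ hφ => union_subset_union (fun x hx => ?_) Subset.rfl⟩
  · rw [mem_union, mem_filter] at hx
    exact hx.imp_left And.right
  · rw [mem_filter]
    exact ⟨sub_verts hc φ hx, c, hc, φ, hφ, mem_image.1 hx⟩

theorem perturb {E : Type} [AddCommGroup E] [Module ℝ E] [FiniteDimensional ℝ E]
    {v : Lab r κ → E} (h : ∀ c ∈ S, ∀ c' ∈ S, ∀ φ ψ, Face c.1 φ → Face c'.1 ψ →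
      Disjoint (φ.image (lab c)) (ψ.image (lab c')) →
      SepR v (φ.image (lab c)) (ψ.image (lab c'))) :
    ∃ w : Lab r κ → E, ∀ᶠ ε in 𝓝[>] (0 : ℝ),
      (∀ s ⊆ verts S, #s ≤ finrank ℝ E → Ind (fun i => v i + ε • w i) s) ∧
      ∀ c ∈ S, ∀ c' ∈ S, ∀ φ ψ, Face c.1 φ → Face c'.1 ψ →
        Disjoint (φ.image (lab c)) (ψ.image (lab c')) →
        Good (fun i => v i + ε • w i) (φ.image (lab c)) (ψ.image (lab c')) := by
  obtain ⟨w, hw⟩ := exists_gp v (verts S)
  exact ⟨w, hw.and (ev_list _ fun c hc => ev_list _ fun c' hc' => eventually_all.2 fun φ =>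
    eventually_all.2 fun ψ => eventually_all.2 fun hφ => eventually_all.2 fun hψ =>
      eventually_all.2 fun hd => ((h c hc c' hc' φ ψ hφ hψ hd).ev hd w).mono fun _ h => h.good' hd)⟩

theorem complete (h : S.Sat) (hd : d = 2 * (r + 2) + q) (hk : k ≤ d) :
    ∃ f : Lab r κ → Fin d → ℝ, ∀ σ τ, Top S q k σ → Top S q k τ → Good (hom f) σ τ := by
  obtain ⟨v, h1, h2⟩ := layout (r := r) h
  obtain ⟨w, hw⟩ := perturb h2
  have hr : finrank ℝ (Sp r) = 2 * r + 5 := by simp; omega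
  obtain ⟨ε, ⟨h3, h4⟩, h5⟩ := (hw.and (ev_list S fun c hc => eventually_all.2 fun φ =>
    eventually_all.2 fun hφ : Face c.1 φ => (eventually_all_finset φ).2 fun x hx =>
      ev_lin _ _ (w (lab c x)) (h1 c hc φ hφ x hx))).exists
  have h6 : ∀ c ∈ S, ∀ c' ∈ S, ∀ φ ψ, Face c.1 φ → Face c'.1 ψ →
      Good (fun i => v i + ε • w i) (φ.image (lab c)) (ψ.image (lab c')) := by
    intro c hc c' hc' φ ψ hφ hψ
    by_cases hd : Disjoint (φ.image (lab c)) (ψ.image (lab c'))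
    · exact h4 c hc c' hc' φ ψ hφ hψ hd
    · refine (h3 _ (union_subset (sub_verts hc φ) (sub_verts hc' ψ)) ?_).good
      have a1 := card_union_add_card_inter (φ.image (lab c)) (ψ.image (lab c'))
      have a2 := card_pos.2 (not_disjoint_iff_nonempty_inter.1 hd)
      rw [card_image_of_injective _ (lab_inj c), card_image_of_injective _ (lab_inj c'), hφ.card,
        hψ.card] at a1
      omega
  obtain ⟨w', hw'⟩ := exists_gp (fun _ : Lab r κ => (0 : Fin q → ℝ)) (seg 0 q)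
  obtain ⟨η, h7⟩ := hw'.exists
  have h7 := h7 _ Subset.rfl (by simp [card_seg])
  obtain ⟨F', h8, -⟩ := Good.sepR (v := fun i => 0 + η • w' i) (σ := seg 0 q) (τ := ∅)
    (Ind.good (by rwa [union_empty]))
  obtain ⟨U, hU, hU'⟩ := exists_used (r := r) S q
  have h9 : ∀ i ∈ U, 0 < (fn 0 0 1 1 1 1 1).coprod F' (if i ∈ seg 0 q then
      ((0, 0 + η • w' i) : Sp r × (Fin q → ℝ)) else (v i + ε • w i, 0)) := fun i hi => by
    rcases hU i hi with ⟨c, hc, φ, hφ, y, hy, rfl⟩ | hi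
    · simpa only [if_neg (lab_notMem c y _ _), LinearMap.coprod_apply, map_zero, add_zero] using
        h5 c hc φ hφ y hy
    · simpa only [if_pos hi, LinearMap.coprod_apply, map_zero, zero_add] using
        h8 i hi (notMem_empty _)
  have hdis : Disjoint U (seg q (k + 1)) := disjoint_left.2 fun i hi => by
    rcases hU i hi with ⟨c, -, -, -, y, -, rfl⟩ | hi
    · exact lab_notMem c y _ _
    · exact disjoint_left.1 seg_disj hi
  have hb : (fn (r := r) 0 0 1 1 1 1 1).coprod F' (((0, 0, 1, 0, 0), 0, 0), 0) = 1 := by simp [fn]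
  obtain ⟨u, a1, a2, a3, a4⟩ := exists_extra _ U (seg q (k + 1)) _ ((fn 1 0 0 0 0 0 0).coprod 0) h9
    (a := (((1, 0, 0, 0, 0), 0, 0), 0)) (by simp [fn]) (by simp [fn]) hb
    (by rw [card_seg, finrank_prod, hr]; simp; omega) hdis
  obtain ⟨f, hf⟩ := dehom (d := d) (by rw [finrank_prod, hr]; simp; omega) u _ hb
  have a5 : ∀ σ, Top S q k σ → ∀ i ∈ σ, 0 < (fn 0 0 1 1 1 1 1).coprod F' (u i) := by
    rintro _ (⟨c, hc, φ, hφ, rfl⟩ | rfl) i hi
    · rw [a1 i (hU' c hc φ hφ hi)]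
      exact h9 i (hU' c hc φ hφ hi)
    · exact a2 i hi
  refine ⟨f, fun σ τ hσ hτ => hf σ τ (forall_mem_union.2 ⟨a5 σ hσ, a5 τ hτ⟩) ?_⟩
  rcases hσ with ⟨c, hc, φ, hφ, rfl⟩ | rfl <;> rcases hτ with ⟨c', hc', ψ, hψ, rfl⟩ | rfl
  · refine ((h6 c hc c' hc' φ ψ hφ hψ).cone h7 (disjoint_left.2 ?_)).congr fun i hi =>
      a1 i (union_subset (hU' c hc φ hφ) (hU' c' hc' ψ hψ) hi)
    intro x hx
    rcases mem_union.1 hx with hx | hx <;>
    · obtain ⟨y, -, rfl⟩ := mem_image.1 hx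
      exact lab_notMem _ _ _ _
  · exact (a4.good' hdis).mono (hU' c hc φ hφ) Subset.rfl
  · exact ((a4.good' hdis).mono (hU' c' hc' ψ hψ) Subset.rfl).symm
  · exact Ind.good (by rwa [union_self])

def HSat (S : Asg κ) : Prop :=
  ∃ l p : κ → V3, ∀ c ∈ S, 0 < sg c.1 * dot (l c.2.1) (p c.2.2)

theorem sound (hd : d = 2 * (r + 2) + q) {f : Lab r κ → Fin d → ℝ}
    (h : ∀ σ τ, Top S q k σ → Top S q k τ → Good (hom f) σ τ) : HSat S := by
  rcases S.eq_nil_or_concat' with rfl | ⟨L, c0, e⟩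
  · exact ⟨0, 0, by simp⟩
  have hc0 : c0 ∈ S := by simp [e]
  have h0 : Face c0.1 (mk {0, 1, 2} univ ∅ : Finset (Sh r)) :=
    .inl ⟨fun x => by revert x; simp [forall_sh], by simp; omega,
      fun h => by simpa using congrArg (inl 0 ∈ ·) h⟩
  obtain ⟨π, hπ⟩ := exists_proj ((h _ _ (.inl ⟨c0, hc0, _, h0, rfl⟩)
    (.inl ⟨c0, hc0, _, h0, rfl⟩)).ind.mono subset_union_right) (m := 2 * (r + 2) + 1)
    (by simp [card_seg]; omega)
  obtain ⟨w, hw⟩ := perturb (S := S) (v := fun i => π (hom f i)) fun c hc c' hc' φ ψ hφ hψ hd => by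
    obtain ⟨F, a1, a2, a3⟩ := (h _ _ (.inl ⟨c, hc, φ, hφ, rfl⟩) (.inl ⟨c', hc', ψ, hψ, rfl⟩)).sepR
    obtain ⟨F', hF'⟩ := hπ F fun i hi => a3 i (mem_union_right _ hi) (mem_union_right _ hi)
    refine ⟨F', fun i a b => hF' _ ▸ a1 i (mem_union_left _ a) ?_,
      fun i a b => hF' _ ▸ a2 i (mem_union_left _ a) ?_,
      fun i a b => absurd b (disjoint_left.1 hd a)⟩ <;>
    · obtain ⟨y, -, rfl⟩ := mem_image.1 a
      exact fun h => (mem_union.1 h).elim b (lab_notMem _ _ _ _)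
  obtain ⟨ε, h1, h2⟩ := hw.exists
  set u := fun i => π (hom f i) + ε • w i
  have h3 : ∀ c ∈ S, ∀ s : Finset (Sh r), #s ≤ finrank ℝ (Fin (2 * (r + 2) + 1) → ℝ) →
      Ind (u ∘ lab c) s := fun c hc s hs =>
    (h1 _ (sub_verts hc s) (card_image_le.trans hs)).comp (lab_inj c)
  obtain ⟨P, hP⟩ := exists_proj (h3 c0 hc0 (mk {0, 1} univ univ) (by simp; omega)) (m := 3)
    (by simp; omega)
  have h4 : ∀ a : κ, ∃ l : V3, ∀ c ∈ S, c.2.1 = a →
      0 < sg c.1 * dot l (P (u (inl (inl 10), [c.2.2, c.2.2])) 0,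
        P (u (inl (inl 10), [c.2.2, c.2.2])) 1, P (u (inl (inl 10), [c.2.2, c.2.2])) 2) := by
    intro a
    by_cases ha : ∃ c1 ∈ S, c1.2.1 = a
    · obtain ⟨c1, hc1, rfl⟩ := ha
      obtain ⟨F, a1, -, a2⟩ := Good.sepR (σ := mk {5} ∅ ∅ ∪ mk {0, 1, 2, 3} univ univ)
        (τ := mk {0, 1, 2, 3} univ univ) (h3 c1 hc1 _ (by
          rw [union_assoc, union_self]
          exact (card_union_le _ _).trans (by simp; omega))).good
      obtain ⟨F', hF'⟩ := hP F fun x hx => by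
        have := a2 x (mem_union_right _ ?_) ?_
        · have hg : glob x = true := by revert x; simp [forall_sh, glob]
          simpa only [Function.comp_apply, lab_glob _ hg] using this
        all_goals revert x; simp [forall_sh]
      refine ⟨(F' (Pi.single 0 1), F' (Pi.single 1 1), F' (Pi.single 2 1)), fun c hc e => ?_⟩
      have a3 := local_sound (by simp) (h3 c hc) (s := c.1) (fun φ ψ a b hd => (h2 c hc c hc φ ψ a b
        ((disjoint_image (lab_inj c)).2 hd)).comp (lab_inj c)) F (fun x hx => by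
          have := a2 x (mem_union_right _ hx) hx
          have hx' : glob x = true ∨ x = inl 2 ∨ x = inl 3 := by
            revert x; simp [forall_sh, glob]
          rcases hx' with hg | rfl | rfl
          · simpa only [Function.comp_apply, lab_glob _ hg] using this
          all_goals
            rw [Function.comp_apply, lab_in _ (by decide) (by decide)] at this ⊢
            rwa [e]) (by
          have := a1 (inl 5) (by simp) (by simp)
          rw [Function.comp_apply, lab_in _ (by decide) (by decide)] at this ⊢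
          rwa [e])
      rw [Function.comp_apply, lab_tip, hF', F'.pi_apply_eq_sum_univ, Fin.sum_univ_three] at a3
      refine a3.trans_eq ?_
      simp only [dot, smul_eq_mul, ← Pi.single_apply, mul_comm]
      congr <;> ext <;> simp [Pi.single_apply, eq_comm]
    · exact ⟨0, fun c hc e => absurd ⟨c, hc, e⟩ ha⟩
  choose l hl using h4
  exact ⟨l, fun b => (P (u (inl (inl 10), [b, b])) 0, P (u (inl (inl 10), [b, b])) 1,
    P (u (inl (inl 10), [b, b])) 2), fun c hc => hl _ c hc rfl⟩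

end Pool.Agent.P.MP_2b4a47_lc
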