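import Pool.Agent.P.MP_2b4a47_lc.Link

/-! Reduction to circuits, and the Conway Gordon parity. -/

namespace Pool.Agent.P.MP_2b4a47_lc

open Finset Module

variable {V : Type} [DecidableEq V] {E : Type} [AddCommGroup E] [Module ℝ E]
  [FiniteDimensional ℝ E] {u : V → E}

omit [DecidableEq V] in
theorem circ_reduce {W : Finset V} {z y : V → ℝ} {k : V} (hk : k ∈ W)
    (hy : 0 < z k * y k) :
    ∃ t : ℝ, (∃ m ∈ W, z m - t * y m = 0) ∧ ∀ i ∈ W, 0 ≤ z i * (z i - t * y i) := by
  obtain ⟨m, hm, hmin⟩ := exists_min_image (W.filter fun i => 0 < z i * y i) (fun i => z i / y i)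
    ⟨k, mem_filter.2 ⟨hk, hy⟩⟩
  obtain ⟨hm1, hm2⟩ := mem_filter.1 hm
  have hne : ∀ i, 0 < z i * y i → y i ≠ 0 := fun i h e => by simp [e] at h
  have ht : 0 < z m / y m := by
    have e : z m / y m = z m * y m / (y m * y m) := by
      have := hne m hm2
      field_simp
    rw [e]
    exact div_pos hm2 (mul_self_pos.2 (hne m hm2))
  refine ⟨z m / y m, ⟨m, hm1, by rw [div_mul_cancel₀ _ (hne m hm2), sub_self]⟩, fun i hi => ?_⟩
  by_cases h : 0 < z i * y i
  · have h1 := hmin i (mem_filter.2 ⟨hi, h⟩)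
    have e : z i * (z i - z m / y m * y i) = z i * y i * (z i / y i - z m / y m) := by
      have := hne i h
      field_simp
    rw [e]
    exact mul_nonneg h.le (sub_nonneg.2 h1)
  · have h1 := mul_nonneg ht.le (neg_nonneg.2 (not_lt.1 h))
    nlinarith [mul_self_nonneg (z i)]

theorem circ_dep {W : Finset V} (hW : #W = finrank ℝ E + 1) {z : V → ℝ} (hz : ∀ i ∈ W, z i ≠ 0) :
    ∃ y : V → ℝ, ∑ i ∈ W, y i • u i = 0 ∧ ∃ k ∈ W, 0 < z k * y k := by
  have h : ¬ Ind u W := fun h => by
    have := h.card_le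
    omega
  unfold Ind at h
  push Not at h
  obtain ⟨y, h1, k, hk, h2⟩ := h
  rcases lt_or_gt_of_ne (mul_ne_zero (hz k hk) h2) with h3 | h3
  · exact ⟨fun i => -y i, by simp [h1], k, hk, by simpa using h3⟩
  · exact ⟨y, h1, k, hk, h3⟩

/-- In general position only pairs forming a circuit matter. Sketch: take a nonzero admissible
dependency `z`, `P = {z > 0} ⊆ σ`, `N = {z < 0} ⊆ τ`, strong induction on `#(P ∪ N)`. It is more
than the rank. If it is more than rank + 1, take a nonzero dependency `y` on a subset `W` of size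
rank + 1 (`Ind.card_le`), up to sign `z i * y i > 0` for some `i`, and `z - t • y` with `t` the
least such `z i / y i` is admissible, nonzero, with smaller support. -/
theorem good_of_circuits {σ τ : Finset V} (hu : ∀ s ⊆ σ ∪ τ, #s ≤ finrank ℝ E → Ind u s)
    (h : ∀ A ⊆ σ, ∀ B ⊆ τ, Disjoint A B → #A + #B = finrank ℝ E + 1 → Good u A B) :
    Good u σ τ := by
  have key : ∀ n : ℕ, ∀ z : V → ℝ, #((σ ∪ τ).filter fun i => z i ≠ 0) ≤ n →
      (∀ i ∈ σ, i ∉ τ → 0 ≤ z i) → (∀ i ∈ τ, i ∉ σ → z i ≤ 0) →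
      ∑ i ∈ σ ∪ τ, z i • u i = 0 → ∀ i ∈ σ ∪ τ, z i = 0 := by
    intro n
    induction n with
    | zero =>
      intro z h0 _ _ _ i hi
      by_contra h1
      exact absurd (card_pos.2 ⟨i, mem_filter.2 ⟨hi, h1⟩⟩) (not_lt.2 h0)
    | succ n ih =>
      intro z h0 a1 a2 a3
      set Z := (σ ∪ τ).filter fun i => z i ≠ 0 with hZ
      have hZs : Z ⊆ σ ∪ τ := filter_subset _ _
      have hZn : ∀ i ∈ Z, z i ≠ 0 := fun i hi => (mem_filter.1 hi).2
      have a4 : ∑ i ∈ Z, z i • u i = 0 := by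
        rw [← a3]
        refine sum_subset hZs fun i hi hn => ?_
        have : z i = 0 := by
          by_contra h1
          exact hn (mem_filter.2 ⟨hi, h1⟩)
        simp [this]
      suffices hs : ∀ i ∈ Z, z i = 0 by
        intro i hi
        by_contra h1
        exact h1 (hs i (mem_filter.2 ⟨hi, h1⟩))
      rcases lt_trichotomy (#Z) (finrank ℝ E + 1) with c | c | c
      · exact hu Z hZs (by omega) z a4
      · have b1 : Z.filter (fun i => 0 < z i) ⊆ σ := fun i hi => by
          obtain ⟨d1, d2⟩ := mem_filter.1 hi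
          by_contra d3
          exact (a2 i ((mem_union.1 (hZs d1)).resolve_left d3) d3).not_gt d2
        have b2 : Z.filter (fun i => ¬ 0 < z i) ⊆ τ := fun i hi => by
          obtain ⟨d1, d2⟩ := mem_filter.1 hi
          by_contra d3
          exact d2 ((a1 i ((mem_union.1 (hZs d1)).resolve_right d3) d3).lt_of_ne' (hZn i d1))
        have b3 := h _ b1 _ b2 (disjoint_filter_filter_not _ _ _)
          ((card_filter_add_card_filter_not _).trans c) z (fun i hi _ => (mem_filter.1 hi).2.le)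
          (fun i hi _ => not_lt.1 (mem_filter.1 hi).2)
        rw [filter_union_filter_not_eq] at b3
        exact b3 a4
      · exfalso
        obtain ⟨W, hW1, hW2⟩ := exists_subset_card_eq c.le
        obtain ⟨y, b1, k, hk, b2⟩ := circ_dep (u := u) hW2 fun i hi => hZn i (hW1 hi)
        obtain ⟨t, ⟨m, hm, b3⟩, b4⟩ := circ_reduce hk b2
        obtain ⟨l, hl, hl'⟩ := exists_mem_notMem_of_card_lt_card (hW2.trans_lt c)
        have b5 := ih (fun i => z i - t * if i ∈ W then y i else 0) ?_ (fun i d1 d2 => ?_)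
          (fun i d1 d2 => ?_) ?_ l (hZs hl)
        · exact hZn l hl (by simpa [hl'] using b5)
        · refine (card_le_card (t := Z.erase m) fun i hi => ?_).trans ?_
          · obtain ⟨d1, d2⟩ := mem_filter.1 hi
            refine mem_erase.2 ⟨fun e => d2 (by rw [e, if_pos hm, b3]), ?_⟩
            by_cases d3 : i ∈ W
            · exact hW1 d3
            · exact mem_filter.2 ⟨d1, by simpa [d3] using d2⟩
          · rw [card_erase_of_mem (hW1 hm)]
            omega
        · by_cases d3 : i ∈ W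
          · rw [if_pos d3]
            exact nonneg_of_mul_nonneg_right (b4 i d3)
              ((a1 i d1 d2).lt_of_ne' (hZn i (hW1 d3)))
          · simpa [d3] using a1 i d1 d2
        · by_cases d3 : i ∈ W
          · rw [if_pos d3]
            exact nonpos_of_mul_nonneg_right (b4 i d3)
              ((a2 i d1 d2).lt_of_ne (hZn i (hW1 d3)))
          · simpa [d3] using a2 i d1 d2
        · simp only [sub_smul, mul_smul, sum_sub_distrib, ← smul_sum]
          rw [a3, sum_ext u (hW1.trans hZs), b1, smul_zero, sub_zero]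
  exact fun z => key _ z le_rfl

theorem circ_side {T A : Finset V} {s : V → ℝ} (hs : ∀ i ∈ T, s i ≠ 0) (hA : A ⊆ T) {m : V}
    (hm : m ∈ A) :
    (((∀ i ∈ A, 0 < s i) ∧ ∀ i ∈ T \ A, s i < 0) ∨ (∀ i ∈ A, s i < 0) ∧ ∀ i ∈ T \ A, 0 < s i) ↔
      A = T.filter fun i => 0 < s m * s i := by
  constructor
  · rintro (⟨h1, h2⟩ | ⟨h1, h2⟩)
    · ext i
      refine ⟨fun hi => mem_filter.2 ⟨hA hi, mul_pos (h1 m hm) (h1 i hi)⟩, fun hi => ?_⟩
      by_contra h3
      exact (mul_neg_of_pos_of_neg (h1 m hm)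
        (h2 i (mem_sdiff.2 ⟨(mem_filter.1 hi).1, h3⟩))).not_gt (mem_filter.1 hi).2
    · ext i
      refine ⟨fun hi => mem_filter.2 ⟨hA hi, mul_pos_of_neg_of_neg (h1 m hm) (h1 i hi)⟩,
        fun hi => ?_⟩
      by_contra h3
      exact (mul_neg_of_neg_of_pos (h1 m hm)
        (h2 i (mem_sdiff.2 ⟨(mem_filter.1 hi).1, h3⟩))).not_gt (mem_filter.1 hi).2
  · intro h
    have h1 : ∀ i ∈ A, 0 < s m * s i := fun i hi => (mem_filter.1 (h.le hi)).2
    have h2 : ∀ i ∈ T \ A, s m * s i < 0 := fun i hi => by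
      obtain ⟨a, b⟩ := mem_sdiff.1 hi
      refine lt_of_le_of_ne (not_lt.1 fun c => b ?_) (mul_ne_zero (hs m (hA hm)) (hs i a))
      rw [h]
      exact mem_filter.2 ⟨a, c⟩
    rcases lt_or_gt_of_ne (hs m (hA hm)) with c | c
    · exact .inr ⟨fun i hi => neg_of_mul_pos_right (h1 i hi) c.le,
        fun i hi => pos_of_mul_neg_right (h2 i hi) c.le⟩
    · exact .inl ⟨fun i hi => (mul_pos_iff_of_pos_left c).1 (h1 i hi),
        fun i hi => neg_of_mul_neg_right (h2 i hi) c.le⟩

theorem circ_card {T : Finset V} {s : V → ℝ} (hs : ∀ i ∈ T, s i ≠ 0) (hT : #T = 5) {m : V}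
    (hm : m ∈ T) :
    #(T.filter fun i => 0 < s m * s i) = 3 ↔ #((T.erase m).filter fun i => 0 < s i) = 2 := by
  have h1 : T.filter (fun i => 0 < s m * s i) =
      insert m ((T.erase m).filter fun i => 0 < s m * s i) := by
    conv_lhs => rw [← insert_erase hm, filter_insert, if_pos (mul_self_pos.2 (hs m hm))]
  rw [h1, card_insert_of_notMem fun h => notMem_erase m T (mem_filter.1 h).1]
  rcases lt_or_gt_of_ne (hs m hm) with c | c
  · have h2 := card_filter_add_card_filter_not (s := T.erase m) fun i => 0 < s i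
    rw [card_erase_of_mem hm, hT] at h2
    rw [filter_congr (q := fun i => ¬ 0 < s i) fun i hi =>
      ⟨fun h => (neg_of_mul_pos_right h c.le).not_gt, fun h => mul_pos_of_neg_of_neg c
        ((not_lt.1 h).lt_of_ne (hs i (mem_of_mem_erase hi)))⟩]
    omega
  · rw [filter_congr (q := fun i => 0 < s i) fun i _ => mul_pos_iff_of_pos_left c]
    omega

/-- Conway Gordon: `rank_two` gives `β r`; for `j ≠ m` the only `A ∋ m` with
`¬ Good u A ((U \ A).erase j)` possible is the set of `i ≠ j` where `β i * (r j - r i)` has the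
sign it has at `m`, and it has 3 elements iff `cnt β r (U.erase m) j = 2`; `parity` on
`U.erase m`. -/
theorem Lk_sum (hu : ∀ s : Finset V, #s ≤ finrank ℝ E → Ind u s) (hn : finrank ℝ E = 4)
    {U : Finset V} (hU : #U = 6) {m : V} (hm : m ∈ U) :
    ∑ A ∈ (powersetCard 3 U).filter (fun A => m ∈ A), Lk u A (U \ A) = 1 := by
  obtain ⟨β, r, h1, h2, h3⟩ := rank_two hu (U := U) (by omega)
  have h1' : ∀ i ∈ U.erase m, β i ≠ 0 := fun i hi => h1 i (mem_of_mem_erase hi)
  have h4 := parity β r (U.erase m) h1' (h2.mono (coe_subset.2 (erase_subset _ _))) 2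
  have h5 := card_filter_add_card_filter_not (s := U.erase m) fun i => 0 < β i
  rw [filter_congr (q := fun i => β i < 0) fun i hi =>
    ⟨fun h => (not_lt.1 h).lt_of_ne (h1' i hi), fun h => h.not_gt⟩, card_erase_of_mem hm,
    hU] at h5
  simp only [Lk]
  rw [sum_comm' (t' := U.erase m)
    (s' := fun j => ((powersetCard 3 U).filter fun A => m ∈ A).filter fun A => j ∉ A)
    fun A j => by
      simp only [mem_filter, mem_sdiff, mem_erase]
      exact ⟨fun h => ⟨⟨h.1, h.2.2⟩, fun e => h.2.2 (e ▸ h.1.2), h.2.1⟩,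
        fun h => ⟨h.1.1, h.2.2, h.1.2⟩⟩]
  refine (sum_congr rfl fun j hj => ?_).trans (h4.trans ?_)
  · obtain ⟨hjm, hjU⟩ := mem_erase.1 hj
    have hs : ∀ i ∈ U.erase j, β i * (r j - r i) ≠ 0 := fun i hi =>
      mul_ne_zero (h1 i (mem_of_mem_erase hi)) (sub_ne_zero.2 fun h =>
        (mem_erase.1 hi).1 (h2 (mem_of_mem_erase hi) hjU h.symm))
    have hmj : m ∈ U.erase j := mem_erase.2 ⟨hjm.symm, hm⟩
    have hc := circ_card hs (by rw [card_erase_of_mem hjU, hU]) hmj
    set T := (U.erase j).filter fun i => 0 < β m * (r j - r m) * (β i * (r j - r i)) with hT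
    have hT1 : T ⊆ U.erase j := filter_subset _ _
    have hT2 : m ∈ T := mem_filter.2 ⟨hmj, mul_self_pos.2 (hs m hmj)⟩
    have e1 : ∀ A ∈ ((powersetCard 3 U).filter fun A => m ∈ A).filter fun A => j ∉ A,
        ind (¬ Good u A ((U \ A).erase j)) = if A = T then 1 else 0 := fun A hA => by
      simp only [mem_filter, mem_powersetCard] at hA
      have a1 : A ⊆ U.erase j := subset_erase.2 ⟨hA.1.1.1, hA.2⟩
      rw [← erase_sdiff_comm, ind_congr ((h3 j hjU A _ disjoint_sdiff
        (union_sdiff_of_subset a1)).trans (circ_side hs a1 hA.1.2))]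
      unfold ind
      split_ifs <;> rfl
    rw [sum_congr rfl e1, sum_ite_eq']
    have e2 : T ∈ ((powersetCard 3 U).filter fun A => m ∈ A).filter (fun A => j ∉ A) ↔
        (cnt β r (U.erase m) j : ℤ) = 2 := by
      rw [cnt, erase_right_comm, show (2 : ℤ) = (2 : ℕ) from rfl, Nat.cast_inj, ← hc]
      simp only [mem_filter, mem_powersetCard]
      exact ⟨fun h => h.1.1.2, fun h => ⟨⟨⟨hT1.trans (erase_subset _ _), h⟩, hT2⟩,
        fun e => notMem_erase j U (hT1 e)⟩⟩
    rw [← ind_congr e2]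
    unfold ind
    split_ifs <;> rfl
  · unfold ind
    split_ifs <;> first | rfl | omega

end Pool.Agent.P.MP_2b4a47_lc
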