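import Pool.Agent.Lib.ETR.Defs

namespace Pool.Agent.P.MP_2b4a47_lc

/-- `f` is a geometric embedding in `ℝ^d` of the complex with the set of simplices `C`. -/
def IsEmbedding {V : Type} [DecidableEq V] {d : ℕ} (C : Set (Finset V)) (f : V → Fin d → ℝ) :
    Prop :=
  (∀ σ ∈ C, AffineIndependent ℝ fun v : σ => f v) ∧
  ∀ σ ∈ C, ∀ τ ∈ C,
    convexHull ℝ (f '' σ) ∩ convexHull ℝ (f '' τ) = convexHull ℝ (f '' (σ ∩ τ : Finset V))

/-- The complex generated by the members of `L`. -/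
def complexOf {V : Type} (L : List (List V)) : Set (Finset V) :=
  {σ | σ.Nonempty ∧ ∃ l ∈ L, ∀ v ∈ σ, v ∈ l}

open Classical in
/-- The language `EMB(k,d)`: codes of lists of the maximal simplices of a `k`-complex (vertices
are named by bit strings) that has a geometric embedding in `ℝ^d`. -/
noncomputable def EMB (k d : ℕ) : N68a2faeb.DecisionProblem := fun x =>
  decide (∃ L : List (List (List Bool)), x = N487b59b3.bitEncode L ∧
    (∀ l ∈ L, l ≠ [] ∧ l.Nodup ∧ l.length ≤ k + 1) ∧ (∃ l ∈ L, l.length = k + 1) ∧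
    L.Pairwise (fun l l' => ¬ l ⊆ l' ∧ ¬ l' ⊆ l) ∧
    ∃ f : List Bool → Fin d → ℝ, IsEmbedding (complexOf L) f)

end Pool.Agent.P.MP_2b4a47_lc
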