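import Pool.Agent.P.MP_2b4a47_lc.Link
import Pool.Agent.P.MP_2b4a47_lc.Cert
import Pool.Agent.Lib.ETR.Sign

/-! The local complex: what it forces, and how its faces are separated. -/

namespace Pool.Agent.P.MP_2b4a47_lc

open Finset Module Sum Pool.Agent.Lib.ETR

abbrev Sh (r : ℕ) := Fin 12 ⊕ Fin r ⊕ Fin r

variable {r : ℕ}

def mk (A : Finset (Fin 12)) (B C : Finset (Fin r)) : Finset (Sh r) := A.disjSum (B.disjSum C)

@[simp] theorem mem_mk1 {A} {B C : Finset (Fin r)} {i} : inl i ∈ mk A B C ↔ i ∈ A := by simp [mk]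
@[simp] theorem mem_mk2 {A} {B C : Finset (Fin r)} {i} : inr (inl i) ∈ mk A B C ↔ i ∈ B := by
  simp [mk]
@[simp] theorem mem_mk3 {A} {B C : Finset (Fin r)} {i} : inr (inr i) ∈ mk A B C ↔ i ∈ C := by
  simp [mk]
@[simp] theorem card_mk {A} {B C : Finset (Fin r)} : #(mk A B C) = #A + (#B + #C) := by simp [mk]

theorem exists_mk (φ : Finset (Sh r)) : ∃ A B C, φ = mk A B C :=
  ⟨φ.toLeft, φ.toRight.toLeft, φ.toRight.toRight, by simp [mk, toLeft_disjSum_toRight]⟩

theorem forall_sh {p : Sh r → Prop} :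
    (∀ x, p x) ↔ (∀ i, p (inl i)) ∧ (∀ i, p (inr (inl i))) ∧ ∀ i, p (inr (inr i)) := by
  simp only [Sum.forall]

theorem erase_mk1 (A) (B C : Finset (Fin r)) (i) :
    (mk A B C).erase (inl i) = mk (A.erase i) B C := by
  ext x; revert x; simp [forall_sh]

theorem erase_mk3 (A) (B C : Finset (Fin r)) (i) :
    (mk A B C).erase (inr (inr i)) = mk A B (C.erase i) := by
  ext x; revert x; simp [forall_sh]

/-- The swaps `(Q, a, b)`. -/
def sw (s : Bool) : List (Finset (Fin 12) × Fin 12 × Fin 12) :=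
  [({4, 5, 6, 7}, 4, 7), ({4, 5, 6, 8}, 5, 8), ({5, 6, 7, 9}, 7, 9), ({5, 6, 8, 9}, 6, 8),
    ({4, 5, 8, 9}, 8, 4)] ++
  bif s then [({4, 5, 9, 10}, 5, 10), ({5, 6, 9, 10}, 5, 10)]
  else [({4, 5, 9, 11}, 9, 11), ({5, 6, 9, 11}, 9, 11), ({5, 8, 9, 11}, 9, 11)]

def Face (s : Bool) (φ : Finset (Sh r)) : Prop :=
  (φ ⊆ mk {0, 1, 2, 3, 4, 5, 6} univ univ ∧ #φ = r + 3 ∧ φ ≠ mk {4, 5, 6} ∅ univ) ∨
  ∃ q ∈ sw s, ∃ x ∈ mk q.1 ∅ univ, x ≠ inl q.2.1 ∧ x ≠ inl q.2.2 ∧ φ = (mk q.1 ∅ univ).erase x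

theorem ball_of {α : Type} {l : List α} {p : α → Prop} [DecidablePred p]
    (h : (l.all fun x => decide (p x)) = true) : ∀ x ∈ l, p x := by simpa using h

theorem bex_of {α : Type} {l : List α} {p : α → Prop} [DecidablePred p]
    (h : (l.any fun x => decide (p x)) = true) : ∃ x ∈ l, p x := by simpa using h

theorem sw_ok : ∀ s, ∀ q ∈ sw s, #q.1 = 4 ∧ q.2.1 ∈ q.1 ∧ q.2.2 ∈ q.1 ∧ q.2.1 ≠ q.2.2 ∧
    ∀ i ∈ q.1, 4 ≤ i := by
  intro s
  cases s <;> exact ball_of (by decide +kernel)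

theorem Face.card {s : Bool} {φ : Finset (Sh r)} (h : Face s φ) : #φ = r + 3 := by
  rcases h with h | ⟨q, hq, x, hx, -, -, rfl⟩
  · exact h.2.1
  · rw [card_erase_of_mem hx]
    simp [(sw_ok s q hq).1]
    omega

def tip (s : Bool) : Fin 12 := bif s then 10 else 11

theorem local_sound {E : Type} [AddCommGroup E] [Module ℝ E] [FiniteDimensional ℝ E]
    {u : Sh r → E} (hn : finrank ℝ E = 2 * (r + 2) + 1)
    (hu : ∀ s : Finset (Sh r), s.card ≤ finrank ℝ E → Ind u s) {s : Bool}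
    (h : ∀ φ ψ, Face s φ → Face s ψ → Disjoint φ ψ → Good u φ ψ) (F : E →ₗ[ℝ] ℝ)
    (hF : ∀ x ∈ mk {0, 1, 2, 3} univ univ, F (u x) = 0) (h5 : 0 < F (u (inl 5))) :
    0 < sg s * F (u (inl (tip s))) := by
  let S : Finset (Sh r) := mk {0, 1, 2, 3} univ ∅
  let LK : Finset (Fin 12) → ZMod 2 := fun A => Lk u S (mk A ∅ univ)
  have hd : ∀ A : Finset (Fin 12), (∀ i ∈ A, 4 ≤ i) → Disjoint S (mk A ∅ univ) :=
    fun A hA => disjoint_right.2 (by
      simp only [S, forall_sh, mem_mk1, mem_mk2, mem_mk3]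
      exact ⟨fun i hi => by have := hA i hi; simp; omega, by simp, by simp⟩)
  have hS : #S = r + 2 + 2 := by simp [S]; omega
  have h0 : LK {4, 5, 6} = 1 := Lk_vk hu hn (hd _ (by decide)) hS (by simp; omega)
    fun A B a1 a2 a3 a4 a5 a6 a7 => by
      have : S ∪ mk {4, 5, 6} ∅ univ ⊆ mk {0, 1, 2, 3, 4, 5, 6} univ univ := by
        intro x; revert x; simp [S, forall_sh, or_assoc]
      exact h A B (.inl ⟨a1.trans this, a4, a6⟩) (.inl ⟨a2.trans this, a5, a7⟩) a3
  have hsw : ∀ q ∈ sw s, LK (q.1.erase q.2.1) = LK (q.1.erase q.2.2) := fun q hq => by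
    obtain ⟨a1, a2, a3, a4, a5⟩ := sw_ok s q hq
    simp only [LK, ← erase_mk1]
    refine Lk_swap S (by simpa) (by simpa) (by simpa) fun x hx b1 b2 => ?_
    have b3 : Face s _ := .inr ⟨q, hq, x, hx, b1, b2, rfl⟩
    have b4 := (hd _ a5).mono_right (erase_subset x _)
    refine Lk_face hu b4 (by rw [card_union_of_disjoint b4, b3.card]; omega) fun j hj =>
      h _ _ (.inl ⟨(erase_subset _ _).trans ?_, by rw [card_erase_of_mem hj]; omega, fun e => ?_⟩)
        b3 (b4.mono_left (erase_subset _ _))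
    · intro x; revert x; simp [S, forall_sh]
    · have := erase_subset j S (e ▸ (by simp : inl 4 ∈ mk {4, 5, 6} ∅ univ))
      simp [S] at this
  have hne : ∀ j : Fin 12, 4 ≤ j → F (u (inl j)) ≠ 0 := fun j hj e => by
    have a1 : j ∉ ({0, 1, 2, 3} : Finset (Fin 12)) := by simp; omega
    have a2 : j ≠ 5 := fun h => h5.ne' (h ▸ e)
    have a3 : #(mk (insert 5 (insert j {0, 1, 2, 3})) univ univ : Finset (Sh r)) =
        finrank ℝ E + 1 := by
      rw [card_mk, card_insert_of_notMem (by simp [a2.symm]), card_insert_of_notMem a1]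
      simp; omega
    refine absurd (Ind.card_le (v := u) fun z hz => dep_zero hu a3 hz (j := inl 5) (by simp) ?_)
      (by omega)
    have a4 := congrArg F hz
    rw [map_sum, map_zero, sum_eq_single_of_mem (inl 5) (by simp) fun x hx hx' => by
      rw [map_smul, smul_eq_zero]
      right
      by_cases a5 : x = inl j
      · rwa [a5]
      · refine hF x ?_
        revert x
        simp +contextual [forall_sh, a2]] at a4
    simpa [h5.ne'] using a4
  have side : ∀ x y z : Fin 12, 4 ≤ x → 4 ≤ y → 4 ≤ z → LK {x, y, z} = 1 →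
      ¬ (0 < F (u (inl x)) ∧ 0 < F (u (inl y)) ∧ 0 < F (u (inl z))) ∧
      ¬ (¬ 0 < F (u (inl x)) ∧ ¬ 0 < F (u (inl y)) ∧ ¬ 0 < F (u (inl z))) := by
    intro x y z hx hy hz hl
    have a1 := hd {x, y, z} (by simp; omega)
    have a2 : S ∪ mk ∅ ∅ univ = mk {0, 1, 2, 3} univ univ := by
      ext x; revert x; simp [S, forall_sh]
    have a3 : #(S ∪ mk ∅ ∅ univ) ≤ finrank ℝ E := by rw [a2]; simp; omega
    constructor
    · simpa [forall_sh] using not_side hu a1 a3 hl F (a2 ▸ hF)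
    · rintro ⟨b1, b2, b3⟩
      refine not_side hu a1 a3 hl (-F) (by simpa [a2] using hF) ?_
      simpa [forall_sh] using ⟨(not_lt.1 b1).lt_of_ne (hne x hx), (not_lt.1 b2).lt_of_ne (hne y hy),
        (not_lt.1 b3).lt_of_ne (hne z hz)⟩
  have tr : ∀ A B : Finset (Fin 12), LK A = 1 →
      (∃ q ∈ sw s, q.1.erase q.2.1 = B ∧ q.1.erase q.2.2 = A ∨
        q.1.erase q.2.1 = A ∧ q.1.erase q.2.2 = B) → LK B = 1 := by
    rintro A B h1 ⟨q, hq, ⟨rfl, rfl⟩ | ⟨rfl, rfl⟩⟩
    · exact (hsw q hq).trans h1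
    · exact (hsw q hq).symm.trans h1
  have l1 := tr _ {5, 6, 7} h0 (bex_of (by cases s <;> decide +kernel))
  have l2 := tr _ {4, 6, 8} h0 (bex_of (by cases s <;> decide +kernel))
  have l3 := tr _ {5, 6, 9} l1 (bex_of (by cases s <;> decide +kernel))
  have l4 := tr _ {5, 8, 9} l3 (bex_of (by cases s <;> decide +kernel))
  have l5 := tr _ {4, 5, 9} l4 (bex_of (by cases s <;> decide +kernel))
  have s2 := side _ _ _ (by decide) (by decide) (by decide) l2
  cases s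
  · have s6 := side _ _ _ (by decide) (by decide) (by decide) (tr _ {4, 5, 11} l5
      (bex_of (by decide +kernel)))
    have s7 := side _ _ _ (by decide) (by decide) (by decide) (tr _ {5, 6, 11} l3
      (bex_of (by decide +kernel)))
    have s8 := side _ _ _ (by decide) (by decide) (by decide) (tr _ {5, 8, 11} l4
      (bex_of (by decide +kernel)))
    have : ¬ 0 < F (u (inl 11)) := fun a =>
      s2.2 ⟨fun b => s6.1 ⟨b, h5, a⟩, fun b => s7.1 ⟨h5, b, a⟩, fun b => s8.1 ⟨h5, b, a⟩⟩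
    simpa [tip] using (not_lt.1 this).lt_of_ne (hne 11 (by decide))
  · have s0 := side _ _ _ (by decide) (by decide) (by decide) h0
    have s3 := side _ _ _ (by decide) (by decide) (by decide) l3
    have s4 := side _ _ _ (by decide) (by decide) (by decide) l4
    have s5 := side _ _ _ (by decide) (by decide) (by decide) l5
    have s6 := side _ _ _ (by decide) (by decide) (by decide) (tr _ {4, 9, 10} l5
      (bex_of (by decide +kernel)))
    have s7 := side _ _ _ (by decide) (by decide) (by decide) (tr _ {6, 9, 10} l3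
      (bex_of (by decide +kernel)))
    have a9 : ¬ 0 < F (u (inl 9)) := fun a =>
      s2.2 ⟨fun b => s5.1 ⟨b, h5, a⟩, fun b => s3.1 ⟨h5, b, a⟩, fun b => s4.1 ⟨h5, b, a⟩⟩
    have : 0 < F (u (inl 10)) := by_contra fun a => s0.1
      ⟨by_contra fun b => s6.2 ⟨b, a9, a⟩, h5, by_contra fun b => s7.2 ⟨b, a9, a⟩⟩
    simpa [tip] using this

def msk (A : Finset (Fin 12)) : ℕ := Nat.ofBits fun i => decide (i ∈ A)

theorem testBit_msk (A : Finset (Fin 12)) (i : ℕ) :
    (msk A).testBit i = true ↔ ∃ h : i < 12, ⟨i, h⟩ ∈ A := by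
  simp only [msk, Nat.testBit_ofBits]
  split_ifs with h <;> simp [h]

theorem pc_msk (A : Finset (Fin 12)) : pc (msk A) = #A := by
  rw [pc, ← Lib.NP.ncard_fin_eq_countP (fun i : Fin 12 => i ∈ A) _ fun i => by simp [testBit_msk]]
  simp

theorem sw_msk : ∀ s, ∀ q ∈ sw s, msk q.1 ∈ cmask ∧ (∀ x ∈ q.1, x = q.2.1 ∨ x = q.2.2 ∨
    msk (q.1.erase x) ∈ cmask) ∧ q.2.1 ∈ q.1 ∧ 0 ∉ q.1 ∧ tip (!s) ∉ q.1 ∧
    (tip s ∈ q.1 → q.2.1 = bif s then 5 else 9) := by
  intro s
  cases s <;> exact ball_of (by decide +kernel)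

theorem Face.tip {s : Bool} {φ : Finset (Sh r)} (h : Face s φ) : inl (tip !s) ∉ φ ∧
    (inl (tip s) ∈ φ → inl (bif s then 5 else 9) ∈ φ ∧ inl 0 ∉ φ) := by
  rcases h with h | ⟨q, hq, x, hx, b1, b2, rfl⟩
  · exact ⟨fun h' => by cases s <;> simpa [MP_2b4a47_lc.tip] using h.1 h',
      fun h' => by cases s <;> simpa [MP_2b4a47_lc.tip] using h.1 h'⟩
  · obtain ⟨-, -, a1, a2, a3, a4⟩ := sw_msk s q hq
    refine ⟨by simp [a3], fun h => ⟨?_, by simp [a2]⟩⟩
    rw [← a4 (by simpa using mem_of_mem_erase h)]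
    exact mem_erase.2 ⟨b1.symm, by simpa⟩

theorem Face.shape {s : Bool} {A : Finset (Fin 12)} {B C : Finset (Fin r)}
    (h : Face s (mk A B C)) : msk A ∈ List.range 128 ++ cmask ∧ (128 ≤ msk A → #B = 0) ∧
      ¬ (msk A = 112 ∧ #C = r) ∧ pc (msk A) + #B + #C = r + 3 := by
  have hc := h.card
  rw [card_mk, ← pc_msk, ← add_assoc] at hc
  rcases h with ⟨h1, -, h2⟩ | ⟨q, hq, x, hx, b1, b2, e⟩
  · have : msk A < 2 ^ 7 := Nat.lt_pow_two_of_testBit _ fun i hi => by
      rw [← Bool.not_eq_true, testBit_msk]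
      rintro ⟨h, h'⟩
      have := h1 (mem_mk1.2 h')
      simp [Fin.ext_iff] at this
      omega
    refine ⟨by simp; omega, by omega, fun ⟨h3, h4⟩ => h2 ?_, hc⟩
    have h5 : pc 112 = 3 := by decide
    rw [h3] at hc
    rw [card_eq_zero.1 (by omega : #B = 0), eq_univ_of_card C (by simpa)]
    congr 1
    ext i
    have := testBit_msk A i
    rw [h3] at this
    simp only [i.2, exists_const, Fin.eta] at this
    rw [← this]
    clear this
    revert i
    decide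
  · obtain ⟨a1, a2, -⟩ := sw_msk s q hq
    have a3 : ∀ m ∈ cmask, 128 ≤ m := by decide
    have a4 : msk A ∈ cmask ∧ B = ∅ := by
      have inj : ∀ {A' B' C'}, mk A B C = mk A' B' C' → A = A' ∧ B = B' := fun h =>
        ⟨Finset.ext fun i => by rw [← mem_mk1 (B := B) (C := C), h, mem_mk1],
          Finset.ext fun i => by rw [← mem_mk2 (A := A) (C := C), h, mem_mk2]⟩
      rcases x with x | x | x
      · obtain ⟨rfl, rfl⟩ := inj (e.trans (erase_mk1 _ _ _ _))
        exact ⟨((a2 x (by simpa using hx)).resolve_left (by simpa using b1)).resolve_left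
          (by simpa using b2), rfl⟩
      · simp at hx
      · obtain ⟨rfl, rfl⟩ := inj (e.trans (erase_mk3 _ _ _ _))
        exact ⟨a1, rfl⟩
    have := a3 _ a4.1
    exact ⟨by simp [a4.1], fun _ => by simp [a4.2], by omega, hc⟩

theorem local_cert {s s' : Bool} {φ ψ : Finset (Sh r)} (h : Face s φ) (h' : Face s' ψ)
    (hd : Disjoint φ ψ) : ∃ f : ℕ, (∀ i, inl i ∈ φ → 0 < val f i) ∧ (∀ i, inl i ∈ ψ → val f i < 0) ∧
      ((∀ i, inr (inl i) ∈ φ) → 0 ≤ cf f 5) ∧ ((∀ i, inr (inl i) ∈ ψ) → cf f 5 ≤ 0) ∧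
      ((∀ i, inr (inr i) ∈ φ) → 0 ≤ cf f 6) ∧ ((∀ i, inr (inr i) ∈ ψ) → cf f 6 ≤ 0) := by
  obtain ⟨A, B, C, rfl⟩ := exists_mk φ
  obtain ⟨A', B', C', rfl⟩ := exists_mk ψ
  obtain ⟨a1, a2, a3, a4⟩ := h.shape
  obtain ⟨b1, b2, b3, b4⟩ := h'.shape
  have hd := disjoint_left.1 hd
  simp only [forall_sh, mem_mk1, mem_mk2, mem_mk3] at hd ⊢
  have c1 : ∀ B B' : Finset (Fin r), (∀ i ∈ B, i ∉ B') → #B + #B' ≤ r := fun B B' h => by
    simpa [card_union_of_disjoint (disjoint_left.2 h)] using card_le_univ (B ∪ B')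
  have c2 := c1 _ _ hd.2.1
  have c3 := c1 _ _ hd.2.2
  have c4 : msk A &&& msk A' = 0 := Nat.zero_of_testBit_eq_false fun i => by
    rw [← Bool.not_eq_true, Nat.testBit_and, Bool.and_eq_true, testBit_msk, testBit_msk]
    exact fun ⟨⟨_, h1⟩, _, h2⟩ => hd.1 _ h1 h2
  have c5 := List.all_eq_true.1 (List.all_eq_true.1 chk_all _ a1) _ b1
  simp only [c4, List.all_eq_true, Bool.or_eq_true, Bool.not_eq_true', beq_self_eq_true,
    Bool.true_and, decide_eq_false_iff_not] at c5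
  have hb : ∀ b : Bool, b ∈ [false, true] := by decide
  have c6 := (c5.resolve_left (by omega) (decide (#B = r)) (hb _)
    (decide (#B' = r)) (hb _) (decide (#C = r)) (hb _) (decide (#C' = r)) (hb _)).resolve_left (by
      simp only [half, Bool.not_eq_false, Bool.not_eq_false', Bool.and_eq_true, Bool.or_eq_true, Bool.not_eq_true',
        decide_eq_true_eq, beq_iff_eq, Bool.or_eq_false_iff, Bool.and_eq_false_iff,
        decide_eq_false_iff_not, beq_eq_false_iff_ne]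
      omega)
  simp only [found, List.any_eq_true, Bool.and_eq_true, beq_iff_eq] at c6
  obtain ⟨c, hc, ⟨⟨d1, d2⟩, d3⟩, d4⟩ := c6
  obtain ⟨e1, e2, e3, e4, e5, e6⟩ := certs_ok c hc
  have f1 : ∀ (A : Finset (Fin 12)) (m : ℕ), msk A &&& m = msk A → ∀ i ∈ A, m.testBit i := by
    intro A m h i hi
    have := (testBit_msk A i).2 ⟨i.2, hi⟩
    rw [← h, Nat.testBit_and, Bool.and_eq_true] at this
    exact this.2
  have f2 : ∀ (B C : Finset (Fin r)) (m : ℕ),
      (bit (decide (#B = r)) 4096 + bit (decide (#C = r)) 8192) &&& m = 0 →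
      ((∀ i, i ∈ B) → m.testBit 12 = false) ∧ ((∀ i, i ∈ C) → m.testBit 13 = false) := by
    intro B C m h
    have h1 := congrArg (·.testBit 12) h
    have h2 := congrArg (·.testBit 13) h
    simp only [Nat.testBit_and, Nat.zero_testBit] at h1 h2
    refine ⟨fun h => ?_, fun h => ?_⟩
    · rw [eq_univ_of_forall h] at h1
      revert h1
      cases decide (#C = r) <;> simp [bit, Nat.testBit_eq_decide_div_mod_eq]
    · rw [eq_univ_of_forall h] at h2
      revert h2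
      cases decide (#B = r) <;> simp [bit, Nat.testBit_eq_decide_div_mod_eq]
  exact ⟨c.1, fun i hi => e1 i i.2 (f1 _ _ d1 i hi), fun i hi => e2 i i.2 (f1 _ _ d2 i hi),
    fun h => e3 ((f2 _ _ _ d3).1 h), fun h => e4 ((f2 _ _ _ d4).1 h),
    fun h => e5 ((f2 _ _ _ d3).2 h), fun h => e6 ((f2 _ _ _ d4).2 h)⟩

end Pool.Agent.P.MP_2b4a47_lc
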