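import Pool.Agent.P.MP_2b4a47_lc.PlDefs

/-! Contractible sets of triples have positive realisations. -/

namespace Pool.Agent.P.MP_2b4a47_lc.Pl

open Finset Filter Topology

variable {V : Type} [DecidableEq V] {f : V → Pt} {U : Finset V} {A B C : V} {T : Finset (T3 V)}

theorem real_has {x y z v : V} : has (x, y, z) v = true ↔ x = v ∨ y = v ∨ z = v := by
  simp [has, or_assoc]

theorem real_mem {p a : V} {t' : T3 V} : t' ∈ contract T p a ↔ ∃ x y z, (x, y, z) ∈ T ∧
    ¬ ((x = p ∨ y = p ∨ z = p) ∧ (x = a ∨ y = a ∨ z = a)) ∧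
      t' = (ren p a x, ren p a y, ren p a z) := by
  unfold contract
  simp only [mem_image, mem_filter, Bool.not_eq_true', Bool.and_eq_false_imp, Prod.exists]
  constructor
  · rintro ⟨x, y, z, ⟨h1, h2⟩, h3⟩
    refine ⟨x, y, z, h1, fun h => ?_, h3.symm⟩
    have h4 := h2 (real_has.2 h.1)
    rw [real_has.2 h.2] at h4
    exact absurd h4 (by decide)
  · rintro ⟨x, y, z, h1, h2, h3⟩
    refine ⟨x, y, z, ⟨h1, fun h => ?_⟩, h3.symm⟩
    exact Bool.eq_false_iff.2 fun h' => h2 ⟨real_has.1 h, real_has.1 h'⟩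

omit [DecidableEq V] in
theorem real_dir {p a : V} (hc : Cond T p a) (hr : ∀ a b c, (a, b, c) ∈ T → (b, c, a) ∈ T)
    (hn : ∀ a b c, (a, b, c) ∈ T → a ≠ b) (g : V → Pt) {W : Finset V} (hg : GP g W) (ha : a ∈ W)
    (hW : ∀ x y z, (x, y, z) ∈ T → x ∈ W) :
    ∃ d : Pt, (∀ u, (a, u, p) ∈ T → 0 < ((g u).1 - (g a).1) * d.2 - ((g u).2 - (g a).2) * d.1) ∧
      ∀ w, (a, p, w) ∈ T → 0 < d.1 * ((g w).2 - (g a).2) - d.2 * ((g w).1 - (g a).1) := by
  have hsq : ∀ u ∈ W, a ≠ u → 0 < ((g u).1 - (g a).1) ^ 2 + ((g u).2 - (g a).2) ^ 2 := by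
    intro u hu hau
    by_contra h
    have h1 : (g u).1 - (g a).1 = 0 := by nlinarith [sq_nonneg ((g u).1 - (g a).1), sq_nonneg ((g u).2 - (g a).2)]
    have h2 : (g u).2 - (g a).2 = 0 := by nlinarith [sq_nonneg ((g u).1 - (g a).1), sq_nonneg ((g u).2 - (g a).2)]
    exact hau (hg.1 a ha u hu (Prod.ext (by linarith) (by linarith)))
  by_cases hu : ∃ u, (a, u, p) ∈ T
  · obtain ⟨u, hu⟩ := hu
    have huW : u ∈ W := hW _ _ _ (hr _ _ _ hu)
    have hau : a ≠ u := hn _ _ _ hu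
    by_cases hw : ∃ w, (a, p, w) ∈ T
    · obtain ⟨w, hw⟩ := hw
      have hwW : w ∈ W := hW _ _ _ (hr _ _ _ (hr _ _ _ hw))
      have haw : a ≠ w := (hn _ _ _ (hr _ _ _ (hr _ _ _ hw))).symm
      have huw : u ≠ w := by
        rintro rfl
        exact hc.2.2.2 u hu hw
      have hD := sq_pos_of_ne_zero (hg.2 a ha u huW w hwW hau haw huw)
      refine ⟨det3 (g a) (g u) (g w) • ((g u - g a) + (g w - g a)), fun u' hu' => ?_,
        fun w' hw' => ?_⟩
      · rw [← hc.2.1 u u' hu hu']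
        refine hD.trans_eq ?_
        simp only [det3, Prod.fst_add, Prod.smul_fst, Prod.snd_add, Prod.smul_snd, smul_eq_mul,
          Prod.fst_sub, Prod.snd_sub]
        ring
      · rw [← hc.2.2.1 w w' hw hw']
        refine hD.trans_eq ?_
        simp only [det3, Prod.fst_add, Prod.smul_fst, Prod.snd_add, Prod.smul_snd, smul_eq_mul,
          Prod.fst_sub, Prod.snd_sub]
        ring
    · refine ⟨(-((g u).2 - (g a).2), (g u).1 - (g a).1), fun u' hu' => ?_,
        fun w' hw' => absurd ⟨w', hw'⟩ hw⟩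
      rw [← hc.2.1 u u' hu hu']
      refine (hsq u huW hau).trans_eq ?_
      ring
  · by_cases hw : ∃ w, (a, p, w) ∈ T
    · obtain ⟨w, hw⟩ := hw
      have hwW : w ∈ W := hW _ _ _ (hr _ _ _ (hr _ _ _ hw))
      have haw : a ≠ w := (hn _ _ _ (hr _ _ _ (hr _ _ _ hw))).symm
      refine ⟨((g w).2 - (g a).2, -((g w).1 - (g a).1)), fun u' hu' => absurd ⟨u', hu'⟩ hu,
        fun w' hw' => ?_⟩
      rw [← hc.2.2.1 w w' hw hw']
      refine (hsq w hwW haw).trans_eq ?_
      ring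
    · exact ⟨0, fun u' hu' => absurd ⟨u', hu'⟩ hu, fun w' hw' => absurd ⟨w', hw'⟩ hw⟩

theorem real_step {p a : V} (hc : Cond T p a) (hr : ∀ a b c, (a, b, c) ∈ T → (b, c, a) ∈ T)
    (hn : ∀ a b c, (a, b, c) ∈ T → a ≠ b) (g : V → Pt) {W : Finset V} (hg : GP g W) (ha : a ∈ W)
    (hW : ∀ x y z, (x, y, z) ∈ T → x ∈ W)
    (hpos : ∀ x y z, (x, y, z) ∈ contract T p a → 0 < det3 (g x) (g y) (g z)) :
    ∃ f : V → Pt, ∀ x y z, (x, y, z) ∈ T → 0 < det3 (f x) (f y) (f z) := by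
  obtain ⟨d, hd1, hd2⟩ := real_dir hc hr hn g hg ha hW
  obtain ⟨F, hF⟩ : ∃ F : ℝ → V → Pt,
      F = fun ε x => g (ren p a x) + ε • (if x = p then d else 0) := ⟨_, rfl⟩
  have e1 : ∀ ε x, x ≠ p → F ε x = g x := by
    intro ε x hx
    simp [hF, ren, hx]
  have e2 : ∀ ε, F ε p = g a + ε • d := by
    intro ε
    simp [hF, ren]
  have k1 : ∀ y z, (a, y, z) ∈ T → (y = p ∨ z = p) →
      ∀ᶠ ε in 𝓝[>] (0 : ℝ), 0 < det3 (F ε a) (F ε y) (F ε z) := by
    intro y z h hp
    have hyz : y ≠ z := hn _ _ _ (hr _ _ _ h)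
    filter_upwards [self_mem_nhdsWithin] with ε hε
    have hε' : 0 < ε := hε
    rcases hp with rfl | rfl
    · rw [e1 ε a hc.1.symm, e2, e1 ε z hyz.symm]
      refine (mul_pos hε' (hd2 z h)).trans_eq ?_
      simp only [det3, Prod.fst_add, Prod.smul_fst, Prod.snd_add, Prod.smul_snd, smul_eq_mul]
      ring
    · rw [e1 ε a hc.1.symm, e2, e1 ε y hyz]
      refine (mul_pos hε' (hd1 y h)).trans_eq ?_
      simp only [det3, Prod.fst_add, Prod.smul_fst, Prod.snd_add, Prod.smul_snd, smul_eq_mul]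
      ring
  have k2 : ∀ t ∈ T, ∀ᶠ ε in 𝓝[>] (0 : ℝ), 0 < det3 (F ε t.1) (F ε t.2.1) (F ε t.2.2) := by
    rintro ⟨x, y, z⟩ h
    by_cases hb : (x = p ∨ y = p ∨ z = p) ∧ (x = a ∨ y = a ∨ z = a)
    · obtain ⟨hp, hx | hy | hz⟩ := hb
      · subst hx
        exact k1 y z h (hp.resolve_left hc.1.symm)
      · subst hy
        have hp' : z = p ∨ x = p := by
          rcases hp with h1 | h1 | h1
          · exact .inr h1
          · exact absurd h1 hc.1.symm
          · exact .inl h1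
        filter_upwards [k1 z x (hr _ _ _ h) hp'] with ε hε
        rwa [det3_rot] at hε
      · subst hz
        have hp' : x = p ∨ y = p := by
          rcases hp with h1 | h1 | h1
          · exact .inl h1
          · exact .inr h1
          · exact absurd h1 hc.1.symm
        filter_upwards [k1 x y (hr _ _ _ (hr _ _ _ h)) hp'] with ε hε
        rwa [← det3_rot] at hε
    · rw [hF]
      exact ev_det3 (hpos _ _ _ (real_mem.2 ⟨x, y, z, h, hb, rfl⟩)) _ _ _
  obtain ⟨ε, hε⟩ := ((eventually_all_finset T).2 k2).exists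
  exact ⟨F ε, fun x y z h => hε _ h⟩

omit [DecidableEq V] in
theorem real_gp [DecidableEq V] {g : V → Pt}
    (hg : ∀ x y z, (x, y, z) ∈ T → 0 < det3 (g x) (g y) (g z)) (U : Finset V) :
    ∃ f : V → Pt, GP f U ∧ ∀ a b c, (a, b, c) ∈ T → 0 < det3 (f a) (f b) (f c) := by
  obtain ⟨w, hw⟩ := ev_gp g U
  have k : ∀ t ∈ T, ∀ᶠ ε in 𝓝[>] (0 : ℝ), 0 < det3 (g t.1 + ε • w t.1) (g t.2.1 + ε • w t.2.1)
      (g t.2.2 + ε • w t.2.2) := fun t ht => ev_det3 (hg _ _ _ ht) _ _ _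
  obtain ⟨ε, h1, h2⟩ := (hw.and ((eventually_all_finset T).2 k)).exists
  exact ⟨_, h1, fun x y z h => h2 _ h⟩

/-- Induction on `l` (for all `T`, `U`). Given `f'` for `contract T p a`, in general position on
`U` and all vertices of `T` and `p`, `a`, move `p` to `f' a + ε • d`, where
`d = ± ((f' u - f' a) + (f' w - f' a))` for the (at most one) `u` with `(a, u, p) ∈ T` and `w` with
`(a, p, w) ∈ T` (use `p` itself as a dummy if one is missing); then perturb again (`ev_gp`,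
`ev_det3`). -/
theorem Steps.real {l : List (V × V)} (h : Steps T l) (hr : ∀ a b c, (a, b, c) ∈ T → (b, c, a) ∈ T)
    (hn : ∀ a b c, (a, b, c) ∈ T → a ≠ b) (U : Finset V) :
    ∃ f : V → Pt, GP f U ∧ ∀ a b c, (a, b, c) ∈ T → 0 < det3 (f a) (f b) (f c) := by
  induction l generalizing T U with
  | nil =>
    have h0 : T = ∅ := h
    refine real_gp (g := fun _ => 0) (fun x y z hx => ?_) U
    rw [h0] at hx
    exact absurd hx (notMem_empty _)
  | cons s l ih =>
    obtain ⟨p, a⟩ := s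
    have hc : Cond T p a := h.1
    have hr' : ∀ x y z, (x, y, z) ∈ contract T p a → (y, z, x) ∈ contract T p a := by
      intro x y z hx
      obtain ⟨x', y', z', h1, h2, h3⟩ := real_mem.1 hx
      simp only [Prod.mk.injEq] at h3
      refine real_mem.2 ⟨y', z', x', hr _ _ _ h1, fun h4 => h2 ?_, by rw [h3.1, h3.2.1, h3.2.2]⟩
      tauto
    have hn' : ∀ x y z, (x, y, z) ∈ contract T p a → x ≠ y := by
      intro x y z hx
      obtain ⟨x', y', z', h1, h2, h3⟩ := real_mem.1 hx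
      simp only [Prod.mk.injEq] at h3
      have h4 := hn _ _ _ h1
      rw [h3.1, h3.2.1]
      unfold ren
      split_ifs with h5 h6 h6
      · exact absurd (h5.trans h6.symm) h4
      · exact fun h7 => h2 ⟨.inl h5, .inr (.inl h7.symm)⟩
      · exact fun h7 => h2 ⟨.inr (.inl h6), .inl h7⟩
      · exact h4
    obtain ⟨g, hg, hpos⟩ := ih h.2 hr' hn' (insert a (T.image fun t => t.1))
    obtain ⟨f, hf⟩ := real_step hc hr hn g hg (mem_insert_self _ _)
      (fun x y z hx => mem_insert_of_mem (mem_image_of_mem (fun t : T3 V => t.1) hx)) hpos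
    exact real_gp hf U

end Pool.Agent.P.MP_2b4a47_lc.Pl
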