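import Pool.Agent.P.MP_2b4a47_lc.PlCover

/-! Local consequences of the covering property. -/

namespace Pool.Agent.P.MP_2b4a47_lc.Pl

open Finset Filter Topology

variable {V : Type} [DecidableEq V] {f : V → Pt} {U : Finset V} {A B C : V} {T : Finset (T3 V)}

/-- `z + ε (z' - z)` is inside for small `ε`. -/
def Near (x y w z z' : Pt) : Prop :=
  (0 < det3 x y z ∨ det3 x y z = 0 ∧ 0 < det3 x y z') ∧
  (0 < det3 y w z ∨ det3 y w z = 0 ∧ 0 < det3 y w z') ∧
  (0 < det3 w x z ∨ det3 w x z = 0 ∧ 0 < det3 w x z')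

theorem local_det3_seg (x y z z' : Pt) (ε : ℝ) :
    det3 x y (z + ε • (z' - z)) = (1 - ε) * det3 x y z + ε * det3 x y z' := by
  simp only [det3, Prod.fst_add, Prod.snd_add, Prod.smul_fst, Prod.smul_snd, Prod.fst_sub,
    Prod.snd_sub, smul_eq_mul]
  ring

theorem local_ev {x y z z' : Pt} (h : 0 < det3 x y z ∨ det3 x y z = 0 ∧ 0 < det3 x y z') :
    ∀ᶠ ε in 𝓝[>] (0 : ℝ), 0 < det3 x y (z + ε • (z' - z)) := by
  rcases h with h | h
  · simpa using ev_det3 h 0 0 (z' - z)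
  · filter_upwards [self_mem_nhdsWithin] with ε hε
    rw [local_det3_seg, h.1, mul_zero, zero_add]
    exact mul_pos hε h.2

theorem local_ev_in {x y w z z' : Pt} (h : Near x y w z z') :
    ∀ᶠ ε in 𝓝[>] (0 : ℝ), In x y w (z + ε • (z' - z)) :=
  (local_ev h.1).and ((local_ev h.2.1).and (local_ev h.2.2))

theorem local_pos {α β R S : ℝ} (h : α * R + β * S = 0) (hs : 0 < α + β) (hRS : R * S < 0) :
    0 < α ∧ 0 < β := by
  have h1 : α * (R - S) ^ 2 = (α + β) * (S ^ 2 - R * S) := by linear_combination (R - S) * h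
  have h2 : β * (R - S) ^ 2 = (α + β) * (R ^ 2 - R * S) := by linear_combination (S - R) * h
  have h3 : 0 < (α + β) * (S ^ 2 - R * S) := mul_pos hs (by nlinarith [sq_nonneg S])
  have h4 : 0 < (α + β) * (R ^ 2 - R * S) := mul_pos hs (by nlinarith [sq_nonneg R])
  rw [← h1] at h3
  rw [← h2] at h4
  exact ⟨(pos_iff_pos_of_mul_pos h3).2 (by
    by_contra h5
    rw [le_antisymm (not_lt.1 h5) (sq_nonneg _), mul_zero] at h3
    exact lt_irrefl _ h3), (pos_iff_pos_of_mul_pos h4).2 (by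
    by_contra h5
    rw [le_antisymm (not_lt.1 h5) (sq_nonneg _), mul_zero] at h4
    exact lt_irrefl _ h4)⟩

theorem local_near_cross {a b x c d z z' : Pt} (h : 0 < det3 a b x) (h1 : det3 a b z = 0)
    (h2 : det3 c d z = 0) (hc : det3 c d a * det3 c d b < 0) (h3 : 0 < det3 a b z') :
    Near a b x z z' := by
  have e1 := det3_bary c d a b x z
  have e2 := det3_sum a b x z
  rw [h1, h2] at e1
  rw [h1] at e2
  have := local_pos (α := det3 b x z) (β := det3 x a z) (by linarith) (by linarith) hc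
  exact ⟨.inr ⟨h1, h3⟩, .inl this.1, .inl this.2⟩

theorem local_side {a b c d : Pt} (h : det3 a b c * det3 a b d < 0) :
    ∃ e : Pt, 0 < det3 a b e ∧ det3 c d e = 0 := by
  rcases lt_or_ge 0 (det3 a b c) with h1 | h1
  · exact ⟨c, h1, det3_self2 _ _⟩
  · refine ⟨d, ?_, det3_self3 _ _⟩
    by_contra h2
    exact absurd h (not_lt.2 (mul_nonneg_of_nonpos_of_nonpos h1 (not_lt.1 h2)))

theorem local_cross {a b x c d y : Pt} (h : 0 < det3 a b x) (h' : 0 < det3 c d y)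
    (hc : Cross a b c d) : ∃ z z', Near a b x z z' ∧ Near c d y z z' := by
  obtain ⟨e, e1, e2⟩ := local_side hc.1
  obtain ⟨e', e3, e4⟩ := local_side hc.2
  have hne : det3 c d a - det3 c d b ≠ 0 := by
    intro h0
    have h1 := hc.2
    rw [sub_eq_zero.1 h0] at h1
    exact absurd h1 (not_lt.2 (mul_self_nonneg _))
  obtain ⟨z, z1, z2⟩ : ∃ z : Pt, det3 a b z = 0 ∧ det3 c d z = 0 := by
    refine ⟨a + (det3 c d a / (det3 c d a - det3 c d b)) • (b - a), ?_, ?_⟩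
    · rw [local_det3_seg]; simp
    · rw [local_det3_seg]; field_simp; ring
  have aff : ∀ u v : Pt, det3 u v (e + e' - z) = det3 u v e + det3 u v e' - det3 u v z := by
    intro u v
    simp only [det3, Prod.fst_add, Prod.snd_add, Prod.fst_sub, Prod.snd_sub]
    ring
  refine ⟨z, e + e' - z, local_near_cross h z1 z2 hc.2 ?_, local_near_cross h' z2 z1 hc.1 ?_⟩
  · rw [aff]; linarith
  · rw [aff]; linarith

theorem local_mid (u v x y : Pt) :
    det3 u v (x + (1 / 2 : ℝ) • (y - x)) = (det3 u v x + det3 u v y) / 2 := by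
  rw [local_det3_seg]; ring

/-- The oriented indicator of an edge. -/
def localInd (a b x y : V) : ℤ :=
  (if (x, y) = (a, b) then 1 else 0) - (if (x, y) = (b, a) then 1 else 0)

theorem localInd_anti (a b x y : V) : localInd a b y x = -localInd a b x y := by
  simp only [localInd, Prod.mk.injEq, neg_sub, and_comm]

theorem localInd_le {a b x y : V} (h : (x, y) ≠ (a, b)) : localInd a b x y ≤ 0 := by
  unfold localInd
  rw [if_neg h]
  split_ifs <;> simp

theorem localInd_ge {a b x y : V} (h : (x, y) ≠ (b, a)) : 0 ≤ localInd a b x y := by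
  unfold localInd
  rw [if_neg h]
  split_ifs <;> simp

theorem local_edge (h : Chain f A B C T) {a b : V}
    (hp : 0 < localInd a b A B + localInd a b B C + localInd a b C A) : ∃ z, (a, b, z) ∈ T := by
  by_contra hn
  rw [← h.bd _ (localInd_anti a b)] at hp
  refine absurd hp (not_lt.2 (sum_nonpos fun t ht => localInd_le fun e => hn ⟨t.2.2, ?_⟩))
  obtain ⟨x, y, w⟩ := t
  obtain ⟨rfl, rfl⟩ := Prod.mk.inj e
  exact ht

theorem Chain.overlap' (h : Chain f A B C T) {a b c a' b' c' : V} (ht : (a, b, c) ∈ T)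
    (ht' : (a', b', c') ∈ T) {z z' : Pt} (hq : Near (f a) (f b) (f c) z z')
    (hq' : Near (f a') (f b') (f c') z z') : (a', b', c') ∈ tri a b c := by
  obtain ⟨ε, h1, h2⟩ := ((local_ev_in hq).and (local_ev_in hq')).exists
  exact h.overlap ht ht' h1 h2

/-- The vertices of a triple are distinct. -/
theorem Chain.ne (h : Chain f A B C T) {a b c : V} (ht : (a, b, c) ∈ T) :
    a ≠ b ∧ a ≠ c ∧ b ≠ c := by
  have h1 := h.pos _ _ _ ht
  refine ⟨?_, ?_, ?_⟩ <;> rintro rfl <;> simp at h1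

/-- `z` the crossing point, `z' = c' + a' - z` with `c'` the one of `c d` left of `a b` and `a'`
the one of `a b` left of `c d`. -/
theorem Chain.no_cross (h : Chain f A B C T) {a b x c d y : V} (ht : (a, b, x) ∈ T)
    (ht' : (c, d, y) ∈ T) : ¬ Cross (f a) (f b) (f c) (f d) := by
  intro hc
  obtain ⟨z, z', h1, h2⟩ := local_cross (h.pos _ _ _ ht) (h.pos _ _ _ ht') hc
  have h3 := h.overlap' ht ht' h1 h2
  have h4 := hc.1
  simp only [mem_tri, Prod.mk.injEq] at h3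
  rcases h3 with ⟨rfl, -, -⟩ | ⟨rfl, -, -⟩ | ⟨-, rfl, -⟩ <;> simp at h4

/-- `z = f p`, `z'` the midpoint of `x y`. -/
theorem Chain.no_inside (h : Chain f A B C T) {a b c p x y : V} (ht : (a, b, c) ∈ T)
    (ht' : (p, x, y) ∈ T) : ¬ In (f a) (f b) (f c) (f p) := by
  intro hi
  have h0 := h.pos _ _ _ ht'
  have h1 : Near (f p) (f x) (f y) (f p) (f x + (1 / 2 : ℝ) • (f y - f x)) := by
    refine ⟨.inr ⟨det3_self2 _ _, ?_⟩, .inl ?_, .inr ⟨det3_self3 _ _, ?_⟩⟩
    · rw [local_mid, det3_self3]; linarith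
    · rw [det3_rot]; exact h0
    · rw [local_mid, det3_self2, ← det3_rot]; linarith
  have h3 := h.overlap' ht ht' ⟨.inl hi.1, .inl hi.2.1, .inl hi.2.2⟩ h1
  obtain ⟨i1, i2, i3⟩ := hi
  simp only [mem_tri, Prod.mk.injEq] at h3
  rcases h3 with ⟨rfl, -, -⟩ | ⟨rfl, -, -⟩ | ⟨rfl, -, -⟩
  · simp at i1
  · simp at i1
  · simp at i2

/-- `z` the midpoint of `a b`, `z' = f c`. -/
theorem Chain.uniq (h : Chain f A B C T) {a b c c' : V} (ht : (a, b, c) ∈ T)
    (ht' : (a, b, c') ∈ T) : c = c' := by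
  have h0 := h.pos _ _ _ ht
  have key : ∀ w : Pt, 0 < det3 (f a) (f b) w →
      Near (f a) (f b) w (f a + (1 / 2 : ℝ) • (f b - f a)) (f c) := by
    intro w hw
    refine ⟨.inr ⟨?_, h0⟩, .inl ?_, .inl ?_⟩
    · rw [local_mid]; simp
    · rw [local_mid, det3_self2, det3_rot]; linarith
    · rw [local_mid, det3_self3, ← det3_rot]; linarith
  have h3 := h.overlap' ht ht' (key _ h0) (key _ (h.pos _ _ _ ht'))
  have h4 := h.ne ht
  simp only [mem_tri, Prod.mk.injEq] at h3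
  rcases h3 with ⟨-, -, e⟩ | ⟨e, -, -⟩ | ⟨e, -, -⟩
  · exact e.symm
  · exact absurd e h4.1
  · exact absurd e h4.2.1

/-- No edge at `p` enters another triangle at `p`. Two steps: first a point `z'` near `f c` with
`z'` in the cone of `a b` at `p` and in the cone of `c d` at `p`, then `z = f p`. -/
theorem Chain.no_cone (h : Chain f A B C T) {p a b c d : V} (ht : (p, a, b) ∈ T)
    (ht' : (p, c, d) ∈ T) : ¬ (0 < det3 (f p) (f a) (f c) ∧ 0 < det3 (f p) (f c) (f b)) := by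
  rintro ⟨h1, h2⟩
  have h0 := h.pos _ _ _ ht
  have h0' := h.pos _ _ _ ht'
  have e1 := local_ev (z' := f d) (.inl h1)
  have e2 := local_ev (x := f b) (y := f p) (z := f c) (z' := f d) (.inl (by rwa [← det3_rot]))
  have e3 := local_ev (x := f p) (y := f c) (z := f c) (z' := f d) (.inr ⟨det3_self3 _ _, h0'⟩)
  have e4 := local_ev (x := f d) (y := f p) (z := f c) (z' := f d) (.inl (by rwa [← det3_rot]))
  obtain ⟨ε, ⟨g1, g2⟩, g3, g4⟩ := ((e1.and e2).and (e3.and e4)).exists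
  have h3 := h.overlap' ht ht' (z := f p) (z' := f c + ε • (f d - f c))
    ⟨.inr ⟨det3_self2 _ _, g1⟩, .inl (by rwa [det3_rot]), .inr ⟨det3_self3 _ _, g2⟩⟩
    ⟨.inr ⟨det3_self2 _ _, g3⟩, .inl (by rwa [det3_rot]), .inr ⟨det3_self3 _ _, g4⟩⟩
  have h4 := h.ne ht
  simp only [mem_tri, Prod.mk.injEq] at h3
  rcases h3 with ⟨-, rfl, -⟩ | ⟨e, -, -⟩ | ⟨e, -, -⟩
  · simp at h1
  · exact absurd e h4.1
  · exact absurd e h4.2.1

/-- `bd` with `φ x y = [(x, y) = (a, b)] - [(x, y) = (b, a)]`. -/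
theorem Chain.twin (h : Chain f A B C T) {a b c : V} (ht : (a, b, c) ∈ T)
    (h1 : (a, b) ≠ (A, B)) (h2 : (a, b) ≠ (B, C)) (h3 : (a, b) ≠ (C, A)) :
    ∃ d, (b, a, d) ∈ T := by
  by_contra hn
  have h4 := h.bd _ (localInd_anti b a)
  have h5 : ∑ t ∈ T, localInd b a t.1 t.2.1 < ∑ _t ∈ T, (0 : ℤ) := by
    refine sum_lt_sum (fun t ht' => localInd_le fun e => hn ⟨t.2.2, ?_⟩) ⟨(a, b, c), ht, ?_⟩
    · obtain ⟨x, y, w⟩ := t
      obtain ⟨rfl, rfl⟩ := Prod.mk.inj e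
      exact ht'
    · simp [localInd, (h.ne ht).1]
  rw [h4, sum_const_zero] at h5
  have := localInd_ge (a := b) (b := a) h1.symm
  have := localInd_ge (a := b) (b := a) h2.symm
  have := localInd_ge (a := b) (b := a) h3.symm
  omega

theorem Chain.outer_edge (h : Chain f A B C T) (h1 : A ≠ B) (h2 : A ≠ C) (h3 : B ≠ C) :
    (∃ z, (A, B, z) ∈ T) ∧ (∃ z, (B, C, z) ∈ T) ∧ ∃ z, (C, A, z) ∈ T := by
  refine ⟨local_edge h ?_, local_edge h ?_, local_edge h ?_⟩ <;>
    simp [localInd, h1, h2, h3, h1.symm, h2.symm, h3.symm]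

/-- Replacing a part of the chain by one with the same boundary. -/
theorem Chain.replace (h : Chain f A B C T) {D N : Finset (T3 V)} (hD : D ⊆ T)
    (hN : Disjoint (T \ D) N) (r1 : ∀ a b c, (b, c, a) ∈ D → (a, b, c) ∈ D)
    (r2 : ∀ a b c, (a, b, c) ∈ N → (b, c, a) ∈ N)
    (hp : ∀ a b c, (a, b, c) ∈ N → 0 < det3 (f a) (f b) (f c))
    (hb : ∀ φ : V → V → ℤ, (∀ x y, φ y x = -φ x y) →
      ∑ t ∈ D, φ t.1 t.2.1 = ∑ t ∈ N, φ t.1 t.2.1) : Chain f A B C (T \ D ∪ N) := by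
  refine ⟨fun a b c ht => ?_, fun a b c ht => ?_, fun φ hφ => ?_⟩
  · rcases mem_union.1 ht with ht | ht
    · exact mem_union_left _ (mem_sdiff.2 ⟨h.rot _ _ _ (mem_sdiff.1 ht).1,
        fun e => (mem_sdiff.1 ht).2 (r1 _ _ _ e)⟩)
    · exact mem_union_right _ (r2 _ _ _ ht)
  · rcases mem_union.1 ht with ht | ht
    · exact h.pos _ _ _ (mem_sdiff.1 ht).1
    · exact hp _ _ _ ht
  · rw [sum_union hN, ← hb φ hφ, sum_sdiff hD, h.bd φ hφ]

theorem sum_tri {M : Type} [AddCommMonoid M] {a b c : V} (h : a ≠ b) (h' : a ≠ c) (h'' : b ≠ c)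
    (g : T3 V → M) : ∑ t ∈ tri a b c, g t = g (a, b, c) + g (b, c, a) + g (c, a, b) := by
  unfold tri
  rw [sum_insert (by simp [h, h']), sum_insert (by simp [h'']), sum_singleton, add_assoc]

theorem card_tri {a b c : V} (h : a ≠ b) (h' : a ≠ c) (h'' : b ≠ c) : #(tri a b c) = 3 := by
  rw [card_eq_sum_ones, sum_tri h h' h'']

theorem Full.ne (h : Full f U A B C T) : A ≠ B ∧ A ≠ C ∧ B ≠ C := by
  have h1 := h.outer
  refine ⟨?_, ?_, ?_⟩ <;> rintro rfl <;> simp at h1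

theorem Full.mem3 (h : Full f U A B C T) {a b c : V} (ht : (a, b, c) ∈ T) :
    a ∈ U ∧ b ∈ U ∧ c ∈ U := by
  exact ⟨h.mem _ _ _ ht, h.mem _ _ _ (h.ch.rot _ _ _ ht),
    h.mem _ _ _ (h.ch.rot _ _ _ (h.ch.rot _ _ _ ht))⟩

/-- All vertices are weakly left of the three outer edges. -/
theorem Full.left (h : Full f U A B C T) {v : V} (hv : v ∈ U) :
    0 ≤ det3 (f A) (f B) (f v) ∧ 0 ≤ det3 (f B) (f C) (f v) ∧ 0 ≤ det3 (f C) (f A) (f v) := by
  have h0 := h.outer.le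
  by_cases h1 : v = A
  · rw [h1]
    exact ⟨(det3_self2 _ _).ge, by rwa [det3_rot], (det3_self3 _ _).ge⟩
  by_cases h2 : v = B
  · rw [h2]
    exact ⟨(det3_self3 _ _).ge, (det3_self2 _ _).ge, by rwa [← det3_rot]⟩
  by_cases h3 : v = C
  · rw [h3]
    exact ⟨h0, (det3_self3 _ _).ge, (det3_self2 _ _).ge⟩
  obtain ⟨i1, i2, i3⟩ := h.ins v hv h1 h2 h3
  exact ⟨i1.le, i2.le, i3.le⟩

/-- An edge with a vertex strictly on its right has a twin. -/
theorem Full.twin (h : Full f U A B C T) {a b c v : V} (ht : (a, b, c) ∈ T) (hv : v ∈ U)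
    (hr : det3 (f a) (f b) (f v) < 0) : ∃ d, (b, a, d) ∈ T := by
  obtain ⟨i1, i2, i3⟩ := h.left hv
  refine h.ch.twin ht ?_ ?_ ?_ <;> intro e <;> obtain ⟨rfl, rfl⟩ := Prod.mk.inj e <;> linarith

end Pool.Agent.P.MP_2b4a47_lc.Pl
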