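import Pool.Agent.P.MP_2b4a47_lc.Red

/-! Membership in the class, and the easy pairs. -/

namespace Pool.Agent.P.MP_2b4a47_lc

open Finset Filter Topology Pool.Agent.Lib.ETR Pool.Agent.Lib.NP N487b59b3 N68a2faeb N793a5b8e

abbrev Nm := List Bool

def pw {α : Type} (R : α → α → Bool) (a : α) (l : List α) : Bool :=
  (List.range l.length).all fun j => (List.range j).all fun i => R (l.getD i a) (l.getD j a)

theorem pw_iff {α : Type} (R : α → α → Bool) (a : α) (l : List α) :
    pw R a l = true ↔ l.Pairwise fun x y => R x y = true := by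
  simp only [pw, List.all_eq_true, List.mem_range, List.pairwise_iff_getElem]
  constructor
  · intro h i j hi hj hij
    simpa [hi, hj] using h j hj i hij
  · intro h j hj i hi
    simpa [hj, hi.trans hj] using h i j (hi.trans hj) hj hi

def fmt (k : ℕ) (L : List (List Nm)) : Bool :=
  (L.all fun l => !l.isEmpty && pw (fun x y => decide (x ≠ y)) [] l && decide (l.length ≤ k + 1)) &&
    (L.any fun l => decide (l.length = k + 1)) &&
    pw (fun l l' => !(l.all fun x => decide (x ∈ l')) && !(l'.all fun x => decide (x ∈ l))) [] L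

theorem fmt_iff (k : ℕ) (L : List (List Nm)) : fmt k L = true ↔ Fmt k L := by
  simp only [fmt, Fmt, Bool.and_eq_true, pw_iff, List.all_eq_true, List.any_eq_true,
    decide_eq_true_eq, Bool.not_eq_true', List.isEmpty_eq_false_iff, and_assoc, List.Nodup,
    ← Bool.not_eq_true, List.subset_def, List.isEmpty_iff, Ne]

theorem pt_fmt (k : ℕ) : PT (fmt k) := by
  unfold fmt pw
  fun_prop

variable {k d : ℕ}

theorem exists_dec : ∃ D : List Bool → List (List Nm), PT D ∧ ∀ k d x, EMB k d x = true ↔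
    (x == enc (D x) && fmt k (D x)) = true ∧
    ∃ f : Nm → Fin d → ℝ, ∀ l ∈ D x, ∀ l' ∈ D x, Good (hom f) l.toFinset l'.toFinset := by
  obtain ⟨D, h1, h2⟩ := HasDec.bool.list.list.list
  refine ⟨D, h1, fun k d x => ?_⟩
  rw [Bool.and_eq_true, beq_iff_eq, fmt_iff, and_assoc, ← EMB_enc]
  refine ⟨fun h => ?_, fun h => h.1 ▸ h.2⟩
  have h0 := h
  simp only [EMB, decide_eq_true_eq] at h0
  obtain ⟨L, e, -⟩ := h0
  obtain rfl : x = enc L := e
  rw [h2]
  exact ⟨rfl, h⟩

def aff (l l' : List Nm) (v : Nm) : ℕ → Term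
  | 0 => nv (true, l, l', 0)
  | j + 1 => .add (aff l l' v j) (.mul (nv (true, l, l', j + 1)) (nv (false, [v], ([] : List Nm), j)))

@[fun_prop] theorem pt_aff {α : Type} [Enc α] {f g : α → List Nm} {h : α → Nm} (hf : PT f)
    (hg : PT g) (hh : PT h) (d : ℕ) : PT fun a => aff (f a) (g a) (h a) d := by
  induction d with
  | zero => unfold aff; fun_prop
  | succ j ih => unfold aff; fun_prop

def crd (d : ℕ) (w : List Bool → ℝ) (v : Nm) (j : Fin d) : ℝ :=
  (nv (false, [v], ([] : List Nm), (j : ℕ))).eval w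

def lf (d : ℕ) (c : ℕ → ℝ) : (Fin d → ℝ) × ℝ →ₗ[ℝ] ℝ where
  toFun x := c 0 * x.2 + ∑ j : Fin d, c (j + 1) * x.1 j
  map_add' x y := by simp [mul_add, sum_add_distrib]; ring
  map_smul' t x := by simp [mul_add, mul_sum, mul_left_comm]

theorem exists_lf (F : (Fin d → ℝ) × ℝ →ₗ[ℝ] ℝ) : ∃ c, lf d c = F := by
  refine ⟨fun j => Nat.casesOn j (F (0, 1)) fun j =>
    if h : j < d then F (Pi.single ⟨j, h⟩ 1, 0) else 0, ?_⟩
  ext i <;> simp [lf, Pi.single_apply]

theorem eval_aff (w : List Bool → ℝ) (l l' : List Nm) (v : Nm) : (aff l l' v d).eval w =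
    lf d (fun j => (nv (true, l, l', j)).eval w) (hom (crd d w) v) := by
  simp only [lf, hom, crd, LinearMap.coe_mk, AddHom.coe_mk, mul_one]
  induction d with
  | zero => simp [aff]
  | succ j ih => simp [aff, Term.eval, ih, Fin.sum_univ_castSucc, add_assoc]

def sepF (d : ℕ) (l l' : List Nm) : Formula :=
  .and (bigAnd (l.map fun v => bif decide (v ∈ l') then .eq (aff l l' v d) .zero
    else .lt .zero (aff l l' v d)))
    (bigAnd (l'.map fun v => bif decide (v ∈ l) then tt else .lt (aff l l' v d) .zero))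

def Sep (F : (Fin d → ℝ) × ℝ →ₗ[ℝ] ℝ) (v : Nm → (Fin d → ℝ) × ℝ) (σ τ : Finset Nm) : Prop :=
  (∀ i ∈ σ, i ∉ τ → 0 < F (v i)) ∧ (∀ i ∈ τ, i ∉ σ → F (v i) < 0) ∧ ∀ i ∈ σ, i ∈ τ → F (v i) = 0

theorem holds_sepF (w : List Bool → ℝ) (l l' : List Nm) : (sepF d l l').Holds w ↔
    Sep (lf d fun j => (nv (true, l, l', j)).eval w) (hom (crd d w)) l.toFinset l'.toFinset := by
  simp only [sepF, Sep, Formula.Holds, holds_bigAnd, List.forall_mem_map, List.mem_toFinset,
    ← eval_aff]
  constructor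
  · rintro ⟨h1, h2⟩
    exact ⟨fun i a b => by simpa [b, Formula.Holds, Term.eval] using h1 i a,
      fun i a b => by simpa [b, Formula.Holds, Term.eval] using h2 i a,
      fun i a b => by simpa [b, Formula.Holds, Term.eval] using h1 i a⟩
  · rintro ⟨h1, h2, h3⟩
    refine ⟨fun i a => ?_, fun i a => ?_⟩
    · by_cases b : i ∈ l'
      · simpa [b, Formula.Holds, Term.eval] using h3 i a b
      · simpa [b, Formula.Holds, Term.eval] using h1 i a b
    · by_cases b : i ∈ l
      · simp [b]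
      · simpa [b, Formula.Holds, Term.eval] using h2 i a b

def body (d : ℕ) (L : List (List Nm)) : Formula :=
  bigAnd (L.flatMap fun l => (L.map fun l' => sepF d l l') ++
    l.map fun i => sepF d l (l.filter fun x => decide (x ≠ i)))

theorem sat_body (L : List (List Nm)) : (∃ w, (body d L).Holds w) ↔
    ∃ f : Nm → Fin d → ℝ, ∀ l ∈ L, ∀ l' ∈ L, Good (hom f) l.toFinset l'.toFinset := by
  have e : ∀ (l : List Nm) i, (l.filter fun x => decide (x ≠ i)).toFinset = l.toFinset.erase i :=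
    fun l i => by ext; simp [and_comm]
  simp only [body, holds_bigAnd, List.forall_mem_flatMap, List.forall_mem_append,
    List.forall_mem_map, holds_sepF]
  constructor
  · rintro ⟨w, h⟩
    refine ⟨crd d w, fun l hl l' hl' => SepR.good ⟨_, (h l hl).1 l' hl'⟩
      ((ind_of_sepR fun i hi => ?_).mono inter_subset_left)⟩
    exact ⟨_, e l i ▸ (h l hl).2 i (List.mem_toFinset.1 hi)⟩
  · rintro ⟨f, h⟩
    have : ∀ l l' : List Nm, ∃ c, Good (hom f) l.toFinset l'.toFinset →
        Sep (lf d c) (hom f) l.toFinset l'.toFinset := fun l l' => by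
      by_cases h : Good (hom f) l.toFinset l'.toFinset
      · obtain ⟨F, hF⟩ := h.sepR
        obtain ⟨c, rfl⟩ := exists_lf F
        exact ⟨c, fun _ => hF⟩
      · exact ⟨0, fun h' => absurd h' h⟩
    choose c hc using this
    obtain ⟨w, hw⟩ := exists_valuation fun x : Bool × List Nm × List Nm × ℕ =>
      bif x.1 then c x.2.1 x.2.2.1 x.2.2.2
      else if h : x.2.2.2 < d then f (x.2.1.headD []) ⟨_, h⟩ else 0
    have e1 : crd d w = f := by ext v j; simp [crd, hw]
    refine ⟨w, fun l hl => ?_⟩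
    simp only [e1, hw, cond_true]
    exact ⟨fun l' hl' => hc _ _ (h l hl l' hl'), fun i _ => hc _ _
      ((h l hl l hl).mono Subset.rfl (e l i ▸ erase_subset _ _))⟩

theorem emb_mem (k d : ℕ) : EMB k d ∈ ExistsR := by
  obtain ⟨D, h1, h2⟩ := exists_dec
  have := pt_fmt k
  refine mem_ExistsR_of (fun x => bif x == enc (D x) && fmt k (D x) then body d (D x) else ff)
    (by unfold body sepF; fun_prop) fun x => ?_
  rw [h2, ← sat_body]
  cases x == enc (D x) && fmt k (D x) <;> simp

theorem emb_easy (h : ¬ (d ≤ 2 * k ∧ k ≤ d)) : EMB k d ∈ P := by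
  obtain ⟨D, h1, h2⟩ := exists_dec
  have h0 := pt_fmt k
  by_cases hk : k ≤ d
  · refine (PT.congr (f := fun x => x == enc (D x) && fmt k (D x)) (by fun_prop) fun x =>
      Bool.eq_iff_iff.2 ⟨fun h3 => (h2 k d x).2 ⟨h3, ?_⟩, fun h3 => ((h2 k d x).1 h3).1⟩).isPolyTime_pred
    obtain ⟨w, hw⟩ := exists_gp (fun _ : Nm => ((0, 1) : (Fin d → ℝ) × ℝ)) (D x).flatten.toFinset
    obtain ⟨ε, a1, a2⟩ := (hw.and ((eventually_all_finset (D x).flatten.toFinset).2 fun i _ =>
      ev_lin (.snd ℝ _ _) (0, 1) (w i) one_pos)).exists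
    obtain ⟨f, hf⟩ := dehom (d := d) (by simp) (fun i => (0, 1) + ε • w i) (.snd ℝ _ _)
      (b := (0, 1)) rfl
    refine ⟨f, fun l hl l' hl' => ?_⟩
    have a3 : l.toFinset ∪ l'.toFinset ⊆ (D x).flatten.toFinset := union_subset
      (fun y hy => by simpa using ⟨l, hl, by simpa using hy⟩)
      fun y hy => by simpa using ⟨l', hl', by simpa using hy⟩
    have a4 := ((fmt_iff _ _).1 (Bool.and_eq_true_iff.1 h3).2).1
    refine hf _ _ (fun i hi => a2 i (a3 hi)) (a1 _ a3 ((card_union_le _ _).trans ?_)).good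
    have := l.toFinset_card_le.trans (a4 l hl).2.2
    have := l'.toFinset_card_le.trans (a4 l' hl').2.2
    simp
    omega
  · refine ((PT.const false).congr fun x => (Bool.eq_false_iff.2 fun h3 => ?_).symm).isPolyTime_pred
    obtain ⟨h4, f, hf⟩ := (h2 k d x).1 h3
    obtain ⟨a1, ⟨l, hl, a2⟩, -⟩ := (fmt_iff _ _).1 (Bool.and_eq_true_iff.1 h4).2
    have := (hf l hl l hl).ind.card_le
    rw [List.toFinset_card_of_nodup (a1 l hl).2.1] at this
    simp at this
    omega

end Pool.Agent.P.MP_2b4a47_lc
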