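import Pool.Agent.P.MP_2b4a47_lc.Member
import Pool.Agent.P.MP_2b4a47_lc.Circ

/-! The line, and the inclusion of `P` in `NP`. -/

namespace Pool.Agent.P.MP_2b4a47_lc

open Pool.Agent.Lib.NP N68a2faeb

def line_pos (o : List Nm) (a : Nm) : ℕ := o.countP fun y => decide (y = a)

def line_chk (L : List (List Nm)) (o : List Nm) : Bool :=
  (L.flatten.all fun a => L.flatten.all fun b =>
    decide (a = b) || decide (line_pos o a ≠ line_pos o b)) &&
  L.all fun l => l.all fun a => l.all fun b => L.flatten.all fun c =>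
    !(decide (line_pos o a < line_pos o c) && decide (line_pos o c < line_pos o b))

theorem line_pt : PT fun p : List (List Nm) × List Nm => line_chk p.1 p.2 := by
  unfold line_chk line_pos
  fun_prop

/-- The combinatorial form of an embedding in the line. -/
def line_ok {β : Type} [LinearOrder β] (L : List (List Nm)) (p : Nm → β) : Prop :=
  (∀ a ∈ L.flatten, ∀ b ∈ L.flatten, p a = p b → a = b) ∧
    ∀ l ∈ L, ∀ a ∈ l, ∀ b ∈ l, ∀ c ∈ L.flatten, p a < p c → ¬ p c < p b

theorem line_chk_iff (L : List (List Nm)) (o : List Nm) :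
    line_chk L o = true ↔ line_ok L (line_pos o) := by
  simp only [line_chk, line_ok, Bool.and_eq_true, List.all_eq_true, Bool.or_eq_true,
    decide_eq_true_eq, Bool.not_eq_true', ← Bool.not_eq_true, not_and]
  refine and_congr_left fun _ => forall₄_congr fun a _ b _ => ?_
  tauto

theorem line_sum (f : Nm → Fin 1 → ℝ) (z : Nm → ℝ) (s : Finset Nm) :
    ∑ i ∈ s, z i • hom f i = 0 ↔ ∑ i ∈ s, z i * f i 0 = 0 ∧ ∑ i ∈ s, z i = 0 := by
  rw [sum_hom]
  refine and_congr_left fun _ => ?_
  rw [funext_iff, Fin.forall_fin_one, Finset.sum_apply]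
  rfl

theorem line_of_good {L : List (List Nm)} {f : Nm → Fin 1 → ℝ}
    (h : ∀ l ∈ L, ∀ l' ∈ L, Good (hom f) l.toFinset l'.toFinset) :
    line_ok L fun a => f a 0 := by
  constructor
  · intro a ha b hb e
    obtain ⟨l, hl, ha⟩ := List.mem_flatten.1 ha
    obtain ⟨l', hl', hb⟩ := List.mem_flatten.1 hb
    by_contra hab
    have hg : Good (hom f) {a} {b} := (h l hl l' hl').mono (by simpa using ha) (by simpa using hb)
    have := hg (fun i => if i = a then 1 else -1) (by simp) (by simp [Ne.symm hab]) (by
      rw [line_sum]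
      have e' : f a 0 = f b 0 := e
      simp [hab, Ne.symm hab, e']) a (by simp)
    simp at this
  · intro l hl a ha b hb c hc h1 h2
    obtain ⟨l', hl', hc⟩ := List.mem_flatten.1 hc
    have h1' : f a 0 < f c 0 := h1
    have h2' : f c 0 < f b 0 := h2
    have hac : a ≠ c := by rintro rfl; exact lt_irrefl _ h1'
    have hcb : c ≠ b := by rintro rfl; exact lt_irrefl _ h2'
    have hab : a ≠ b := by rintro rfl; exact lt_irrefl _ (h1'.trans h2')
    have hg : Good (hom f) {a, b} {c} := (h l hl l' hl').mono
      (by simp [Finset.insert_subset_iff, ha, hb]) (by simpa using hc)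
    have e : ({a, b} : Finset Nm) ∪ {c} = {a, b, c} := by ext; simp
    have := hg (fun i => if i = a then f b 0 - f c 0 else if i = b then f c 0 - f a 0
      else f a 0 - f b 0) (by
        intro i hi _
        rcases Finset.mem_insert.1 hi with rfl | hi
        · simp [h2'.le]
        · obtain rfl := Finset.mem_singleton.1 hi
          simp [hab.symm, h1'.le]) (by
        intro i hi _
        obtain rfl := Finset.mem_singleton.1 hi
        simp [hac.symm, hcb, (h1'.trans h2').le]) (by
        rw [line_sum, e, Finset.sum_insert (by simp [hab, hac]), Finset.sum_pair hcb.symm,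
          Finset.sum_insert (by simp [hab, hac]), Finset.sum_pair hcb.symm]
        simp only [if_true, hab.symm, hac.symm, hcb, if_false]
        constructor <;> ring) a (by simp)
    simp only [if_true] at this
    linarith

theorem line_three {f : Nm → Fin 1 → ℝ} {a b c : Nm} (hab : a ≠ b) (hac : a ≠ c) (hbc : b ≠ c)
    (h : 0 < (f a 0 - f c 0) * (f b 0 - f c 0)) : Good (hom f) {a, b} {c} := by
  intro z h1 _ h3
  have e : ({a, b} : Finset Nm) ∪ {c} = {a, b, c} := by ext; simp
  have za := h1 a (by simp) (by simpa using hac)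
  have zb := h1 b (by simp) (by simpa using hbc)
  rw [line_sum, e, Finset.sum_insert (by simp [hab, hac]), Finset.sum_pair hbc,
    Finset.sum_insert (by simp [hab, hac]), Finset.sum_pair hbc] at h3
  obtain ⟨e1, e2⟩ := h3
  have e3 : z a * (f a 0 - f c 0) + z b * (f b 0 - f c 0) = 0 := by
    linear_combination e1 - f c 0 * e2
  have hz : z a = 0 ∧ z b = 0 := by
    rcases mul_pos_iff.1 h with ⟨p, q⟩ | ⟨p, q⟩
    · have := mul_nonneg za p.le
      have := mul_nonneg zb q.le
      exact ⟨(mul_eq_zero.1 (by linarith)).resolve_right p.ne',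
        (mul_eq_zero.1 (by linarith)).resolve_right q.ne'⟩
    · have := mul_nonpos_of_nonneg_of_nonpos za p.le
      have := mul_nonpos_of_nonneg_of_nonpos zb q.le
      exact ⟨(mul_eq_zero.1 (by linarith)).resolve_right p.ne,
        (mul_eq_zero.1 (by linarith)).resolve_right q.ne⟩
  intro i hi
  rw [e] at hi
  simp only [Finset.mem_insert, Finset.mem_singleton] at hi
  rcases hi with rfl | rfl | rfl
  · exact hz.1
  · exact hz.2
  · linarith [hz.1, hz.2]

theorem line_good {L : List (List Nm)} (hL : ∀ l ∈ L, l.length ≤ 2) {f : Nm → Fin 1 → ℝ}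
    (h : line_ok L fun a => f a 0) :
    ∀ l ∈ L, ∀ l' ∈ L, Good (hom f) l.toFinset l'.toFinset := by
  have hr : Module.finrank ℝ ((Fin 1 → ℝ) × ℝ) = 2 := by simp
  have hm : ∀ l ∈ L, ∀ a ∈ l.toFinset, a ∈ L.flatten := fun l hl a ha =>
    List.mem_flatten.2 ⟨l, hl, List.mem_toFinset.1 ha⟩
  have key : ∀ l ∈ L, ∀ l' ∈ L, ∀ A ⊆ l.toFinset, ∀ B ⊆ l'.toFinset, Disjoint A B →
      A.card = 2 → B.card = 1 → Good (hom f) A B := by
    intro l hl l' hl' A hA B hB hd h1 h2
    obtain ⟨a, b, hab, rfl⟩ := Finset.card_eq_two.1 h1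
    obtain ⟨c, rfl⟩ := Finset.card_eq_one.1 h2
    have ha := hA (Finset.mem_insert_self _ _)
    have hb := hA (Finset.mem_insert_of_mem (Finset.mem_singleton_self _))
    have hc := hm l' hl' c (hB (Finset.mem_singleton_self _))
    simp only [Finset.disjoint_singleton_right, Finset.mem_insert, Finset.mem_singleton,
      not_or] at hd
    have n1 : f a 0 ≠ f c 0 := fun e => hd.1 (h.1 a (hm l hl a ha) c hc e).symm
    have n2 : f b 0 ≠ f c 0 := fun e => hd.2 (h.1 b (hm l hl b hb) c hc e).symm
    have b1 := h.2 l hl a (List.mem_toFinset.1 ha) b (List.mem_toFinset.1 hb) c hc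
    have b2 := h.2 l hl b (List.mem_toFinset.1 hb) a (List.mem_toFinset.1 ha) c hc
    refine line_three hab (Ne.symm hd.1) (Ne.symm hd.2) ?_
    rcases lt_or_gt_of_ne n1 with p | p <;> rcases lt_or_gt_of_ne n2 with q | q
    · exact mul_pos_of_neg_of_neg (by linarith) (by linarith)
    · exact absurd q (b1 p)
    · exact absurd p (b2 q)
    · exact mul_pos (by linarith) (by linarith)
  intro l hl l' hl'
  refine good_of_circuits (fun s hs hc z hz => ?_) fun A hA B hB hd hc => ?_
  · rw [hr] at hc
    have hs' : ∀ a ∈ s, a ∈ L.flatten := fun a ha =>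
      (Finset.mem_union.1 (hs ha)).elim (hm l hl a) (hm l' hl' a)
    rw [line_sum] at hz
    obtain h0 | h1 | h2 : s.card = 0 ∨ s.card = 1 ∨ s.card = 2 := by omega
    · simp [Finset.card_eq_zero.1 h0]
    · obtain ⟨a, rfl⟩ := Finset.card_eq_one.1 h1
      simpa using hz.2
    · obtain ⟨a, b, hab, rfl⟩ := Finset.card_eq_two.1 h2
      rw [Finset.sum_pair hab, Finset.sum_pair hab] at hz
      have n : f a 0 - f b 0 ≠ 0 := sub_ne_zero.2 fun e =>
        hab (h.1 a (hs' a (by simp)) b (hs' b (by simp)) e)
      have za : z a = 0 := (mul_eq_zero.1 (by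
        linear_combination hz.1 - f b 0 * hz.2)).resolve_right n
      intro i hi
      rcases Finset.mem_insert.1 hi with rfl | hi
      · exact za
      · obtain rfl := Finset.mem_singleton.1 hi
        linarith [hz.2]
  · rw [hr] at hc
    have c1 := (Finset.card_le_card hA).trans (l.toFinset_card_le.trans (hL l hl))
    have c2 := (Finset.card_le_card hB).trans (l'.toFinset_card_le.trans (hL l' hl'))
    obtain ⟨p, q⟩ | ⟨p, q⟩ : (A.card = 2 ∧ B.card = 1) ∨ (B.card = 2 ∧ A.card = 1) := by omega
    · exact key l hl l' hl' A hA B hB hd p q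
    · exact (key l' hl' l hl B hB A hA hd.symm p q).symm

theorem line_pos_flat (p : Nm → ℕ) (W : List Nm) (hW : W.Nodup) (a : Nm) :
    line_pos (W.flatMap fun b => List.replicate (p b) b) a = if a ∈ W then p a else 0 := by
  induction W with
  | nil => simp [line_pos]
  | cons b W ih =>
    have h := List.nodup_cons.1 hW
    have ih' := ih h.2
    unfold line_pos at ih' ⊢
    rw [List.flatMap_cons, List.countP_append, ih', List.countP_replicate]
    by_cases e : b = a
    · subst e; simp [h.1]
    · simp [e, Ne.symm e]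

theorem line_len (L : List (List Nm)) : L.flatten.length ≤ sz L := by
  induction L with
  | nil => simp
  | cons l L ih =>
    have := length_le_sz l
    simp only [List.flatten_cons, List.length_append, sz_cons]
    omega

theorem line_witness {L : List (List Nm)} {p : Nm → ℝ} (h : line_ok L p) :
    ∃ o : List Nm, sz o ≤ sz L * sz L * (2 * sz L + 1) ∧ line_ok L (line_pos o) := by
  classical
  let r : Nm → ℕ := fun a => (L.flatten.toFinset.filter fun b => p b < p a).card
  have hr : ∀ a ∈ L.flatten, ∀ b, p a < p b → r a < r b := fun a ha b hab =>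
    Finset.card_lt_card ⟨fun c hc => by
      rw [Finset.mem_filter] at hc ⊢
      exact ⟨hc.1, hc.2.trans hab⟩, fun hs => by
      have := hs (Finset.mem_filter.2 ⟨List.mem_toFinset.2 ha, hab⟩)
      exact lt_irrefl _ (Finset.mem_filter.1 this).2⟩
  have hr' : ∀ a ∈ L.flatten, ∀ b ∈ L.flatten, r a < r b → p a < p b := fun a ha b hb hab => by
    rcases lt_trichotomy (p a) (p b) with q | q | q
    · exact q
    · rw [h.1 a ha b hb q] at hab; exact absurd hab (lt_irrefl _)
    · exact absurd (hr b hb a q) (by omega)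
  have hp : ∀ a ∈ L.flatten,
      line_pos (L.flatten.dedup.flatMap fun b => List.replicate (r b) b) a = r a := fun a ha => by
    rw [line_pos_flat r _ (List.nodup_dedup _), if_pos (List.mem_dedup.2 ha)]
  refine ⟨L.flatten.dedup.flatMap fun b => List.replicate (r b) b, ?_, fun a ha b hb e => ?_,
    fun l hl a ha b hb c hc h1 h2 => ?_⟩
  · refine (sz_list_le _ (sz L) fun a ha => ?_).trans (Nat.mul_le_mul_right _ ?_)
    · obtain ⟨b, hb, ha⟩ := List.mem_flatMap.1 ha
      obtain rfl := List.eq_of_mem_replicate ha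
      obtain ⟨l, hl, ha'⟩ := List.mem_flatten.1 (List.mem_dedup.1 hb)
      exact (sz_le_of_mem ha').trans (sz_le_of_mem hl)
    · rw [List.length_flatMap]
      refine (List.sum_le_card_nsmul _ (sz L) fun n hn => ?_).trans ?_
      · obtain ⟨b, -, rfl⟩ := List.mem_map.1 hn
        rw [List.length_replicate]
        exact (Finset.card_filter_le _ _).trans (L.flatten.toFinset_card_le.trans (line_len L))
      · rw [List.length_map, smul_eq_mul]
        exact Nat.mul_le_mul_right _ ((List.dedup_sublist _).length_le.trans (line_len L))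
  · rw [hp a ha, hp b hb] at e
    rcases lt_trichotomy (p a) (p b) with q | q | q
    · exact absurd (hr a ha b q) (by omega)
    · exact h.1 a ha b hb q
    · exact absurd (hr b hb a q) (by omega)
  · have ha' := List.mem_flatten.2 ⟨l, hl, ha⟩
    have hb' := List.mem_flatten.2 ⟨l, hl, hb⟩
    rw [hp a ha', hp c hc] at h1
    rw [hp b hb', hp c hc] at h2
    exact h.2 l hl a ha b hb c hc (hr' a ha' c hc h1) (hr' c hc b hb' h2)

/-- Witness: a list `o` of names, `pos a = o.countP (· = a)`; check that `pos` is injective on the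
vertices and that no vertex is strictly between the ends of an edge (`good_of_circuits`). From an
embedding `f` take `pos a = #{b | f b 0 < f a 0}`. -/
theorem emb_one_NP : EMB 1 1 ∈ NP := by
  obtain ⟨D, h1, h2⟩ := exists_dec
  have h0 := pt_fmt 1
  refine mem_NP_of_check HasDec.bool.list.list
    (fun x o => (x == Enc.enc (D x) && fmt 1 (D x)) && line_chk (D x) o)
    (PT.and (by fun_prop) (line_pt.comp (g := fun p : List Bool × List Nm => (D p.1, p.2))
      (by fun_prop)))
    (Polynomial.X * Polynomial.X * (2 * Polynomial.X + 1)) (fun x hx => ?_) (fun x o hx => ?_)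
  · obtain ⟨h3, f, hf⟩ := (h2 1 1 x).1 hx
    obtain ⟨o, ho, ho'⟩ := line_witness (line_of_good hf)
    have e : sz (D x) = x.length := by
      have := beq_iff_eq.1 (Bool.and_eq_true_iff.1 h3).1
      exact (congrArg List.length this).symm
    refine ⟨o, ?_, Bool.and_eq_true_iff.2 ⟨h3, (line_chk_iff _ _).2 ho'⟩⟩
    rw [e] at ho
    simpa using ho
  · obtain ⟨h3, h4⟩ := Bool.and_eq_true_iff.1 hx
    have h5 := (line_chk_iff _ _).1 h4
    have h6 := ((fmt_iff _ _).1 (Bool.and_eq_true_iff.1 h3).2).1
    refine (h2 1 1 x).2 ⟨h3, fun a _ => (line_pos o a : ℝ),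
      line_good (fun l hl => (h6 l hl).2.2) ⟨fun a ha b hb e => ?_,
        fun l hl a ha b hb c hc p q => ?_⟩⟩
    · exact h5.1 a ha b hb (Nat.cast_injective (R := ℝ) e)
    · exact h5.2 l hl a ha b hb c hc (Nat.cast_lt.1 p) (Nat.cast_lt.1 q)

/-- As `PT.of_isPolyTime` in `Lib/NP/Sim.lean`, with `HasDec.bool`; then `mem_NP_of_check`. -/
theorem P_sub_NP {L : DecisionProblem} (h : L ∈ P) : L ∈ NP := by
  have hL : PT L := by
    obtain ⟨h⟩ := h
    obtain ⟨g, s0, out, C, hg, hs0, hout, hsz, hrun⟩ := exists_sim h.tm h.inputAlphabet.symm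
      h.outputAlphabet.symm h.outputAlphabet.symm.injective
    obtain ⟨d, hd, hd'⟩ := HasDec.bool
    have h1 : PT (fun x : List Bool =>
        g^[h.time.eval (Enc.enc x).length] (s0 (Enc.enc x))) := by
      refine PT.iterate hg (by fun_prop) (hs0.comp (PT.enc' PT.id'))
        (Polynomial.C C * (Polynomial.X + h.time + 1)) fun x i hi => ?_
      refine (hsz _ _).trans ?_
      simp only [Polynomial.eval_mul, Polynomial.eval_C, Polynomial.eval_add, Polynomial.eval_X,
        Polynomial.eval_one]
      exact Nat.mul_le_mul_left _ (by unfold sz; omega)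
    refine (hd.comp (hout.comp h1)).congr fun x => ?_
    have o := h.outputsFun x
    have := hrun (Enc.enc x) (Enc.enc (L x)) o.steps o.evals_in_steps
      (h.time.eval (Enc.enc x).length) o.steps_le_m
    rw [this, hd']
  exact mem_NP_of_check HasDec.bool (fun x _ => L x) (hL.comp (PT.fst PT.id')) 1
    (fun x hx => ⟨true, by simp, hx⟩) fun x _ hx => hx

end Pool.Agent.P.MP_2b4a47_lc
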