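import Pool.Agent.P.MP_2b4a47_lc.PlDefs
import Pool.Agent.P.MP_2b4a47_lc.Circ
import Pool.Agent.P.MP_2b4a47_lc.Assemble

/-! Plane embeddings in terms of orientations. -/

namespace Pool.Agent.P.MP_2b4a47_lc.Pl

open Finset Filter Topology

variable {V : Type} [DecidableEq V]

private theorem opp {x y P Q : ℝ} (hx : 0 ≤ x) (hy : 0 ≤ y) (hP : P ≠ 0) (hQ : Q ≠ 0)
    (h : x * P + y * Q = 0) : (x = 0 ∧ y = 0) ∨ P * Q < 0 := by
  rcases hx.eq_or_lt with rfl | hx'
  · exact .inl ⟨rfl, (mul_eq_zero.1 (by linarith : y * Q = 0)).resolve_right hQ⟩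
  · right
    have h1 : 0 < x * (P * P) := mul_pos hx' (mul_self_pos.2 hP)
    have h2 : y * (P * Q) < 0 := by linear_combination P * h + h1
    by_contra hn
    exact absurd (mul_nonneg hy (not_lt.1 hn)) (not_le.2 h2)

private theorem same {x y P Q : ℝ} (hx : 0 ≤ x) (hy : y < 0) (hP : 0 < P) (hQ : Q ≠ 0)
    (h : x * P + y * Q = 0) : 0 < Q := by
  refine lt_of_le_of_ne (not_lt.1 fun hn => ?_) hQ.symm
  nlinarith [mul_nonneg hx hP.le, mul_pos_of_neg_of_neg hy hn]

private def Sp2 (f : V → Pt) (A B : Finset V) : Prop :=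
  ∃ p q r : ℝ, (∀ i ∈ A, 0 < p * (f i).1 + q * (f i).2 + r) ∧
    ∀ i ∈ B, p * (f i).1 + q * (f i).2 + r < 0

private theorem sp2_of_good {g : V → Fin 2 → ℝ} {A B : Finset V} (h : Good (hom g) A B)
    (hd : Disjoint A B) : Sp2 (fun i => (g i 0, g i 1)) A B := by
  obtain ⟨F, h1, h2, -⟩ := h.sepR
  have e : ∀ i, F (hom g i) =
      F (![1, 0], 0) * g i 0 + F (![0, 1], 0) * g i 1 + F (0, 1) := fun i => by
    have : hom g i = g i 0 • ((![1, 0], 0) : (Fin 2 → ℝ) × ℝ) + g i 1 • (![0, 1], 0) + (0, 1) := by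
      refine Prod.ext (funext fun j => ?_) (by simp [hom])
      fin_cases j <;> simp [hom]
    rw [this, map_add, map_add, map_smul, map_smul, smul_eq_mul, smul_eq_mul]
    ring
  exact ⟨_, _, _, fun i hi => e i ▸ h1 i hi (disjoint_left.1 hd hi),
    fun i hi => e i ▸ h2 i hi (disjoint_right.1 hd hi)⟩

omit [DecidableEq V] in
private theorem Sp2.ev {f : V → Pt} {A B : Finset V} (h : Sp2 f A B) (w : V → Pt) :
    ∀ᶠ ε in 𝓝[>] (0 : ℝ), Sp2 (fun i => f i + ε • w i) A B := by
  obtain ⟨p, q, r, h1, h2⟩ := h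
  have hc : ∀ i, Continuous fun ε : ℝ => p * (f i + ε • w i).1 + q * (f i + ε • w i).2 + r :=
    fun i => by fun_prop
  have a1 := (eventually_all_finset A).2 fun i hi =>
    (continuousAt_const (y := (0 : ℝ))).eventually_lt (hc i).continuousAt (x₀ := 0)
      (by simpa using h1 i hi)
  have a2 := (eventually_all_finset B).2 fun i hi =>
    (hc i).continuousAt.eventually_lt (continuousAt_const (y := (0 : ℝ))) (x₀ := 0)
      (by simpa using h2 i hi)
  exact ((a1.and a2).mono fun ε h => ⟨p, q, r, h⟩).filter_mono nhdsWithin_le_nhds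

private theorem aff (p q r : ℝ) (x y z w : Pt) : det3 x y z * (p * w.1 + q * w.2 + r) =
    det3 y z w * (p * x.1 + q * x.2 + r) + det3 z x w * (p * y.1 + q * y.2 + r) +
      det3 x y w * (p * z.1 + q * z.2 + r) := by
  unfold det3; ring

private theorem Sp2.not_cross {f : V → Pt} {a b c d : V} (h : Sp2 f {a, b} {c, d}) :
    ¬ Cross (f a) (f b) (f c) (f d) := by
  obtain ⟨p, q, r, h1, h2⟩ := h
  rintro ⟨c1, c2⟩
  have ha := h1 a (by simp)
  have hb := h1 b (by simp)
  have hc := h2 c (by simp)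
  have hd := h2 d (by simp)
  have e1 := aff p q r (f a) (f b) (f c) (f d)
  have e2 := det3_sum (f a) (f b) (f c) (f d)
  rw [det3_rot (f b) (f c) (f d), det3_swap' (f c) (f a) (f d)] at c2
  generalize det3 (f a) (f b) (f c) = P, det3 (f a) (f b) (f d) = Q, det3 (f b) (f c) (f d) = R,
    det3 (f c) (f a) (f d) = S at *
  rcases mul_neg_iff.1 c1 with ⟨hP, hQ⟩ | ⟨hP, hQ⟩ <;>
    rcases mul_neg_iff.1 c2 with ⟨hS, hR⟩ | ⟨hS, hR⟩
  · linarith
  · nlinarith [mul_pos hR ha, mul_pos (neg_neg_iff_pos.1 hS) hb, mul_pos_of_neg_of_neg hQ hc,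
      mul_neg_of_pos_of_neg hP hd]
  · nlinarith [mul_neg_of_neg_of_pos hR ha, mul_pos hS hb, mul_neg_of_pos_of_neg hQ hc,
      mul_pos_of_neg_of_neg hP hd]
  · linarith

private theorem Sp2.not_in {f : V → Pt} {a b c d : V} (h : Sp2 f {a, b, c} {d}) :
    ¬ In (f a) (f b) (f c) (f d) := by
  obtain ⟨p, q, r, h1, h2⟩ := h
  intro hin
  have e1 := aff p q r (f a) (f b) (f c) (f d)
  nlinarith [mul_pos hin.1 (h1 c (by simp)), mul_pos hin.2.1 (h1 a (by simp)),
    mul_pos hin.2.2 (h1 b (by simp)), mul_neg_of_pos_of_neg hin.pos (h2 d (by simp))]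

private theorem dep {f : V → Pt} {z : V → ℝ} {s : Finset V}
    (h : ∑ i ∈ s, z i • hom (fun i => ![(f i).1, (f i).2]) i = 0) :
    ∑ i ∈ s, z i = 0 ∧ (∑ i ∈ s, z i * (f i).1 = 0 ∧ ∑ i ∈ s, z i * (f i).2 = 0) ∧
      ∀ u v : Pt, ∑ i ∈ s, z i * det3 u v (f i) = 0 := by
  obtain ⟨h1, h2⟩ := (sum_hom _ _ _).1 h
  have h3 : ∑ i ∈ s, z i * (f i).1 = 0 := by simpa using congrFun h1 0
  have h4 : ∑ i ∈ s, z i * (f i).2 = 0 := by simpa using congrFun h1 1
  refine ⟨h2, ⟨h3, h4⟩, fun u v => ?_⟩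
  have e : ∀ i, z i * det3 u v (f i) = (v.1 - u.1) * (z i * (f i).2) -
      (v.2 - u.2) * (z i * (f i).1) + ((v.2 - u.2) * u.1 - (v.1 - u.1) * u.2) * z i := fun i => by
    unfold det3; ring
  simp only [e, sum_add_distrib, sum_sub_distrib, ← mul_sum, h2, h3, h4]
  ring

private theorem ind_of_gp {f : V → Pt} {U s : Finset V} (h : GP f U) (hs : s ⊆ U) (h3 : #s ≤ 3) :
    Ind (hom fun i => ![(f i).1, (f i).2]) s := by
  intro z hz
  obtain ⟨d1, ⟨d2, d3⟩, d4⟩ := dep hz
  obtain h0 | h1 | h2 | h3 : #s = 0 ∨ #s = 1 ∨ #s = 2 ∨ #s = 3 := by omega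
  · simp [card_eq_zero.1 h0]
  · obtain ⟨a, rfl⟩ := card_eq_one.1 h1
    simpa using d1
  · obtain ⟨a, b, hab, rfl⟩ := card_eq_two.1 h2
    rw [sum_pair hab] at d1 d2 d3
    have ha : z a = 0 := by
      by_contra hn
      refine hab (h.1 a (hs (by simp)) b (hs (by simp)) (Prod.ext ?_ ?_))
      · exact mul_left_cancel₀ hn (by linear_combination d2 - (f b).1 * d1)
      · exact mul_left_cancel₀ hn (by linear_combination d3 - (f b).2 * d1)
    simp only [mem_insert, mem_singleton, forall_eq_or_imp, forall_eq]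
    exact ⟨ha, by linarith⟩
  · obtain ⟨a, b, c, hab, hac, hbc, rfl⟩ := card_eq_three.1 h3
    have hD := h.2 a (hs (by simp)) b (hs (by simp)) c (hs (by simp)) hab hac hbc
    have e1 := d4 (f a) (f b)
    have e2 := d4 (f c) (f a)
    rw [sum_insert (by simp [hab, hac]), sum_pair hbc] at d1 e1 e2
    simp only [det3_self2, det3_self3, mul_zero, zero_add, add_zero] at e1 e2
    rw [det3_rot, det3_rot] at e2
    have hc := (mul_eq_zero.1 e1).resolve_right hD
    have hb := (mul_eq_zero.1 e2).resolve_right hD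
    simp only [mem_insert, mem_singleton, forall_eq_or_imp, forall_eq]
    exact ⟨by linarith, hb, hc⟩

private theorem good31 {f : V → Pt} {U : Finset V} (h : GP f U) {A B : Finset V} (hA : A ⊆ U)
    (hB : B ⊆ U) (hd : Disjoint A B) (h3 : #A = 3) (h1 : #B = 1)
    (hin : ∀ a ∈ A, ∀ b ∈ A, ∀ c ∈ A, ∀ p ∈ B, ¬ In (f a) (f b) (f c) (f p)) :
    Good (hom fun i => ![(f i).1, (f i).2]) A B := by
  obtain ⟨a, b, c, hab, hac, hbc, rfl⟩ := card_eq_three.1 h3
  obtain ⟨d, rfl⟩ := card_eq_one.1 h1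
  have hd' : a ≠ d ∧ b ≠ d ∧ c ≠ d := by simpa [eq_comm] using hd
  obtain ⟨had, hbd, hcd⟩ := hd'
  intro z a1 a2 hz
  obtain ⟨d1, -, d4⟩ := dep hz
  have ma : a ∈ U := hA (by simp)
  have mb : b ∈ U := hA (by simp)
  have mc : c ∈ U := hA (by simp)
  have md : d ∈ U := hB (by simp)
  have za := a1 a (by simp) (by simp [had])
  have zb := a1 b (by simp) (by simp [hbd])
  have zc := a1 c (by simp) (by simp [hcd])
  have zd := a2 d (by simp) (by simp [had.symm, hbd.symm, hcd.symm])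
  have hs : ∀ φ : V → ℝ, ∑ i ∈ ({a, b, c} ∪ {d} : Finset V), φ i = φ a + φ b + φ c + φ d :=
    fun φ => by
      rw [sum_union hd, sum_insert (by simp [hab, hac]), sum_pair hbc, sum_singleton]; ring
  simp only [hs] at d1 d4
  rcases zd.eq_or_lt with h0 | h0
  · simp only [mem_union, mem_insert, mem_singleton]
    rintro i ((rfl | rfl | rfl) | rfl) <;> linarith
  · exfalso
    rcases (h.2 a ma b mb c mc hab hac hbc).lt_or_gt with hD | hD
    · refine hin a (by simp) c (by simp) b (by simp) d (by simp) ⟨?_, ?_, ?_⟩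
      · exact same (P := det3 (f a) (f c) (f b)) zb h0 (by rw [det3_swap']; linarith)
          (h.2 a ma c mc d md hac had hcd) (by simpa using d4 (f a) (f c))
      · exact same (P := det3 (f c) (f b) (f a)) za h0
          (by rw [det3_swap, det3_rot]; linarith)
          (h.2 c mc b mb d md hbc.symm hcd hbd) (by simpa using d4 (f c) (f b))
      · exact same (P := det3 (f b) (f a) (f c)) zc h0 (by rw [det3_swap]; linarith)
          (h.2 b mb a ma d md hab.symm hbd had) (by simpa using d4 (f b) (f a))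
    · refine hin a (by simp) b (by simp) c (by simp) d (by simp) ⟨?_, ?_, ?_⟩
      · exact same zc h0 hD (h.2 a ma b mb d md hab had hbd) (by simpa using d4 (f a) (f b))
      · exact same (P := det3 (f b) (f c) (f a)) za h0 (by rw [det3_rot]; exact hD)
          (h.2 b mb c mc d md hbc hbd hcd) (by simpa using d4 (f b) (f c))
      · exact same (P := det3 (f c) (f a) (f b)) zb h0 (by rw [det3_rot, det3_rot]; exact hD)
          (h.2 c mc a ma d md hac.symm hcd had) (by simpa using d4 (f c) (f a))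

private theorem good22 {f : V → Pt} {U : Finset V} (h : GP f U) {A B : Finset V} (hA : A ⊆ U)
    (hB : B ⊆ U) (hd : Disjoint A B) (h2 : #A = 2) (h2' : #B = 2)
    (hcr : ∀ a ∈ A, ∀ b ∈ A, ∀ c ∈ B, ∀ d ∈ B, ¬ Cross (f a) (f b) (f c) (f d)) :
    Good (hom fun i => ![(f i).1, (f i).2]) A B := by
  obtain ⟨a, b, hab, rfl⟩ := card_eq_two.1 h2
  obtain ⟨c, d, hcd, rfl⟩ := card_eq_two.1 h2'
  have hd' : (a ≠ c ∧ a ≠ d) ∧ b ≠ c ∧ b ≠ d := by
    simp only [disjoint_left, mem_insert, mem_singleton, forall_eq_or_imp, forall_eq, not_or] at hd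
    exact hd
  obtain ⟨⟨hac, had⟩, hbc, hbd⟩ := hd'
  intro z a1 a2 hz
  obtain ⟨d1, -, d4⟩ := dep hz
  have ma : a ∈ U := hA (by simp)
  have mb : b ∈ U := hA (by simp)
  have mc : c ∈ U := hB (by simp)
  have md : d ∈ U := hB (by simp)
  have za := a1 a (by simp) (by simp [hac, had])
  have zb := a1 b (by simp) (by simp [hbc, hbd])
  have zc := a2 c (by simp) (by simp [hac.symm, hbc.symm])
  have zd := a2 d (by simp) (by simp [had.symm, hbd.symm])
  have hs : ∀ φ : V → ℝ, ∑ i ∈ ({a, b} ∪ {c, d} : Finset V), φ i = φ a + φ b + φ c + φ d :=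
    fun φ => by rw [sum_union hd, sum_pair hab, sum_pair hcd]; ring
  simp only [hs] at d1 d4
  have e1 := opp (neg_nonneg.2 zc) (neg_nonneg.2 zd) (h.2 a ma b mb c mc hab hac hbc)
    (h.2 a ma b mb d md hab had hbd) (by
      have := d4 (f a) (f b)
      simp only [det3_self2, det3_self3] at this
      linarith)
  have e2 := opp za zb (h.2 c mc d md a ma hcd hac.symm had.symm)
    (h.2 c mc d md b mb hcd hbc.symm hbd.symm) (by simpa using d4 (f c) (f d))
  simp only [mem_union, mem_insert, mem_singleton]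
  rcases e1 with ⟨e1, e1'⟩ | e1
  · rintro i ((rfl | rfl) | rfl | rfl) <;> linarith
  rcases e2 with ⟨e2, e2'⟩ | e2
  · rintro i ((rfl | rfl) | rfl | rfl) <;> linarith
  exact absurd ⟨e1, e2⟩ (hcr a (by simp) b (by simp) c (by simp) d (by simp))

/-- `→`: disjoint subfaces are strictly separated (`Good.mono`, `Good.sepR`), an open condition;
perturb (`ev_gp`); separated segments do not cross, a separated point is not inside.
`←`: general position gives `Ind` on at most 3 vertices; `good_of_circuits` leaves the sizes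
`(1,3)`, `(2,2)`, `(3,1)`, where a nonzero dependency has no zero entry and gives `Cross` or `In`. -/
theorem emb2_iff {L : List (List V)} (hL : ∀ l ∈ L, l.length ≤ 3) :
    (∃ g : V → Fin 2 → ℝ, ∀ l ∈ L, ∀ l' ∈ L, Good (hom g) l.toFinset l'.toFinset) ↔
      ∃ f, Emb2 L f := by
  constructor
  · rintro ⟨g, hg⟩
    obtain ⟨w, hw⟩ := ev_gp (fun i => (g i 0, g i 1)) L.flatten.toFinset
    have h1 : ∀ᶠ ε in 𝓝[>] (0 : ℝ), ∀ l ∈ L.toFinset, ∀ l' ∈ L.toFinset,
        ∀ A ∈ l.toFinset.powerset, ∀ B ∈ l'.toFinset.powerset, Disjoint A B →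
          Sp2 (fun i => (g i 0, g i 1) + ε • w i) A B :=
      (eventually_all_finset _).2 fun l hl => (eventually_all_finset _).2 fun l' hl' =>
        (eventually_all_finset _).2 fun A hA => (eventually_all_finset _).2 fun B hB =>
          eventually_all.2 fun hd => (sp2_of_good ((hg l (List.mem_toFinset.1 hl) l'
            (List.mem_toFinset.1 hl')).mono (mem_powerset.1 hA) (mem_powerset.1 hB)) hd).ev w
    obtain ⟨ε, h2, h3⟩ := (hw.and h1).exists
    refine ⟨_, h2, fun l hl l' hl' a ha b hb c hc d hd hcr => ?_,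
      fun l hl a ha b hb c hc p hp hin => ?_⟩
    · refine (h3 l (List.mem_toFinset.2 hl) l' (List.mem_toFinset.2 hl') {a, b}
        (by simp [insert_subset_iff, ha, hb]) {c, d} (by simp [insert_subset_iff, hc, hd])
        ?_).not_cross hcr
      obtain ⟨c1, c2⟩ := hcr
      simp only [disjoint_left, mem_insert, mem_singleton]
      rintro x (rfl | rfl) (rfl | rfl) <;> simp at c1
    · obtain ⟨l', hl', hp'⟩ := List.mem_flatten.1 hp
      refine (h3 l (List.mem_toFinset.2 hl) l' (List.mem_toFinset.2 hl') {a, b, c}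
        (by simp [insert_subset_iff, ha, hb, hc]) {p} (by simp [hp']) ?_).not_in hin
      obtain ⟨c1, c2, c3⟩ := hin
      simp only [disjoint_left, mem_insert, mem_singleton]
      rintro x (rfl | rfl | rfl) rfl
      · simp at c1
      · simp at c1
      · simp at c2
  · rintro ⟨f, hgp, hcr, hin⟩
    have hU : ∀ l ∈ L, l.toFinset ⊆ L.flatten.toFinset := fun l hl x hx =>
      List.mem_toFinset.2 (List.mem_flatten.2 ⟨l, hl, List.mem_toFinset.1 hx⟩)
    have hc : ∀ l ∈ L, ∀ A ⊆ l.toFinset, #A ≤ 3 := fun l hl A hA =>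
      (card_le_card hA).trans ((List.toFinset_card_le l).trans (hL l hl))
    have hr : Module.finrank ℝ ((Fin 2 → ℝ) × ℝ) = 3 := by simp
    have h31 : ∀ l ∈ L, ∀ l' ∈ L, ∀ A ⊆ l.toFinset, ∀ B ⊆ l'.toFinset, Disjoint A B → #A = 3 →
        #B = 1 → Good (hom fun i => ![(f i).1, (f i).2]) A B := fun l hl l' hl' A hA B hB hd a b =>
      good31 hgp (hA.trans (hU l hl)) (hB.trans (hU l' hl')) hd a b fun a ha b hb c hc p hp =>
        hin l hl a (List.mem_toFinset.1 (hA ha)) b (List.mem_toFinset.1 (hA hb)) c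
          (List.mem_toFinset.1 (hA hc)) p (List.mem_toFinset.1 (hU l' hl' (hB hp)))
    refine ⟨fun i => ![(f i).1, (f i).2], fun l hl l' hl' => good_of_circuits
      (fun s hs h3 => ind_of_gp hgp (hs.trans (union_subset (hU l hl) (hU l' hl'))) (hr ▸ h3))
      fun A hA B hB hd h4 => ?_⟩
    have a1 := hc l hl A hA
    have a2 := hc l' hl' B hB
    obtain h | h | h : (#A = 3 ∧ #B = 1) ∨ (#A = 2 ∧ #B = 2) ∨ (#B = 3 ∧ #A = 1) := by omega
    · exact h31 l hl l' hl' A hA B hB hd h.1 h.2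
    · exact good22 hgp (hA.trans (hU l hl)) (hB.trans (hU l' hl')) hd h.1 h.2
        fun a ha b hb c hc d hd => hcr l hl l' hl' a (List.mem_toFinset.1 (hA ha)) b
          (List.mem_toFinset.1 (hA hb)) c (List.mem_toFinset.1 (hB hc)) d
          (List.mem_toFinset.1 (hB hd))
    · exact (h31 l' hl' l hl B hB A hA hd.symm h.1 h.2).symm

end Pool.Agent.P.MP_2b4a47_lc.Pl
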