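import Pool.Agent.P.MP_2b4a47_lc.Gadget
import Pool.Agent.P.MP_881548_lc.Geom

/-! The layout: the gadgets are squeezed to points of their lines. -/

namespace Pool.Agent.P.MP_2b4a47_lc

open Finset Filter Topology Sum Pool.Agent.Lib.ETR

variable {r : ℕ} {κ : Type}

abbrev Lab (r : ℕ) (κ : Type) := (Sh r ⊕ ℕ) × List κ

def glob : Sh r → Bool := Sum.elim (fun i => decide (i < 2)) fun _ => true

def lab (c : Bool × κ × κ) (x : Sh r) : Lab r κ :=
  if x = inl (tip c.1) then (inl (inl 10), [c.2.2, c.2.2])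
  else (inl x, bif glob x then [] else [c.2.1])

theorem lab_inj (c : Bool × κ × κ) : Function.Injective (lab (r := r) c) := by
  intro x y h
  unfold lab at h
  split_ifs at h with h1 h2 h2
  · rw [h1, h2]
  · cases hg : glob y <;> simp [hg] at h
  · cases hg : glob x <;> simp [hg] at h
  · simpa using congrArg Prod.fst h

theorem tip_ge (s : Bool) : 10 ≤ tip s := by cases s <;> decide

theorem lab_glob (c : Bool × κ × κ) {x : Sh r} (h : glob x = true) : lab c x = (inl x, []) := by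
  have : x ≠ inl (tip c.1) := by
    rintro rfl
    have := tip_ge c.1
    simp [glob] at h
    omega
  simp [lab, this, h]

theorem lab_tip (c : Bool × κ × κ) :
    lab c (inl (tip c.1) : Sh r) = (inl (inl 10), [c.2.2, c.2.2]) := if_pos rfl

theorem lab_in (c : Bool × κ × κ) {i : Fin 12} (h : 2 ≤ i) (h' : i ≤ 9) :
    lab c (inl i : Sh r) = (inl (inl i), [c.2.1]) := by
  have := tip_ge c.1
  have h1 : i ≠ tip c.1 := by omega
  simp [lab, h1, glob, h.not_gt]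

theorem Face.forall {s : Bool} {φ : Finset (Sh r)} (h : Face s φ) {p : Sh r → Prop}
    (h0 : inl 0 ∈ φ → p (inl 0)) (h1 : inl 1 ∈ φ → p (inl 1))
    (h2 : ∀ i, inr (inl i) ∈ φ → p (inr (inl i))) (h3 : ∀ i, inr (inr i) ∈ φ → p (inr (inr i)))
    (h4 : inl (MP_2b4a47_lc.tip s) ∈ φ → p (inl (MP_2b4a47_lc.tip s)))
    (h5 : ∀ i, 2 ≤ i → i ≤ 9 → inl i ∈ φ → p (inl i)) : ∀ x ∈ φ, p x := by
  rintro (i | i | i) hx
  · have : i = 0 ∨ i = 1 ∨ (2 ≤ i ∧ i ≤ 9) ∨ i = MP_2b4a47_lc.tip s ∨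
        i = MP_2b4a47_lc.tip !s := by
      clear * -
      revert i s
      decide
    rcases this with rfl | rfl | a | rfl | rfl
    exacts [h0 hx, h1 hx, h5 i a.1 a.2 hx, h4 hx, absurd hx h.tip.1]
  exacts [h2 i hx, h3 i hx]

theorem ev_mul_pos (k : ℕ) {f : ℝ → ℝ} (hf : Continuous f) (h : 0 < f 0) :
    ∀ᶠ δ in 𝓝[>] (0 : ℝ), 0 < δ ^ k * f δ := by
  filter_upwards [self_mem_nhdsWithin, (continuousAt_const.eventually_lt hf.continuousAt
    h).filter_mono nhdsWithin_le_nhds] with δ h1 h2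
  exact mul_pos (pow_pos h1 _) h2

theorem ev_pos {f : ℝ → ℝ} (hf : Continuous f) (h : 0 < f 0) : ∀ᶠ δ in 𝓝[>] (0 : ℝ), 0 < f δ := by
  simpa using ev_mul_pos 0 hf h

theorem exists_lines {S : Asg κ} (h : S.Sat) : ∃ (p : κ → ℝ × ℝ) (T : ℝ) (A B C τ : κ → ℝ),
    (∀ c ∈ S, 0 < (p c.2.2).2 + T ∧ 0 ≤ τ c.2.2 ∧ A c.2.1 ≠ 0 ∧
      0 < sg c.1 * (A c.2.1 * (p c.2.2).1 + B c.2.1 * (p c.2.2).2 + C c.2.1)) ∧
    ∀ c ∈ S, ∀ c' ∈ S, (c.2.2 ≠ c'.2.2 → τ c.2.2 ≠ τ c'.2.2) ∧ (c.2.1 ≠ c'.2.1 →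
      (B c.2.1 * T - C c.2.1) / A c.2.1 ≠ (B c'.2.1 * T - C c'.2.1) / A c'.2.1) := by
  classical
  obtain ⟨l, p, h⟩ := h
  obtain ⟨T, hT⟩ : ∃ T : ℝ, ∀ c ∈ S, 0 < (p c.2.2).2 + T := by
    refine ⟨(S.map fun c => |(p c.2.2).2|).sum + 1, fun c hc => ?_⟩
    have := List.single_le_sum (l := S.map fun c => |(p c.2.2).2|) (fun a ha => by
      obtain ⟨c, -, rfl⟩ := List.mem_map.1 ha
      exact abs_nonneg _) _ (List.mem_map_of_mem hc)
    linarith [neg_abs_le (p c.2.2).2]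
  let L : List κ := S.flatMap fun c => [c.2.1, c.2.2]
  let τ : κ → ℝ := fun g => L.idxOf g
  have hτ : ∀ a ∈ L, ∀ b, a ≠ b → τ a ≠ τ b := fun a ha b hab h =>
    hab ((List.idxOf_inj ha).1 (Nat.cast_injective (R := ℝ) h))
  have hL : ∀ c ∈ S, c.2.1 ∈ L ∧ c.2.2 ∈ L := fun c hc =>
    ⟨List.mem_flatMap.2 ⟨c, hc, by simp⟩, List.mem_flatMap.2 ⟨c, hc, by simp⟩⟩
  have e1 : ∀ᶠ ε in 𝓝[>] (0 : ℝ), ∀ c ∈ S, (l c.2.1).1 + ε ≠ 0 ∧
      0 < sg c.1 * (((l c.2.1).1 + ε) * (p c.2.2).1 + (l c.2.1).2.1 * (p c.2.2).2 +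
        ((l c.2.1).2.2 + ε * τ c.2.1)) := by
    refine ev_list _ fun c hc => Eventually.and ?_ (ev_pos (by fun_prop) (by simpa using h c hc))
    simpa using MP_881548_lc.ev_ne (l c.2.1).1 1 0 (.inr one_ne_zero)
  have e2 : ∀ᶠ ε in 𝓝[>] (0 : ℝ), ∀ c ∈ S, ∀ c' ∈ S, c.2.1 ≠ c'.2.1 →
      ((l c.2.1).2.1 * T - ((l c.2.1).2.2 + ε * τ c.2.1)) * ((l c'.2.1).1 + ε) ≠
      ((l c'.2.1).2.1 * T - ((l c'.2.1).2.2 + ε * τ c'.2.1)) * ((l c.2.1).1 + ε) := by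
    refine ev_list _ fun c hc => ev_list _ fun c' hc' => eventually_all.2 fun hne => ?_
    filter_upwards [MP_881548_lc.ev_ne (((l c.2.1).2.1 * T - (l c.2.1).2.2) * (l c'.2.1).1 -
      ((l c'.2.1).2.1 * T - (l c'.2.1).2.2) * (l c.2.1).1)
      (((l c.2.1).2.1 * T - (l c.2.1).2.2) - τ c.2.1 * (l c'.2.1).1 -
        ((l c'.2.1).2.1 * T - (l c'.2.1).2.2) + τ c'.2.1 * (l c.2.1).1) _
        (.inl (sub_ne_zero.2 (hτ _ (hL c' hc').1 _ hne.symm)))] with ε hε h2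
    exact hε (by linear_combination h2)
  obtain ⟨ε, h1, h2⟩ := (e1.and e2).exists
  refine ⟨p, T, fun g => (l g).1 + ε, fun g => (l g).2.1, fun g => (l g).2.2 + ε * τ g, τ,
    fun c hc => ⟨hT c hc, Nat.cast_nonneg _, h1 c hc⟩, fun c hc c' hc' =>
      ⟨hτ _ (hL c hc).2 _, fun hne h3 => h2 c hc c' hc' hne ?_⟩⟩
  exact (div_eq_div_iff (h1 c hc).1 (h1 c' hc').1).1 h3

abbrev Sp (r : ℕ) := (ℝ × ℝ × ℝ × ℝ × ℝ) × (Fin r → ℝ) × (Fin r → ℝ)

def fn (a b c d e : ℝ) (α β : Fin r → ℝ) : Sp r →ₗ[ℝ] ℝ where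
  toFun x := a * x.1.1 + b * x.1.2.1 + c * x.1.2.2.1 + d * x.1.2.2.2.1 + e * x.1.2.2.2.2 +
    ∑ i, α i * x.2.1 i + ∑ i, β i * x.2.2 i
  map_add' x y := by simp [mul_add, sum_add_distrib]; ring
  map_smul' t x := by simp [mul_add, mul_sum, mul_left_comm]

noncomputable def pos (p : κ → ℝ × ℝ) (T : ℝ) (A B C τ : κ → ℝ) (δ : ℝ) : Lab r κ → Sp r
  | (inl (inl i), []) => ((0, 0, 0, if i = 0 then 1 else 0, if i = 0 then 0 else 1), 0, 0)
  | (inl (inr (inl i)), _) => (0, Pi.single i 1, 0)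
  | (inl (inr (inr i)), _) => (0, 0, Pi.single i 1)
  | (inl (inl i), [a]) => (((δ ^ 2 * vz i 2 - B a * (δ * vz i 1 - T) - C a) / A a,
      δ * vz i 1 - T, 1, δ * vz i 3, δ * vz i 4), fun _ => δ * vz i 5, fun _ => δ * vz i 6)
  | (inl (inl _), b :: _ :: _) => (((p b).1, (p b).2, 1, ((p b).2 + T) * τ b, 0), 0, 0)
  | (inr _, _) => 0

theorem exists_split (I J : Fin r → Prop) (a : ℝ) (h : ∀ i, I i → ¬ J i)
    (h1 : (∀ i, I i) → 0 ≤ a) (h2 : (∀ i, J i) → a ≤ 0) :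
    ∃ β e : Fin r → ℝ, ∑ i, β i = a ∧ (∀ i, I i → 0 ≤ 1 * β i ∧ 0 < 1 * e i) ∧
      ∀ i, J i → 0 ≤ -1 * β i ∧ 0 < -1 * e i := by
  classical
  obtain ⟨β, a1, a2, a3⟩ : ∃ β : Fin r → ℝ, ∑ i, β i = a ∧ (∀ i, I i → 0 ≤ β i) ∧
      ∀ i, J i → β i ≤ 0 := by
    rcases lt_trichotomy a 0 with h3 | rfl | h3
    · obtain ⟨j, hj⟩ := not_forall.1 fun h => (h1 h).not_gt h3
      exact ⟨Pi.single j a, by simp, fun i hi => by rw [Pi.single_eq_of_ne (by rintro rfl; tauto)],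
        fun i _ => by rw [Pi.single_apply]; split_ifs <;> linarith⟩
    · exact ⟨0, by simp⟩
    · obtain ⟨j, hj⟩ := not_forall.1 fun h => (h2 h).not_gt h3
      exact ⟨Pi.single j a, by simp, fun i _ => by rw [Pi.single_apply]; split_ifs <;> linarith,
        fun i hi => by rw [Pi.single_eq_of_ne (by rintro rfl; tauto)]⟩
  exact ⟨β, fun i => if I i then 1 else -1, a1, fun i hi => by simp [hi, a2 i hi],
    fun i hi => by simp [show ¬ I i from fun h' => h i h' hi, a3 i hi]⟩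

variable {p : κ → ℝ × ℝ} {T : ℝ} {A B C τ : κ → ℝ} {c : Bool × κ × κ} {φ : Finset (Sh r)}

theorem loc_side (h : Face c.1 φ) (hA : A c.2.1 ≠ 0)
    (hs : 0 < sg c.1 * (A c.2.1 * (p c.2.2).1 + B c.2.1 * (p c.2.2).2 + C c.2.1)) (t : ℝ) (f : ℕ)
    {β e β' e' : Fin r → ℝ} (hβ : ∑ i, β i = cf f 5) (hβ' : ∑ i, β' i = cf f 6)
    (h1 : ∀ i, inl i ∈ φ → 0 < t * val f i)
    (h2 : ∀ i, inr (inl i) ∈ φ → 0 ≤ t * β i ∧ 0 < t * e i)
    (h3 : ∀ i, inr (inr i) ∈ φ → 0 ≤ t * β' i ∧ 0 < t * e' i) :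
    ∀ x ∈ φ, ∀ᶠ δ in 𝓝[>] (0 : ℝ), 0 < t * fn (cf f 2 * A c.2.1) (δ * cf f 1 + cf f 2 * B c.2.1)
      (δ ^ 2 * cf f 0 + δ * cf f 1 * T + cf f 2 * C c.2.1) (δ * cf f 3) (δ * cf f 4)
      (fun i => δ * (β i + δ * e i)) (fun i => δ * (β' i + δ * e' i))
      (pos p T A B C τ δ (lab c x)) := by
  refine h.forall (fun hx => ?_) (fun hx => ?_) (fun i hx => ?_) (fun i hx => ?_) (fun hx => ?_)
    fun i a1 a2 hx => ?_
  · filter_upwards [self_mem_nhdsWithin] with δ hδ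
    refine (mul_pos hδ (h1 _ hx)).trans_eq ?_
    simp [lab_glob c (x := inl 0) rfl, pos, fn, val, vz, vec]
    ring
  · filter_upwards [self_mem_nhdsWithin] with δ hδ
    refine (mul_pos hδ (h1 _ hx)).trans_eq ?_
    simp [lab_glob c (x := inl 1) rfl, pos, fn, val, vz, vec]
    ring
  · filter_upwards [self_mem_nhdsWithin] with δ hδ
    refine (mul_pos hδ (add_pos_of_nonneg_of_pos (h2 i hx).1 (mul_pos hδ (h2 i hx).2))).trans_eq ?_
    simp [lab_glob c (x := inr (inl i)) rfl, pos, fn, Pi.single_apply]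
    ring
  · filter_upwards [self_mem_nhdsWithin] with δ hδ
    refine (mul_pos hδ (add_pos_of_nonneg_of_pos (h3 i hx).1 (mul_pos hδ (h3 i hx).2))).trans_eq ?_
    simp [lab_glob c (x := inr (inr i)) rfl, pos, fn, Pi.single_apply]
    ring
  · simp only [lab_tip, pos, fn, LinearMap.coe_mk, AddHom.coe_mk, Pi.zero_apply, mul_zero,
      sum_const_zero, add_zero]
    refine ev_pos (by fun_prop) ((mul_pos (h1 _ hx) hs).trans_eq ?_)
    cases c.1 <;> simp [tip, val, vz, vec] <;> ring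
  · have a3 : vz i 0 = 1 := by
      clear * - a1 a2
      revert i
      decide
    filter_upwards [ev_mul_pos 2 (f := fun δ => t * (val f i + δ * (vz i 5 * ∑ j, e j +
      vz i 6 * ∑ j, e' j))) (by fun_prop) (by simpa using h1 i hx)] with δ hδ
    refine hδ.trans_eq ?_
    have a4 : ∀ (β e : Fin r → ℝ) (y : ℝ), ∑ j, δ * (β j + δ * e j) * y =
        δ * (∑ j, β j + δ * ∑ j, e j) * y := fun β e y => by
      simp only [← sum_mul, ← mul_sum, sum_add_distrib]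
    simp only [lab_in c a1 a2, pos, fn, LinearMap.coe_mk, AddHom.coe_mk, a4, hβ, hβ', val, a3]
    push_cast
    field_simp
    ring

theorem cross_side (h : Face c.1 φ) (t a u b w w' : ℝ) (e e' : Fin r → ℝ)
    (h0 : 0 < t * (a * ((B c.2.1 * T - C c.2.1) / A c.2.1) + b))
    (h1 : inl 0 ∈ φ → 0 < t * w) (h2 : inl 1 ∈ φ → 0 < t * w')
    (h3 : ∀ i, inr (inl i) ∈ φ → 0 < t * e i) (h4 : ∀ i, inr (inr i) ∈ φ → 0 < t * e' i)
    (h5 : inl (tip c.1) ∈ φ →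
      0 < t * (a * (p c.2.2).1 + b + ((p c.2.2).2 + T) * (u + w * τ c.2.2))) :
    ∀ x ∈ φ, ∀ᶠ δ in 𝓝[>] (0 : ℝ),
      0 < t * fn a u (b + u * T) w w' e e' (pos p T A B C τ δ (lab c x)) := by
  refine h.forall (fun hx => .of_forall fun δ => ?_) (fun hx => .of_forall fun δ => ?_)
    (fun i hx => .of_forall fun δ => ?_) (fun i hx => .of_forall fun δ => ?_)
    (fun hx => .of_forall fun δ => ?_) fun i a1 a2 hx => ?_
  · simpa [lab_glob c (x := inl 0) rfl, pos, fn] using h1 hx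
  · simpa [lab_glob c (x := inl 1) rfl, pos, fn] using h2 hx
  · simpa [lab_glob c (x := inr (inl i)) rfl, pos, fn, Pi.single_apply] using h3 i hx
  · simpa [lab_glob c (x := inr (inr i)) rfl, pos, fn, Pi.single_apply] using h4 i hx
  · refine (h5 hx).trans_eq ?_
    simp [lab_tip, pos, fn]
    left; ring
  · simp only [lab_in c a1 a2, pos, fn, LinearMap.coe_mk, AddHom.coe_mk]
    refine ev_pos (by fun_prop) (h0.trans_eq ?_)
    simp
    left; ring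

theorem layout [DecidableEq κ] {S : Asg κ} (h : S.Sat) :
    ∃ v : Lab r κ → Sp r,
      (∀ c ∈ S, ∀ φ, Face c.1 φ → ∀ x ∈ φ, 0 < fn 0 0 1 1 1 1 1 (v (lab c x))) ∧
      ∀ c ∈ S, ∀ c' ∈ S, ∀ φ ψ, Face c.1 φ → Face c'.1 ψ →
        Disjoint (φ.image (lab c)) (ψ.image (lab c')) →
        SepR v (φ.image (lab c)) (ψ.image (lab c')) := by
  obtain ⟨p, T, A, B, C, τ, h1, h2⟩ := exists_lines h
  have e1 : ∀ᶠ δ in 𝓝[>] (0 : ℝ), ∀ c ∈ S, ∀ φ, Face c.1 φ → ∀ x ∈ φ,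
      0 < 1 * fn (r := r) 0 0 (1 + 0 * T) 1 1 1 1 (pos p T A B C τ δ (lab c x)) :=
    ev_list _ fun c hc => eventually_all.2 fun φ => eventually_all.2 fun hφ =>
      (eventually_all_finset _).2 (cross_side hφ _ _ _ _ _ _ _ _ (by simp) (by simp) (by simp)
        (by simp) (by simp) fun _ => by
          obtain ⟨a1, a2, -⟩ := h1 c hc
          simp only [one_mul, zero_mul, zero_add]
          positivity)
  suffices e2 : ∀ᶠ δ in 𝓝[>] (0 : ℝ), ∀ c ∈ S, ∀ c' ∈ S, ∀ φ ψ, Face c.1 φ → Face c'.1 ψ →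
      Disjoint (φ.image (lab c)) (ψ.image (lab c')) →
      SepR (pos (r := r) p T A B C τ δ) (φ.image (lab c)) (ψ.image (lab c')) by
    obtain ⟨δ, a1, a2⟩ := (e1.and e2).exists
    exact ⟨_, by simpa only [one_mul, zero_mul, add_zero] using a1, a2⟩
  refine ev_list _ fun c hc => ev_list _ fun c' hc' => eventually_all.2 fun φ =>
    eventually_all.2 fun ψ => eventually_all.2 fun hφ => eventually_all.2 fun hψ =>
      eventually_all.2 fun hd => ?_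
  suffices ∃ F : ℝ → Sp r →ₗ[ℝ] ℝ,
      (∀ x ∈ φ, ∀ᶠ δ in 𝓝[>] (0 : ℝ), 0 < 1 * F δ (pos p T A B C τ δ (lab c x))) ∧
      ∀ x ∈ ψ, ∀ᶠ δ in 𝓝[>] (0 : ℝ), 0 < -1 * F δ (pos p T A B C τ δ (lab c' x)) by
    obtain ⟨F, a1, a2⟩ := this
    filter_upwards [(eventually_all_finset _).2 a1, (eventually_all_finset _).2 a2] with δ b1 b2
    refine ⟨F δ, ?_, ?_, fun i a b => absurd b (disjoint_left.1 hd a)⟩
    · simp only [forall_mem_image]
      exact fun x hx _ => by simpa using b1 x hx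
    · simp only [forall_mem_image]
      exact fun x hx _ => by simpa using b2 x hx
  have hne : ∀ x ∈ φ, ∀ y ∈ ψ, lab c x ≠ lab c' y := fun x hx y hy e =>
    disjoint_left.1 hd (mem_image_of_mem _ hx) (e ▸ mem_image_of_mem _ hy)
  have hg : ∀ x ∈ φ, glob x = true → x ∉ ψ := fun x hx a b =>
    hne x hx x b (by rw [lab_glob c a, lab_glob c' a])
  obtain ⟨a1, -, a3, a4⟩ := h1 c hc
  obtain ⟨b1, -, b3, b4⟩ := h1 c' hc'
  by_cases hl : c.2.1 = c'.2.1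
  · have hin : ∀ i, 2 ≤ i → i ≤ 9 → inl i ∈ φ → inl i ∉ ψ := fun i a b hx hy =>
      hne _ hx _ hy (by rw [lab_in c a b, lab_in c' a b, hl])
    have hd' : Disjoint φ ψ := disjoint_left.2 fun x hx => hφ.forall (p := fun x => x ∉ ψ)
      (fun h => hg _ h rfl) (fun h => hg _ h rfl) (fun _ h => hg _ h rfl) (fun _ h => hg _ h rfl)
      (fun a b => by
        have e : c'.1 = c.1 := by
          by_contra hn
          exact hψ.tip.1 (by rwa [Bool.eq_not_iff.2 hn, Bool.not_not])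
        refine hin _ ?_ ?_ (hφ.tip.2 a).1 (e ▸ (hψ.tip.2 (e ▸ b)).1) <;> cases c.1 <;> decide)
      hin x hx
    obtain ⟨f, c1, c2, c3, c4, c5, c6⟩ := local_cert hφ hψ hd'
    obtain ⟨β, e, d1, d2, d3⟩ := exists_split (fun i => inr (inl i) ∈ φ) (fun i => inr (inl i) ∈ ψ)
      (cf f 5) (fun i h => hg _ h rfl) (fun h => by exact_mod_cast c3 h)
      fun h => by exact_mod_cast c4 h
    obtain ⟨β', e', d4, d5, d6⟩ := exists_split (fun i => inr (inr i) ∈ φ)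
      (fun i => inr (inr i) ∈ ψ) (cf f 6) (fun i h => hg _ h rfl) (fun h => by exact_mod_cast c5 h)
      fun h => by exact_mod_cast c6 h
    exact ⟨_, loc_side hφ a3 a4 1 f d1 d4 (fun i h => by simpa using c1 i h)
      d2 d5, hl ▸ loc_side hψ b3 b4 (-1) f d1 d4 (fun i h => by simpa using c2 i h) d3 d6⟩
  · have hx := sub_ne_zero.2 ((h2 c hc c' hc').2 hl)
    set x := (B c.2.1 * T - C c.2.1) / A c.2.1
    set x' := (B c'.2.1 * T - C c'.2.1) / A c'.2.1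
    have hx2 := mul_self_pos.2 hx
    obtain ⟨u, w, c1, c2, c3, c4⟩ : ∃ u w : ℝ, (inl 0 ∈ φ → 0 < 1 * w) ∧ (inl 0 ∈ ψ → 0 < -1 * w) ∧
        (inl (tip c.1) ∈ φ → u + w * τ c.2.2 =
          (1 - ((x - x') * (p c.2.2).1 + -(x - x') * (x + x') / 2)) / ((p c.2.2).2 + T)) ∧
        (inl (tip c'.1) ∈ ψ → u + w * τ c'.2.2 =
          (-1 - ((x - x') * (p c'.2.2).1 + -(x - x') * (x + x') / 2)) / ((p c'.2.2).2 + T)) := by
      generalize (1 - _) / ((p c.2.2).2 + T) = R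
      generalize (-1 - _) / ((p c'.2.2).2 + T) = R'
      by_cases t1 : inl (tip c.1) ∈ φ <;> by_cases t2 : inl (tip c'.1) ∈ ψ
      · have := sub_ne_zero.2 ((h2 c hc c' hc').1 fun e => hne _ t1 _ t2 (by
          rw [lab_tip, lab_tip, e]))
        exact ⟨R - (R - R') / (τ c.2.2 - τ c'.2.2) * τ c.2.2, (R - R') / (τ c.2.2 - τ c'.2.2),
          fun h => absurd h (hφ.tip.2 t1).2, fun h => absurd h (hψ.tip.2 t2).2, fun _ => by ring,
          fun _ => by field_simp; ring⟩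
      · exact ⟨R + τ c.2.2, -1, fun h => absurd h (hφ.tip.2 t1).2, by simp, fun _ => by ring,
          fun h => absurd h t2⟩
      · exact ⟨R' - τ c'.2.2, 1, by simp, fun h => absurd h (hψ.tip.2 t2).2, fun h => absurd h t1,
          fun _ => by ring⟩
      · exact ⟨0, if inl 0 ∈ φ then 1 else -1, fun h => by simp [h],
          fun h => by simp [show inl 0 ∉ φ from fun h' => hg _ h' rfl h], fun h => absurd h t1,
          fun h => absurd h t2⟩
    have hs : ∀ y ∈ ψ, glob y = true → 0 < -1 * if y ∈ φ then (1 : ℝ) else -1 := fun y a b => by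
      simp [show y ∉ φ from fun h => hg _ h b a]
    refine ⟨_, cross_side hφ 1 (x - x') u (-(x - x') * (x + x') / 2) w
      (if inl 1 ∈ φ then 1 else -1) (fun i => if inr (inl i) ∈ φ then 1 else -1)
      (fun i => if inr (inr i) ∈ φ then 1 else -1) (by nlinarith) c1 (fun h => by simp [h])
      (fun _ h => by simp [h]) (fun _ h => by simp [h]) fun h => ?_,
      cross_side hψ (-1) _ _ _ _ _ _ _ (by nlinarith) c2 (fun h => hs _ h rfl)
      (fun _ h => hs _ h rfl) (fun _ h => hs _ h rfl) fun h => ?_⟩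
    · rw [c3 h, mul_div_cancel₀ _ a1.ne']
      linarith
    · rw [c4 h, mul_div_cancel₀ _ b1.ne']
      linarith

end Pool.Agent.P.MP_2b4a47_lc
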