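import Pool.Agent.P.MP_2b4a47_lc.Defs

/-! Embeddings in terms of linear dependencies; general position. -/

namespace Pool.Agent.P.MP_2b4a47_lc

open Finset Filter Topology Module

variable {V : Type} [DecidableEq V]

section alg

variable {E : Type} [AddCommGroup E] [Module ℝ E] {v : V → E} {σ τ σ' τ' : Finset V}

def Ind (v : V → E) (s : Finset V) : Prop := ∀ z : V → ℝ, ∑ i ∈ s, z i • v i = 0 → ∀ i ∈ s, z i = 0

def Good (v : V → E) (σ τ : Finset V) : Prop :=
  ∀ z : V → ℝ, (∀ i ∈ σ, i ∉ τ → 0 ≤ z i) → (∀ i ∈ τ, i ∉ σ → z i ≤ 0) →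
    ∑ i ∈ σ ∪ τ, z i • v i = 0 → ∀ i ∈ σ ∪ τ, z i = 0

def SepR (v : V → E) (σ τ : Finset V) : Prop :=
  ∃ F : E →ₗ[ℝ] ℝ, (∀ i ∈ σ, i ∉ τ → 0 < F (v i)) ∧ (∀ i ∈ τ, i ∉ σ → F (v i) < 0) ∧
    ∀ i ∈ σ, i ∈ τ → F (v i) = 0

theorem sum_ext (v : V → E) (h : σ ⊆ τ) (z : V → ℝ) :
    ∑ i ∈ τ, (if i ∈ σ then z i else 0) • v i = ∑ i ∈ σ, z i • v i := by
  rw [← sum_subset h (fun i _ hi => by simp [hi])]
  exact sum_congr rfl fun i hi => by simp [hi]

theorem Ind.mono (h : Ind v τ) (hs : σ ⊆ τ) : Ind v σ := fun z hz i hi => by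
  simpa [hi] using h _ ((sum_ext v hs z).trans hz) i (hs hi)

theorem Ind.good (h : Ind v (σ ∪ τ)) : Good v σ τ := fun z _ _ hz => h z hz

theorem Good.symm (h : Good v σ τ) : Good v τ σ := fun z h1 h2 h3 i hi => by
  have := h (fun i => -z i) (fun i a b => neg_nonneg.2 (h2 i a b))
    (fun i a b => neg_nonpos.2 (h1 i a b)) (by simp [union_comm σ, h3]) i (by rwa [union_comm])
  simpa using this

theorem Good.mono (h : Good v σ τ) (h1 : σ' ⊆ σ) (h2 : τ' ⊆ τ) : Good v σ' τ' := by
  intro z a1 a2 a3 i hi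
  have hs := union_subset_union h1 h2
  have := h (fun i => if i ∈ σ' ∪ τ' then z i else 0) (fun i b1 b2 => by
      split_ifs with b3
      · exact a1 i ((mem_union.1 b3).resolve_right fun h => b2 (h2 h)) fun h => b2 (h2 h)
      · exact le_rfl) (fun i b1 b2 => by
      split_ifs with b3
      · exact a2 i ((mem_union.1 b3).resolve_left fun h => b2 (h1 h)) fun h => b2 (h1 h)
      · exact le_rfl) ((sum_ext v hs z).trans a3) i (hs hi)
  simpa only [if_pos hi] using this

theorem Good.ind (h : Good v σ σ) : Ind v σ := fun z hz => by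
  simpa using h z (fun i a b => absurd a b) (fun i a b => absurd a b) (by simpa using hz)

theorem SepR.good (h : SepR v σ τ) (hi : Ind v (σ ∩ τ)) : Good v σ τ := by
  obtain ⟨F, h1, h2, h3⟩ := h
  intro z a1 a2 a3
  have e := congrArg F a3
  rw [map_sum, map_zero] at e
  simp only [map_smul, smul_eq_mul] at e
  have hp : ∀ i ∈ σ ∪ τ, 0 ≤ z i * F (v i) := fun i hi => by
    by_cases b1 : i ∈ σ <;> by_cases b2 : i ∈ τ
    · simp [h3 i b1 b2]
    · exact mul_nonneg (a1 i b1 b2) (h1 i b1 b2).le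
    · exact mul_nonneg_of_nonpos_of_nonpos (a2 i b2 b1) (h2 i b2 b1).le
    · simp [b1, b2] at hi
  have h0 : ∀ i ∈ σ ∪ τ, i ∉ σ ∩ τ → z i = 0 := fun i hi hn => by
    have := (sum_eq_zero_iff_of_nonneg hp).1 e i hi
    by_cases b1 : i ∈ σ <;> by_cases b2 : i ∈ τ
    · simp [b1, b2] at hn
    · exact (mul_eq_zero.1 this).resolve_right (h1 i b1 b2).ne'
    · exact (mul_eq_zero.1 this).resolve_right (h2 i b2 b1).ne
    · simp [b1, b2] at hi
  rw [← sum_subset inter_subset_union (fun i a b => by simp [h0 i a b])] at a3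
  intro i hi'
  by_cases b : i ∈ σ ∩ τ
  · exact hi z a3 i b
  · exact h0 i hi' b

theorem ind_of_sepR (h : ∀ i ∈ σ, SepR v σ (σ.erase i)) : Ind v σ := fun z hz i hi => by
  obtain ⟨F, h1, -, h3⟩ := h i hi
  have e := congrArg F hz
  rw [map_sum, map_zero, sum_eq_single_of_mem i hi fun j hj hji => by
    simp [h3 j hj (mem_erase.2 ⟨hji, hj⟩)]] at e
  simp only [map_smul, smul_eq_mul] at e
  exact (mul_eq_zero.1 e).resolve_right (h1 i hi (notMem_erase _ _)).ne'

theorem Good.comp {W : Type} [DecidableEq W] {g : W → V} (hg : Function.Injective g)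
    {s t : Finset W} (h : Good v (s.image g) (t.image g)) : Good (v ∘ g) s t := by
  intro z a1 a2 a3 i hi
  have := h (Function.extend g z 0) (by
      simp only [forall_mem_image, hg.extend_apply, hg.mem_finset_image]; exact a1) (by
      simp only [forall_mem_image, hg.extend_apply, hg.mem_finset_image]; exact a2) (by
      rw [← image_union, sum_image hg.injOn]; simpa only [hg.extend_apply, Function.comp_apply] using a3) (g i)
      (by rw [← image_union]; exact mem_image_of_mem _ hi)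
  rwa [hg.extend_apply] at this

theorem Ind.comp {W : Type} [DecidableEq W] {g : W → V} (hg : Function.Injective g)
    {s : Finset W} (h : Ind v (s.image g)) : Ind (v ∘ g) s :=
  (Good.comp hg (Ind.good (by simpa using h))).ind

theorem Ind.card_le [FiniteDimensional ℝ E] (h : Ind v σ) : σ.card ≤ finrank ℝ E := by
  simpa using (linearIndepOn_finset_iff.2 h).linearIndependent.fintype_card_le_finrank

theorem mem_hull {f : V → E} {x : E} : x ∈ convexHull ℝ (f '' σ) ↔
    ∃ w : V → ℝ, (∀ i ∈ σ, 0 ≤ w i) ∧ ∑ i ∈ σ, w i = 1 ∧ ∑ i ∈ σ, w i • f i = x := by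
  constructor
  · refine fun h => convexHull_min (t := {x | ∃ w : V → ℝ, (∀ i ∈ σ, 0 ≤ w i) ∧
      ∑ i ∈ σ, w i = 1 ∧ ∑ i ∈ σ, w i • f i = x}) ?_ ?_ h
    · rintro _ ⟨j, hj, rfl⟩
      refine ⟨fun i => if i = j then 1 else 0, fun i _ => by positivity, ?_, ?_⟩ <;>
        simp [mem_coe.1 hj]
    · rintro _ ⟨w, a1, a2, rfl⟩ _ ⟨w', b1, b2, rfl⟩ a b ha hb hab
      refine ⟨fun i => a * w i + b * w' i, fun i hi => by have := a1 i hi; have := b1 i hi; positivity,
        by simp [sum_add_distrib, ← mul_sum, a2, b2, hab], ?_⟩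
      simp [sum_add_distrib, smul_sum, add_smul, mul_smul]
  · rintro ⟨w, h1, h2, rfl⟩
    exact (convex_convexHull ℝ _).sum_mem h1 h2 fun i hi =>
      subset_convexHull ℝ _ (Set.mem_image_of_mem f hi)

/-- Homogeneous coordinates. -/
def hom (f : V → E) (i : V) : E × ℝ := (f i, 1)

theorem sum_hom (f : V → E) (z : V → ℝ) (s : Finset V) :
    ∑ i ∈ s, z i • hom f i = 0 ↔ ∑ i ∈ s, z i • f i = 0 ∧ ∑ i ∈ s, z i = 0 := by
  simp [Prod.ext_iff, Prod.fst_sum, Prod.snd_sum, hom]

theorem affInd_iff {f : V → E} : (AffineIndependent ℝ fun i : σ => f i) ↔ Ind (hom f) σ := by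
  rw [Ind, ← linearIndepOn_finset_iff, LinearIndepOn, linearIndependent_iff', affineIndependent_iff]
  refine forall₂_congr fun s w => ?_
  simp [Prod.ext_iff, Prod.fst_sum, Prod.snd_sum, hom, and_comm]

theorem hull_of_good {f : V → E} (h : Good (hom f) σ τ) :
    convexHull ℝ (f '' σ) ∩ convexHull ℝ (f '' τ) = convexHull ℝ (f '' (σ ∩ τ : Finset V)) := by
  refine Set.Subset.antisymm ?_ (Set.subset_inter
    (convexHull_mono (Set.image_mono (coe_subset.2 inter_subset_left)))
    (convexHull_mono (Set.image_mono (coe_subset.2 inter_subset_right))))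
  rintro x ⟨h1, h2⟩
  obtain ⟨w, a1, a2, a3⟩ := mem_hull.1 h1
  obtain ⟨w', b1, b2, b3⟩ := mem_hull.1 h2
  have := h (fun i => (if i ∈ σ then w i else 0) - if i ∈ τ then w' i else 0)
    (fun i a b => by simpa [a, b] using a1 i a) (fun i a b => by simpa [a, b] using b1 i a) (by
      simp only [sub_smul, sum_sub_distrib, sum_ext _ subset_union_left,
        sum_ext _ subset_union_right]
      simp [Prod.ext_iff, Prod.fst_sum, Prod.snd_sum, hom, a2, a3, b2, b3])
  have h0 : ∀ i ∈ σ, i ∉ σ ∩ τ → w i = 0 := fun i a b => by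
    have c : i ∉ τ := fun c => b (mem_inter.2 ⟨a, c⟩)
    simpa [a, c] using this i (mem_union_left _ a)
  refine mem_hull.2 ⟨w, fun i hi => a1 i (inter_subset_left hi), ?_, ?_⟩
  · rw [sum_subset inter_subset_left h0, a2]
  · rw [sum_subset inter_subset_left fun i a b => by simp [h0 i a b], a3]

theorem good_of_hull {f : V → E} (h1 : Ind (hom f) σ) (h2 : Ind (hom f) τ)
    (h : convexHull ℝ (f '' σ) ∩ convexHull ℝ (f '' τ) = convexHull ℝ (f '' (σ ∩ τ : Finset V))) :
    Good (hom f) σ τ := by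
  intro z a1 a2 a3
  have e1 : ∀ {M : Type} [AddCommGroup M] [Module ℝ M] (g : V → M),
      ∑ i ∈ σ, (z i)⁺ • g i - ∑ i ∈ τ, (z i)⁻ • g i = ∑ i ∈ σ ∪ τ, z i • g i := by
    intro M _ _ g
    rw [sum_subset (subset_union_left : σ ⊆ σ ∪ τ) fun i a b => by
        simp [posPart_eq_zero.2 (a2 i ((mem_union.1 a).resolve_left b) b)],
      sum_subset (subset_union_right : τ ⊆ σ ∪ τ) fun i a b => by
        simp [negPart_eq_zero.2 (a1 i ((mem_union.1 a).resolve_right b) b)], ← sum_sub_distrib]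
    simp [← sub_smul]
  obtain ⟨b1, b2⟩ := (sum_hom _ _ _).1 a3
  have e2 := (e1 f).trans b1
  have e3 := e1 fun _ => (1 : ℝ)
  simp only [smul_eq_mul, mul_one, b2, sub_eq_zero] at e2 e3
  have key : (∀ i ∈ σ, (z i)⁺ = 0) ∧ ∀ i ∈ τ, (z i)⁻ = 0 := by
    rcases (sum_nonneg fun i (_ : i ∈ σ) => posPart_nonneg (z i)).eq_or_lt with h0 | h0
    · exact ⟨(sum_eq_zero_iff_of_nonneg fun i _ => posPart_nonneg _).1 h0.symm,
        (sum_eq_zero_iff_of_nonneg fun i _ => negPart_nonneg _).1 (e3 ▸ h0.symm)⟩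
    · exfalso
      set m := ∑ i ∈ σ, (z i)⁺ with hm
      have c1 : m⁻¹ • ∑ i ∈ σ, (z i)⁺ • f i ∈ convexHull ℝ (f '' (σ ∩ τ : Finset V)) := by
        rw [← h]
        refine ⟨mem_hull.2 ⟨fun i => m⁻¹ * (z i)⁺, fun i _ => by positivity, ?_, ?_⟩,
          mem_hull.2 ⟨fun i => m⁻¹ * (z i)⁻, fun i _ => by positivity, ?_, ?_⟩⟩
        · rw [← mul_sum, ← hm, inv_mul_cancel₀ h0.ne']
        · simp [smul_sum, mul_smul]
        · rw [← mul_sum, ← e3, inv_mul_cancel₀ h0.ne']
        · simp [e2, smul_sum, mul_smul]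
      obtain ⟨w, c2, c3, c4⟩ := mem_hull.1 c1
      have c5 : ∑ i ∈ σ ∩ τ, (m * w i) • f i = ∑ i ∈ σ, (z i)⁺ • f i := by
        simp only [mul_smul, ← smul_sum, c4, smul_inv_smul₀ h0.ne']
      have c6 : ∑ i ∈ σ ∩ τ, m * w i = m := by rw [← mul_sum, c3, mul_one]
      have d1 := h1 (fun i => (z i)⁺ - if i ∈ σ ∩ τ then m * w i else 0) (by
        simp only [sub_smul, sum_sub_distrib, sum_ext _ inter_subset_left]
        simp [Prod.ext_iff, Prod.fst_sum, Prod.snd_sum, hom, c5, c6, ← hm])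
      have d2 := h2 (fun i => (z i)⁻ - if i ∈ σ ∩ τ then m * w i else 0) (by
        simp only [sub_smul, sum_sub_distrib, sum_ext _ inter_subset_right]
        simp [Prod.ext_iff, Prod.fst_sum, Prod.snd_sum, hom, c5, c6, ← e2, ← e3])
      refine h0.ne' (c6.symm.trans (sum_eq_zero fun i hi => ?_))
      have d3 := d1 i (inter_subset_left hi)
      have d4 := d2 i (inter_subset_right hi)
      simp only [if_pos hi, sub_eq_zero] at d3 d4
      rcases le_total (z i) 0 with h | h
      · rw [← d3, posPart_eq_zero.2 h]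
      · rw [← d4, negPart_eq_zero.2 h]
  intro i hi
  by_cases c1 : i ∈ σ <;> by_cases c2 : i ∈ τ
  · exact le_antisymm (posPart_eq_zero.1 (key.1 i c1)) (negPart_eq_zero.1 (key.2 i c2))
  · exact le_antisymm (posPart_eq_zero.1 (key.1 i c1)) (a1 i c1 c2)
  · exact le_antisymm (a2 i c2 c1) (negPart_eq_zero.1 (key.2 i c2))
  · simp [c1, c2] at hi

theorem emb_iff {d : ℕ} {L : List (List V)} (hL : ∀ l ∈ L, l ≠ []) {f : V → Fin d → ℝ} :
    IsEmbedding (complexOf L) f ↔ ∀ l ∈ L, ∀ l' ∈ L, Good (hom f) l.toFinset l'.toFinset := by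
  constructor
  · rintro ⟨h1, h2⟩ l hl l' hl'
    have hm : ∀ l ∈ L, l.toFinset ∈ complexOf L := fun l hl =>
      ⟨by simpa using hL l hl, l, hl, fun v => List.mem_toFinset.1⟩
    exact good_of_hull (affInd_iff.1 (h1 _ (hm l hl))) (affInd_iff.1 (h1 _ (hm l' hl')))
      (h2 _ (hm l hl) _ (hm l' hl'))
  · intro h
    have : ∀ σ ∈ complexOf L, ∀ τ ∈ complexOf L, Good (hom f) σ τ := by
      rintro σ ⟨-, l, hl, h1⟩ τ ⟨-, l', hl', h2⟩
      exact (h l hl l' hl').mono (fun v hv => List.mem_toFinset.2 (h1 v hv))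
        fun v hv => List.mem_toFinset.2 (h2 v hv)
    exact ⟨fun σ hσ => affInd_iff.2 (this σ hσ σ hσ).ind,
      fun σ hσ τ hτ => hull_of_good (this σ hσ τ hτ)⟩

theorem exists_gp [Countable V] [FiniteDimensional ℝ E] (v : V → E) (U : Finset V) :
    ∃ w : V → E, ∀ᶠ ε in 𝓝[>] (0 : ℝ), ∀ s ⊆ U, s.card ≤ finrank ℝ E →
      Ind (fun i => v i + ε • w i) s := by
  obtain ⟨t, ht⟩ := exists_injective_nat V
  let b := finBasis ℝ E
  let w : V → E := fun i => ∑ j : Fin _, (t i : ℝ) ^ (j : ℕ) • b j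
  have hw : ∀ s : Finset V, s.card ≤ finrank ℝ E → Ind w s := by
    intro s hs z hz i hi
    have h1 : ∀ j < finrank ℝ E, ∑ k ∈ s, z k * (t k : ℝ) ^ j = 0 := fun j hj => by
      simpa [w, Finsupp.single_apply] using congrArg (b.coord ⟨j, hj⟩) hz
    let p : Polynomial ℝ := ∏ k ∈ s.erase i, (Polynomial.X - Polynomial.C (t k : ℝ))
    have h2 : p.natDegree < finrank ℝ E := by
      rw [Polynomial.natDegree_finsetProd_X_sub_C_eq_card, card_erase_of_mem hi]
      have := card_pos.2 ⟨i, hi⟩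
      omega
    have h3 : ∑ k ∈ s, z k * p.eval (t k : ℝ) = 0 := by
      simp only [Polynomial.eval_eq_sum_range' h2, mul_sum]
      rw [sum_comm]
      refine sum_eq_zero fun j hj => ?_
      have := h1 j (mem_range.1 hj)
      simp only [mul_left_comm _ (p.coeff j), ← mul_sum, this, mul_zero]
    rw [sum_eq_single_of_mem i hi fun k hk hki => by
      rw [Polynomial.eval_prod, prod_eq_zero (mem_erase.2 ⟨hki, hk⟩) (by simp), mul_zero]] at h3
    refine (mul_eq_zero.1 h3).resolve_right ?_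
    rw [Polynomial.eval_prod]
    refine prod_ne_zero_iff.2 fun k hk => ?_
    simpa [sub_eq_zero, ht.eq_iff] using (mem_erase.1 hk).1.symm
  refine ⟨w, ?_⟩
  simp only [← mem_powerset]
  refine (eventually_all_finset _).2 fun s _ => eventually_all.2 fun hs => ?_
  let B := Fintype.linearCombination ℝ fun i : s => w i
  let A := Fintype.linearCombination ℝ fun i : s => v i
  have hB : LinearMap.ker B = ⊥ := LinearMap.ker_eq_bot.2
    (linearIndependent_iff_injective_fintypeLinearCombination.1 (linearIndepOn_finset_iff.2 (hw s hs)))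
  obtain ⟨B', hB'⟩ := B.exists_leftInverse_of_injective hB
  have hf := (Module.End.finite_hasEigenvalue (-(B' ∘ₗ A))).sdiff (t := {0})
  filter_upwards [self_mem_nhdsWithin, nhdsWithin_le_nhds (hf.isClosed.isOpen_compl.mem_nhds
    (by simp : (0 : ℝ) ∈ _ᶜ))] with ε h1 h2 z hz
  by_contra hn
  push Not at hn
  obtain ⟨i, hi, hn⟩ := hn
  refine h2 ⟨Module.End.hasEigenvalue_of_hasEigenvector (x := fun i : s => z i)
    ⟨Module.End.mem_eigenspace_iff.2 ?_, fun h => hn (congrFun h ⟨i, hi⟩)⟩, ne_of_gt h1⟩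
  have e : A (fun i : s => z i) + ε • B (fun i : s => z i) = 0 := by
    rw [← sum_coe_sort] at hz
    simpa [A, B, Fintype.linearCombination_apply, smul_sum, sum_add_distrib, smul_smul, mul_comm]
      using hz
  have e2 := congrArg B' e
  rw [map_add, map_smul, map_zero, ← LinearMap.comp_apply B' B, hB'] at e2
  simpa [neg_eq_iff_add_eq_zero] using e2

end alg

theorem Good.sepR {E : Type} [NormedAddCommGroup E] [NormedSpace ℝ E] [FiniteDimensional ℝ E]
    {v : V → E} {σ τ : Finset V} (h : Good v σ τ) : SepR v σ τ := by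
  let u : V → E := fun i => if i ∈ σ then v i else -v i
  let U := Submodule.span ℝ (v '' (σ ∩ τ : Finset V))
  have hd : Disjoint (convexHull ℝ (u '' ((σ ∪ τ) \ (σ ∩ τ) : Finset V))) (U : Set E) := by
    refine Set.disjoint_left.2 fun x h1 h2 => ?_
    obtain ⟨w, a1, a2, a3⟩ := mem_hull.1 h1
    obtain ⟨w', b1⟩ := (Submodule.mem_span_image_finset_iff_exists_fun' ℝ).1 h2
    have := h (fun i => if i ∈ σ ∩ τ then -w' i else if i ∈ σ then w i else -w i)
      (fun i a b => by simpa [a, b] using a1 i (by simp [a, b]))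
      (fun i a b => by simpa [a, b] using a1 i (by simp [a, b])) (by
        rw [← sum_sdiff inter_subset_union, ← sub_eq_zero.2 (a3.trans b1.symm), sub_eq_add_neg,
          ← sum_neg_distrib]
        congr 1 <;> refine sum_congr rfl fun i hi => ?_
        · rw [if_neg (mem_sdiff.1 hi).2]
          simp only [u]
          split_ifs <;> simp
        · simp only [if_pos hi, neg_smul])
    refine one_ne_zero (a2.symm.trans (sum_eq_zero fun i hi => ?_))
    have := this i (mem_sdiff.1 hi).1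
    rw [if_neg (mem_sdiff.1 hi).2] at this
    split_ifs at this <;> simpa using this
  obtain ⟨f, s, t, h1, h2, h3⟩ := geometric_hahn_banach_compact_closed (convex_convexHull ℝ _)
    (((finite_toSet _).image u).isCompact_convexHull ℝ) U.convex U.closed_of_finiteDimensional hd
  have h4 : ∀ x ∈ U, f x = 0 := fun x hx => by
    by_contra hn
    have := h3 ((t / f x) • x) (U.smul_mem _ hx)
    simp [div_mul_cancel₀ _ hn] at this
  have h5 : ∀ i ∈ (σ ∪ τ) \ (σ ∩ τ), f (u i) < 0 := fun i hi => by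
    have a1 := h1 _ (subset_convexHull ℝ _ (Set.mem_image_of_mem u (mem_coe.2 hi)))
    have a2 := h3 0 U.zero_mem
    rw [map_zero] at a2
    linarith
  refine ⟨-f.toLinearMap, fun i a b => ?_, fun i a b => ?_, fun i a b => ?_⟩
  · simpa [u, a] using h5 i (by simp [a, b])
  · simpa [u, b] using h5 i (by simp [a, b])
  · simpa using h4 _ (Submodule.subset_span (Set.mem_image_of_mem v (by simp [a, b])))

end Pool.Agent.P.MP_2b4a47_lc
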