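import Pool.Agent.P.MP_2b4a47_lc.Lin

/-! Linking numbers mod 2 of linear spheres, through the rank two dual. -/

namespace Pool.Agent.P.MP_2b4a47_lc

open Finset Module

variable {V : Type} [DecidableEq V]

open Classical in
noncomputable def ind (p : Prop) : ZMod 2 := if p then 1 else 0

theorem ind_congr {p q : Prop} (h : p ↔ q) : ind p = ind q := by rw [propext h]

noncomputable def cnt (β r : V → ℝ) (U : Finset V) (j : V) : ℕ :=
  ((U.erase j).filter fun i => 0 < β i * (r j - r i)).card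

theorem ind_step (a b c : ℤ) : ind (c < a) + ind (c < b) + ind (a = c) =
    ind (c < a + 1) + ind (c < b) := by
  unfold ind
  split_ifs <;> first | rfl | omega

theorem ind_step' (a b c : ℤ) : ind (c - 1 < a) + ind (c - 1 < b) + ind (a = c) =
    ind (c < a) + ind (c < b + 1) := by
  unfold ind
  split_ifs <;> first | rfl | omega

theorem parity (β r : V → ℝ) (U : Finset V) (hβ : ∀ i ∈ U, β i ≠ 0) (hr : Set.InjOn r U) (c : ℤ) :
    ∑ j ∈ U, ind ((cnt β r U j : ℤ) = c) =
      ind (c < (U.filter fun i => 0 < β i).card) + ind (c < (U.filter fun i => β i < 0).card) := by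
  induction U using induction_on_max_value r generalizing c with
  | empty => simp [CharTwo.add_self_eq_zero]
  | insert a s ha hm ih =>
    have ih := ih (fun i hi => hβ i (mem_insert_of_mem hi)) (hr.mono (by simp))
    have hlt : ∀ i ∈ s, r i < r a := fun i hi => (hm i hi).lt_of_ne fun h =>
      ha (hr (by simp [hi]) (by simp) h ▸ hi)
    have h1 : cnt β r (insert a s) a = (s.filter fun i => 0 < β i).card := by
      rw [cnt, erase_insert ha]
      exact congrArg _ (filter_congr fun i hi => mul_pos_iff_of_pos_right (sub_pos.2 (hlt i hi)))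
    have h2 : ∀ j ∈ s, cnt β r (insert a s) j = cnt β r s j + if β a < 0 then 1 else 0 := by
      intro j hj
      have : 0 < β a * (r j - r a) ↔ β a < 0 := by
        have := sub_neg.2 (hlt j hj)
        exact ⟨fun h => by nlinarith, fun h => mul_pos_of_neg_of_neg h this⟩
      rw [cnt, erase_insert_of_ne (by rintro rfl; exact ha hj), filter_insert]
      simp only [this]
      split_ifs
      · rw [card_insert_of_notMem (by simp [ha]), cnt]
      · rfl
    rw [sum_insert ha, h1, sum_congr rfl fun j hj => by rw [h2 j hj], filter_insert, filter_insert,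
      add_comm]
    rcases lt_or_gt_of_ne (hβ a (mem_insert_self _ _)) with h | h
    · simp only [if_pos h, if_neg h.not_gt]
      rw [card_insert_of_notMem (by simp [ha]), sum_congr rfl fun j _ =>
        ind_congr (q := (cnt β r s j : ℤ) = c - 1) (by push_cast; omega), ih]
      exact_mod_cast ind_step' _ _ _
    · simp only [if_pos h, if_neg h.not_gt, add_zero]
      rw [card_insert_of_notMem (by simp [ha]), ih]
      exact_mod_cast ind_step _ _ _

variable {E : Type} [AddCommGroup E] [Module ℝ E] [FiniteDimensional ℝ E] {u : V → E}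
  (hu : ∀ s : Finset V, s.card ≤ finrank ℝ E → Ind u s)
include hu

theorem dep_zero {W : Finset V} (hW : W.card = finrank ℝ E + 1) {z : V → ℝ}
    (hz : ∑ i ∈ W, z i • u i = 0) {j : V} (hj : j ∈ W) (h0 : z j = 0) : ∀ i ∈ W, z i = 0 := by
  intro i hi
  by_cases h : i = j
  · rw [h, h0]
  · refine hu (W.erase j) (by rw [card_erase_of_mem hj]; omega) z ?_ i (mem_erase.2 ⟨h, hi⟩)
    rwa [sum_erase _ (by simp [h0])]

theorem not_good_iff {A B : Finset V} (hAB : Disjoint A B) (hW : (A ∪ B).card = finrank ℝ E + 1)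
    {y : V → ℝ} (hy : ∑ i ∈ A ∪ B, y i • u i = 0) (hy' : ∀ i ∈ A ∪ B, y i ≠ 0) :
    ¬ Good u A B ↔ ((∀ i ∈ A, 0 < y i) ∧ ∀ i ∈ B, y i < 0) ∨
      (∀ i ∈ A, y i < 0) ∧ ∀ i ∈ B, 0 < y i := by
  obtain ⟨j, hj⟩ : (A ∪ B).Nonempty := card_pos.1 (by omega)
  constructor
  · intro h
    unfold Good at h
    push Not at h
    obtain ⟨z, h1, h2, h3, k, hk, h4⟩ := h
    have h5 := dep_zero hu hW (z := fun i => y i - y k / z k * z i) (by
      simp [sub_smul, sum_sub_distrib, hy, mul_smul, ← smul_sum, h3]) hk (by field_simp; ring)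
    have h6 : ∀ i ∈ A, y i = y k / z k * z i ∧ 0 ≤ z i ∧ y i ≠ 0 := fun i hi =>
      ⟨sub_eq_zero.1 (h5 i (mem_union_left _ hi)), h1 i hi (disjoint_left.1 hAB hi),
        hy' i (mem_union_left _ hi)⟩
    have h7 : ∀ i ∈ B, y i = y k / z k * z i ∧ z i ≤ 0 ∧ y i ≠ 0 := fun i hi =>
      ⟨sub_eq_zero.1 (h5 i (mem_union_right _ hi)), h2 i hi (disjoint_right.1 hAB hi),
        hy' i (mem_union_right _ hi)⟩
    rcases le_total 0 (y k / z k) with h | h
    · refine .inl ⟨fun i hi => ?_, fun i hi => ?_⟩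
      · obtain ⟨a, b, c⟩ := h6 i hi
        exact (a ▸ mul_nonneg h b).lt_of_ne' c
      · obtain ⟨a, b, c⟩ := h7 i hi
        exact (a ▸ mul_nonpos_of_nonneg_of_nonpos h b).lt_of_ne c
    · refine .inr ⟨fun i hi => ?_, fun i hi => ?_⟩
      · obtain ⟨a, b, c⟩ := h6 i hi
        exact (a ▸ mul_nonpos_of_nonpos_of_nonneg h b).lt_of_ne c
      · obtain ⟨a, b, c⟩ := h7 i hi
        exact (a ▸ mul_nonneg_of_nonpos_of_nonpos h b).lt_of_ne' c
  · rintro (⟨h1, h2⟩ | ⟨h1, h2⟩) h
    · exact hy' j hj (h y (fun i a _ => (h1 i a).le) (fun i a _ => (h2 i a).le) hy j hj)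
    · exact hy' j hj (h.symm y (fun i a _ => (h2 i a).le) (fun i a _ => (h1 i a).le)
        (by rwa [union_comm]) j (by rwa [union_comm]))

theorem exists_dep {W : Finset V} (hW : W.card = finrank ℝ E + 2) {j : V} (hj : j ∈ W) :
    ∃ z : V → ℝ, ∑ i ∈ W, z i • u i = 0 ∧ z j = 0 ∧ ∀ i ∈ W, i ≠ j → z i ≠ 0 := by
  have h1 : (W.erase j).card = finrank ℝ E + 1 := by rw [card_erase_of_mem hj]; omega
  have : ¬ Ind u (W.erase j) := fun h => by have := h.card_le; omega
  unfold Ind at this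
  push Not at this
  obtain ⟨z, h2, k, hk, h3⟩ := this
  refine ⟨fun i => if i ∈ W.erase j then z i else 0, (sum_ext u (erase_subset _ _) z).trans h2,
    by simp, fun i hi hij => ?_⟩
  simp only [if_pos (mem_erase.2 ⟨hij, hi⟩)]
  exact fun h => h3 (dep_zero hu h1 h2 (mem_erase.2 ⟨hij, hi⟩) h k hk)

theorem rank_two {U : Finset V} (hU : U.card = finrank ℝ E + 2) :
    ∃ β r : V → ℝ, (∀ i ∈ U, β i ≠ 0) ∧ Set.InjOn r U ∧ ∀ j ∈ U, ∀ A B : Finset V, Disjoint A B →
      A ∪ B = U.erase j → (¬ Good u A B ↔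
        ((∀ i ∈ A, 0 < β i * (r j - r i)) ∧ ∀ i ∈ B, β i * (r j - r i) < 0) ∨
        (∀ i ∈ A, β i * (r j - r i) < 0) ∧ ∀ i ∈ B, 0 < β i * (r j - r i)) := by
  obtain ⟨j0, h0, j1, h1, h01⟩ := one_lt_card.1 (by omega : 1 < U.card)
  obtain ⟨α, a1, a2, a3⟩ := exists_dep hu hU h0
  obtain ⟨γ, b1, b2, b3⟩ := exists_dep hu hU h1
  obtain ⟨t, ht⟩ := Infinite.exists_notMem_finset (U.image fun i => -γ i / α i)
  have hβ : ∀ i ∈ U, γ i + t * α i ≠ 0 := fun i hi h => by
    by_cases h2 : i = j0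
    · exact b3 j0 h0 h01 (by simpa [h2, a2] using h)
    · refine ht (mem_image.2 ⟨i, hi, ?_⟩)
      have := a3 i hi h2
      field_simp
      linarith
  have hy : ∀ j ∈ U, ∑ i ∈ U.erase j, ((γ i + t * α i) *
      (α j / (γ j + t * α j) - α i / (γ i + t * α i))) • u i = 0 := fun j hj => by
    rw [sum_erase _ (by simp), sum_congr rfl fun i hi => by
      rw [mul_sub, mul_div_cancel₀ _ (hβ i hi), mul_comm]]
    simp [sub_smul, add_smul, sum_sub_distrib, sum_add_distrib, mul_smul, ← smul_sum, a1, b1]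
  have hc : ∀ j ∈ U, (U.erase j).card = finrank ℝ E + 1 := fun j hj => by
    rw [card_erase_of_mem hj]; omega
  have hy' : ∀ j ∈ U, ∀ i ∈ U.erase j, (γ i + t * α i) *
      (α j / (γ j + t * α j) - α i / (γ i + t * α i)) ≠ 0 := fun j hj i hi h => by
    have h2 : ∀ k ∈ U, α j / (γ j + t * α j) = α k / (γ k + t * α k) := fun k hk => by
      by_cases h3 : k = j
      · rw [h3]
      · exact sub_eq_zero.1 ((mul_eq_zero.1 (dep_zero hu (hc j hj) (hy j hj) hi h k
          (mem_erase.2 ⟨h3, hk⟩))).resolve_left (hβ k hk))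
    have h3 := (h2 j1 h1).symm.trans (h2 j0 h0)
    rw [a2, zero_div] at h3
    exact div_ne_zero (a3 j1 h1 h01.symm) (hβ j1 h1) h3
  refine ⟨fun i => γ i + t * α i, fun i => α i / (γ i + t * α i), hβ, fun i hi j hj h => ?_,
    fun j hj A B h2 h3 => not_good_iff hu h2 (h3 ▸ hc j hj) (h3 ▸ hy j hj) (h3 ▸ hy' j hj)⟩
  by_contra hn
  exact hy' j hj i (mem_erase.2 ⟨hn, hi⟩) (by simp only at h; rw [h, sub_self, mul_zero])

/-- The linking number mod 2 of the boundaries of the simplices `S` and `τ`. -/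
noncomputable def Lk (u : V → E) (S τ : Finset V) : ZMod 2 := ∑ j ∈ τ, ind (¬ Good u S (τ.erase j))

theorem Lk_eq {S τ : Finset V} (hd : Disjoint S τ) (hc : (S ∪ τ).card = finrank ℝ E + 2) :
    Lk u S τ = ∑ j ∈ S, ind (¬ Good u (S.erase j) τ) := by
  obtain ⟨β, r, h1, h2, h3⟩ := rank_two hu hc
  let β' : V → ℝ := fun i => if i ∈ S then β i else -β i
  have h1' : ∀ i ∈ S ∪ τ, β' i ≠ 0 := fun i hi => by
    simp only [β']
    split_ifs <;> simpa using h1 i hi
  have key : ∀ j ∈ S ∪ τ, ind (¬ Good u (S.erase j) (τ.erase j)) =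
      ind ((cnt β' r (S ∪ τ) j : ℤ) = 0) +
        ind ((cnt β' r (S ∪ τ) j : ℤ) = (finrank ℝ E + 1 : ℕ)) := by
    intro j hj
    have a1 : ((S ∪ τ).erase j).card = finrank ℝ E + 1 := by rw [card_erase_of_mem hj]; omega
    have a2 : ∀ i ∈ (S ∪ τ).erase j, β' i * (r j - r i) ≠ 0 := fun i hi =>
      mul_ne_zero (h1' i (mem_of_mem_erase hi)) (sub_ne_zero.2 fun h =>
        (mem_erase.1 hi).1 (h2 (mem_of_mem_erase hi) hj h.symm))
    have a3 : ∀ P : ℝ → Prop, (∀ i ∈ (S ∪ τ).erase j, P (β' i * (r j - r i))) ↔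
        (∀ i ∈ S.erase j, P (β i * (r j - r i))) ∧ ∀ i ∈ τ.erase j, P (-(β i * (r j - r i))) := by
      intro P
      rw [erase_union_distrib, forall_mem_union]
      refine and_congr (forall₂_congr fun i hi => ?_) (forall₂_congr fun i hi => ?_)
      · simp only [β', if_pos (mem_of_mem_erase hi)]
      · simp only [β', if_neg (disjoint_right.1 hd (mem_of_mem_erase hi)), neg_mul]
    have a4 : (cnt β' r (S ∪ τ) j : ℤ) = (finrank ℝ E + 1 : ℕ) ↔
        ∀ i ∈ (S ∪ τ).erase j, 0 < β' i * (r j - r i) := by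
      rw [Nat.cast_inj, ← a1, cnt, card_filter_eq_iff]
    have a5 : (cnt β' r (S ∪ τ) j : ℤ) = 0 ↔ ∀ i ∈ (S ∪ τ).erase j, β' i * (r j - r i) < 0 := by
      rw [Nat.cast_eq_zero, cnt, card_eq_zero, filter_eq_empty_iff]
      exact forall₂_congr fun i hi => ⟨fun h => (not_lt.1 h).lt_of_ne (a2 i hi), fun h => h.not_gt⟩
    have a6 := h3 j hj _ _ (hd.mono (erase_subset j _) (erase_subset j _))
      (erase_union_distrib _ _ _).symm
    have a7 := a3 fun x => 0 < x
    have a8 := a3 fun x => x < 0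
    simp only [neg_pos, neg_lt_zero] at a7 a8
    rw [← a7, ← a8, ← a4, ← a5] at a6
    rw [ind_congr a6]
    unfold ind
    split_ifs <;> first | rfl | omega
  have h4 := sum_congr rfl key
  have h5 := card_filter_add_card_filter_not (s := S ∪ τ) fun i => 0 < β' i
  rw [filter_congr (q := fun i => β' i < 0) fun i hi =>
    ⟨fun h => (not_lt.1 h).lt_of_ne (h1' i hi), fun h => h.not_gt⟩] at h5
  rw [sum_add_distrib, parity _ _ _ h1' h2, parity _ _ _ h1' h2, sum_union hd,
    sum_congr rfl fun j hj => by rw [erase_eq_of_notMem (disjoint_left.1 hd hj)],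
    sum_congr (s₁ := τ) rfl fun j hj => by rw [erase_eq_of_notMem (disjoint_right.1 hd hj)]] at h4
  rw [← CharTwo.add_eq_zero, add_comm]
  refine h4.trans ?_
  unfold ind
  split_ifs <;> first | rfl | omega

theorem Lk_face {S τ : Finset V} (hd : Disjoint S τ) (hc : (S ∪ τ).card = finrank ℝ E + 2)
    (h : ∀ j ∈ S, Good u (S.erase j) τ) : Lk u S τ = 0 := by
  rw [Lk_eq hu hd hc]
  exact sum_eq_zero fun j hj => by simp [ind, h j hj]

theorem Lk_vk {S T : Finset V} {c : ℕ} (hn : finrank ℝ E = 2 * c + 1) (hd : Disjoint S T)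
    (hS : S.card = c + 2) (hT : T.card = c + 1)
    (h : ∀ A B : Finset V, A ⊆ S ∪ T → B ⊆ S ∪ T → Disjoint A B → A.card = c + 1 →
      B.card = c + 1 → A ≠ T → B ≠ T → Good u A B) : Lk u S T = 1 := by
  have hc : (S ∪ T).card = finrank ℝ E + 2 := by rw [card_union_of_disjoint hd]; omega
  rw [Lk_eq hu hd hc]
  obtain ⟨β, r, h1, h2, h3⟩ := rank_two hu hc
  have h4 := parity β r _ h1 h2 (c + 1 : ℕ)
  have h5 := card_filter_add_card_filter_not (s := S ∪ T) fun i => 0 < β i
  rw [filter_congr (q := fun i => β i < 0) fun i hi =>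
    ⟨fun h => (not_lt.1 h).lt_of_ne (h1 i hi), fun h => h.not_gt⟩] at h5
  have key : ∀ j ∈ S ∪ T, (cnt β r (S ∪ T) j : ℤ) = (c + 1 : ℕ) ↔
      j ∈ S ∧ ¬ Good u (S.erase j) T := by
    intro j hj
    have a1 : ((S ∪ T).erase j).card = 2 * c + 2 := by rw [card_erase_of_mem hj]; omega
    have a2 : ∀ i ∈ (S ∪ T).erase j, ¬ 0 < β i * (r j - r i) → β i * (r j - r i) < 0 :=
      fun i hi h => (not_lt.1 h).lt_of_ne (mul_ne_zero (h1 i (mem_of_mem_erase hi))
        (sub_ne_zero.2 fun h => (mem_erase.1 hi).1 (h2 (mem_of_mem_erase hi) hj h.symm)))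
    have a3 := card_filter_add_card_filter_not (s := (S ∪ T).erase j)
      fun i => 0 < β i * (r j - r i)
    rw [Nat.cast_inj, cnt]
    set A := ((S ∪ T).erase j).filter fun i => 0 < β i * (r j - r i) with hA
    set B := ((S ∪ T).erase j).filter fun i => ¬ 0 < β i * (r j - r i) with hB
    have a4 : Disjoint A B := disjoint_filter_filter_not _ _ _
    have a5 : A ∪ B = (S ∪ T).erase j := filter_union_filter_not_eq _ _
    constructor
    · intro b1
      have b2 := (h3 j hj A B a4 a5).2 (.inl ⟨fun i hi => (mem_filter.1 hi).2,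
        fun i hi => a2 i (mem_filter.1 hi).1 (mem_filter.1 hi).2⟩)
      have b3 : ∀ A B : Finset V, Disjoint A B → A ∪ B = (S ∪ T).erase j → ¬ Good u A B →
          B = T → j ∈ S ∧ ¬ Good u (S.erase j) T := by
        intro A B c1 c2 c3 c0
        rw [c0] at c1 c2 c3
        have c4 : j ∉ T := fun h => notMem_erase j _ (c2 ▸ mem_union_right A h)
        refine ⟨(mem_union.1 hj).resolve_right c4, ?_⟩
        rw [erase_union_distrib, erase_eq_of_notMem c4] at c2
        rwa [← union_sdiff_cancel_right (hd.mono_left (erase_subset j _)), ← c2,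
          union_sdiff_cancel_right c1]
      by_cases b4 : B = T
      · exact b3 A B a4 a5 b2 b4
      · by_cases b5 : A = T
        · exact b3 B A a4.symm (by rwa [union_comm]) (fun h => b2 h.symm) b5
        · exact absurd (h A B ((filter_subset _ _).trans (erase_subset _ _))
            ((filter_subset _ _).trans (erase_subset _ _)) a4 b1 (by omega) b5 b4) b2
    · rintro ⟨b1, b2⟩
      have b3 : S.erase j ∪ T = (S ∪ T).erase j := by
        rw [erase_union_distrib, erase_eq_of_notMem (disjoint_left.1 hd b1)]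
      have b4 : (S.erase j).card = c + 1 := by rw [card_erase_of_mem b1]; omega
      rcases (h3 j hj _ _ (hd.mono_left (erase_subset j _)) b3).1 b2 with ⟨c1, c2⟩ | ⟨c1, c2⟩
      · have d1 := card_le_card (show S.erase j ⊆ A from fun i hi =>
          mem_filter.2 ⟨b3 ▸ mem_union_left _ hi, c1 i hi⟩)
        have d2 := card_le_card (show T ⊆ B from fun i hi =>
          mem_filter.2 ⟨b3 ▸ mem_union_right _ hi, (c2 i hi).not_gt⟩)
        omega
      · have d1 := card_le_card (show S.erase j ⊆ B from fun i hi =>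
          mem_filter.2 ⟨b3 ▸ mem_union_left _ hi, (c1 i hi).not_gt⟩)
        have d2 := card_le_card (show T ⊆ A from fun i hi =>
          mem_filter.2 ⟨b3 ▸ mem_union_right _ hi, c2 i hi⟩)
        omega
  rw [sum_congr rfl fun j hj => ind_congr (key j hj), sum_union hd,
    sum_congr rfl fun j hj => ind_congr (and_iff_right hj),
    sum_eq_zero (s := T) fun j hj => by simp [ind, disjoint_right.1 hd hj], add_zero] at h4
  refine h4.trans ?_
  unfold ind
  split_ifs <;> first | rfl | omega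

omit hu in
theorem Lk_swap (S : Finset V) {Q : Finset V} {a b : V} (ha : a ∈ Q) (hb : b ∈ Q) (hab : a ≠ b)
    (h : ∀ x ∈ Q, x ≠ a → x ≠ b → Lk u S (Q.erase x) = 0) :
    Lk u S (Q.erase a) = Lk u S (Q.erase b) := by
  have h1 : ∑ x ∈ Q, Lk u S (Q.erase x) = 0 := by
    simp only [Lk]
    rw [sum_sigma']
    refine sum_involution (fun p _ => ⟨p.2, p.1⟩) (fun p _ => ?_) (fun p hp _ h => ?_)
      (fun p hp => ?_) fun _ _ => rfl
    · rw [erase_right_comm, CharTwo.add_self_eq_zero]
    · exact (mem_erase.1 (mem_sigma.1 hp).2).1 (congrArg Sigma.fst h)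
    · simp only [mem_sigma, mem_erase] at hp ⊢
      exact ⟨hp.2.2, hp.2.1.symm, hp.1⟩
  rw [← sum_subset (s₁ := {a, b}) (by simp [insert_subset_iff, ha, hb])
    (fun x hx hn => h x hx (by simp at hn; exact hn.1) (by simp at hn; exact hn.2)),
    sum_pair hab] at h1
  exact CharTwo.add_eq_zero.1 h1

theorem not_side {S τ M : Finset V} (hd : Disjoint S τ) (hc : (S ∪ M).card ≤ finrank ℝ E)
    (h : Lk u S τ = 1) (F : E →ₗ[ℝ] ℝ) (hF : ∀ i ∈ S ∪ M, F (u i) = 0) :
    ¬ ∀ i ∈ τ, i ∉ M → 0 < F (u i) := by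
  intro h1
  refine one_ne_zero (h.symm.trans (sum_eq_zero fun j _ => ?_))
  have : Good u S (τ.erase j) := by
    have h2 : Good u (S ∪ M) (S ∪ M ∪ τ) := SepR.good ⟨-F, fun i a b => absurd (mem_union_left _ a) b,
      fun i a b => by
        simpa using h1 i ((mem_union.1 a).resolve_left b) fun h => b (mem_union_right _ h),
      fun i a _ => by simpa using hF i a⟩ ((hu _ hc).mono inter_subset_left)
    intro z a1 a2 a3 i hi
    have hs : S ∪ τ.erase j ⊆ S ∪ M ∪ (S ∪ M ∪ τ) := fun i hi => by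
      simp only [mem_union, mem_erase] at hi ⊢
      tauto
    have := h2 (fun i => if i ∈ S ∪ τ.erase j then z i else 0)
      (fun i a b => absurd (mem_union_left _ a) b) (fun i a b => by
        split_ifs with c
        · have d : i ∉ S := fun h => b (mem_union_left _ h)
          exact a2 i ((mem_union.1 c).resolve_left d) d
        · exact le_rfl) ((sum_ext u hs z).trans a3) i (hs hi)
    simpa only [if_pos hi] using this
  simp [ind, this]

end Pool.Agent.P.MP_2b4a47_lc
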