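import Pool.Agent.P.MP_2b4a47_lc.PlDeg

/-! Contraction sequences of triangulations. -/

namespace Pool.Agent.P.MP_2b4a47_lc.Pl

open Finset Filter Topology

variable {V : Type} [DecidableEq V] {f : V → Pt} {U : Finset V} {A B C : V} {T : Finset (T3 V)}

omit [DecidableEq V] in
theorem Chain.not_both (h : Chain f A B C T) {a b c : V} (ht : (a, b, c) ∈ T) :
    (a, c, b) ∉ T := fun ht' => by
  have h1 := h.pos _ _ _ ht
  have h2 := h.pos _ _ _ ht'
  rw [det3_swap'] at h2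
  linarith

theorem Chain.cond (h : Chain f A B C T) {p a : V} (hpa : p ≠ a) : Cond T p a :=
  ⟨hpa, fun _ _ h1 h2 => h.uniq (h.rot _ _ _ (h.rot _ _ _ h1)) (h.rot _ _ _ (h.rot _ _ _ h2)),
    fun _ _ h1 h2 => h.uniq h1 h2, fun _ h1 => h.not_both h1⟩

theorem has_iff {x y z v : V} : has (x, y, z) v = true ↔ x = v ∨ y = v ∨ z = v := by
  simp [has, or_assoc]

theorem mem_keep {p a x y z : V} : (x, y, z) ∈ T.filter (fun t => !(has t p && has t a)) ↔
    (x, y, z) ∈ T ∧ ¬ ((x = p ∨ y = p ∨ z = p) ∧ (x = a ∨ y = a ∨ z = a)) := by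
  rw [mem_filter, ← has_iff, ← has_iff, ← Bool.and_eq_true, Bool.not_eq_true', Bool.not_eq_true]

theorem mem_contract {p a : V} {t : T3 V} : t ∈ contract T p a ↔ ∃ x y z, (x, y, z) ∈ T ∧
    ¬ ((x = p ∨ y = p ∨ z = p) ∧ (x = a ∨ y = a ∨ z = a)) ∧
      (ren p a x, ren p a y, ren p a z) = t := by
  rw [contract, mem_image]
  constructor
  · rintro ⟨⟨x, y, z⟩, h1, h2⟩
    exact ⟨x, y, z, (mem_keep.1 h1).1, (mem_keep.1 h1).2, h2⟩
  · rintro ⟨x, y, z, h1, h2, h3⟩
    exact ⟨(x, y, z), mem_keep.2 ⟨h1, h2⟩, h3⟩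

theorem ren_self (p a : V) : ren p a p = a := if_pos rfl

theorem ren_ne {p a x : V} (h : x ≠ p) : ren p a x = x := if_neg h

theorem ren_eq {p a x x' : V} (h : ren p a x = ren p a x') : x = x' ∨ x = p ∨ x = a := by
  unfold ren at h
  split_ifs at h with h1 h2 h2
  · exact .inr (.inl h1)
  · exact .inr (.inl h1)
  · exact .inr (.inr h)
  · exact .inl h

theorem Chain.ren_inj (h : Chain f A B C T) (p a : V) :
    Set.InjOn (ren3 p a) (T.filter (fun t => !(has t p && has t a)) : Finset (T3 V)) := by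
  rintro ⟨x, y, z⟩ ht ⟨x', y', z'⟩ ht' he
  obtain ⟨ht, hn⟩ := mem_keep.1 (mem_coe.1 ht)
  have ht' := (mem_keep.1 (mem_coe.1 ht')).1
  simp only [ren3, Prod.mk.injEq] at he
  obtain ⟨n1, n2, n3⟩ := h.ne ht
  have e1 := ren_eq he.1
  have e2 := ren_eq he.2.1
  have e3 := ren_eq he.2.2
  have key : (x = x' ∧ y = y') ∨ (y = y' ∧ z = z') ∨ (z = z' ∧ x = x') := by
    clear he ht ht'
    grind
  rcases key with ⟨rfl, rfl⟩ | ⟨rfl, rfl⟩ | ⟨rfl, rfl⟩
  · rw [h.uniq ht ht']
  · rw [h.uniq (h.rot _ _ _ ht) (h.rot _ _ _ ht')]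
  · rw [h.uniq (h.rot _ _ _ (h.rot _ _ _ ht)) (h.rot _ _ _ (h.rot _ _ _ ht'))]

theorem Chain.keep_eq (h : Chain f A B C T) {p a u w : V} (hu : (p, a, u) ∈ T)
    (hw : (p, w, a) ∈ T) :
    T.filter (fun t => !(has t p && has t a)) = T \ (tri p a u ∪ tri p w a) := by
  have hpa := (h.ne hu).1
  have hw' := h.rot _ _ _ (h.rot _ _ _ hw)
  ext ⟨x, y, z⟩
  rw [mem_keep, Finset.mem_sdiff, mem_union, mem_tri, mem_tri]
  refine and_congr_right fun ht => not_congr ⟨?_, ?_⟩
  · rintro ⟨rfl | rfl | rfl, h2 | h2 | h2⟩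
    · exact absurd h2 hpa
    · subst h2
      rw [h.uniq ht hu]
      exact .inl (.inl rfl)
    · subst h2
      rw [h.uniq (h.rot _ _ _ (h.rot _ _ _ ht)) hw']
      exact .inr (.inl rfl)
    · subst h2
      rw [h.uniq ht hw']
      exact .inr (.inr (.inr rfl))
    · exact absurd h2 hpa
    · subst h2
      rw [h.uniq (h.rot _ _ _ ht) hu]
      exact .inl (.inr (.inr rfl))
    · subst h2
      rw [h.uniq (h.rot _ _ _ (h.rot _ _ _ ht)) hu]
      exact .inl (.inr (.inl rfl))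
    · subst h2
      rw [h.uniq (h.rot _ _ _ ht) hw']
      exact .inr (.inr (.inl rfl))
    · exact absurd h2 hpa
  · simp only [Prod.mk.injEq]
    rintro ((⟨rfl, rfl, rfl⟩ | ⟨rfl, rfl, rfl⟩ | ⟨rfl, rfl, rfl⟩) |
      (⟨rfl, rfl, rfl⟩ | ⟨rfl, rfl, rfl⟩ | ⟨rfl, rfl, rfl⟩)) <;> simp

/-- The triples containing `p` and `a` are `tri p a u ∪ tri p w a` (`Chain.uniq`), `u ≠ w` by
`pos`; `ren3 p a` is injective on the others (`uniq`); `bd` for `φ (ren p a x) (ren p a y)`;
`used`: the successor `(p, u, x)` of `(p, a, u)` and the predecessor `(p, y, w)` of `(p, w, a)`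
(`Chain.twin`) avoid `a`. -/
theorem Full.contract (h : Full f U A B C T) {p a u w : V} (h1 : p ≠ A) (h2 : p ≠ B) (h3 : p ≠ C)
    (hu : (p, a, u) ∈ T) (hw : (p, w, a) ∈ T)
    (hf : ∀ x y, (p, x, y) ∈ T → x ≠ a → y ≠ a → 0 < det3 (f a) (f x) (f y)) :
    Cond T p a ∧ Full f (U.erase p) A B C (contract T p a) := by
  have hc := h.ch
  obtain ⟨npa, npu, nau⟩ := hc.ne hu
  obtain ⟨npw, -, nwa⟩ := hc.ne hw
  have nuw : u ≠ w := fun e => hc.not_both hu (e ▸ hw)
  have hu1 := hc.rot _ _ _ hu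
  have hu2 := hc.rot _ _ _ hu1
  have hw1 := hc.rot _ _ _ hw
  have hw2 := hc.rot _ _ _ hw1
  have hsub : tri p a u ∪ tri p w a ⊆ T := by
    intro t ht
    rw [mem_union, mem_tri, mem_tri] at ht
    rcases ht with (rfl | rfl | rfl) | (rfl | rfl | rfl) <;> assumption
  have hdis : Disjoint (tri p a u) (tri p w a) := by
    rw [disjoint_left]
    intro t ht ht'
    rw [mem_tri] at ht ht'
    rcases ht with rfl | rfl | rfl <;> simp only [Prod.mk.injEq] at ht' <;> grind
  have hrot : ∀ x y z, (x, y, z) ∈ Pl.contract T p a → (y, z, x) ∈ Pl.contract T p a := by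
    intro x y z ht
    obtain ⟨x', y', z', ht', hn, he⟩ := mem_contract.1 ht
    simp only [Prod.mk.injEq] at he
    obtain ⟨rfl, rfl, rfl⟩ := he
    exact mem_contract.2 ⟨y', z', x', hc.rot _ _ _ ht', by tauto, rfl⟩
  refine ⟨hc.cond npa, ⟨hrot, ?_, ?_⟩, h.gp.mono (erase_subset _ _), mem_erase.2 ⟨h1.symm, h.hA⟩,
    mem_erase.2 ⟨h2.symm, h.hB⟩, mem_erase.2 ⟨h3.symm, h.hC⟩, h.outer,
    fun v hv => h.ins v (mem_of_mem_erase hv), ?_, ?_, ?_⟩
  · intro x y z ht
    obtain ⟨x', y', z', ht', hn, he⟩ := mem_contract.1 ht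
    simp only [Prod.mk.injEq] at he
    obtain ⟨rfl, rfl, rfl⟩ := he
    obtain ⟨n1, n2, n3⟩ := hc.ne ht'
    by_cases e1 : x' = p
    · subst e1
      rw [ren_self, ren_ne n1.symm, ren_ne n2.symm]
      exact hf _ _ ht' (by tauto) (by tauto)
    by_cases e2 : y' = p
    · subst e2
      rw [ren_self, ren_ne n1, ren_ne n3.symm, ← det3_rot]
      exact hf _ _ (hc.rot _ _ _ ht') (by tauto) (by tauto)
    by_cases e3 : z' = p
    · subst e3
      rw [ren_self, ren_ne n2, ren_ne n3, det3_rot]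
      exact hf _ _ (hc.rot _ _ _ (hc.rot _ _ _ ht')) (by tauto) (by tauto)
    rw [ren_ne e1, ren_ne e2, ren_ne e3]
    exact hc.pos _ _ _ ht'
  · intro φ hφ
    have h0 : φ a a = 0 := by
      have := hφ a a
      omega
    have hb := hc.bd (fun x y => φ (ren p a x) (ren p a y)) fun x y => hφ _ _
    rw [← sum_sdiff hsub, sum_union hdis, sum_tri npa npu nau, sum_tri npw npa nwa] at hb
    simp only [ren_self, ren_ne npa.symm, ren_ne npu.symm, ren_ne npw.symm, ren_ne h1.symm,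
      ren_ne h2.symm, ren_ne h3.symm, h0, hφ a u, hφ a w] at hb
    rw [Pl.contract, sum_image (hc.ren_inj p a), hc.keep_eq hu hw, ← hb]
    simp only [ren3]
    ring
  · intro x y z ht
    obtain ⟨x', y', z', ht', -, he⟩ := mem_contract.1 ht
    simp only [Prod.mk.injEq] at he
    obtain ⟨rfl, rfl, rfl⟩ := he
    by_cases e1 : x' = p
    · rw [e1, ren_self]
      exact mem_erase.2 ⟨npa.symm, (h.mem3 hu).2.1⟩
    · rw [ren_ne e1]
      exact mem_erase.2 ⟨e1, h.mem _ _ _ ht'⟩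
  · intro v hv
    obtain ⟨nvp, hv⟩ := mem_erase.1 hv
    obtain ⟨x, hx⟩ := hc.twin hu2 (by simp [h2]) (by simp [h3]) (by simp [h1])
    obtain ⟨y, hy⟩ := hc.twin hw (by simp [h1]) (by simp [h2]) (by simp [h3])
    have nxa : x ≠ a := fun e => hc.not_both hu (e ▸ hx)
    have nya : y ≠ a := fun e => hc.not_both hw1 (e ▸ hy)
    have hx' : (a, u, ren p a x) ∈ Pl.contract T p a :=
      mem_contract.2 ⟨p, u, x, hx, by grind, by rw [ren_self, ren_ne npu.symm]⟩
    have hy' : (w, a, ren p a y) ∈ Pl.contract T p a :=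
      mem_contract.2 ⟨w, p, y, hy, by grind, by rw [ren_self, ren_ne npw.symm]⟩
    by_cases e1 : v = a
    · exact ⟨_, _, by rw [e1]; exact hx'⟩
    by_cases e2 : v = u
    · exact ⟨_, _, by rw [e2]; exact hrot _ _ _ hx'⟩
    by_cases e3 : v = w
    · exact ⟨_, _, by rw [e3]; exact hy'⟩
    obtain ⟨b, c, hbc⟩ := h.used v hv
    have hk : (v, b, c) ∈ T.filter (fun t => !(has t p && has t a)) := by
      rw [hc.keep_eq hu hw, Finset.mem_sdiff, mem_union, mem_tri, mem_tri]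
      simp only [Prod.mk.injEq]
      exact ⟨hbc, by tauto⟩
    exact ⟨_, _, mem_contract.2 ⟨v, b, c, hbc, (mem_keep.1 hk).2, by rw [ren_ne nvp]⟩⟩
  · have hp : p ∈ U := h.mem _ _ _ hu
    have k1 := card_sdiff_add_card_eq_card hsub
    have k2 := card_erase_add_one hp
    have k3 := h.card
    rw [card_union_of_disjoint hdis, card_tri npa npu nau, card_tri npw npa nwa] at k1
    rw [Pl.contract, card_image_of_injOn (hc.ren_inj p a), hc.keep_eq hu hw]
    omega

/-- Induction on `#U`. If `#U = 3` then `#T = 3`, `U = {A, B, C}`, every triple contains `A` and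
`B`, and the single step `(A, B)` empties `T` (`Cond` from `uniq` and `pos`). -/
theorem Full.steps (h : Full f U A B C T) :
    ∃ l : List (V × V), l.length ≤ #U ∧ (∀ s ∈ l, s.1 ∈ U ∧ s.2 ∈ U) ∧ Steps T l := by
  induction hn : #U using Nat.strong_induction_on generalizing U T with
  | _ n ih =>
    subst hn
    by_cases hU : 3 < #U
    · obtain ⟨p, hp, h1, h2, h3, a, u, w, hu, hw, hf⟩ := h.exists_fan hU
      obtain ⟨hcond, hfull⟩ := h.contract h1 h2 h3 hu hw hf
      have k2 := card_erase_add_one hp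
      obtain ⟨l, hl, hm, hs⟩ := ih _ (by omega) hfull rfl
      refine ⟨(p, a) :: l, by rw [List.length_cons]; omega, ?_, hcond, hs⟩
      intro s hs'
      rcases List.mem_cons.1 hs' with rfl | hs'
      · exact ⟨hp, (h.mem3 hu).2.1⟩
      · exact ⟨mem_of_mem_erase (hm s hs').1, mem_of_mem_erase (hm s hs').2⟩
    · obtain ⟨n1, n2, n3⟩ := h.ne
      have hsub : ({A, B, C} : Finset V) ⊆ U := by
        intro v hv
        simp only [mem_insert, mem_singleton] at hv
        rcases hv with rfl | rfl | rfl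
        exacts [h.hA, h.hB, h.hC]
      have hc3 : #({A, B, C} : Finset V) = 3 := card_eq_three.2 ⟨A, B, C, n1, n2, n3, rfl⟩
      have hUe : {A, B, C} = U := eq_of_subset_of_card_le hsub (by omega)
      refine ⟨[(A, B)], ?_, ?_, h.ch.cond n1, ?_⟩
      · rw [← hUe, hc3]
        simp
      · intro s hs
        rw [List.mem_singleton.1 hs]
        exact ⟨h.hA, h.hB⟩
      · change Pl.contract T A B = ∅
        refine eq_empty_of_forall_notMem fun t ht => ?_
        obtain ⟨x, y, z, ht', hn, -⟩ := mem_contract.1 ht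
        obtain ⟨m1, m2, m3⟩ := h.mem3 ht'
        obtain ⟨d1, d2, d3⟩ := h.ch.ne ht'
        rw [← hUe] at m1 m2 m3
        simp only [mem_insert, mem_singleton] at m1 m2 m3
        grind

end Pool.Agent.P.MP_2b4a47_lc.Pl
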