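import Pool.Agent.P.MP_2b4a47_lc.PlLocal

/-! Empty triangles are faces; the outer triangle. -/

namespace Pool.Agent.P.MP_2b4a47_lc.Pl

open Finset Filter Topology

variable {V : Type} [DecidableEq V] {f : V → Pt} {U : Finset V} {A B C : V} {T : Finset (T3 V)}

theorem Cross.face_swap {x y z w : Pt} (h : Cross x y z w) : Cross x y w z := by
  refine ⟨by rw [mul_comm]; exact h.1, ?_⟩
  rw [det3_swap z w x, det3_swap z w y, neg_mul_neg]
  exact h.2

theorem Chain.face_no_cross (h : Chain f A B C T) {a b x c d : V} (ht : (a, b, x) ∈ T)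
    (he : Edge T c d) : ¬ Cross (f a) (f b) (f c) (f d) := by
  obtain ⟨y, hy | hy⟩ := he
  · exact h.no_cross ht hy
  · exact fun hc => h.no_cross ht hy hc.face_swap

/-- `(a, b, s) ∈ T` for some `s`; if `s ≠ c`, by the signs of `det3 b c s` and `det3 c a s`
either `s` is inside `a b c`, or `a s` crosses `b c`, or `b s` crosses `c a`, or `c` is inside
`a b s`. -/
theorem Full.face (h : Full f U A B C T) {a b c : V} (h1 : ∃ x, (a, b, x) ∈ T) (h2 : Edge T b c)
    (h3 : Edge T c a) (hp : 0 < det3 (f a) (f b) (f c))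
    (he : ∀ p ∈ U, ¬ In (f a) (f b) (f c) (f p)) : (a, b, c) ∈ T := by
  obtain ⟨s, hs⟩ := h1
  by_contra hn
  have hsc : c ≠ s := fun e => hn (e ▸ hs)
  obtain ⟨ha, hb, hsU⟩ := h.mem3 hs
  obtain ⟨-, has, hbs⟩ := h.ch.ne hs
  have hc : c ∈ U := by
    obtain ⟨y, hy | hy⟩ := h2
    · exact (h.mem3 hy).2.1
    · exact (h.mem3 hy).1
  have hbc : b ≠ c := fun e => by simp [e] at hp
  have hca : c ≠ a := fun e => by simp [e] at hp
  have hS := h.ch.pos _ _ _ hs
  have hP := h.gp.2 b hb c hc s hsU hbc hbs hsc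
  have hQ := h.gp.2 c hc a ha s hsU hca hsc has
  have hs1 := h.ch.rot _ _ _ hs
  have hs2 := h.ch.rot _ _ _ hs1
  rcases lt_or_gt_of_ne hP with hP | hP <;> rcases lt_or_gt_of_ne hQ with hQ | hQ
  · obtain ⟨x, y, hxy⟩ := h.used c hc
    refine h.ch.no_inside hs hxy ⟨hp, ?_, ?_⟩
    · rw [det3_swap' (f b) (f c) (f s)]; linarith
    · rw [det3_rot (f c) (f s) (f a), det3_swap' (f c) (f a) (f s)]; linarith
  · refine h.ch.face_no_cross hs2 h2 ⟨?_, ?_⟩
    · rw [det3_rot (f b) (f s) (f a), det3_rot (f a) (f b) (f s), det3_rot (f c) (f s) (f a),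
        det3_swap' (f c) (f a) (f s)]
      exact mul_neg_of_pos_of_neg hS (by linarith)
    · rw [det3_rot (f a) (f b) (f c)]
      exact mul_neg_of_neg_of_pos hP hp
  · refine h.ch.face_no_cross hs1 h3 ⟨?_, ?_⟩
    · rw [det3_swap' (f b) (f c) (f s), det3_rot (f a) (f b) (f s)]
      exact mul_neg_of_neg_of_pos (by linarith) hS
    · rw [det3_rot (f b) (f c) (f a), det3_rot (f a) (f b) (f c)]
      exact mul_neg_of_pos_of_neg hp hQ
  · exact he s hsU ⟨hS, hP, hQ⟩

/-- Three new far points, then a perturbation that keeps the signs of all orientations on `U`. -/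
theorem exists_outer (hg : GP f U) (hA : A ∉ U) (hB : B ∉ U) (hC : C ∉ U) (h1 : A ≠ B)
    (h2 : A ≠ C) (h3 : B ≠ C) :
    ∃ g : V → Pt, GP g (insert A (insert B (insert C U))) ∧ 0 < det3 (g A) (g B) (g C) ∧
      (∀ v ∈ U, In (g A) (g B) (g C) (g v)) ∧
      ∀ a ∈ U, ∀ b ∈ U, ∀ c ∈ U, (0 < det3 (g a) (g b) (g c) ↔ 0 < det3 (f a) (f b) (f c)) := by
  set N : ℝ := 1 + ∑ v ∈ U, (|(f v).1| + |(f v).2|) with hN
  have hN0 : 0 < N := by
    have : 0 ≤ ∑ v ∈ U, (|(f v).1| + |(f v).2|) := sum_nonneg fun v _ => by positivity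
    linarith
  have hNv : ∀ v ∈ U, |(f v).1| + |(f v).2| < N := fun v hv => by
    have := single_le_sum (f := fun v => |(f v).1| + |(f v).2|) (fun v _ => by positivity) hv
    linarith
  let g : V → Pt := fun v =>
    if v = A then (-N, -N) else if v = B then (3 * N, -N) else if v = C then (-N, 3 * N) else f v
  have gA : g A = (-N, -N) := by simp [g]
  have gB : g B = (3 * N, -N) := by simp [g, h1.symm]
  have gC : g C = (-N, 3 * N) := by simp [g, h2.symm, h3.symm]
  have gU : ∀ v ∈ U, g v = f v := fun v hv => by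
    have e1 : v ≠ A := fun e => hA (e ▸ hv)
    have e2 : v ≠ B := fun e => hB (e ▸ hv)
    have e3 : v ≠ C := fun e => hC (e ▸ hv)
    simp [g, e1, e2, e3]
  have hO : 0 < det3 (g A) (g B) (g C) := by
    rw [gA, gB, gC]
    simp only [det3]
    nlinarith [mul_pos hN0 hN0]
  have hI : ∀ v ∈ U, In (g A) (g B) (g C) (g v) := fun v hv => by
    rw [gA, gB, gC, gU v hv]
    have := hNv v hv
    have a1 := le_abs_self (f v).1
    have a2 := le_abs_self (f v).2
    have a3 := neg_abs_le (f v).1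
    have a4 := neg_abs_le (f v).2
    have a5 := abs_nonneg (f v).1
    have a6 := abs_nonneg (f v).2
    refine ⟨?_, ?_, ?_⟩ <;> simp only [det3]
    · have : 0 < N * ((f v).2 + N) := mul_pos hN0 (by linarith)
      nlinarith
    · have : 0 < N * (2 * N - (f v).1 - (f v).2) := mul_pos hN0 (by linarith)
      nlinarith
    · have : 0 < N * ((f v).1 + N) := mul_pos hN0 (by linarith)
      nlinarith
  obtain ⟨w, hw⟩ := ev_gp g (insert A (insert B (insert C U)))
  have e1 := ev_det3 hO (w A) (w B) (w C)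
  have e2 : ∀ᶠ ε in 𝓝[>] (0 : ℝ), ∀ v ∈ U,
      In (g A + ε • w A) (g B + ε • w B) (g C + ε • w C) (g v + ε • w v) :=
    (eventually_all_finset U).2 fun v hv =>
      (ev_det3 (hI v hv).1 _ _ _).and ((ev_det3 (hI v hv).2.1 _ _ _).and
        (ev_det3 (hI v hv).2.2 _ _ _))
  have e3 : ∀ᶠ ε in 𝓝[>] (0 : ℝ), ∀ a ∈ U, ∀ b ∈ U, ∀ c ∈ U,
      (0 < det3 (g a + ε • w a) (g b + ε • w b) (g c + ε • w c) ↔ 0 < det3 (f a) (f b) (f c)) := by
    refine (eventually_all_finset U).2 fun a ha => (eventually_all_finset U).2 fun b hb =>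
      (eventually_all_finset U).2 fun c hc => ?_
    by_cases hab : a = b
    · exact .of_forall fun ε => by simp [hab]
    by_cases hac : a = c
    · exact .of_forall fun ε => by simp [hac]
    by_cases hbc : b = c
    · exact .of_forall fun ε => by simp [hbc]
    rw [gU a ha, gU b hb, gU c hc]
    rcases lt_or_gt_of_ne (hg.2 a ha b hb c hc hab hac hbc) with hl | hl
    · have hl' : 0 < det3 (f b) (f a) (f c) := by rw [det3_swap]; linarith
      filter_upwards [ev_det3 hl' (w b) (w a) (w c)] with ε hε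
      rw [det3_swap] at hε
      exact ⟨fun h => absurd h (by linarith), fun h => absurd h (by linarith)⟩
    · filter_upwards [ev_det3 hl (w a) (w b) (w c)] with ε hε
      exact ⟨fun _ => hl, fun _ => hε⟩
  obtain ⟨ε, k1, k2, k3, k4⟩ := (hw.and (e1.and (e2.and e3))).exists
  exact ⟨fun i => g i + ε • w i, k1, k2, k3, k4⟩

end Pool.Agent.P.MP_2b4a47_lc.Pl
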