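import Pool.Agent.P.MP_2b4a47_lc.PlFlip
import Pool.Agent.P.MP_2b4a47_lc.PlContr
import Pool.Agent.P.MP_2b4a47_lc.PlReal
import Pool.Agent.P.MP_2b4a47_lc.PlFace

/-! Embeddable complexes are those with a certificate. -/

namespace Pool.Agent.P.MP_2b4a47_lc.Pl

open Finset Filter Topology

variable {V : Type} [DecidableEq V] {f : V → Pt} {U : Finset V} {A B C : V} {T : Finset (T3 V)}

theorem pm_sum_swap {D : List (V × V)} (hD : D.Nodup) (hs : ∀ e ∈ D, (e.2, e.1) ∈ D)
    (φ : V → V → ℤ) (hφ : ∀ x y, φ y x = -φ x y) : (D.map fun e => φ e.1 e.2).sum = 0 := by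
  rw [← List.sum_toFinset _ hD]
  have h1 : ∑ e ∈ D.toFinset, φ e.1 e.2 = ∑ e ∈ D.toFinset, φ e.2 e.1 := by
    refine Finset.sum_nbij' Prod.swap Prod.swap ?_ ?_ ?_ ?_ ?_
    · intro e he
      exact List.mem_toFinset.2 (hs e (List.mem_toFinset.1 he))
    · intro e he
      exact List.mem_toFinset.2 (hs e (List.mem_toFinset.1 he))
    · intro e _
      rfl
    · intro e _
      rfl
    · intro e _
      rfl
  have h2 : ∑ e ∈ D.toFinset, φ e.2 e.1 = -∑ e ∈ D.toFinset, φ e.1 e.2 := by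
    rw [← Finset.sum_neg_distrib]
    exact Finset.sum_congr rfl fun e _ => hφ e.1 e.2
  omega

/-- `Steps.real`, then `Chain f A B C T.toFinset` (`bd` by the involution `swap` on `dirs`),
`no_cross`, `no_inside`, `In.pos`. -/
theorem Cert.emb {L : List (List V)} {T : List (T3 V)} {st : List (V × V)}
    (h : Cert L A B C T st) : ∃ f, Emb2 L f := by
  obtain ⟨hrot, hne, hnd, hsw, hst, hused, hedge, hface⟩ := h
  have hr : ∀ a b c, (a, b, c) ∈ T.toFinset → (b, c, a) ∈ T.toFinset := fun a b c ht =>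
    List.mem_toFinset.2 (hrot _ (List.mem_toFinset.1 ht))
  obtain ⟨f, hg, hp⟩ := Steps.real hst hr
    (fun a b c ht => hne _ (List.mem_toFinset.1 ht)) L.flatten.toFinset
  have hT : T.Nodup := List.Nodup.of_map _ (List.Nodup.of_append_left hnd)
  have hc : Chain f A B C T.toFinset := by
    refine ⟨hr, hp, fun φ hφ => ?_⟩
    have h0 := pm_sum_swap hnd hsw φ hφ
    rw [List.sum_toFinset _ hT]
    simp only [dirs, List.map_append, List.map_map, List.sum_append, List.map_cons, List.map_nil,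
      List.sum_cons, List.sum_nil, Function.comp_def] at h0
    have e1 := hφ A B
    have e2 := hφ B C
    have e3 := hφ C A
    omega
  refine ⟨f, hg, ?_, ?_⟩
  · intro l hl l' hl' a ha b hb c hc' d hd hx
    by_cases hab : a = b
    · subst hab
      simpa [Cross] using hx.1
    by_cases hcd : c = d
    · subst hcd
      simpa [Cross] using hx.2
    obtain ⟨⟨a', b', x⟩, ht, rfl, rfl⟩ := hedge l hl a ha b hb hab
    obtain ⟨⟨c', d', y⟩, ht', rfl, rfl⟩ := hedge l' hl' c hc' d hd hcd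
    exact hc.no_cross (List.mem_toFinset.2 ht) (List.mem_toFinset.2 ht') hx
  · intro l hl a ha b hb c hc' p hp' hi
    have hpos := hi.pos
    have h1 : a ≠ b := by
      rintro rfl
      simp at hpos
    have h2 : a ≠ c := by
      rintro rfl
      simp at hpos
    have h3 : b ≠ c := by
      rintro rfl
      simp at hpos
    obtain ⟨⟨p', x, y⟩, ht', rfl⟩ := hused p hp'
    rcases hface l hl a ha b hb c hc' h1 h2 h3 with ht | ht
    · exact hc.no_inside (List.mem_toFinset.2 ht) (List.mem_toFinset.2 ht') hi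
    · have := hp _ _ _ (List.mem_toFinset.2 ht)
      rw [det3_swap'] at this
      linarith

/-- A point on the line `u v` is in no triangle strictly to the left of `u v`. -/
theorem pm_not_in {u v x y z q : Pt} (hx : 0 < det3 u v x) (hy : 0 < det3 u v y)
    (hz : 0 < det3 u v z) (hq : det3 u v q = 0) : ¬ In x y z q := by
  intro hi
  have h := det3_bary u v x y z q
  rw [hq, mul_zero] at h
  have := mul_pos hi.2.1 hx
  have := mul_pos hi.2.2 hy
  have := mul_pos hi.1 hz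
  linarith

omit [DecidableEq V] in
theorem pm_mul_neg {g : V → Pt}
    (hs : ∀ a ∈ U, ∀ b ∈ U, ∀ c ∈ U, (0 < det3 (g a) (g b) (g c) ↔ 0 < det3 (f a) (f b) (f c)))
    {a b c d : V} (ha : a ∈ U) (hb : b ∈ U) (hc : c ∈ U) (hd : d ∈ U)
    (h : det3 (g a) (g b) (g c) * det3 (g a) (g b) (g d) < 0) :
    det3 (f a) (f b) (f c) * det3 (f a) (f b) (f d) < 0 := by
  have key : ∀ x ∈ U, det3 (g a) (g b) (g x) < 0 → det3 (f a) (f b) (f x) < 0 := by
    intro x hx h'
    have h1 : 0 < det3 (g b) (g a) (g x) := by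
      rw [det3_swap]
      linarith
    have h2 := (hs b hb a ha x hx).1 h1
    rw [det3_swap] at h2
    linarith
  rcases mul_neg_iff.1 h with ⟨h1, h2⟩ | ⟨h1, h2⟩
  · exact mul_neg_of_pos_of_neg ((hs a ha b hb c hc).1 h1) (key d hd h2)
  · exact mul_neg_of_neg_of_pos (key c hc h1) ((hs a ha b hb d hd).1 h2)

/-- `exists_outer`, `exists_full_edges` for all pairs of distinct vertices of members of `L`,
`Full.steps`, `Full.face`, `Chain.twin`, `Chain.uniq`, `Chain.outer_edge`, `Full.left`; take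
`T.toList`. An outer vertex is in no triangle of old vertices (`det3_bary`). -/
theorem Emb2.cert {L : List (List V)} (h : Emb2 L f) (hA : A ∉ L.flatten) (hB : B ∉ L.flatten)
    (hC : C ∉ L.flatten) (h1 : A ≠ B) (h2 : A ≠ C) (h3 : B ≠ C) :
    ∃ T st, Cert L A B C T st ∧ T.length ≤ 6 * (L.flatten.length + 3) ∧
      st.length ≤ L.flatten.length + 3 ∧
      (∀ t ∈ T, t.1 ∈ A :: B :: C :: L.flatten) ∧
      ∀ s ∈ st, s.1 ∈ A :: B :: C :: L.flatten ∧ s.2 ∈ A :: B :: C :: L.flatten := by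
  classical
  obtain ⟨hg, hx, hin⟩ := h
  have hm : ∀ {l : List V} {a : V}, l ∈ L → a ∈ l → a ∈ L.flatten.toFinset := fun hl ha =>
    List.mem_toFinset.2 (List.mem_flatten.2 ⟨_, hl, ha⟩)
  have hA' : A ∉ L.flatten.toFinset := fun h => hA (List.mem_toFinset.1 h)
  have hB' : B ∉ L.flatten.toFinset := fun h => hB (List.mem_toFinset.1 h)
  have hC' : C ∉ L.flatten.toFinset := fun h => hC (List.mem_toFinset.1 h)
  obtain ⟨g, gg, go, gi, gs⟩ := exists_outer hg hA' hB' hC' h1 h2 h3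
  have hcard : #(insert A (insert B (insert C L.flatten.toFinset))) ≤ L.flatten.length + 3 := by
    have e1 := card_insert_le A (insert B (insert C L.flatten.toFinset))
    have e2 := card_insert_le B (insert C L.flatten.toFinset)
    have e3 := card_insert_le C L.flatten.toFinset
    have e4 := List.toFinset_card_le L.flatten
    omega
  have hU : ∀ v, v ∈ insert A (insert B (insert C L.flatten.toFinset)) →
      v ∈ A :: B :: C :: L.flatten := by
    intro v hv
    simpa only [mem_insert, List.mem_toFinset, List.mem_cons] using hv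
  have hsub : ∀ v ∈ L.flatten.toFinset, v ∈ insert A (insert B (insert C L.flatten.toFinset)) :=
    fun v hv => mem_insert_of_mem (mem_insert_of_mem (mem_insert_of_mem hv))
  generalize hW : insert A (insert B (insert C L.flatten.toFinset)) = W at gg hcard hU hsub
  have hW' : ∀ v ∈ W, v = A ∨ v = B ∨ v = C ∨ v ∈ L.flatten.toFinset := by
    intro v hv
    rw [← hW] at hv
    simpa only [mem_insert] using hv
  let G : List (V × V) := ((L.flatten.toFinset ×ˢ L.flatten.toFinset).filter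
    fun e => e.1 ≠ e.2 ∧ ∃ l ∈ L, e.1 ∈ l ∧ e.2 ∈ l).toList
  have hG : ∀ e ∈ G, e.1 ≠ e.2 ∧ ∃ l ∈ L, e.1 ∈ l ∧ e.2 ∈ l := fun e he =>
    (mem_filter.1 (mem_toList.1 he)).2
  have hG' : ∀ l ∈ L, ∀ a ∈ l, ∀ b ∈ l, a ≠ b → (a, b) ∈ G := fun l hl a ha b hb hab =>
    mem_toList.2 (mem_filter.2 ⟨mem_product.2 ⟨hm hl ha, hm hl hb⟩, hab, l, hl, ha, hb⟩)
  obtain ⟨T, hT, hE⟩ := exists_full_edges (A := A) (B := B) (C := C) gg
    (by rw [← hW]; simp) (by rw [← hW]; simp) (by rw [← hW]; simp) go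
    (fun v hv a1 a2 a3 => gi v (by
      rcases hW' v hv with h | h | h | h
      exacts [absurd h a1, absurd h a2, absurd h a3, h])) G
    (fun e he => by
      obtain ⟨hne, l, hl, ha, hb⟩ := hG e he
      exact ⟨hsub _ (hm hl ha), hsub _ (hm hl hb), hne⟩)
    (fun e he e' he' hc => by
      obtain ⟨-, l, hl, ha, hb⟩ := hG e he
      obtain ⟨-, l', hl', ha', hb'⟩ := hG e' he'
      exact hx l hl l' hl' _ ha _ hb _ ha' _ hb'
        ⟨pm_mul_neg gs (hm hl ha) (hm hl hb) (hm hl' ha') (hm hl' hb') hc.1,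
          pm_mul_neg gs (hm hl' ha') (hm hl' hb') (hm hl ha) (hm hl hb) hc.2⟩)
  obtain ⟨st, s1, s2, s3⟩ := hT.steps
  have hdir : ∀ l ∈ L, ∀ a ∈ l, ∀ b ∈ l, a ≠ b → ∃ x, (a, b, x) ∈ T := by
    intro l hl a ha b hb hab
    obtain ⟨c, hc | hc⟩ := hE _ (hG' l hl a ha b hb hab)
    · exact ⟨c, hc⟩
    · have hb' := hm hl hb
      refine hT.ch.twin hc ?_ ?_ ?_
      · intro e
        exact hA' ((Prod.mk.inj e).1 ▸ hb')
      · intro e
        exact hB' ((Prod.mk.inj e).1 ▸ hb')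
      · intro e
        exact hC' ((Prod.mk.inj e).1 ▸ hb')
  have hfc : ∀ l ∈ L, ∀ a ∈ l, ∀ b ∈ l, ∀ c ∈ l, a ≠ b → a ≠ c → b ≠ c →
      0 < det3 (g a) (g b) (g c) → (a, b, c) ∈ T := by
    intro l hl a ha b hb c hc hab hac hbc hp
    have ia := gi a (hm hl ha)
    have ib := gi b (hm hl hb)
    have ic := gi c (hm hl hc)
    refine hT.face (hdir l hl a ha b hb hab) (hE _ (hG' l hl b hb c hc hbc))
      (hE _ (hG' l hl c hc a ha hac.symm)) hp fun p hp' => ?_
    rcases hW' p hp' with rfl | rfl | rfl | hp''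
    · exact pm_not_in ia.1 ib.1 ic.1 (det3_self2 _ _)
    · exact pm_not_in ia.1 ib.1 ic.1 (det3_self3 _ _)
    · exact pm_not_in ia.2.1 ib.2.1 ic.2.1 (det3_self3 _ _)
    · intro hi
      exact hin l hl a ha b hb c hc p (List.mem_toFinset.1 hp'')
        ⟨(gs a (hm hl ha) b (hm hl hb) p hp'').1 hi.1,
          (gs b (hm hl hb) c (hm hl hc) p hp'').1 hi.2.1,
          (gs c (hm hl hc) a (hm hl ha) p hp'').1 hi.2.2⟩
  have hmem : ∀ a b, (a, b) ∈ T.toList.map (fun t => (t.1, t.2.1)) ↔ ∃ c, (a, b, c) ∈ T := by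
    intro a b
    constructor
    · intro he
      obtain ⟨⟨x, y, z⟩, ht, he'⟩ := List.mem_map.1 he
      obtain ⟨rfl, rfl⟩ := Prod.mk.inj he'
      exact ⟨z, mem_toList.1 ht⟩
    · rintro ⟨c, hc⟩
      exact List.mem_map.2 ⟨(a, b, c), mem_toList.2 hc, rfl⟩
  refine ⟨T.toList, st, ⟨?_, ?_, ?_, ?_, ?_, ?_, ?_, ?_⟩, ?_, s1.trans hcard, ?_, ?_⟩
  · rintro ⟨a, b, c⟩ ht
    exact mem_toList.2 (hT.ch.rot _ _ _ (mem_toList.1 ht))
  · rintro ⟨a, b, c⟩ ht
    exact (hT.ch.ne (mem_toList.1 ht)).1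
  · refine List.nodup_append.2 ⟨?_, ?_, ?_⟩
    · refine (nodup_toList T).map_on ?_
      rintro ⟨a, b, c⟩ ht ⟨a', b', c'⟩ ht' he
      obtain ⟨rfl, rfl⟩ := Prod.mk.inj he
      rw [hT.ch.uniq (mem_toList.1 ht) (mem_toList.1 ht')]
    · simp [h1, h2, h3, h1.symm, h2.symm]
    · rintro ⟨a, b⟩ he e' he' rfl
      obtain ⟨c, hc⟩ := (hmem a b).1 he
      have hp := hT.ch.pos _ _ _ hc
      have hl := hT.left (hT.mem3 hc).2.2
      rw [det3_swap] at hp
      simp only [List.mem_cons, List.not_mem_nil, or_false, Prod.mk.injEq] at he'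
      rcases he' with ⟨rfl, rfl⟩ | ⟨rfl, rfl⟩ | ⟨rfl, rfl⟩
      · linarith [hl.1]
      · linarith [hl.2.1]
      · linarith [hl.2.2]
  · rintro ⟨a, b⟩ he
    obtain ⟨o1, o2, o3⟩ := hT.ch.outer_edge h1 h2 h3
    rcases List.mem_append.1 he with he | he
    · obtain ⟨c, hc⟩ := (hmem a b).1 he
      by_cases k1 : (a, b) = (A, B)
      · obtain ⟨rfl, rfl⟩ := Prod.mk.inj k1
        exact List.mem_append.2 (.inr (by simp))
      by_cases k2 : (a, b) = (B, C)
      · obtain ⟨rfl, rfl⟩ := Prod.mk.inj k2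
        exact List.mem_append.2 (.inr (by simp))
      by_cases k3 : (a, b) = (C, A)
      · obtain ⟨rfl, rfl⟩ := Prod.mk.inj k3
        exact List.mem_append.2 (.inr (by simp))
      exact List.mem_append.2 (.inl ((hmem b a).2 (hT.ch.twin hc k1 k2 k3)))
    · simp only [List.mem_cons, List.not_mem_nil, or_false, Prod.mk.injEq] at he
      rcases he with ⟨rfl, rfl⟩ | ⟨rfl, rfl⟩ | ⟨rfl, rfl⟩
      · exact List.mem_append.2 (.inl ((hmem _ _).2 o1))
      · exact List.mem_append.2 (.inl ((hmem _ _).2 o2))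
      · exact List.mem_append.2 (.inl ((hmem _ _).2 o3))
  · rwa [toList_toFinset]
  · intro v hv
    obtain ⟨b, c, ht⟩ := hT.used v (hsub v (List.mem_toFinset.2 hv))
    exact ⟨_, mem_toList.2 ht, rfl⟩
  · intro l hl a ha b hb hab
    obtain ⟨x, ht⟩ := hdir l hl a ha b hb hab
    exact ⟨_, mem_toList.2 ht, rfl, rfl⟩
  · intro l hl a ha b hb c hc hab hac hbc
    have hne := gg.2 a (hsub _ (hm hl ha)) b (hsub _ (hm hl hb)) c (hsub _ (hm hl hc)) hab hac hbc
    rcases lt_or_gt_of_ne hne with hp | hp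
    · refine .inr (mem_toList.2 (hfc l hl a ha c hc b hb hac hab hbc.symm ?_))
      rw [det3_swap']
      linarith
    · exact .inl (mem_toList.2 (hfc l hl a ha b hb c hc hab hac hbc hp))
  · have := hT.card
    rw [length_toList]
    omega
  · rintro ⟨a, b, c⟩ ht
    exact hU _ (hT.mem _ _ _ (mem_toList.1 ht))
  · intro s hs
    exact ⟨hU _ (s2 s hs).1, hU _ (s2 s hs).2⟩

end Pool.Agent.P.MP_2b4a47_lc.Pl
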