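import Pool.Agent.P.MP_2b4a47_lc.PlNP
import Pool.Agent.P.MP_2b4a47_lc.PlMath
import Pool.Agent.P.MP_2b4a47_lc.PlEmb

/-! The plane cases are in `NP`. -/

namespace Pool.Agent.P.MP_2b4a47_lc

open Pool.Agent.Lib.NP N68a2faeb

theorem lowNP_len {α : Type} [Enc α] (l : List α) : l.length ≤ sz l := by
  induction l with
  | nil => simp
  | cons a l ih => simp; omega

theorem lowNP_flatten {α : Type} [Enc α] (L : List (List α)) : sz L.flatten ≤ sz L := by
  induction L with
  | nil => simp
  | cons a l ih => simp; omega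

/-- `mem_NP_of_check` with `exists_dec`, `Pl.exists_chk`, `Pl.emb2_iff`, `Pl.Cert.emb`,
`Pl.Emb2.cert`; fresh names `List.replicate (x.length + i) false`, `i = 1, 2, 3`;
sizes by `sz_list_le`. -/
theorem emb_two_NP {k : ℕ} (hk : k ≤ 2) : EMB k 2 ∈ NP := by
  obtain ⟨D, hD, h2⟩ := exists_dec
  obtain ⟨chk, hchk, hc⟩ := Pl.exists_chk
  have h0 := pt_fmt k
  have hN : HasDec Nm := HasDec.bool.list
  have hlen : ∀ x, (x == enc (D x) && fmt k (D x)) = true → ∀ l ∈ D x, l.length ≤ 3 :=
    fun x h l hl => by
      have := (((fmt_iff _ _).1 (Bool.and_eq_true_iff.1 h).2).1 l hl).2.2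
      omega
  refine mem_NP_of_check (τ := (Nm × Nm × Nm) × List (Pl.T3 Nm) × List (Nm × Nm))
    ((hN.prod (hN.prod hN)).prod ((hN.prod (hN.prod hN)).list.prod (hN.prod hN).list))
    (fun x t => (x == enc (D x) && fmt k (D x)) && chk (D x, t)) (by fun_prop)
    (500 * (Polynomial.X + 3) ^ 2) (fun x hx => ?_) (fun x t h => ?_)
  · obtain ⟨h3, hg⟩ := (h2 k 2 x).1 hx
    obtain ⟨f, hf⟩ := (Pl.emb2_iff (hlen x h3)).1 hg
    have hx' : x = enc (D x) := beq_iff_eq.1 (Bool.and_eq_true_iff.1 h3).1
    have hn : sz (D x) = x.length := (congrArg List.length hx').symm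
    have hfl : sz (D x).flatten ≤ x.length := hn ▸ lowNP_flatten (D x)
    have hv : ∀ v ∈ (D x).flatten, 3 * v.length ≤ x.length := fun v hv => by
      rw [← PT.sz_bits]
      exact (sz_le_of_mem hv).trans hfl
    have hfresh : ∀ i, List.replicate (x.length + 1 + i) false ∉ (D x).flatten := fun i h => by
      have := hv _ h
      rw [List.length_replicate] at this
      omega
    have hne : ∀ i j, i ≠ j →
        List.replicate (x.length + 1 + i) false ≠ List.replicate (x.length + 1 + j) false :=
      fun i j hij h => by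
        have := congrArg List.length h
        rw [List.length_replicate, List.length_replicate] at this
        omega
    obtain ⟨T, st, hcert, hT, hst, hT', hst'⟩ := hf.cert (hfresh 0) (hfresh 1) (hfresh 2)
      (hne 0 1 (by omega)) (hne 0 2 (by omega)) (hne 1 2 (by omega))
    refine ⟨((_, _, _), T, st), ?_, by rw [h3, Bool.true_and]; exact (hc _ _ _ _ _ _).2 hcert⟩
    have hname : ∀ v ∈ List.replicate (x.length + 1 + 0) false ::
        List.replicate (x.length + 1 + 1) false :: List.replicate (x.length + 1 + 2) false ::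
        (D x).flatten, sz v ≤ 3 * (x.length + 3) := fun v hv' => by
      rw [PT.sz_bits]
      simp only [List.mem_cons] at hv'
      rcases hv' with rfl | rfl | rfl | hv'
      · rw [List.length_replicate]; omega
      · rw [List.length_replicate]; omega
      · rw [List.length_replicate]
      · have := hv v hv'
        omega
    have hl : (D x).flatten.length ≤ x.length := (lowNP_len _).trans hfl
    have a1 := sz_list_le T (15 * (x.length + 3) + 2) fun t ht => by
      have b1 := hname _ (hT' t ht)
      have b2 := hname _ (hT' _ (hcert.1 t ht))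
      have b3 := hname _ (hT' _ (hcert.1 _ (hcert.1 t ht)))
      obtain ⟨a, b, c⟩ := t
      simp only [sz_prod] at b1 b2 b3 ⊢
      omega
    have a2 := sz_list_le st (9 * (x.length + 3) + 1) fun s hs => by
      have b1 := hname _ (hst' s hs).1
      have b2 := hname _ (hst' s hs).2
      obtain ⟨a, b⟩ := s
      simp only [sz_prod] at b1 b2 ⊢
      omega
    have a3 := a1.trans (Nat.mul_le_mul_right _ (hT.trans
      (Nat.mul_le_mul_left 6 (Nat.add_le_add_right hl 3))))
    have a4 := a2.trans (Nat.mul_le_mul_right _ (hst.trans (Nat.add_le_add_right hl 3)))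
    have c1 := hname _ (.head _)
    have c2 := hname _ (.tail _ (.head _))
    have c3 := hname _ (.tail _ (.tail _ (.head _)))
    simp only [sz_prod, Polynomial.eval_mul, Polynomial.eval_pow, Polynomial.eval_add,
      Polynomial.eval_X, Polynomial.eval_ofNat]
    have hm : 3 ≤ x.length + 3 := Nat.le_add_left _ _
    generalize sz (List.replicate (x.length + 1 + 0) false) = s0 at *
    generalize sz (List.replicate (x.length + 1 + 1) false) = s1 at *
    generalize sz (List.replicate (x.length + 1 + 2) false) = s2 at *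
    clear hT' hst' hname hcert a1 a2 hT hst
    generalize x.length + 3 = m at *
    have e1 : 6 * m * (2 * (15 * m + 2) + 1) = 180 * m ^ 2 + 30 * m := by ring
    have e2 : m * (2 * (9 * m + 1) + 1) = 18 * m ^ 2 + 3 * m := by ring
    have e3 : m ≤ m ^ 2 := Nat.le_self_pow (by norm_num) m
    omega
  · obtain ⟨⟨A, B, C⟩, T, st⟩ := t
    obtain ⟨h3, h4⟩ := Bool.and_eq_true_iff.1 h
    exact (h2 k 2 x).2 ⟨h3, (Pl.emb2_iff (hlen x h3)).2 ((hc _ _ _ _ _ _).1 h4).emb⟩

end Pool.Agent.P.MP_2b4a47_lc
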