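import Pool.Agent.P.MP_2b4a47_lc.PlDefs

/-! The covering number of a chain. -/

namespace Pool.Agent.P.MP_2b4a47_lc.Pl

open Finset Filter Topology

variable {V : Type} [DecidableEq V] {f : V → Pt} {U : Finset V} {A B C : V} {T : Finset (T3 V)}

open Classical in
/-- Signed crossing of an edge with the horizontal ray to the right of the base point. -/
noncomputable def cvF (s t d : ℝ) : ℤ :=
  (if s ≤ 0 ∧ 0 < t ∧ 0 < d then 1 else 0) - (if 0 < s ∧ t ≤ 0 ∧ d < 0 then 1 else 0)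

theorem cvF_anti (s t d : ℝ) : cvF t s (-d) = -cvF s t d := by
  unfold cvF
  simp only [neg_pos, neg_lt_zero, neg_sub, and_left_comm (a := t ≤ 0), and_left_comm (a := 0 < t)]

theorem cvF_le (α β γ u v w : ℝ) : cvF α β w + cvF β γ u + cvF γ α v ≤ 1 := by
  unfold cvF
  split_ifs <;> first | omega | (exfalso; simp only [not_and, not_lt, not_le] at *; grind)

open Classical in
theorem cvF_key {α β γ u v w : ℝ} (h : u * α + v * β + w * γ = 0) (hD : 0 < u + v + w)
    (hu : u ≠ 0) (hv : v ≠ 0) (hw : w ≠ 0) (h0 : ¬ (α = 0 ∧ β = 0 ∧ γ = 0)) :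
    cvF α β w + cvF β γ u + cvF γ α v = if 0 < w ∧ 0 < u ∧ 0 < v then 1 else 0 := by
  have hz : 0 < u → 0 < v → 0 < w → α ≤ 0 → β ≤ 0 → γ ≤ 0 → False := fun a b c d e g => by
    have h1 := mul_nonneg a.le (neg_nonneg.2 d)
    have h2 := mul_nonneg b.le (neg_nonneg.2 e)
    have h3 := mul_nonneg c.le (neg_nonneg.2 g)
    exact h0 ⟨(mul_eq_zero.1 (by linarith : u * α = 0)).resolve_left hu,
      (mul_eq_zero.1 (by linarith : v * β = 0)).resolve_left hv,
      (mul_eq_zero.1 (by linarith : w * γ = 0)).resolve_left hw⟩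
  unfold cvF
  rcases le_or_gt α 0 with a | a <;> rcases le_or_gt β 0 with b | b <;>
    rcases le_or_gt γ 0 with c | c <;> rcases hu.lt_or_gt with d | d <;>
    rcases hv.lt_or_gt with e | e <;> rcases hw.lt_or_gt with g | g <;>
    first
      | (simp [a, b, c, d, e, g, a.not_gt, b.not_gt, c.not_gt, d.not_gt, e.not_gt, g.not_gt]; done)
      | (simp [a, b, c, d, e, g, a.not_ge, b.not_gt, c.not_gt, d.not_gt, e.not_gt, g.not_gt,
          a.not_gt]; done)
      | (simp [a, b, c, d, e, g, a.not_gt, b.not_ge, c.not_gt, d.not_gt, e.not_gt, g.not_gt]; done)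
      | (simp [a, b, c, d, e, g, a.not_gt, b.not_gt, c.not_ge, d.not_gt, e.not_gt, g.not_gt]; done)
      | (simp [a, b, c, d, e, g, a.not_ge, b.not_ge, c.not_gt, d.not_gt, e.not_gt, g.not_gt]; done)
      | (simp [a, b, c, d, e, g, a.not_ge, b.not_gt, c.not_ge, d.not_gt, e.not_gt, g.not_gt]; done)
      | (simp [a, b, c, d, e, g, a.not_gt, b.not_ge, c.not_ge, d.not_gt, e.not_gt, g.not_gt]; done)
      | (simp [a, b, c, d, e, g, a.not_ge, b.not_ge, c.not_ge, d.not_gt, e.not_gt, g.not_gt]; done)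
      | exact (hz d e g a b c).elim
      | (exfalso; linarith)
      | (exfalso; nlinarith)

/-- The winding cochain around `q`. -/
noncomputable def cvW (q x y : Pt) : ℤ := cvF (x.2 - q.2) (y.2 - q.2) (det3 x y q)

theorem cvW_anti (q x y : Pt) : cvW q y x = -cvW q x y := by
  unfold cvW
  rw [det3_swap x y q, cvF_anti]

theorem cvW_le (q x y z : Pt) : cvW q x y + cvW q y z + cvW q z x ≤ 1 := cvF_le _ _ _ _ _ _

open Classical in
theorem cvW_key {q x y z : Pt} (h : 0 < det3 x y z) (h1 : det3 x y q ≠ 0) (h2 : det3 y z q ≠ 0)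
    (h3 : det3 z x q ≠ 0) : cvW q x y + cvW q y z + cvW q z x = if In x y z q then 1 else 0 := by
  have hs := det3_sum x y z q
  have key := cvF_key (α := x.2 - q.2) (β := y.2 - q.2) (γ := z.2 - q.2) (u := det3 y z q)
    (v := det3 z x q) (w := det3 x y q) (by unfold det3; ring) (by linarith) h2 h3 h1 (by
      rintro ⟨a, b, c⟩
      have e1 : y.2 - x.2 = 0 := by linarith
      have e2 : z.2 - x.2 = 0 := by linarith
      unfold det3 at h
      rw [e1, e2] at h
      simp at h)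
  unfold cvW
  rw [key]
  by_cases hI : In x y z q
  · rw [if_pos hI]; exact if_pos hI
  · rw [if_neg hI]; exact if_neg hI

omit [DecidableEq V] in
theorem Chain.sum_rot (h : Chain f A B C T) (g : T3 V → ℤ) :
    ∑ t ∈ T, g (t.2.1, t.2.2, t.1) = ∑ t ∈ T, g t :=
  Finset.sum_nbij' (fun t => (t.2.1, t.2.2, t.1)) (fun t => (t.2.2, t.1, t.2.1))
    (fun t ht => h.rot t.1 t.2.1 t.2.2 ht) (fun t ht => h.rot _ _ _ (h.rot t.1 t.2.1 t.2.2 ht))
    (fun _ _ => rfl) (fun _ _ => rfl) (fun _ _ => rfl)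

omit [DecidableEq V] in
open Classical in
theorem Chain.count (h : Chain f A B C T) {q : Pt}
    (hg : ∀ a b c, (a, b, c) ∈ T → det3 (f a) (f b) q ≠ 0) :
    (#(T.filter fun t => In (f t.1) (f t.2.1) (f t.2.2) q) : ℤ) =
      3 * (cvW q (f A) (f B) + cvW q (f B) (f C) + cvW q (f C) (f A)) := by
  have hb := h.bd (fun x y => cvW q (f x) (f y)) fun x y => cvW_anti q (f x) (f y)
  have r1 := h.sum_rot fun t => cvW q (f t.1) (f t.2.1)
  have r2 := h.sum_rot fun t => cvW q (f t.2.1) (f t.2.2)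
  simp only at hb r1 r2
  have e : ∑ t ∈ T, (cvW q (f t.1) (f t.2.1) + cvW q (f t.2.1) (f t.2.2) +
      cvW q (f t.2.2) (f t.1)) =
      ∑ t ∈ T, if In (f t.1) (f t.2.1) (f t.2.2) q then (1 : ℤ) else 0 :=
    Finset.sum_congr rfl fun t ht => cvW_key (h.pos t.1 t.2.1 t.2.2 ht) (hg t.1 t.2.1 t.2.2 ht)
      (hg _ _ _ (h.rot t.1 t.2.1 t.2.2 ht)) (hg _ _ _ (h.rot _ _ _ (h.rot t.1 t.2.1 t.2.2 ht)))
  rw [Finset.sum_add_distrib, Finset.sum_add_distrib, r2, r1, hb, Finset.sum_boole] at e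
  linarith

/-- A point off the lines of the edges and inside the outer triangle is covered.
Sketch: put `up x := q.2 < x.2` and `φ x y := [¬ up x ∧ up y ∧ 0 < det3 x y q] - [up x ∧ ¬ up y ∧
det3 x y q < 0]` (antisymmetric). For a positive triangle `a b c` with the three `det3 · · q ≠ 0`,
`φ a b + φ b c + φ c a = [In a b c q]` (cases on the three `up`, barycentric identity in the second
coordinate). For any `A B C` the sum is at most 1. By `rot`,
`∑ t ∈ T, (φ a b + φ b c + φ c a) = 3 * ∑ t ∈ T, φ a b = 3 * (φ A B + φ B C + φ C A)`. -/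
theorem Chain.cover (h : Chain f A B C T) {q : Pt} (hq : In (f A) (f B) (f C) q)
    (hg : ∀ a b c, (a, b, c) ∈ T → det3 (f a) (f b) q ≠ 0) :
    ∃ a b c, (a, b, c) ∈ T ∧ In (f a) (f b) (f c) q := by
  classical
  have hc := h.count hg
  rw [cvW_key hq.pos hq.1.ne' hq.2.1.ne' hq.2.2.ne', if_pos hq] at hc
  obtain ⟨t, ht⟩ := Finset.card_pos.1
    (show 0 < #(T.filter fun t => In (f t.1) (f t.2.1) (f t.2.2) q) by omega)
  exact ⟨t.1, t.2.1, t.2.2, (mem_filter.1 ht).1, (mem_filter.1 ht).2⟩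

theorem ev_In {x y z q : Pt} (h : In x y z q) :
    ∀ᶠ ε in 𝓝[>] (0 : ℝ), In x y z (q.1 + ε, q.2 + ε ^ 2) := by
  have key : ∀ u v : Pt, 0 < det3 u v q →
      ∀ᶠ ε in 𝓝[>] (0 : ℝ), 0 < det3 u v (q.1 + ε, q.2 + ε ^ 2) := fun u v huv => by
    have hc : Continuous fun ε : ℝ => det3 u v (q.1 + ε, q.2 + ε ^ 2) := by
      unfold det3; fun_prop
    exact (continuousAt_const.eventually_lt hc.continuousAt (by simpa using huv)).filter_mono
      nhdsWithin_le_nhds
  filter_upwards [key _ _ h.1, key _ _ h.2.1, key _ _ h.2.2] with ε a b c using ⟨a, b, c⟩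

/-- Two triples covering the same point are rotations of each other. Move `q` to
`q + (ε, ε ^ 2)` (`MP_881548_lc.ev_ne`) to make it generic; then at most 3 triples cover it. -/
theorem Chain.overlap (h : Chain f A B C T) {a b c a' b' c' : V} (ht : (a, b, c) ∈ T)
    (ht' : (a', b', c') ∈ T) {q : Pt} (hq : In (f a) (f b) (f c) q)
    (hq' : In (f a') (f b') (f c') q) : (a', b', c') ∈ tri a b c := by
  classical
  have hgen : ∀ᶠ ε in 𝓝[>] (0 : ℝ), ∀ t ∈ T,
      det3 (f t.1) (f t.2.1) (q.1 + ε, q.2 + ε ^ 2) ≠ 0 := by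
    refine (eventually_all_finset T).2 fun t htT => ?_
    have hp := h.pos t.1 t.2.1 t.2.2 htT
    have hne : (f t.2.1).1 - (f t.1).1 ≠ 0 ∨ -((f t.2.1).2 - (f t.1).2) ≠ 0 := by
      by_contra hn
      push Not at hn
      unfold det3 at hp
      rw [hn.1, neg_eq_zero.1 hn.2] at hp
      simp at hp
    filter_upwards [MP_881548_lc.ev_ne (det3 (f t.1) (f t.2.1) q) _ _ hne] with ε hε h0
    refine hε ?_
    simp only [det3] at h0 ⊢
    linear_combination h0
  obtain ⟨ε, hg, h1, h2⟩ := (hgen.and ((ev_In hq).and (ev_In hq'))).exists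
  have hc := h.count (q := (q.1 + ε, q.2 + ε ^ 2)) fun a b c hT => hg (a, b, c) hT
  have hle := cvW_le (q.1 + ε, q.2 + ε ^ 2) (f A) (f B) (f C)
  have hp := h.pos a b c ht
  have hab : a ≠ b := fun e => by rw [e] at hp; simp at hp
  have hbc : b ≠ c := fun e => by rw [e] at hp; simp at hp
  have hac : a ≠ c := fun e => by rw [e] at hp; simp at hp
  have hsub : tri a b c ⊆
      T.filter fun t => In (f t.1) (f t.2.1) (f t.2.2) (q.1 + ε, q.2 + ε ^ 2) := by
    intro t htt
    rcases mem_tri.1 htt with rfl | rfl | rfl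
    · exact mem_filter.2 ⟨ht, h1⟩
    · exact mem_filter.2 ⟨h.rot _ _ _ ht, h1.rot⟩
    · exact mem_filter.2 ⟨h.rot _ _ _ (h.rot _ _ _ ht), h1.rot.rot⟩
  have h3 : #(tri a b c) = 3 := by
    refine Finset.card_eq_three.2 ⟨_, _, _, ?_, ?_, ?_, rfl⟩
    · exact fun e => hab (congrArg Prod.fst e)
    · exact fun e => hac (congrArg Prod.fst e)
    · exact fun e => hbc (congrArg Prod.fst e)
  rw [Finset.eq_of_subset_of_card_le hsub (by omega)]
  exact mem_filter.2 ⟨ht', h2⟩

end Pool.Agent.P.MP_2b4a47_lc.Pl
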