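import Pool.Agent.P.MP_2b4a47_lc.PlLocal

/-! Finding an edge to flip. -/

namespace Pool.Agent.P.MP_2b4a47_lc.Pl

open Finset Filter Topology

variable {V : Type} [DecidableEq V] {f : V → Pt} {U : Finset V} {A B C : V} {T : Finset (T3 V)}

/-- `x y` is an edge crossing the segment `u v` from left to right. -/
def Crs (f : V → Pt) (T : Finset (T3 V)) (u v x y : V) : Prop :=
  Edge T x y ∧ 0 < det3 (f u) (f v) (f x) ∧ det3 (f u) (f v) (f y) < 0 ∧
    det3 (f x) (f y) (f u) < 0 ∧ 0 < det3 (f x) (f y) (f v)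

omit [DecidableEq V] in
theorem Crs.symm {u v x y : V} (h : Crs f T u v x y) : Crs f T v u y x := by
  obtain ⟨⟨c, hc⟩, h1, h2, h3, h4⟩ := h
  refine ⟨⟨c, hc.symm⟩, ?_, ?_, ?_, ?_⟩
  · rw [det3_swap]; linarith
  · rw [det3_swap]; linarith
  · rw [det3_swap]; linarith
  · rw [det3_swap]; linarith

theorem crs_det3_seg (a b p q : Pt) (ε : ℝ) :
    det3 a b (p + ε • (q - p)) = (1 - ε) * det3 a b p + ε * det3 a b q := by
  simp only [det3, Prod.fst_add, Prod.smul_fst, Prod.snd_add, Prod.smul_snd, Prod.fst_sub,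
    Prod.snd_sub, smul_eq_mul]
  ring

omit [DecidableEq V] in
/-- Two distinct vertices on the line of `a b` are `a` and `b`. -/
theorem GP.crs_pair (hg : GP f U) {a b u v : V} (ha : a ∈ U) (hb : b ∈ U) (hu : u ∈ U)
    (hv : v ∈ U) (hab : a ≠ b) (huv : u ≠ v) (h1 : det3 (f a) (f b) (f u) = 0)
    (h2 : det3 (f a) (f b) (f v) = 0) : (u = a ∧ v = b) ∨ (u = b ∧ v = a) := by
  have k : ∀ w ∈ U, det3 (f a) (f b) (f w) = 0 → w = a ∨ w = b := fun w hw h => by
    by_contra hn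
    rw [not_or] at hn
    exact hg.2 a ha b hb w hw hab (Ne.symm hn.1) (Ne.symm hn.2) h
  rcases k u hu h1 with rfl | rfl <;> rcases k v hv h2 with rfl | rfl
  · exact absurd rfl huv
  · exact .inl ⟨rfl, rfl⟩
  · exact .inr ⟨rfl, rfl⟩
  · exact absurd rfl huv

theorem Full.crs_start (h : Full f U A B C T) {u v b c : V} (hv : v ∈ U) (ht : (u, b, c) ∈ T)
    (h1 : 0 < det3 (f u) (f b) (f v)) (h2 : 0 < det3 (f c) (f u) (f v)) : Crs f T u v c b := by
  obtain ⟨_, hb, hc⟩ := h.mem3 ht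
  obtain ⟨x, y, hxy⟩ := h.used v hv
  have hn := h.ch.no_inside ht hxy
  have hp := h.ch.pos _ _ _ ht
  have hbc := (h.ch.ne ht).2.2
  have hbv : b ≠ v := by rintro rfl; simp at h1
  have hcv : c ≠ v := by rintro rfl; simp at h2
  have h3 := h.gp.2 b hb c hc v hv hbc hbv hcv
  have h4 : det3 (f b) (f c) (f v) < 0 :=
    lt_of_le_of_ne (not_lt.1 fun h5 => hn ⟨h1, h5, h2⟩) h3
  refine ⟨⟨u, .inr (h.ch.rot _ _ _ ht)⟩, ?_, ?_, ?_, ?_⟩
  · rw [det3_rot]; exact h2
  · rw [det3_swap']; linarith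
  · rw [det3_swap, det3_rot]; linarith
  · rw [det3_swap]; linarith

/-- If `u v` is not an edge, some edge crosses it. Take `q = f u + ε • (f v - f u)`, `ε` small:
it is inside `A B C` (`u v` is not an outer side by `Chain.outer_edge`; `Full.left`), off the
lines of all edges, and outside every triangle not containing `u` (`no_inside`, general
position), so `Chain.cover` gives `(u, b, c) ∈ T` containing `q`; then `Crs f T u v c b`
(`no_inside` for `v`). -/
theorem Full.exists_crs (h : Full f U A B C T) {u v : V} (hu : u ∈ U) (hv : v ∈ U) (huv : u ≠ v)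
    (he : ¬ Edge T u v) : ∃ x y, Crs f T u v x y := by
  have hev : ∀ᶠ ε in 𝓝[>] (0 : ℝ), (0 < ε ∧ ε < 1) ∧ ∀ a ∈ U, ∀ b ∈ U,
      0 < det3 (f a) (f b) (f u) → 0 < det3 (f a) (f b) (f u + ε • (f v - f u)) := by
    refine Eventually.and (Ioo_mem_nhdsGT zero_lt_one) ?_
    refine (eventually_all_finset U).2 fun a _ => (eventually_all_finset U).2 fun b _ =>
      eventually_all.2 fun h0 => ?_
    simpa using ev_det3 h0 0 0 (f v - f u)
  obtain ⟨ε, ⟨h0, h1⟩, hs⟩ := hev.exists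
  have hs' : ∀ a ∈ U, ∀ b ∈ U, det3 (f a) (f b) (f u) < 0 →
      det3 (f a) (f b) (f u + ε • (f v - f u)) < 0 := fun a ha b hb hab => by
    have := hs b hb a ha (by rw [det3_swap]; linarith)
    rw [det3_swap] at this
    linarith
  have hne : ∀ a b c, (a, b, c) ∈ T → det3 (f a) (f b) (f u) = 0 →
      det3 (f a) (f b) (f v) ≠ 0 := fun a b c ht e1 e2 => by
    obtain ⟨ha, hb, _⟩ := h.mem3 ht
    rcases h.gp.crs_pair ha hb hu hv (h.ch.ne ht).1 huv e1 e2 with ⟨rfl, rfl⟩ | ⟨rfl, rfl⟩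
    · exact he ⟨c, .inl ht⟩
    · exact he ⟨c, .inr ht⟩
  have hout : ∀ a b c, (a, b, c) ∈ T → 0 ≤ det3 (f a) (f b) (f u) → 0 ≤ det3 (f a) (f b) (f v) →
      0 < det3 (f a) (f b) (f u + ε • (f v - f u)) := fun a b c ht e1 e2 => by
    obtain ⟨ha, hb, _⟩ := h.mem3 ht
    rcases e1.lt_or_eq with e | e
    · exact hs a ha b hb e
    · rw [crs_det3_seg, ← e, mul_zero, zero_add]
      exact mul_pos h0 (lt_of_le_of_ne e2 (hne a b c ht e.symm).symm)
  obtain ⟨n1, n2, n3⟩ := h.ne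
  obtain ⟨⟨z1, o1⟩, ⟨z2, o2⟩, z3, o3⟩ := h.ch.outer_edge n1 n2 n3
  obtain ⟨l1, l2, l3⟩ := h.left hu
  obtain ⟨m1, m2, m3⟩ := h.left hv
  obtain ⟨a, b, c, ht, hin⟩ := h.ch.cover (q := f u + ε • (f v - f u))
    ⟨hout _ _ _ o1 l1 m1, hout _ _ _ o2 l2 m2, hout _ _ _ o3 l3 m3⟩ fun a b c ht => by
      obtain ⟨ha, hb, _⟩ := h.mem3 ht
      rcases lt_trichotomy (det3 (f a) (f b) (f u)) 0 with e | e | e
      · exact (hs' a ha b hb e).ne
      · rw [crs_det3_seg, e, mul_zero, zero_add]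
        exact mul_ne_zero h0.ne' (hne a b c ht e)
      · exact (hs a ha b hb e).ne'
  have key : ∀ b c, (u, b, c) ∈ T → In (f u) (f b) (f c) (f u + ε • (f v - f u)) →
      ∃ x y, Crs f T u v x y := fun b c ht hin => by
    obtain ⟨i1, _, i3⟩ := hin
    rw [crs_det3_seg] at i1 i3
    simp only [det3_self2, det3_self3, mul_zero, zero_add] at i1 i3
    exact ⟨c, b, h.crs_start hv ht ((mul_pos_iff_of_pos_left h0).1 i1)
      ((mul_pos_iff_of_pos_left h0).1 i3)⟩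
  by_cases ea : a = u
  · subst ea; exact key b c ht hin
  by_cases eb : b = u
  · subst eb; exact key c a (h.ch.rot _ _ _ ht) hin.rot
  by_cases ec : c = u
  · subst ec; exact key a b (h.ch.rot _ _ _ (h.ch.rot _ _ _ ht)) hin.rot.rot
  exfalso
  obtain ⟨ha, hb, hc⟩ := h.mem3 ht
  obtain ⟨d1, d2, d3⟩ := h.ch.ne ht
  obtain ⟨x, y, hxy⟩ := h.used u hu
  have k : ∀ a ∈ U, ∀ b ∈ U, a ≠ b → a ≠ u → b ≠ u →
      0 < det3 (f a) (f b) (f u + ε • (f v - f u)) → 0 < det3 (f a) (f b) (f u) :=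
    fun a ha b hb e1 e2 e3 e4 => by
      rcases lt_trichotomy (det3 (f a) (f b) (f u)) 0 with e | e | e
      · exact absurd (hs' a ha b hb e) e4.not_gt
      · exact absurd e (h.gp.2 a ha b hb u hu e1 e2 e3)
      · exact e
  exact h.ch.no_inside ht hxy ⟨k a ha b hb d1 ea eb hin.1, k b hb c hc d3 eb ec hin.2.1,
    k c hc a ha d2.symm ec ea hin.2.2⟩

/-- The triangle on the side of `v`. Use `Full.twin`, `det3_bary` for `q = f v` and `q = f u`,
and `no_inside`. -/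
theorem Full.crs_next (h : Full f U A B C T) {u v x y : V} (hu : u ∈ U) (hv : v ∈ U)
    (hc : Crs f T u v x y) :
    ∃ s, (x, y, s) ∈ T ∧ (s = v ∨ Crs f T u v s y ∨ Crs f T u v x s) := by
  obtain ⟨⟨c, hc⟩, hX, hY, hu', hv'⟩ := hc
  obtain ⟨s, hs⟩ : ∃ s, (x, y, s) ∈ T :=
    hc.elim (fun h1 => ⟨c, h1⟩) fun h1 => h.twin h1 hv (by rw [det3_swap]; linarith)
  refine ⟨s, hs, ?_⟩
  by_cases hsv : s = v
  · exact .inl hsv
  right
  obtain ⟨hx, hy, hsU⟩ := h.mem3 hs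
  obtain ⟨d1, d2, d3⟩ := h.ch.ne hs
  have hp := h.ch.pos _ _ _ hs
  have hus : u ≠ s := by rintro rfl; linarith
  have huv : u ≠ v := by rintro rfl; linarith
  have hxv : x ≠ v := by rintro rfl; simp at hv'
  have hyv : y ≠ v := by rintro rfl; simp at hv'
  obtain ⟨p, q, hpq⟩ := h.used v hv
  have hn := h.ch.no_inside hs hpq
  have b1 := det3_bary (f u) (f v) (f x) (f y) (f s) (f u)
  have b2 := det3_bary (f u) (f v) (f x) (f y) (f s) (f v)
  have s1 := det3_sum (f x) (f y) (f s) (f u)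
  rw [det3_self2, mul_zero] at b1
  rw [det3_self3, mul_zero] at b2
  have g1 := h.gp.2 y hy s hsU v hv d3 hyv hsv
  have g2 := h.gp.2 s hsU x hx v hv d2.symm hsv hxv
  rcases lt_or_gt_of_ne (h.gp.2 u hu v hv s hsU huv hus (Ne.symm hsv)) with hS | hS
  · refine .inr ⟨⟨y, .inr (h.ch.rot _ _ _ (h.ch.rot _ _ _ hs))⟩, hX, hS, ?_, ?_⟩
    · rw [det3_swap, neg_lt_zero]
      by_contra hb
      rw [not_lt] at hb
      have e1 := mul_pos (show 0 < det3 (f y) (f s) (f u) by linarith) hX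
      have e2 := mul_nonneg_of_nonpos_of_nonpos hb hY.le
      have e3 := mul_pos_of_neg_of_neg hu' hS
      linarith
    · rw [det3_swap, neg_pos]
      by_contra hb
      have hb' : 0 < det3 (f s) (f x) (f v) := lt_of_le_of_ne (not_lt.1 hb) g2.symm
      have e2 := mul_neg_of_pos_of_neg hb' hY
      have e3 := mul_neg_of_pos_of_neg hv' hS
      exact hn ⟨hv', (mul_pos_iff_of_pos_right hX).1 (by linarith), hb'⟩
  · refine .inl ⟨⟨x, .inr (h.ch.rot _ _ _ hs)⟩, hS, hY, ?_, ?_⟩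
    · rw [det3_swap, neg_lt_zero]
      by_contra hb
      rw [not_lt] at hb
      have e1 := mul_nonpos_of_nonpos_of_nonneg hb hX.le
      have e2 := mul_neg_of_pos_of_neg (show 0 < det3 (f s) (f x) (f u) by linarith) hY
      have e3 := mul_neg_of_neg_of_pos hu' hS
      linarith
    · rw [det3_swap, neg_pos]
      by_contra hb
      have hb' : 0 < det3 (f y) (f s) (f v) := lt_of_le_of_ne (not_lt.1 hb) g1.symm
      have e1 := mul_pos hb' hX
      have e3 := mul_pos hv' hS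
      refine hn ⟨hv', hb', ?_⟩
      by_contra hb2
      have e2 := mul_nonneg_of_nonpos_of_nonpos (not_lt.1 hb2) hY.le
      linarith

/-- The triangle on the side of `u` (note `Crs f T u v x y ↔ Crs f T v u y x`). -/
theorem Full.crs_prev (h : Full f U A B C T) {u v x y : V} (hu : u ∈ U) (hv : v ∈ U)
    (hc : Crs f T u v x y) :
    ∃ t, (y, x, t) ∈ T ∧ (t = u ∨ Crs f T u v t y ∨ Crs f T u v x t) := by
  obtain ⟨t, ht, h1⟩ := h.crs_next hv hu hc.symm
  refine ⟨t, ht, ?_⟩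
  rcases h1 with h1 | h1 | h1
  · exact .inl h1
  · exact .inr (.inr h1.symm)
  · exact .inr (.inl h1.symm)

/-- An affine function `κ` (independent of `T`), injective on `U`, a small tilt of `det3 u v`. -/
theorem exists_tilt (hg : GP f U) {u v : V} (hu : u ∈ U) (hv : v ∈ U) (huv : u ≠ v) :
    ∃ α β : ℝ, (∀ a ∈ U, ∀ b ∈ U, α * (f a).1 + β * (f a).2 = α * (f b).1 + β * (f b).2 → a = b) ∧
      ∀ a ∈ U, ∀ b ∈ U, det3 (f u) (f v) (f a) < det3 (f u) (f v) (f b) →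
        α * (f a).1 + β * (f a).2 < α * (f b).1 + β * (f b).2 := by
  have hev : ∀ᶠ ε in 𝓝[>] (0 : ℝ), 0 < ε ∧ ∀ a ∈ U, ∀ b ∈ U,
      det3 (f u) (f v) (f a) < det3 (f u) (f v) (f b) →
      0 < det3 (f u) (f v) (f b) - det3 (f u) (f v) (f a) + ε * (((f v).1 - (f u).1) *
        ((f b).1 - (f a).1) + ((f v).2 - (f u).2) * ((f b).2 - (f a).2)) := by
    refine Eventually.and self_mem_nhdsWithin ?_
    refine (eventually_all_finset U).2 fun a _ => (eventually_all_finset U).2 fun b _ =>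
      eventually_all.2 fun h0 => ?_
    refine Eventually.filter_mono nhdsWithin_le_nhds ?_
    exact continuousAt_const.eventually_lt (by fun_prop) (by simpa using h0)
  obtain ⟨ε, h0, hs⟩ := hev.exists
  have h2 : ∀ a ∈ U, ∀ b ∈ U, det3 (f u) (f v) (f a) < det3 (f u) (f v) (f b) →
      (ε * ((f v).1 - (f u).1) - ((f v).2 - (f u).2)) * (f a).1 +
        (ε * ((f v).2 - (f u).2) + ((f v).1 - (f u).1)) * (f a).2 <
      (ε * ((f v).1 - (f u).1) - ((f v).2 - (f u).2)) * (f b).1 +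
        (ε * ((f v).2 - (f u).2) + ((f v).1 - (f u).1)) * (f b).2 := fun a ha b hb hab => by
    have := hs a ha b hb hab
    unfold det3 at this
    linarith
  refine ⟨_, _, fun a ha b hb hab => ?_, h2⟩
  rcases lt_trichotomy (det3 (f u) (f v) (f a)) (det3 (f u) (f v) (f b)) with e | e | e
  · exact absurd hab (h2 a ha b hb e).ne
  · unfold det3 at e
    have e1 : ((f v).1 - (f u).1) * ((f b).1 - (f a).1) +
        ((f v).2 - (f u).2) * ((f b).2 - (f a).2) = 0 :=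
      mul_left_cancel₀ h0.ne' (by linear_combination -hab + e)
    have hN : ((f v).1 - (f u).1) ^ 2 + ((f v).2 - (f u).2) ^ 2 ≠ 0 := fun hN => by
      have k1 := sq_nonneg ((f v).1 - (f u).1)
      have k2 := sq_nonneg ((f v).2 - (f u).2)
      have k3 : (f v).1 - (f u).1 = 0 := pow_eq_zero_iff two_ne_zero |>.1 (by linarith)
      have k4 : (f v).2 - (f u).2 = 0 := pow_eq_zero_iff two_ne_zero |>.1 (by linarith)
      exact huv (hg.1 u hu v hv (Prod.ext (by linarith) (by linarith)))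
    refine hg.1 a ha b hb (Prod.ext (mul_left_cancel₀ hN ?_) (mul_left_cancel₀ hN ?_))
    · linear_combination (-((f v).1 - (f u).1)) * e1 - ((f v).2 - (f u).2) * e
    · linear_combination (-((f v).2 - (f u).2)) * e1 + ((f v).1 - (f u).1) * e
  · exact absurd hab (h2 b hb a ha e).ne'

/-- Choose the crossing edge with the largest `κ x - κ y`. -/
theorem Full.exists_flip (h : Full f U A B C T) {u v : V} (hu : u ∈ U) (hv : v ∈ U) (huv : u ≠ v)
    (he : ¬ Edge T u v) {κ : V → ℝ} (h1 : ∀ a ∈ U, ∀ b ∈ U, κ a = κ b → a = b)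
    (h2 : ∀ a ∈ U, ∀ b ∈ U, det3 (f u) (f v) (f a) < det3 (f u) (f v) (f b) → κ a < κ b) :
    ∃ x y s t, (x, y, s) ∈ T ∧ (y, x, t) ∈ T ∧ Cross (f u) (f v) (f x) (f y) ∧
      κ y < κ s ∧ κ s < κ x ∧ κ y < κ t ∧ κ t < κ x := by
  classical
  have hm : ∀ {x y}, Crs f T u v x y → x ∈ U ∧ y ∈ U := fun ⟨⟨_, hc⟩, _⟩ =>
    hc.elim (fun e => ⟨(h.mem3 e).1, (h.mem3 e).2.1⟩) fun e => ⟨(h.mem3 e).2.1, (h.mem3 e).1⟩
  have hmem : ∀ {x y}, Crs f T u v x y →
      (x, y) ∈ (U ×ˢ U).filter fun p => Crs f T u v p.1 p.2 := fun hc =>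
    mem_filter.2 ⟨mem_product.2 (hm hc), hc⟩
  obtain ⟨x0, y0, h0⟩ := h.exists_crs hu hv huv he
  obtain ⟨⟨x, y⟩, hxy, hmax⟩ := exists_max_image _ (fun p : V × V => κ p.1 - κ p.2) ⟨_, hmem h0⟩
  have hc : Crs f T u v x y := (mem_filter.1 hxy).2
  obtain ⟨hx, hy⟩ := hm hc
  have key : ∀ s ∈ U, s ≠ x → s ≠ y → det3 (f u) (f v) (f s) = 0 ∨ Crs f T u v s y ∨
      Crs f T u v x s → κ y < κ s ∧ κ s < κ x := fun s hs e1 e2 e => by
    rcases e with e | e | e
    · exact ⟨h2 y hy s hs (e ▸ hc.2.2.1), h2 s hs x hx (e ▸ hc.2.1)⟩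
    · have := hmax _ (hmem e)
      exact ⟨h2 y hy s hs (e.2.2.1.trans e.2.1),
        lt_of_le_of_ne (by simpa using this) fun k => e1 (h1 s hs x hx k)⟩
    · have := hmax _ (hmem e)
      dsimp only at this
      exact ⟨lt_of_le_of_ne (by linarith) fun k => e2 (h1 y hy s hs k).symm,
        h2 s hs x hx (e.2.2.1.trans e.2.1)⟩
  obtain ⟨s, hs, ks⟩ := h.crs_next hu hv hc
  obtain ⟨t, ht, kt⟩ := h.crs_prev hu hv hc
  obtain ⟨a1, a2⟩ := key s (h.mem3 hs).2.2 (h.ch.ne hs).2.1.symm (h.ch.ne hs).2.2.symm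
    (ks.imp_left fun e => by rw [e, det3_self3])
  obtain ⟨a3, a4⟩ := key t (h.mem3 ht).2.2 (h.ch.ne ht).2.2.symm (h.ch.ne ht).2.1.symm
    (kt.imp_left fun e => by rw [e, det3_self2])
  exact ⟨x, y, s, t, hs, ht, ⟨mul_neg_of_pos_of_neg hc.2.1 hc.2.2.1,
    mul_neg_of_neg_of_pos hc.2.2.2.1 hc.2.2.2.2⟩, a1, a2, a3, a4⟩

end Pool.Agent.P.MP_2b4a47_lc.Pl
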