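import Pool.Agent.P.MP_881548_lc.Geom
import Pool.Agent.Lib.ETR.Cluster

/-! Straight-line triangulations of a triangle, as 2-chains of positively oriented triples. -/

namespace Pool.Agent.P.MP_2b4a47_lc.Pl

open Finset Filter Topology

abbrev Pt := ℝ × ℝ

/-- Twice the signed area of the triangle `x y z`. -/
def det3 (x y z : Pt) : ℝ := (y.1 - x.1) * (z.2 - x.2) - (y.2 - x.2) * (z.1 - x.1)

/-- `q` is strictly inside the counterclockwise triangle `x y z`. -/
def In (x y z q : Pt) : Prop := 0 < det3 x y q ∧ 0 < det3 y z q ∧ 0 < det3 z x q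

/-- The segments `x y` and `z w` cross properly. -/
def Cross (x y z w : Pt) : Prop := det3 x y z * det3 x y w < 0 ∧ det3 z w x * det3 z w y < 0

abbrev T3 (V : Type) := V × V × V

variable {V : Type} [DecidableEq V]

/-- General position on `U`. -/
def GP (f : V → Pt) (U : Finset V) : Prop :=
  (∀ a ∈ U, ∀ b ∈ U, f a = f b → a = b) ∧
    ∀ a ∈ U, ∀ b ∈ U, ∀ c ∈ U, a ≠ b → a ≠ c → b ≠ c → det3 (f a) (f b) (f c) ≠ 0

/-- The three rotations of a triple. -/
def tri (a b c : V) : Finset (T3 V) := {(a, b, c), (b, c, a), (c, a, b)}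

/-- A rotation-closed set of positive triples whose boundary is the triangle `A B C`. -/
structure Chain (f : V → Pt) (A B C : V) (T : Finset (T3 V)) : Prop where
  rot : ∀ a b c, (a, b, c) ∈ T → (b, c, a) ∈ T
  pos : ∀ a b c, (a, b, c) ∈ T → 0 < det3 (f a) (f b) (f c)
  bd : ∀ φ : V → V → ℤ, (∀ x y, φ y x = -φ x y) →
    ∑ t ∈ T, φ t.1 t.2.1 = φ A B + φ B C + φ C A

/-- A triangulation of the triangle `A B C` with vertex set `U`. -/
structure Full (f : V → Pt) (U : Finset V) (A B C : V) (T : Finset (T3 V)) : Prop where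
  ch : Chain f A B C T
  gp : GP f U
  hA : A ∈ U
  hB : B ∈ U
  hC : C ∈ U
  outer : 0 < det3 (f A) (f B) (f C)
  ins : ∀ v ∈ U, v ≠ A → v ≠ B → v ≠ C → In (f A) (f B) (f C) (f v)
  mem : ∀ a b c, (a, b, c) ∈ T → a ∈ U
  used : ∀ v ∈ U, ∃ b c, (v, b, c) ∈ T
  card : #T + 15 = 6 * #U

def Edge (T : Finset (T3 V)) (a b : V) : Prop := ∃ c, (a, b, c) ∈ T ∨ (b, a, c) ∈ T

def has (t : T3 V) (x : V) : Bool := decide (t.1 = x) || decide (t.2.1 = x) || decide (t.2.2 = x)

def ren (p a x : V) : V := if x = p then a else x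

def ren3 (p a : V) (t : T3 V) : T3 V := (ren p a t.1, ren p a t.2.1, ren p a t.2.2)

/-- Contraction of the vertex `p` onto the vertex `a`. -/
def contract (T : Finset (T3 V)) (p a : V) : Finset (T3 V) :=
  (T.filter fun t => !(has t p && has t a)).image (ren3 p a)

def Cond (T : Finset (T3 V)) (p a : V) : Prop :=
  p ≠ a ∧ (∀ u u', (a, u, p) ∈ T → (a, u', p) ∈ T → u = u') ∧
    (∀ w w', (a, p, w) ∈ T → (a, p, w') ∈ T → w = w') ∧ ∀ u, (a, u, p) ∈ T → (a, p, u) ∉ T

def Steps : Finset (T3 V) → List (V × V) → Prop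
  | T, [] => T = ∅
  | T, s :: l => Cond T s.1 s.2 ∧ Steps (contract T s.1 s.2) l

/-- A straight-line embedding in general position of the complex generated by `L`. -/
def Emb2 (L : List (List V)) (f : V → Pt) : Prop :=
  GP f L.flatten.toFinset ∧
    (∀ l ∈ L, ∀ l' ∈ L, ∀ a ∈ l, ∀ b ∈ l, ∀ c ∈ l', ∀ d ∈ l', ¬ Cross (f a) (f b) (f c) (f d)) ∧
    ∀ l ∈ L, ∀ a ∈ l, ∀ b ∈ l, ∀ c ∈ l, ∀ p ∈ L.flatten, ¬ In (f a) (f b) (f c) (f p)

def dirs (A B C : V) (T : List (T3 V)) : List (V × V) :=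
  T.map (fun t => (t.1, t.2.1)) ++ [(B, A), (C, B), (A, C)]

/-- The combinatorial certificate of planarity. -/
def Cert (L : List (List V)) (A B C : V) (T : List (T3 V)) (st : List (V × V)) : Prop :=
  (∀ t ∈ T, (t.2.1, t.2.2, t.1) ∈ T) ∧ (∀ t ∈ T, t.1 ≠ t.2.1) ∧ (dirs A B C T).Nodup ∧
    (∀ e ∈ dirs A B C T, (e.2, e.1) ∈ dirs A B C T) ∧ Steps T.toFinset st ∧
    (∀ v ∈ L.flatten, ∃ t ∈ T, t.1 = v) ∧
    (∀ l ∈ L, ∀ a ∈ l, ∀ b ∈ l, a ≠ b → ∃ t ∈ T, t.1 = a ∧ t.2.1 = b) ∧
    ∀ l ∈ L, ∀ a ∈ l, ∀ b ∈ l, ∀ c ∈ l, a ≠ b → a ≠ c → b ≠ c → (a, b, c) ∈ T ∨ (a, c, b) ∈ T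

theorem det3_rot (x y z : Pt) : det3 y z x = det3 x y z := by unfold det3; ring

theorem det3_swap (x y z : Pt) : det3 y x z = -det3 x y z := by unfold det3; ring

theorem det3_swap' (x y z : Pt) : det3 x z y = -det3 x y z := by unfold det3; ring

@[simp] theorem det3_self1 (x z : Pt) : det3 x x z = 0 := by unfold det3; ring

@[simp] theorem det3_self2 (x z : Pt) : det3 x z x = 0 := by unfold det3; ring

@[simp] theorem det3_self3 (x z : Pt) : det3 x z z = 0 := by unfold det3; ring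

theorem det3_sum (x y z q : Pt) : det3 x y q + det3 y z q + det3 z x q = det3 x y z := by
  unfold det3; ring

/-- Barycentric identity, for the affine function `det3 u v`. -/
theorem det3_bary (u v x y z q : Pt) : det3 x y z * det3 u v q =
    det3 y z q * det3 u v x + det3 z x q * det3 u v y + det3 x y q * det3 u v z := by
  unfold det3; ring

theorem In.rot {x y z q : Pt} (h : In x y z q) : In y z x q := ⟨h.2.1, h.2.2, h.1⟩

theorem In.pos {x y z q : Pt} (h : In x y z q) : 0 < det3 x y z := by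
  have := det3_sum x y z q
  linarith [h.1, h.2.1, h.2.2]

omit [DecidableEq V] in
theorem GP.mono {f : V → Pt} {U U' : Finset V} (h : GP f U) (hU : U' ⊆ U) : GP f U' :=
  ⟨fun a ha b hb => h.1 a (hU ha) b (hU hb), fun a ha b hb c hc => h.2 a (hU ha) b (hU hb) c (hU hc)⟩

@[simp] theorem mem_tri {a b c : V} {t : T3 V} :
    t ∈ tri a b c ↔ t = (a, b, c) ∨ t = (b, c, a) ∨ t = (c, a, b) := by simp [tri]

/-- Small perturbations in general position. -/
theorem ev_gp (f : V → Pt) (U : Finset V) :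
    ∃ w : V → Pt, ∀ᶠ ε in 𝓝[>] (0 : ℝ), GP (fun i => f i + ε • w i) U := by
  let t : V → ℝ := fun i => U.toList.idxOf i
  have ht : ∀ a ∈ U, ∀ b, a ≠ b → t a - t b ≠ 0 := fun a ha b hab h =>
    hab ((List.idxOf_inj (mem_toList.2 ha)).1 (Nat.cast_injective (R := ℝ) (sub_eq_zero.1 h)))
  refine ⟨fun i => (t i, t i ^ 2), Eventually.and ?_ ?_⟩
  · refine (eventually_all_finset U).2 fun a ha => (eventually_all_finset U).2 fun b _ => ?_
    by_cases hab : a = b
    · exact .of_forall fun _ _ => hab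
    · filter_upwards [MP_881548_lc.ev_ne ((f a).1 - (f b).1) (t a - t b) 0 (.inr (ht a ha b hab))]
        with ε hε h
      have := congrArg Prod.fst h
      simp only [Prod.fst_add, Prod.smul_fst, smul_eq_mul] at this
      exact absurd (by linear_combination this) hε
  · refine (eventually_all_finset U).2 fun a ha => (eventually_all_finset U).2 fun b hb =>
      (eventually_all_finset U).2 fun c _ => eventually_all.2 fun h1 => eventually_all.2 fun h2 =>
        eventually_all.2 fun h3 => ?_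
    filter_upwards [MP_881548_lc.ev_ne (det3 (f a) (f b) (f c))
      (((f b).1 - (f a).1) * (t c ^ 2 - t a ^ 2) + (t b - t a) * ((f c).2 - (f a).2) -
        ((f b).2 - (f a).2) * (t c - t a) - (t b ^ 2 - t a ^ 2) * ((f c).1 - (f a).1))
      (-((t a - t b) * (t a - t c) * (t b - t c))) (.inl (neg_ne_zero.2 (mul_ne_zero
        (mul_ne_zero (ht a ha b h1) (ht a ha c h2)) (ht b hb c h3))))] with ε hε h
    refine hε ?_
    simp only [det3, Prod.fst_add, Prod.smul_fst, Prod.snd_add, Prod.smul_snd, smul_eq_mul] at h ⊢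
    linear_combination h

/-- Positivity of an orientation survives small perturbations. -/
theorem ev_det3 {x y z : Pt} (h : 0 < det3 x y z) (x' y' z' : Pt) :
    ∀ᶠ ε in 𝓝[>] (0 : ℝ), 0 < det3 (x + ε • x') (y + ε • y') (z + ε • z') := by
  have hc : Continuous fun ε : ℝ => det3 (x + ε • x') (y + ε • y') (z + ε • z') := by
    unfold det3; fun_prop
  exact (continuousAt_const.eventually_lt hc.continuousAt (by simpa using h)).filter_mono
    nhdsWithin_le_nhds

end Pool.Agent.P.MP_2b4a47_lc.Pl
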