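import Pool.Agent.P.MP_2b4a47_lc.PlDefs

/-! Star-shaped polygons with at most five vertices have a fan triangulation. -/

namespace Pool.Agent.P.MP_2b4a47_lc.Pl

theorem fan_sgn {x : ℝ} (h : x ≠ 0) : 0 < x ∨ 0 < -x := by
  rcases lt_or_gt_of_ne h with h | h
  · right; linarith
  · left; exact h

theorem fan5_core {D0 D1 D2 D3 D4 E0 E1 E2 E3 E4 K0 K1 K2 K3 K4 M0 M1 M2 M3 M4 : ℝ}
    (eK0 : K0 = D0 + D1 - E0) (eK1 : K1 = D1 + D2 - E1) (eK2 : K2 = D2 + D3 - E2)
    (eK3 : K3 = D3 + D4 - E3) (eK4 : K4 = D4 + D0 - E4)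
    (eM0 : M0 = E0 + D2 + E3) (eM1 : M1 = E1 + D3 + E4) (eM2 : M2 = E2 + D4 + E0)
    (eM3 : M3 = E3 + D0 + E1) (eM4 : M4 = E4 + D1 + E2)
    (P0 : D0 * D2 - E0 * E1 - E3 * D1 = 0) (P1 : D1 * D3 - E1 * E2 - E4 * D2 = 0)
    (P2 : D2 * D4 - E2 * E3 - E0 * D3 = 0) (P3 : D3 * D0 - E3 * E4 - E1 * D4 = 0)
    (P4 : D4 * D1 - E4 * E0 - E2 * D0 = 0)
    (hD0 : 0 < D0) (hD1 : 0 < D1) (hD2 : 0 < D2) (hD3 : 0 < D3) (hD4 : 0 < D4)
    (sE0 : 0 < E0 ∨ 0 < -E0) (sE2 : 0 < E2 ∨ 0 < -E2) (sE3 : 0 < E3 ∨ 0 < -E3)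
    (sE4 : 0 < E4 ∨ 0 < -E4)
    (sK0 : 0 < K0 ∨ 0 < -K0) (sK1 : 0 < K1 ∨ 0 < -K1) (sK2 : 0 < K2 ∨ 0 < -K2)
    (sK3 : 0 < K3 ∨ 0 < -K3) (sK4 : 0 < K4 ∨ 0 < -K4)
    (sM0 : 0 < M0 ∨ 0 < -M0) (sM1 : 0 < M1 ∨ 0 < -M1) (sM2 : 0 < M2 ∨ 0 < -M2)
    (sM3 : 0 < M3 ∨ 0 < -M3) (sM4 : 0 < M4 ∨ 0 < -M4)
    (n2 : ¬ (0 < -E4 ∧ 0 < -E2)) (n3 : ¬ (0 < -E0 ∧ 0 < -E3)) (n5 : ¬ (0 < -E2 ∧ 0 < -E0)) :
    (0 < K0 ∧ 0 < M0 ∧ 0 < K3) ∨ (0 < K1 ∧ 0 < M1 ∧ 0 < K4) ∨ (0 < K2 ∧ 0 < M2 ∧ 0 < K0) ∨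
      (0 < K3 ∧ 0 < M3 ∧ 0 < K1) ∨ (0 < K4 ∧ 0 < M4 ∧ 0 < K2) := by
  subst eK0 eK1 eK2 eK3 eK4 eM0 eM1 eM2 eM3 eM4
  rcases sE0 with hE0 | hE0
  · rcases sE2 with hE2 | hE2
    · rcases sM2 with hM2 | hM2
      · rcases sK0 with hK0 | hK0
        · rcases sK2 with hK2 | hK2
          · exact Or.inr (Or.inr (Or.inl ⟨hK2, hM2, hK0⟩))
          · rcases sK3 with hK3 | hK3
            · rcases sM0 with hM0 | hM0
              · exact Or.inl ⟨hK0, hM0, hK3⟩
              · exfalso; linarith only [mul_pos hE0 hK2, mul_pos hD2 hM2, mul_pos hE2 hM0, P0, P1, P2, P3, P4]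
            · exfalso; linarith only [mul_pos hD4 hK2, mul_pos hE2 hK3, mul_pos hD3 hM2, P0, P1, P2, P3, P4]
        · rcases sK4 with hK4 | hK4
          · rcases sM4 with hM4 | hM4
            · rcases sK2 with hK2 | hK2
              · exact Or.inr (Or.inr (Or.inr (Or.inr ⟨hK4, hM4, hK2⟩)))
              · rcases sK1 with hK1 | hK1
                · rcases sK3 with hK3 | hK3
                  · rcases sM1 with hM1 | hM1
                    · exact Or.inr (Or.inl ⟨hK1, hM1, hK4⟩)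
                    · rcases sM3 with hM3 | hM3
                      · exact Or.inr (Or.inr (Or.inr (Or.inl ⟨hK3, hM3, hK1⟩)))
                      · exfalso; linarith only [mul_pos hK0 hM1, mul_pos hM3 hM4, mul_pos hK4 hK1, P0, P1, P2, P3, P4]
                  · exfalso; linarith only [mul_pos hD4 hK2, mul_pos hE2 hK3, mul_pos hD3 hM2, P0, P1, P2, P3, P4]
                · exfalso; linarith only [mul_pos hD1 hK2, mul_pos hD2 hM4, mul_pos hE2 hK1, P0, P1, P2, P3, P4]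
            · exfalso; linarith only [mul_pos hE0 hM4, mul_pos hD1 hM2, mul_pos hE2 hK0, P0, P1, P2, P3, P4]
          · exfalso; linarith only [mul_pos hD0 hM2, mul_pos hE0 hK4, mul_pos hD4 hK0, P0, P1, P2, P3, P4]
      · exfalso; linarith only [hM2, hE2, hD4, hE0]
    · rcases sE4 with hE4 | hE4
      · rcases sK2 with hK2 | hK2
        · rcases sK0 with hK0 | hK0
          · rcases sM2 with hM2 | hM2
            · exact Or.inr (Or.inr (Or.inl ⟨hK2, hM2, hK0⟩))
            · rcases sK3 with hK3 | hK3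
              · rcases sM0 with hM0 | hM0
                · exact Or.inl ⟨hK0, hM0, hK3⟩
                · exfalso; linarith only [mul_pos hE0 hK2, mul_pos hD2 hM2, mul_pos hE2 hM0, P0, P1, P2, P3, P4]
              · exfalso; linarith only [mul_pos hD4 hK2, mul_pos hE2 hK3, mul_pos hD3 hM2, P0, P1, P2, P3, P4]
          · rcases sM4 with hM4 | hM4
            · rcases sK4 with hK4 | hK4
              · exact Or.inr (Or.inr (Or.inr (Or.inr ⟨hK4, hM4, hK2⟩)))
              · exfalso; linarith only [mul_pos hD0 hM4, mul_pos hD1 hK4, mul_pos hE4 hK0, P0, P1, P2, P3, P4]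
            · rcases sK1 with hK1 | hK1
              · rcases sM1 with hM1 | hM1
                · rcases sK4 with hK4 | hK4
                  · exact Or.inr (Or.inl ⟨hK1, hM1, hK4⟩)
                  · rcases sK3 with hK3 | hK3
                    · rcases sM3 with hM3 | hM3
                      · exact Or.inr (Or.inr (Or.inr (Or.inl ⟨hK3, hM3, hK1⟩)))
                      · exfalso; linarith only [mul_pos hK0 hM1, mul_pos hM3 hM4, mul_pos hK4 hK1, P0, P1, P2, P3, P4]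
                    · exfalso; linarith only [mul_pos hD4 hM1, mul_pos hE4 hK3, mul_pos hD3 hK4, P0, P1, P2, P3, P4]
                · exfalso; linarith only [mul_pos hE4 hK2, mul_pos hE2 hM1, mul_pos hD3 hM4, P0, P1, P2, P3, P4]
              · exfalso; linarith only [mul_pos hD1 hK2, mul_pos hD2 hM4, mul_pos hE2 hK1, P0, P1, P2, P3, P4]
        · exfalso; linarith only [hK2, hD3, hE2, hD2]
      · exact (n2 ⟨hE4, hE2⟩).elim
  · rcases sE2 with hE2 | hE2
    · rcases sE3 with hE3 | hE3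
      · rcases sK0 with hK0 | hK0
        · rcases sK2 with hK2 | hK2
          · rcases sM2 with hM2 | hM2
            · exact Or.inr (Or.inr (Or.inl ⟨hK2, hM2, hK0⟩))
            · rcases sK4 with hK4 | hK4
              · rcases sM4 with hM4 | hM4
                · exact Or.inr (Or.inr (Or.inr (Or.inr ⟨hK4, hM4, hK2⟩)))
                · exfalso; linarith only [mul_pos hE0 hM4, mul_pos hD1 hM2, mul_pos hE2 hK0, P0, P1, P2, P3, P4]
              · exfalso; linarith only [mul_pos hD0 hM2, mul_pos hE0 hK4, mul_pos hD4 hK0, P0, P1, P2, P3, P4]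
          · rcases sM0 with hM0 | hM0
            · rcases sK3 with hK3 | hK3
              · exact Or.inl ⟨hK0, hM0, hK3⟩
              · exfalso; linarith only [mul_pos hE3 hK2, mul_pos hD2 hK3, mul_pos hD3 hM0, P0, P1, P2, P3, P4]
            · rcases sK1 with hK1 | hK1
              · rcases sM3 with hM3 | hM3
                · rcases sK3 with hK3 | hK3
                  · exact Or.inr (Or.inr (Or.inr (Or.inl ⟨hK3, hM3, hK1⟩)))
                  · rcases sK4 with hK4 | hK4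
                    · rcases sM1 with hM1 | hM1
                      · exact Or.inr (Or.inl ⟨hK1, hM1, hK4⟩)
                      · exfalso; linarith only [mul_pos hM3 hK2, mul_pos hM0 hM1, mul_pos hK3 hK1, P0, P1, P2, P3, P4]
                    · exfalso; linarith only [mul_pos hD0 hK3, mul_pos hE3 hK4, mul_pos hD4 hM3, P0, P1, P2, P3, P4]
                · exfalso; linarith only [mul_pos hD0 hM0, mul_pos hE0 hM3, mul_pos hE3 hK0, P0, P1, P2, P3, P4]
              · exfalso; linarith only [mul_pos hE0 hK1, mul_pos hD1 hM0, mul_pos hD2 hK0, P0, P1, P2, P3, P4]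
        · exfalso; linarith only [hK0, hD1, hE0, hD0]
      · exact (n3 ⟨hE0, hE3⟩).elim
    · exact (n5 ⟨hE2, hE0⟩).elim

theorem fan_rot (a b c : Pt) : det3 a b c = det3 b c a := by unfold det3; ring

theorem fan_anti (p a b : Pt) : det3 p a b = -det3 p b a := by unfold det3; ring

theorem fan_split (p a b c : Pt) : det3 a b c = det3 p a b + det3 p b c - det3 p a c := by
  unfold det3; ring

theorem fan_split' (p a b c : Pt) : det3 a b c = det3 p a b + det3 p b c + det3 p c a := by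
  unfold det3; ring

theorem fan_pl (p a b c d : Pt) :
    det3 p a b * det3 p c d - det3 p a c * det3 p b d - det3 p d a * det3 p b c = 0 := by
  unfold det3; ring

theorem fan3 {p a b c : Pt} (h1 : 0 < det3 p a b) (h2 : 0 < det3 p b c) (h3 : 0 < det3 p c a) :
    0 < det3 a b c := by
  rw [fan_split' p a b c]; linarith

/-- With `x = det3 p a c`, `y = det3 p b d`: `x * y = D0 * D2 - D1 * D3`. -/
theorem fan4 {p a b c d : Pt} (h1 : 0 < det3 p a b) (h2 : 0 < det3 p b c) (h3 : 0 < det3 p c d)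
    (h4 : 0 < det3 p d a) :
    (0 < det3 a b c ∧ 0 < det3 a c d) ∨ (0 < det3 b c d ∧ 0 < det3 b d a) := by
  have P := fan_pl p a b c d
  have e1 := fan_split p a b c
  have e2 := fan_split' p a c d
  have e3 := fan_split p b c d
  have e4 := fan_split' p b d a
  rw [e1, e2, e3, e4]
  generalize det3 p a b = D0 at *
  generalize det3 p b c = D1 at *
  generalize det3 p c d = D2 at *
  generalize det3 p d a = D3 at *
  generalize det3 p a c = x at *
  generalize det3 p b d = y at *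
  have q02 := mul_pos h1 h3
  have q13 := mul_pos h2 h4
  by_contra hh
  rw [not_or, not_and_or, not_and_or] at hh
  simp only [not_lt] at hh
  obtain ⟨u | u, v | v⟩ := hh
  · have w1 : 0 ≤ (x - D0 - D1) * (y - D1 - D2) := mul_nonneg (by linarith) (by linarith)
    have w2 : 0 ≤ (x - D0 - D1) * (D1 + D2) := mul_nonneg (by linarith) (by linarith)
    have w3 : 0 ≤ (D0 + D1) * (y - D1 - D2) := mul_nonneg (by linarith) (by linarith)
    linarith only [w1, w2, w3, P, q13, mul_pos h1 h2, mul_pos h2 h2, mul_pos h2 h3]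
  · have w1 : 0 ≤ (x - D0 - D1) * (-y - D3 - D0) := mul_nonneg (by linarith) (by linarith)
    have w2 : 0 ≤ (x - D0 - D1) * (D3 + D0) := mul_nonneg (by linarith) (by linarith)
    have w3 : 0 ≤ (D0 + D1) * (-y - D3 - D0) := mul_nonneg (by linarith) (by linarith)
    linarith only [w1, w2, w3, P, q02, mul_pos h1 h2, mul_pos h1 h1, mul_pos h1 h4]
  · have w1 : 0 ≤ (-x - D2 - D3) * (y - D1 - D2) := mul_nonneg (by linarith) (by linarith)
    have w2 : 0 ≤ (-x - D2 - D3) * (D1 + D2) := mul_nonneg (by linarith) (by linarith)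
    have w3 : 0 ≤ (D2 + D3) * (y - D1 - D2) := mul_nonneg (by linarith) (by linarith)
    linarith only [w1, w2, w3, P, q02, mul_pos h3 h2, mul_pos h3 h3, mul_pos h3 h4]
  · have w1 : 0 ≤ (-x - D2 - D3) * (-y - D3 - D0) := mul_nonneg (by linarith) (by linarith)
    have w2 : 0 ≤ (-x - D2 - D3) * (D3 + D0) := mul_nonneg (by linarith) (by linarith)
    have w3 : 0 ≤ (D2 + D3) * (-y - D3 - D0) := mul_nonneg (by linarith) (by linarith)
    linarith only [w1, w2, w3, P, q13, mul_pos h3 h4, mul_pos h4 h4, mul_pos h4 h1]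

/-- True already for sign patterns: checked by brute force, the three-term relations
`[oab][ocd] - [oac][obd] + [oad][obc] = 0` and the affine relations
`[bcd] - [acd] + [abd] - [abc] = 0` exclude all bad patterns of the 20 signs. -/
theorem fan5 {p a b c d e : Pt} (h1 : 0 < det3 p a b) (h2 : 0 < det3 p b c) (h3 : 0 < det3 p c d)
    (h4 : 0 < det3 p d e) (h5 : 0 < det3 p e a)
    (g1 : det3 p a c ≠ 0) (g2 : det3 p b d ≠ 0) (g3 : det3 p c e ≠ 0) (g4 : det3 p d a ≠ 0)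
    (g5 : det3 p e b ≠ 0)
    (k1 : det3 a b c ≠ 0) (k2 : det3 b c d ≠ 0) (k3 : det3 c d e ≠ 0) (k4 : det3 d e a ≠ 0)
    (k5 : det3 e a b ≠ 0)
    (m1 : det3 a c d ≠ 0) (m2 : det3 b d e ≠ 0) (m3 : det3 c e a ≠ 0) (m4 : det3 d a b ≠ 0)
    (m5 : det3 e b c ≠ 0)
    (n1 : ¬ (0 < det3 p a d ∧ 0 < det3 p d b)) (n2 : ¬ (0 < det3 p b e ∧ 0 < det3 p e c))
    (n3 : ¬ (0 < det3 p c a ∧ 0 < det3 p a d)) (n4 : ¬ (0 < det3 p d b ∧ 0 < det3 p b e))
    (n5 : ¬ (0 < det3 p e c ∧ 0 < det3 p c a)) :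
    (0 < det3 a b c ∧ 0 < det3 a c d ∧ 0 < det3 a d e) ∨
    (0 < det3 b c d ∧ 0 < det3 b d e ∧ 0 < det3 b e a) ∨
    (0 < det3 c d e ∧ 0 < det3 c e a ∧ 0 < det3 c a b) ∨
    (0 < det3 d e a ∧ 0 < det3 d a b ∧ 0 < det3 d b c) ∨
    (0 < det3 e a b ∧ 0 < det3 e b c ∧ 0 < det3 e c d) := by
  rw [fan_anti p b e, fan_anti p e c] at n2
  rw [fan_anti p c a, fan_anti p a d] at n3
  rw [fan_anti p e c, fan_anti p c a] at n5
  have H := fan5_core (fan_split p a b c) (fan_split p b c d) (fan_split p c d e)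
    (fan_split p d e a) (fan_split p e a b) (fan_split' p a c d) (fan_split' p b d e)
    (fan_split' p c e a) (fan_split' p d a b) (fan_split' p e b c)
    (fan_pl p a b c d) (fan_pl p b c d e) (fan_pl p c d e a) (fan_pl p d e a b) (fan_pl p e a b c)
    h1 h2 h3 h4 h5 (fan_sgn g1) (fan_sgn g3) (fan_sgn g4) (fan_sgn g5)
    (fan_sgn k1) (fan_sgn k2) (fan_sgn k3) (fan_sgn k4) (fan_sgn k5)
    (fan_sgn m1) (fan_sgn m2) (fan_sgn m3) (fan_sgn m4) (fan_sgn m5) n2 n3 n5
  rw [fan_rot a d e, fan_rot b e a, fan_rot c a b, fan_rot d b c, fan_rot e c d]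
  exact H

end Pool.Agent.P.MP_2b4a47_lc.Pl
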