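import Pool.Agent.P.MP_2b4a47_lc.PlLocal
import Pool.Agent.P.MP_2b4a47_lc.PlFan

/-! An interior vertex of degree at most five can be contracted. -/

namespace Pool.Agent.P.MP_2b4a47_lc.Pl

open Finset Filter Topology

variable {V : Type} [DecidableEq V] {f : V → Pt} {U : Finset V} {A B C : V} {T : Finset (T3 V)}

/-- `#T = ∑ v ∈ U, #{t ∈ T | t.1 = v}`. If all interior vertices had 6 or more triples, `A B C`
would have one each (`used`), so `(A, B, C) ∈ T` (`outer_edge`, `rot`), against `no_inside`. -/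
theorem Full.exists_low (h : Full f U A B C T) (hU : 3 < #U) :
    ∃ p ∈ U, p ≠ A ∧ p ≠ B ∧ p ≠ C ∧ #(T.filter fun t => t.1 = p) ≤ 5 := by
  by_contra hcon
  have h6 : ∀ p ∈ U, p ≠ A → p ≠ B → p ≠ C → 6 ≤ #(T.filter fun t => t.1 = p) := by
    intro p hp h1 h2 h3
    by_contra hlt
    exact hcon ⟨p, hp, h1, h2, h3, by omega⟩
  obtain ⟨hAB, hAC, hBC⟩ := h.ne
  have hsum : #T = ∑ v ∈ U, #(T.filter fun t => t.1 = v) :=
    card_eq_sum_card_fiberwise fun t ht => h.mem t.1 t.2.1 t.2.2 ht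
  have hsub : ({A, B, C} : Finset V) ⊆ U := by
    intro v hv
    simp only [mem_insert, mem_singleton] at hv
    rcases hv with rfl | rfl | rfl
    exacts [h.hA, h.hB, h.hC]
  have hc3 : #({A, B, C} : Finset V) = 3 := card_eq_three.2 ⟨A, B, C, hAB, hAC, hBC, rfl⟩
  have hsd : #(U \ {A, B, C}) + 3 = #U := by rw [← hc3]; exact card_sdiff_add_card_eq_card hsub
  rw [← sum_sdiff hsub, sum_insert (by simp [hAB, hAC]), sum_pair hBC] at hsum
  have hint : #(U \ {A, B, C}) * 6 ≤ ∑ v ∈ U \ {A, B, C}, #(T.filter fun t => t.1 = v) := by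
    refine card_nsmul_le_sum _ _ 6 fun v hv => ?_
    simp only [Finset.mem_sdiff, mem_insert, mem_singleton, not_or] at hv
    exact h6 v hv.1 hv.2.1 hv.2.2.1 hv.2.2.2
  have hpos : ∀ v ∈ U, 0 < #(T.filter fun t => t.1 = v) := fun v hv => by
    obtain ⟨b, c, hbc⟩ := h.used v hv
    exact card_pos.2 ⟨(v, b, c), mem_filter.2 ⟨hbc, rfl⟩⟩
  have hA1 : #(T.filter fun t => t.1 = A) ≤ 1 := by
    have := h.card
    have := hpos B h.hB
    have := hpos C h.hC
    omega
  obtain ⟨⟨z, hz⟩, -, ⟨z', hz'⟩⟩ := h.ch.outer_edge hAB hAC hBC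
  have he : (A, B, z) = (A, z', C) := card_le_one.1 hA1 _ (mem_filter.2 ⟨hz, rfl⟩) _
    (mem_filter.2 ⟨h.ch.rot _ _ _ hz', rfl⟩)
  obtain rfl : z = C := congrArg (fun t : T3 V => t.2.2) he
  obtain ⟨v, hv⟩ : (U \ {A, B, z}).Nonempty := card_pos.1 (by omega)
  simp only [Finset.mem_sdiff, mem_insert, mem_singleton, not_or] at hv
  obtain ⟨x, y, hxy⟩ := h.used v hv.1
  exact h.ch.no_inside hz hxy (h.ins v hv.1 hv.2.1 hv.2.2.1 hv.2.2.2)

omit [DecidableEq V] in
/-- A permutation graph with at most five vertices and no cycle of length 1 or 2 is one cycle. -/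
theorem one_cycle (R : V → V → Prop) (hne : ∃ a b, R a b) (succ : ∀ x y, R x y → ∃ z, R y z)
    (us : ∀ x y y', R x y → R x y' → y = y') (up : ∀ x x' y, R x y → R x' y → x = x')
    (asym : ∀ x y, R x y → ¬ R y x)
    (six : ∀ l : List V, l.Nodup → (∀ x ∈ l, ∃ y, R x y) → l.length ≤ 5) :
    (∃ a b c, ∀ x y, R x y ↔ (x, y) = (a, b) ∨ (x, y) = (b, c) ∨ (x, y) = (c, a)) ∨
    (∃ a b c d, ∀ x y, R x y ↔
      (x, y) = (a, b) ∨ (x, y) = (b, c) ∨ (x, y) = (c, d) ∨ (x, y) = (d, a)) ∨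
    ∃ a b c d e, [a, b, c, d, e].Nodup ∧ ∀ x y, R x y ↔
      (x, y) = (a, b) ∨ (x, y) = (b, c) ∨ (x, y) = (c, d) ∨ (x, y) = (d, e) ∨ (x, y) = (e, a) := by
  have irr : ∀ x y, R x y → x ≠ y := by
    rintro x y h rfl
    exact asym x x h h
  obtain ⟨a, b, hab⟩ := hne
  obtain ⟨c, hbc⟩ := succ a b hab
  obtain ⟨d, hcd⟩ := succ b c hbc
  have ab := irr a b hab
  have bc := irr b c hbc
  have ac : a ≠ c := by
    rintro rfl
    exact asym a b hab hbc
  by_cases da : d = a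
  · subst da
    refine Or.inl ⟨d, b, c, fun x y => ⟨fun hxy => ?_, ?_⟩⟩
    · by_cases xa : x = d
      · subst xa; simp [us _ _ _ hxy hab]
      by_cases xb : x = b
      · subst xb; simp [us _ _ _ hxy hbc]
      by_cases xc : x = c
      · subst xc; simp [us _ _ _ hxy hcd]
      exfalso
      obtain ⟨z, hyz⟩ := succ x y hxy
      obtain ⟨w, hzw⟩ := succ y z hyz
      have ya : y ≠ d := by rintro rfl; exact xc (up _ _ _ hxy hcd)
      have yb : y ≠ b := by rintro rfl; exact xa (up _ _ _ hxy hab)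
      have yc : y ≠ c := by rintro rfl; exact xb (up _ _ _ hxy hbc)
      have za : z ≠ d := by rintro rfl; exact yc (up _ _ _ hyz hcd)
      have zb : z ≠ b := by rintro rfl; exact ya (up _ _ _ hyz hab)
      have zc : z ≠ c := by rintro rfl; exact yb (up _ _ _ hyz hbc)
      have xy := irr x y hxy
      have yz := irr y z hyz
      have xz : x ≠ z := by rintro rfl; exact asym x y hxy hyz
      have := six [x, y, z, d, b, c] (by simp [*]) (by
        intro v hv
        simp only [List.mem_cons, List.not_mem_nil, or_false] at hv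
        rcases hv with rfl | rfl | rfl | rfl | rfl | rfl
        exacts [⟨_, hxy⟩, ⟨_, hyz⟩, ⟨_, hzw⟩, ⟨_, hab⟩, ⟨_, hbc⟩, ⟨_, hcd⟩])
      simp at this
    · rintro (h | h | h) <;> obtain ⟨rfl, rfl⟩ := Prod.mk.inj h <;> assumption
  have ad : a ≠ d := Ne.symm da
  have bd : b ≠ d := by rintro rfl; exact ac (up _ _ _ hab hcd)
  have cd := irr c d hcd
  obtain ⟨e, hde⟩ := succ c d hcd
  by_cases ea : e = a
  · subst ea
    refine Or.inr (Or.inl ⟨e, b, c, d, fun x y => ⟨fun hxy => ?_, ?_⟩⟩)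
    · by_cases xa : x = e
      · subst xa; simp [us _ _ _ hxy hab]
      by_cases xb : x = b
      · subst xb; simp [us _ _ _ hxy hbc]
      by_cases xc : x = c
      · subst xc; simp [us _ _ _ hxy hcd]
      by_cases xd : x = d
      · subst xd; simp [us _ _ _ hxy hde]
      exfalso
      obtain ⟨z, hyz⟩ := succ x y hxy
      have ya : y ≠ e := by rintro rfl; exact xd (up _ _ _ hxy hde)
      have yb : y ≠ b := by rintro rfl; exact xa (up _ _ _ hxy hab)
      have yc : y ≠ c := by rintro rfl; exact xb (up _ _ _ hxy hbc)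
      have yd : y ≠ d := by rintro rfl; exact xc (up _ _ _ hxy hcd)
      have xy := irr x y hxy
      have := six [x, y, e, b, c, d] (by simp [*]) (by
        intro v hv
        simp only [List.mem_cons, List.not_mem_nil, or_false] at hv
        rcases hv with rfl | rfl | rfl | rfl | rfl | rfl
        exacts [⟨_, hxy⟩, ⟨_, hyz⟩, ⟨_, hab⟩, ⟨_, hbc⟩, ⟨_, hcd⟩, ⟨_, hde⟩])
      simp at this
    · rintro (h | h | h | h) <;> obtain ⟨rfl, rfl⟩ := Prod.mk.inj h <;> assumption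
  have ae : a ≠ e := Ne.symm ea
  have be : b ≠ e := by rintro rfl; exact ad (up _ _ _ hab hde)
  have ce : c ≠ e := by rintro rfl; exact bd (up _ _ _ hbc hde)
  have de := irr d e hde
  obtain ⟨g, heg⟩ := succ d e hde
  have five : ∀ x y, R x y → x = a ∨ x = b ∨ x = c ∨ x = d ∨ x = e := by
    intro x y hxy
    by_contra hx
    simp only [not_or] at hx
    obtain ⟨xa, xb, xc, xd, xe⟩ := hx
    have := six [x, a, b, c, d, e] (by simp [*]) (by
      intro v hv
      simp only [List.mem_cons, List.not_mem_nil, or_false] at hv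
      rcases hv with rfl | rfl | rfl | rfl | rfl | rfl
      exacts [⟨_, hxy⟩, ⟨_, hab⟩, ⟨_, hbc⟩, ⟨_, hcd⟩, ⟨_, hde⟩, ⟨_, heg⟩])
    simp at this
  have ga : g = a := by
    obtain ⟨i, hgi⟩ := succ e g heg
    rcases five g i hgi with h | rfl | rfl | rfl | rfl
    · exact h
    · exact absurd (up _ _ _ hab heg) ae
    · exact absurd (up _ _ _ hbc heg) be
    · exact absurd (up _ _ _ hcd heg) ce
    · exact absurd rfl (irr _ _ heg)
  subst ga
  refine Or.inr (Or.inr ⟨g, b, c, d, e, by simp [*], fun x y => ⟨fun hxy => ?_, ?_⟩⟩)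
  · rcases five x y hxy with rfl | rfl | rfl | rfl | rfl
    · simp [us _ _ _ hxy hab]
    · simp [us _ _ _ hxy hbc]
    · simp [us _ _ _ hxy hcd]
    · simp [us _ _ _ hxy hde]
    · simp [us _ _ _ hxy heg]
  · rintro (h | h | h | h | h) <;> obtain ⟨rfl, rfl⟩ := Prod.mk.inj h <;> assumption

/-- The link of `p` is one cycle of length 3, 4 or 5: every `(p, a, b) ∈ T` has a successor
`(p, b, c) ∈ T` (`Chain.twin` for `(b, p, a)`), successors and predecessors are unique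
(`Chain.uniq`), cycles have length at least 3 (`pos`). -/
theorem Full.link (h : Full f U A B C T) {p : V} (hp : p ∈ U) (h1 : p ≠ A) (h2 : p ≠ B)
    (h3 : p ≠ C) (h5 : #(T.filter fun t => t.1 = p) ≤ 5) :
    (∃ a b c, ∀ x y, (p, x, y) ∈ T ↔ (x, y) = (a, b) ∨ (x, y) = (b, c) ∨ (x, y) = (c, a)) ∨
    (∃ a b c d, ∀ x y, (p, x, y) ∈ T ↔
      (x, y) = (a, b) ∨ (x, y) = (b, c) ∨ (x, y) = (c, d) ∨ (x, y) = (d, a)) ∨
    ∃ a b c d e, [a, b, c, d, e].Nodup ∧ ∀ x y, (p, x, y) ∈ T ↔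
      (x, y) = (a, b) ∨ (x, y) = (b, c) ∨ (x, y) = (c, d) ∨ (x, y) = (d, e) ∨ (x, y) = (e, a) := by
  have rot2 : ∀ x y, (p, x, y) ∈ T → (y, p, x) ∈ T := fun x y hxy =>
    h.ch.rot _ _ _ (h.ch.rot _ _ _ hxy)
  refine one_cycle (fun x y => (p, x, y) ∈ T) (h.used p hp) (fun x y hxy => ?_)
    (fun x y y' => h.ch.uniq) (fun x x' y hx hx' => h.ch.uniq (rot2 _ _ hx) (rot2 _ _ hx'))
    (fun x y hxy hyx => ?_) fun l hl hl' => ?_
  · exact h.ch.twin (rot2 x y hxy) (fun e => h2 (Prod.mk.inj e).2) (fun e => h3 (Prod.mk.inj e).2)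
      fun e => h1 (Prod.mk.inj e).2
  · have a1 := h.ch.pos _ _ _ hxy
    have a2 := h.ch.pos _ _ _ hyx
    rw [det3_swap'] at a2
    linarith
  · rw [← List.toFinset_card_of_nodup hl]
    refine le_trans (card_le_card fun x hx => ?_)
      ((card_image_le (f := fun t : T3 V => t.2.1)).trans h5)
    obtain ⟨y, hy⟩ := hl' x (List.mem_toFinset.1 hx)
    exact mem_image.2 ⟨(p, x, y), mem_filter.2 ⟨hy, rfl⟩, rfl⟩

/-- From `link`, `fan3`, `fan4`, `fan5` (with `Chain.no_cone` and general position). -/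
theorem Full.exists_fan (h : Full f U A B C T) (hU : 3 < #U) :
    ∃ p ∈ U, p ≠ A ∧ p ≠ B ∧ p ≠ C ∧ ∃ a u w, (p, a, u) ∈ T ∧ (p, w, a) ∈ T ∧
      ∀ x y, (p, x, y) ∈ T → x ≠ a → y ≠ a → 0 < det3 (f a) (f x) (f y) := by
  obtain ⟨p, hp, h1, h2, h3, h5⟩ := h.exists_low hU
  refine ⟨p, hp, h1, h2, h3, ?_⟩
  rcases h.link hp h1 h2 h3 h5 with ⟨a, b, c, H⟩ | ⟨a, b, c, d, H⟩ | ⟨a, b, c, d, e, hn, H⟩
  · have hab : (p, a, b) ∈ T := (H _ _).2 (by simp)
    have hbc : (p, b, c) ∈ T := (H _ _).2 (by simp)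
    have hca : (p, c, a) ∈ T := (H _ _).2 (by simp)
    have k := fan3 (h.ch.pos _ _ _ hab) (h.ch.pos _ _ _ hbc) (h.ch.pos _ _ _ hca)
    refine ⟨a, b, c, hab, hca, fun x y hxy hx hy => ?_⟩
    rcases (H _ _).1 hxy with e | e | e <;> obtain ⟨rfl, rfl⟩ := Prod.mk.inj e <;>
      first | assumption | contradiction
  · have hab : (p, a, b) ∈ T := (H _ _).2 (by simp)
    have hbc : (p, b, c) ∈ T := (H _ _).2 (by simp)
    have hcd : (p, c, d) ∈ T := (H _ _).2 (by simp)
    have hda : (p, d, a) ∈ T := (H _ _).2 (by simp)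
    rcases fan4 (h.ch.pos _ _ _ hab) (h.ch.pos _ _ _ hbc) (h.ch.pos _ _ _ hcd)
      (h.ch.pos _ _ _ hda) with ⟨k1, k2⟩ | ⟨k1, k2⟩
    · refine ⟨a, b, d, hab, hda, fun x y hxy hx hy => ?_⟩
      rcases (H _ _).1 hxy with e | e | e | e <;> obtain ⟨rfl, rfl⟩ := Prod.mk.inj e <;>
        first | assumption | contradiction
    · refine ⟨b, c, a, hbc, hab, fun x y hxy hx hy => ?_⟩
      rcases (H _ _).1 hxy with e | e | e | e <;> obtain ⟨rfl, rfl⟩ := Prod.mk.inj e <;>
        first | assumption | contradiction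
  · have hab : (p, a, b) ∈ T := (H _ _).2 (by simp)
    have hbc : (p, b, c) ∈ T := (H _ _).2 (by simp)
    have hcd : (p, c, d) ∈ T := (H _ _).2 (by simp)
    have hde : (p, d, e) ∈ T := (H _ _).2 (by simp)
    have hea : (p, e, a) ∈ T := (H _ _).2 (by simp)
    simp only [List.nodup_cons, List.mem_cons, List.not_mem_nil, or_false, not_or,
      not_false_eq_true, List.nodup_nil, and_true] at hn
    obtain ⟨⟨ab, ac, ad, ae⟩, ⟨bc, bd, be⟩, ⟨cd, ce⟩, de⟩ := hn
    have ua := (h.mem3 hab).2.1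
    have ub := (h.mem3 hbc).2.1
    have uc := (h.mem3 hcd).2.1
    have ud := (h.mem3 hde).2.1
    have ue := (h.mem3 hea).2.1
    have pa := (h.ch.ne hab).1
    have pb := (h.ch.ne hbc).1
    have pc := (h.ch.ne hcd).1
    have pd := (h.ch.ne hde).1
    have pe := (h.ch.ne hea).1
    have G := h.gp.2
    rcases fan5 (h.ch.pos _ _ _ hab) (h.ch.pos _ _ _ hbc) (h.ch.pos _ _ _ hcd)
      (h.ch.pos _ _ _ hde) (h.ch.pos _ _ _ hea)
      (G p hp a ua c uc pa pc ac) (G p hp b ub d ud pb pd bd) (G p hp c uc e ue pc pe ce)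
      (G p hp d ud a ua pd pa (Ne.symm ad)) (G p hp e ue b ub pe pb (Ne.symm be))
      (G a ua b ub c uc ab ac bc) (G b ub c uc d ud bc bd cd) (G c uc d ud e ue cd ce de)
      (G d ud e ue a ua de (Ne.symm ad) (Ne.symm ae))
      (G e ue a ua b ub (Ne.symm ae) (Ne.symm be) ab)
      (G a ua c uc d ud ac ad cd) (G b ub d ud e ue bd be de)
      (G c uc e ue a ua ce (Ne.symm ac) (Ne.symm ae))
      (G d ud a ua b ub (Ne.symm ad) (Ne.symm bd) ab)
      (G e ue b ub c uc (Ne.symm be) (Ne.symm ce) bc)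
      (h.ch.no_cone hab hde) (h.ch.no_cone hbc hea) (h.ch.no_cone hcd hab)
      (h.ch.no_cone hde hbc) (h.ch.no_cone hea hcd) with
      ⟨k1, k2, k3⟩ | ⟨k1, k2, k3⟩ | ⟨k1, k2, k3⟩ | ⟨k1, k2, k3⟩ | ⟨k1, k2, k3⟩
    · refine ⟨a, b, e, hab, hea, fun x y hxy hx hy => ?_⟩
      rcases (H _ _).1 hxy with e | e | e | e | e <;> obtain ⟨rfl, rfl⟩ := Prod.mk.inj e <;>
        first | assumption | contradiction
    · refine ⟨b, c, a, hbc, hab, fun x y hxy hx hy => ?_⟩
      rcases (H _ _).1 hxy with e | e | e | e | e <;> obtain ⟨rfl, rfl⟩ := Prod.mk.inj e <;>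
        first | assumption | contradiction
    · refine ⟨c, d, b, hcd, hbc, fun x y hxy hx hy => ?_⟩
      rcases (H _ _).1 hxy with e | e | e | e | e <;> obtain ⟨rfl, rfl⟩ := Prod.mk.inj e <;>
        first | assumption | contradiction
    · refine ⟨d, e, c, hde, hcd, fun x y hxy hx hy => ?_⟩
      rcases (H _ _).1 hxy with e | e | e | e | e <;> obtain ⟨rfl, rfl⟩ := Prod.mk.inj e <;>
        first | assumption | contradiction
    · refine ⟨e, a, d, hea, hde, fun x y hxy hx hy => ?_⟩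
      rcases (H _ _).1 hxy with e | e | e | e | e <;> obtain ⟨rfl, rfl⟩ := Prod.mk.inj e <;>
        first | assumption | contradiction

end Pool.Agent.P.MP_2b4a47_lc.Pl
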