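import Pool.Agent.P.MP_2b4a47_lc.PlLocal

/-! Existence of a triangulation. -/

namespace Pool.Agent.P.MP_2b4a47_lc.Pl

open Finset Filter Topology

variable {V : Type} [DecidableEq V] {f : V → Pt} {U : Finset V} {A B C : V} {T : Finset (T3 V)}

private theorem full_base (hg : GP f {A, B, C}) (ho : 0 < det3 (f A) (f B) (f C)) :
    Full f {A, B, C} A B C (tri A B C) := by
  have h1 : A ≠ B := by rintro rfl; simp at ho
  have h2 : A ≠ C := by rintro rfl; simp at ho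
  have h3 : B ≠ C := by rintro rfl; simp at ho
  refine ⟨⟨?_, ?_, fun φ _ => sum_tri h1 h2 h3 _⟩, hg, by simp, by simp, by simp, ho, ?_, ?_, ?_, ?_⟩
  · simp only [mem_tri, Prod.mk.injEq]
    rintro a b c (⟨rfl, rfl, rfl⟩ | ⟨rfl, rfl, rfl⟩ | ⟨rfl, rfl, rfl⟩) <;> simp
  · simp only [mem_tri, Prod.mk.injEq]
    rintro a b c (⟨rfl, rfl, rfl⟩ | ⟨rfl, rfl, rfl⟩ | ⟨rfl, rfl, rfl⟩)
    · exact ho
    · rwa [det3_rot]
    · rwa [← det3_rot]
  · intro v hv a b c
    simp [a, b, c] at hv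
  · simp only [mem_tri, Prod.mk.injEq]
    rintro a b c (⟨rfl, rfl, rfl⟩ | ⟨rfl, rfl, rfl⟩ | ⟨rfl, rfl, rfl⟩) <;> simp
  · simp only [mem_insert, mem_singleton]
    rintro v (rfl | rfl | rfl)
    · exact ⟨B, C, by simp⟩
    · exact ⟨C, A, by simp⟩
    · exact ⟨A, B, by simp⟩
  · rw [card_tri h1 h2 h3, card_eq_three.2 ⟨A, B, C, h1, h2, h3, rfl⟩]

private theorem tri_rot {a b c x y z : V} (h : (x, y, z) ∈ tri a b c) : (y, z, x) ∈ tri a b c := by
  simp only [mem_tri, Prod.mk.injEq] at h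
  rcases h with ⟨rfl, rfl, rfl⟩ | ⟨rfl, rfl, rfl⟩ | ⟨rfl, rfl, rfl⟩ <;> simp

private theorem tri_pos {a b c x y z : V} (hp : 0 < det3 (f a) (f b) (f c))
    (h : (x, y, z) ∈ tri a b c) : 0 < det3 (f x) (f y) (f z) := by
  simp only [mem_tri, Prod.mk.injEq] at h
  rcases h with ⟨rfl, rfl, rfl⟩ | ⟨rfl, rfl, rfl⟩ | ⟨rfl, rfl, rfl⟩
  · exact hp
  · rwa [det3_rot]
  · rwa [← det3_rot]

private theorem full_step (h : Full f U A B C T) {p : V} (hp : p ∉ U) (hg : GP f (insert p U))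
    (hi : In (f A) (f B) (f C) (f p)) : ∃ T', Full f (insert p U) A B C T' := by
  have hne : ∀ v ∈ U, p ≠ v := fun v hv e => hp (e ▸ hv)
  obtain ⟨a, b, c, ht, i1, i2, i3⟩ := h.ch.cover hi fun a b c ht =>
    hg.2 a (mem_insert_of_mem (h.mem3 ht).1) b (mem_insert_of_mem (h.mem3 ht).2.1) p
      (mem_insert_self _ _) (h.ch.ne ht).1 (hne _ (h.mem3 ht).1).symm (hne _ (h.mem3 ht).2.1).symm
  obtain ⟨ha, hb, hc⟩ := h.mem3 ht
  obtain ⟨ab, ac, bc⟩ := h.ch.ne ht
  have pa := hne a ha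
  have pb := hne b hb
  have pc := hne c hc
  set N := tri p a b ∪ (tri p b c ∪ tri p c a) with hN
  have hsum : ∀ g : T3 V → ℤ, ∑ t ∈ N, g t = g (p, a, b) + g (a, b, p) + g (b, p, a) +
      (g (p, b, c) + g (b, c, p) + g (c, p, b) + (g (p, c, a) + g (c, a, p) + g (a, p, c))) := by
    intro g
    rw [hN, sum_union, sum_union, sum_tri pa pb ab, sum_tri pb pc bc, sum_tri pc pa ac.symm]
    · simp [tri, pb, pc, pa.symm, pc.symm, bc.symm]
    · simp [tri, pa, pb, ab, pa.symm, pb.symm, pc.symm, ab.symm]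
  have hD : tri a b c ⊆ T := by
    intro t ht'
    rcases mem_tri.1 ht' with rfl | rfl | rfl
    exacts [ht, h.ch.rot _ _ _ ht, h.ch.rot _ _ _ (h.ch.rot _ _ _ ht)]
  have hmem : ∀ x y z, (x, y, z) ∈ N → x ∈ insert p U ∧ (x = p ∨ y = p ∨ z = p) := by
    simp only [hN, mem_union, mem_tri, Prod.mk.injEq]
    rintro x y z ((⟨rfl, rfl, rfl⟩ | ⟨rfl, rfl, rfl⟩ | ⟨rfl, rfl, rfl⟩) |
      (⟨rfl, rfl, rfl⟩ | ⟨rfl, rfl, rfl⟩ | ⟨rfl, rfl, rfl⟩) |
      (⟨rfl, rfl, rfl⟩ | ⟨rfl, rfl, rfl⟩ | ⟨rfl, rfl, rfl⟩)) <;> simp [ha, hb, hc]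
  have hdis : Disjoint (T \ tri a b c) N := by
    refine disjoint_left.2 ?_
    rintro ⟨x, y, z⟩ h1 h2
    obtain ⟨m1, m2, m3⟩ := h.mem3 (mem_sdiff.1 h1).1
    rcases (hmem x y z h2).2 with rfl | rfl | rfl <;> contradiction
  refine ⟨_, h.ch.replace hD hdis (fun x y z e => tri_rot (tri_rot e)) ?_ ?_ ?_, hg,
    mem_insert_of_mem h.hA, mem_insert_of_mem h.hB, mem_insert_of_mem h.hC, h.outer, ?_, ?_, ?_, ?_⟩
  · simp only [hN, mem_union]
    exact fun x y z e => e.imp tri_rot (Or.imp tri_rot tri_rot)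
  · simp only [hN, mem_union]
    rintro x y z (e | e | e)
    · exact tri_pos (by rwa [← det3_rot]) e
    · exact tri_pos (by rwa [← det3_rot]) e
    · exact tri_pos (by rwa [← det3_rot]) e
  · intro φ hφ
    rw [hsum, sum_tri ab ac bc]
    linarith [hφ a p, hφ b p, hφ c p]
  · intro v hv h1 h2 h3
    rcases mem_insert.1 hv with rfl | hv
    exacts [hi, h.ins v hv h1 h2 h3]
  · intro x y z e
    rcases mem_union.1 e with e | e
    exacts [mem_insert_of_mem (h.mem x y z (mem_sdiff.1 e).1), (hmem x y z e).1]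
  · intro v hv
    rcases mem_insert.1 hv with rfl | hv
    · exact ⟨a, b, mem_union_right _ (by simp [hN])⟩
    obtain ⟨y, z, e⟩ := h.used v hv
    by_cases e' : (v, y, z) ∈ tri a b c
    · simp only [mem_tri, Prod.mk.injEq] at e'
      rcases e' with ⟨rfl, rfl, rfl⟩ | ⟨rfl, rfl, rfl⟩ | ⟨rfl, rfl, rfl⟩ <;>
        exact ⟨y, p, mem_union_right _ (by simp [hN])⟩
    · exact ⟨y, z, mem_union_left _ (mem_sdiff.2 ⟨e, e'⟩)⟩
  · have h1 : (#N : ℤ) = 9 := by
      have := hsum fun _ => 1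
      rw [sum_const, nsmul_eq_mul, mul_one] at this
      rw [this]
      rfl
    have h2 := card_sdiff_add_card_eq_card hD
    have h3 := h.card
    rw [card_tri ab ac bc] at h2
    rw [card_union_of_disjoint hdis, card_insert_of_notMem hp]
    omega

/-- Induction on the interior vertices: start from `tri A B C`; a new vertex `p` is inside some
`(a, b, c) ∈ T` (`Chain.cover`, general position); replace `tri a b c` by
`tri p a b ∪ tri p b c ∪ tri p c a` (`Chain.replace`; `p` occurs in no old triple). -/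
theorem exists_full (hg : GP f U) (hA : A ∈ U) (hB : B ∈ U) (hC : C ∈ U)
    (ho : 0 < det3 (f A) (f B) (f C))
    (hi : ∀ v ∈ U, v ≠ A → v ≠ B → v ≠ C → In (f A) (f B) (f C) (f v)) :
    ∃ T, Full f U A B C T := by
  induction U using Finset.strongInduction with
  | H U ih =>
    by_cases hp : ∃ p ∈ U, p ≠ A ∧ p ≠ B ∧ p ≠ C
    · obtain ⟨p, hp, h1, h2, h3⟩ := hp
      obtain ⟨T, hT⟩ := ih (U.erase p) (erase_ssubset hp) (hg.mono (erase_subset _ _))
        (mem_erase.2 ⟨h1.symm, hA⟩) (mem_erase.2 ⟨h2.symm, hB⟩) (mem_erase.2 ⟨h3.symm, hC⟩)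
        fun v hv => hi v (mem_of_mem_erase hv)
      have := full_step hT (notMem_erase p U) (by rwa [insert_erase hp]) (hi p hp h1 h2 h3)
      rwa [insert_erase hp] at this
    · obtain rfl : U = {A, B, C} := by
        ext v
        simp only [mem_insert, mem_singleton]
        constructor
        · intro hv
          by_contra h
          simp only [not_or] at h
          exact hp ⟨v, hv, h⟩
        · rintro (rfl | rfl | rfl) <;> assumption
      exact ⟨_, full_base hg ho⟩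

end Pool.Agent.P.MP_2b4a47_lc.Pl
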