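import Pool.Agent.P.MP_2b4a47_lc.PlCross
import Pool.Agent.P.MP_2b4a47_lc.PlInit

/-! Flips insert any family of non-crossing segments. -/

namespace Pool.Agent.P.MP_2b4a47_lc.Pl

open Finset Filter Topology

variable {V : Type} [DecidableEq V] {f : V → Pt} {U : Finset V} {A B C : V} {T : Finset (T3 V)}

/-- With `α = det3 t y s`, `β = det3 x t s`, `γ = det3 y x t`, `δ = det3 x y s` one has
`α x + β y = γ s + δ t` and `α + β = γ + δ`; apply the affine function `κ`. -/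
theorem flip_pos {x y s t : Pt} (h1 : 0 < det3 x y s) (h2 : 0 < det3 y x t) {α β : ℝ}
    (a1 : α * y.1 + β * y.2 < α * s.1 + β * s.2) (a2 : α * s.1 + β * s.2 < α * x.1 + β * x.2)
    (a3 : α * y.1 + β * y.2 < α * t.1 + β * t.2) (a4 : α * t.1 + β * t.2 < α * x.1 + β * x.2) :
    0 < det3 x t s ∧ 0 < det3 t y s := by
  have e1 : det3 t y s * (α * x.1 + β * x.2 - (α * y.1 + β * y.2)) =
      det3 y x t * (α * s.1 + β * s.2 - (α * y.1 + β * y.2)) +
        det3 x y s * (α * t.1 + β * t.2 - (α * y.1 + β * y.2)) := by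
    unfold det3; ring
  have e2 : det3 x t s * (α * x.1 + β * x.2 - (α * y.1 + β * y.2)) =
      det3 y x t * (α * x.1 + β * x.2 - (α * s.1 + β * s.2)) +
        det3 x y s * (α * x.1 + β * x.2 - (α * t.1 + β * t.2)) := by
    unfold det3; ring
  have hd : 0 < α * x.1 + β * x.2 - (α * y.1 + β * y.2) := by linarith
  constructor
  · refine (mul_pos_iff_of_pos_right hd).1 ?_
    rw [e2]
    exact add_pos (mul_pos h2 (by linarith)) (mul_pos h1 (by linarith))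
  · refine (mul_pos_iff_of_pos_right hd).1 ?_
    rw [e1]
    exact add_pos (mul_pos h2 (by linarith)) (mul_pos h1 (by linarith))

/-- The flip. The new triples are not in `T` by `Chain.uniq`. -/
theorem Full.flip (h : Full f U A B C T) {x y s t : V} (h1 : (x, y, s) ∈ T) (h2 : (y, x, t) ∈ T)
    (h3 : 0 < det3 (f x) (f t) (f s)) (h4 : 0 < det3 (f t) (f y) (f s)) :
    ∃ T', Full f U A B C T' ∧
      (∀ a b, Edge T a b → Edge T' a b ∨ (a = x ∧ b = y) ∨ (a = y ∧ b = x)) ∧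
      ∀ g : V → V → ℝ, (∀ a b, g a b = g b a) →
        ∑ t ∈ T', g t.1 t.2.1 = ∑ t ∈ T, g t.1 t.2.1 - 2 * g x y + 2 * g s t := by
  obtain ⟨nxy, nxs, nys⟩ := h.ch.ne h1
  obtain ⟨-, nyt, nxt⟩ := h.ch.ne h2
  have nst : s ≠ t := by
    rintro rfl
    simp at h3
  have r1 := h.ch.rot _ _ _ h1
  have r1' := h.ch.rot _ _ _ r1
  have r2 := h.ch.rot _ _ _ h2
  have r2' := h.ch.rot _ _ _ r2
  have n1 : (x, t, s) ∉ T := fun hh => nys (h.ch.uniq r2 hh)
  have n2 : (t, y, s) ∉ T := fun hh => nxs (h.ch.uniq r2' hh)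
  have hD : tri x y s ∪ tri y x t ⊆ T := by
    intro p hp
    simp only [mem_union, mem_tri] at hp
    rcases hp with (rfl | rfl | rfl) | (rfl | rfl | rfl) <;> assumption
  have hN : Disjoint (T \ (tri x y s ∪ tri y x t)) (tri x t s ∪ tri t y s) := by
    refine disjoint_left.2 fun p hp hq => ?_
    have hp' := (mem_sdiff.1 hp).1
    simp only [mem_union, mem_tri] at hq
    rcases hq with (rfl | rfl | rfl) | (rfl | rfl | rfl)
    · exact n1 hp'
    · exact n1 (h.ch.rot _ _ _ (h.ch.rot _ _ _ hp'))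
    · exact n1 (h.ch.rot _ _ _ hp')
    · exact n2 hp'
    · exact n2 (h.ch.rot _ _ _ (h.ch.rot _ _ _ hp'))
    · exact n2 (h.ch.rot _ _ _ hp')
  have d1 : Disjoint (tri x y s) (tri y x t) := by
    refine disjoint_left.2 fun p hp hq => ?_
    simp only [mem_tri] at hp hq
    rcases hp with rfl | rfl | rfl <;>
      simp [nxy, nyt, nxt, nst, nxy.symm, nxs.symm, nys.symm] at hq
  have d2 : Disjoint (tri x t s) (tri t y s) := by
    refine disjoint_left.2 fun p hp hq => ?_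
    simp only [mem_tri] at hp hq
    rcases hp with rfl | rfl | rfl <;>
      simp [nxy, nxs, nxt, nst, nyt.symm, nst.symm, nys.symm] at hq
  have sD : ∀ {M : Type} [AddCommMonoid M] (g : V → V → M),
      ∑ p ∈ tri x y s ∪ tri y x t, g p.1 p.2.1 =
        g x y + g y s + g s x + (g y x + g x t + g t y) := by
    intro M _ g
    rw [sum_union d1, sum_tri nxy nxs nys, sum_tri nxy.symm nyt nxt]
  have sN : ∀ {M : Type} [AddCommMonoid M] (g : V → V → M),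
      ∑ p ∈ tri x t s ∪ tri t y s, g p.1 p.2.1 =
        g x t + g t s + g s x + (g t y + g y s + g s t) := by
    intro M _ g
    rw [sum_union d2, sum_tri nxt nxs nst.symm, sum_tri nyt.symm nst.symm nys]
  have hch : Chain f A B C (T \ (tri x y s ∪ tri y x t) ∪ (tri x t s ∪ tri t y s)) := by
    refine h.ch.replace hD hN ?_ ?_ ?_ ?_
    · intro a b c hp
      simp only [mem_union, mem_tri, Prod.mk.injEq] at hp
      rcases hp with (⟨rfl, rfl, rfl⟩ | ⟨rfl, rfl, rfl⟩ | ⟨rfl, rfl, rfl⟩) |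
        (⟨rfl, rfl, rfl⟩ | ⟨rfl, rfl, rfl⟩ | ⟨rfl, rfl, rfl⟩) <;> simp
    · intro a b c hp
      simp only [mem_union, mem_tri, Prod.mk.injEq] at hp
      rcases hp with (⟨rfl, rfl, rfl⟩ | ⟨rfl, rfl, rfl⟩ | ⟨rfl, rfl, rfl⟩) |
        (⟨rfl, rfl, rfl⟩ | ⟨rfl, rfl, rfl⟩ | ⟨rfl, rfl, rfl⟩) <;> simp
    · intro a b c hp
      simp only [mem_union, mem_tri, Prod.mk.injEq] at hp
      rcases hp with (⟨rfl, rfl, rfl⟩ | ⟨rfl, rfl, rfl⟩ | ⟨rfl, rfl, rfl⟩) |
        (⟨rfl, rfl, rfl⟩ | ⟨rfl, rfl, rfl⟩ | ⟨rfl, rfl, rfl⟩)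
      · exact h3
      · rwa [det3_rot]
      · rwa [← det3_rot]
      · exact h4
      · rwa [det3_rot]
      · rwa [← det3_rot]
    · intro φ hφ
      rw [sD, sN]
      linarith [hφ x y, hφ s t]
  have hx := (h.mem3 h1).1
  have hy := (h.mem3 h1).2.1
  have hs := (h.mem3 h1).2.2
  have ht := (h.mem3 h2).2.2
  have key : ∀ a b c, (a, b, c) ∈ T →
      (∃ c', (a, b, c') ∈ T \ (tri x y s ∪ tri y x t) ∪ (tri x t s ∪ tri t y s)) ∨
        (a = x ∧ b = y) ∨ (a = y ∧ b = x) := by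
    intro a b c hp
    by_cases hq : (a, b, c) ∈ tri x y s ∪ tri y x t
    · simp only [mem_union, mem_tri, Prod.mk.injEq] at hq
      rcases hq with (⟨rfl, rfl, rfl⟩ | ⟨rfl, rfl, rfl⟩ | ⟨rfl, rfl, rfl⟩) |
        (⟨rfl, rfl, rfl⟩ | ⟨rfl, rfl, rfl⟩ | ⟨rfl, rfl, rfl⟩)
      · exact .inr (.inl ⟨rfl, rfl⟩)
      · exact .inl ⟨t, by simp⟩
      · exact .inl ⟨t, by simp⟩
      · exact .inr (.inr ⟨rfl, rfl⟩)
      · exact .inl ⟨s, by simp⟩
      · exact .inl ⟨s, by simp⟩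
    · exact .inl ⟨c, mem_union_left _ (mem_sdiff.2 ⟨hp, hq⟩)⟩
  refine ⟨_, ⟨hch, h.gp, h.hA, h.hB, h.hC, h.outer, h.ins, ?_, ?_, ?_⟩, ?_, ?_⟩
  · intro a b c hp
    rcases mem_union.1 hp with hp | hp
    · exact h.mem _ _ _ (mem_sdiff.1 hp).1
    · simp only [mem_union, mem_tri, Prod.mk.injEq] at hp
      rcases hp with (⟨rfl, -⟩ | ⟨rfl, -⟩ | ⟨rfl, -⟩) | (⟨rfl, -⟩ | ⟨rfl, -⟩ | ⟨rfl, -⟩) <;>
        assumption
  · intro v hv
    obtain ⟨b, c, hp⟩ := h.used v hv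
    rcases key _ _ _ hp with ⟨c', hc⟩ | ⟨rfl, -⟩ | ⟨rfl, -⟩
    · exact ⟨b, c', hc⟩
    · exact ⟨t, s, by simp⟩
    · exact ⟨s, t, by simp⟩
  · have c1 := card_sdiff_add_card_eq_card hD
    rw [card_union_of_disjoint d1, card_tri nxy nxs nys, card_tri nxy.symm nyt nxt] at c1
    rw [card_union_of_disjoint hN, card_union_of_disjoint d2, card_tri nxt nxs nst.symm,
      card_tri nyt.symm nst.symm nys, c1]
    exact h.card
  · rintro a b ⟨c, hp | hp⟩
    · rcases key _ _ _ hp with ⟨c', hc⟩ | hc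
      · exact .inl ⟨c', .inl hc⟩
      · exact .inr hc
    · rcases key _ _ _ hp with ⟨c', hc⟩ | hc | hc
      · exact .inl ⟨c', .inr hc⟩
      · exact .inr (.inr ⟨hc.2, hc.1⟩)
      · exact .inr (.inl ⟨hc.2, hc.1⟩)
  · intro g hg
    rw [sum_union hN, ← sum_sdiff hD, sD, sN]
    linarith [hg x y, hg s t]

/-- Among the triangulations (subsets of `U ×ˢ U ×ˢ U`) containing the edges `G` take one
minimising `∑ t ∈ T, |κ t.1 - κ t.2.1|` (`exists_tilt`, `Full.exists_flip`, `Full.flip`). -/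
theorem Full.add_edge (h : Full f U A B C T) {u v : V} (hu : u ∈ U) (hv : v ∈ U) (huv : u ≠ v)
    (G : V → V → Prop) (hG : ∀ a b, G a b → Edge T a b ∧ ¬ Cross (f u) (f v) (f a) (f b)) :
    ∃ T', Full f U A B C T' ∧ Edge T' u v ∧ ∀ a b, G a b → Edge T' a b := by
  classical
  obtain ⟨α, β, k1, k2⟩ := exists_tilt h.gp hu hv huv
  set κ : V → ℝ := fun a => α * (f a).1 + β * (f a).2 with hκ
  have hsub : ∀ T', Full f U A B C T' → T' ∈ (U ×ˢ U ×ˢ U).powerset := by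
    intro T' h'
    refine mem_powerset.2 fun p hp => ?_
    obtain ⟨a, b, c⟩ := p
    have := h'.mem3 hp
    simp only [mem_product]
    exact this
  obtain ⟨T0, hT0, hmin⟩ := exists_min_image
    ((U ×ˢ U ×ˢ U).powerset.filter fun T' => Full f U A B C T' ∧ ∀ a b, G a b → Edge T' a b)
    (fun T' => ∑ t ∈ T', |κ t.1 - κ t.2.1|)
    ⟨T, mem_filter.2 ⟨hsub T h, h, fun a b hab => (hG a b hab).1⟩⟩
  obtain ⟨-, h0, hG0⟩ := mem_filter.1 hT0
  refine ⟨T0, h0, ?_, hG0⟩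
  by_contra he
  obtain ⟨x, y, s, t, e1, e2, hc, a1, a2, a3, a4⟩ := h0.exists_flip hu hv huv he (κ := κ) k1 k2
  obtain ⟨p1, p2⟩ := flip_pos (h0.ch.pos _ _ _ e1) (h0.ch.pos _ _ _ e2) a1 a2 a3 a4
  obtain ⟨T1, h1, hE, hs⟩ := h0.flip e1 e2 p1 p2
  have hG1 : ∀ a b, G a b → Edge T1 a b := by
    intro a b hab
    rcases hE a b (hG0 a b hab) with h' | ⟨rfl, rfl⟩ | ⟨rfl, rfl⟩
    · exact h'
    · exact absurd hc (hG _ _ hab).2
    · refine absurd ⟨?_, ?_⟩ (hG _ _ hab).2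
      · rw [mul_comm]; exact hc.1
      · rw [det3_swap (f b) (f a) (f u), det3_swap (f b) (f a) (f v), neg_mul_neg]; exact hc.2
  have hle := hmin T1 (mem_filter.2 ⟨hsub T1 h1, h1, hG1⟩)
  have hs' := hs (fun a b => |κ a - κ b|) fun a b => abs_sub_comm _ _
  have q1 : |κ x - κ y| = κ x - κ y := abs_of_pos (by linarith)
  have q2 : |κ s - κ t| < κ x - κ y := abs_lt.2 ⟨by linarith, by linarith⟩
  linarith

/-- Induction on the list `G`, from `exists_full`. -/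
theorem exists_full_edges (hg : GP f U) (hA : A ∈ U) (hB : B ∈ U) (hC : C ∈ U)
    (ho : 0 < det3 (f A) (f B) (f C))
    (hi : ∀ v ∈ U, v ≠ A → v ≠ B → v ≠ C → In (f A) (f B) (f C) (f v)) (G : List (V × V))
    (h1 : ∀ e ∈ G, e.1 ∈ U ∧ e.2 ∈ U ∧ e.1 ≠ e.2)
    (h2 : ∀ e ∈ G, ∀ e' ∈ G, ¬ Cross (f e.1) (f e.2) (f e'.1) (f e'.2)) :
    ∃ T, Full f U A B C T ∧ ∀ e ∈ G, Edge T e.1 e.2 := by
  induction G with
  | nil =>
    obtain ⟨T, h⟩ := exists_full hg hA hB hC ho hi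
    exact ⟨T, h, by simp⟩
  | cons e G ih =>
    obtain ⟨T, h, hE⟩ := ih (fun e' he => h1 e' (List.mem_cons_of_mem _ he))
      fun a ha b hb => h2 a (List.mem_cons_of_mem _ ha) b (List.mem_cons_of_mem _ hb)
    obtain ⟨e1, e2, e3⟩ := h1 e List.mem_cons_self
    obtain ⟨T', h', hE1, hE2⟩ := h.add_edge e1 e2 e3 (fun a b => (a, b) ∈ G) fun a b hab =>
      ⟨hE _ hab, h2 e List.mem_cons_self _ (List.mem_cons_of_mem _ hab)⟩
    refine ⟨T', h', fun e' he' => ?_⟩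
    rcases List.mem_cons.1 he' with rfl | he'
    · exact hE1
    · exact hE2 _ _ he'

end Pool.Agent.P.MP_2b4a47_lc.Pl
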