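import Pool.Agent.P.MP_2b4a47_lc.PlDefs
import Pool.Agent.P.MP_2b4a47_lc.Member

/-! The certificate can be checked in polynomial time. -/

namespace Pool.Agent.P.MP_2b4a47_lc.Pl

open Pool.Agent.Lib.NP

def condB (T : List (T3 Nm)) (p a : Nm) : Bool :=
  decide (p ≠ a) &&
    (T.all fun t => T.all fun t' => !(decide (t.1 = a) && decide (t.2.2 = p) &&
      decide (t'.1 = a) && decide (t'.2.2 = p)) || decide (t.2.1 = t'.2.1)) &&
    (T.all fun t => T.all fun t' => !(decide (t.1 = a) && decide (t.2.1 = p) &&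
      decide (t'.1 = a) && decide (t'.2.1 = p)) || decide (t.2.2 = t'.2.2)) &&
    T.all fun t => !(decide (t.1 = a) && decide (t.2.2 = p)) || !decide ((a, p, t.2.1) ∈ T)

theorem condB_iff (T : List (T3 Nm)) (p a : Nm) : condB T p a = true ↔ Cond T.toFinset p a := by
  simp only [condB, Cond, Bool.and_eq_true, List.all_eq_true, Bool.or_eq_true, decide_eq_true_eq,
    Bool.not_eq_true', ← Bool.not_eq_true, List.mem_toFinset, and_assoc, ← imp_iff_not_or]
  refine and_congr Iff.rfl (and_congr ⟨fun h u u' h1 h2 => ?_, ?_⟩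
    (and_congr ⟨fun h u u' h1 h2 => ?_, ?_⟩ ⟨fun h u h1 => ?_, ?_⟩))
  · exact h _ h1 _ h2 ⟨rfl, rfl, rfl, rfl⟩
  · rintro h ⟨x, y, z⟩ h1 ⟨x', y', z'⟩ h2 ⟨rfl, rfl, rfl, rfl⟩
    exact h _ _ h1 h2
  · exact h _ h1 _ h2 ⟨rfl, rfl, rfl, rfl⟩
  · rintro h ⟨x, y, z⟩ h1 ⟨x', y', z'⟩ h2 ⟨rfl, rfl, rfl, rfl⟩
    exact h _ _ h1 h2
  · exact h _ h1 ⟨rfl, rfl⟩
  · rintro h ⟨x, y, z⟩ h1 ⟨rfl, rfl⟩
    exact h _ h1

def contrL (T : List (T3 Nm)) (p a : Nm) : List (T3 Nm) :=
  (T.filter fun t => !(has t p && has t a)).map (ren3 p a)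

theorem contrL_toFinset (T : List (T3 Nm)) (p a : Nm) :
    (contrL T p a).toFinset = contract T.toFinset p a := by
  ext t
  simp only [contrL, contract, List.mem_toFinset, List.mem_map, List.mem_filter, Finset.mem_image,
    Finset.mem_filter]

def stepB (s : Bool × List (T3 Nm)) (e : Nm × Nm) : Bool × List (T3 Nm) :=
  (s.1 && condB s.2 e.1 e.2, contrL s.2 e.1 e.2)

theorem stepB_iff (st : List (Nm × Nm)) (b : Bool) (T : List (T3 Nm)) :
    ((st.foldl stepB (b, T)).1 && (st.foldl stepB (b, T)).2.isEmpty) = true ↔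
      b = true ∧ Steps T.toFinset st := by
  induction st generalizing b T with
  | nil => simp [Steps]
  | cons e st ih =>
    rw [List.foldl_cons, stepB, ih, Bool.and_eq_true, condB_iff, contrL_toFinset, Steps, and_assoc]

theorem stepB_size (B n : ℕ) (st : List (Nm × Nm)) (hst : ∀ e ∈ st, sz e.2 ≤ B)
    (s : Bool × List (T3 Nm)) (hn : s.2.length ≤ n)
    (hs : ∀ t ∈ s.2, sz t.1 ≤ B ∧ sz t.2.1 ≤ B ∧ sz t.2.2 ≤ B) :
    sz (st.foldl stepB s) ≤ 3 + n * (10 * B + 5) := by
  induction st generalizing s with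
  | nil =>
    obtain ⟨b, T⟩ := s
    have h1 := sz_list_le T (5 * B + 2) fun ⟨x, y, z⟩ ht => by
      have := hs _ ht
      simp only [sz_prod] at this ⊢
      omega
    have h2 : T.length * (2 * (5 * B + 2) + 1) ≤ n * (10 * B + 5) :=
      Nat.mul_le_mul hn (by omega)
    simp only [List.foldl_nil, sz_prod, sz_bool]
    omega
  | cons e st ih =>
    rw [List.foldl_cons]
    refine ih (fun e' he => hst e' (List.mem_cons_of_mem _ he)) _ ?_ fun t ht => ?_
    · simp only [stepB, contrL, List.length_map]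
      exact (List.length_filter_le _ _).trans hn
    · simp only [stepB, contrL, List.mem_map, List.mem_filter] at ht
      obtain ⟨t0, ⟨h0, -⟩, rfl⟩ := ht
      have h1 := hst e List.mem_cons_self
      have h2 : ∀ x : Nm, sz x ≤ B → sz (ren e.1 e.2 x) ≤ B := fun x hx => by
        unfold ren
        split_ifs
        · exact h1
        · exact hx
      exact ⟨h2 _ (hs _ h0).1, h2 _ (hs _ h0).2.1, h2 _ (hs _ h0).2.2⟩

theorem pt_stepB : PT fun p : (Bool × List (T3 Nm)) × Nm × Nm => stepB p.1 p.2 := by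
  unfold stepB condB contrL ren3 ren has
  fun_prop

theorem pt_fold : PT fun a : List (T3 Nm) × List (Nm × Nm) => a.2.foldl stepB (true, a.1) := by
  have h0 : PT fun p : (List (T3 Nm) × List (Nm × Nm)) × (Bool × List (T3 Nm)) × Nm × Nm =>
      stepB p.2.1 p.2.2 := (PT.comp pt_stepB (PT.snd PT.id')).congr fun _ => rfl
  refine PT.foldl (f := fun _ s e => stepB s e) h0
    (by fun_prop) (by fun_prop) (3 + Polynomial.X * (10 * Polynomial.X + 5)) fun a i => ?_
  have h1 := sz_fst_le a
  have h2 := sz_snd_le a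
  have := stepB_size (sz a) (sz a) (a.2.take i) (fun e he =>
    (sz_snd_le e).trans ((sz_le_of_mem (List.mem_of_mem_take he)).trans h2)) (true, a.1)
    ((length_le_sz _).trans h1) fun t ht => by
      have h3 := (sz_le_of_mem ht).trans h1
      have h4 := (sz_snd_le t).trans h3
      exact ⟨(sz_fst_le t).trans h3, (sz_fst_le _).trans h4, (sz_snd_le _).trans h4⟩
  simpa using this

def chkB (x : List (List Nm) × (Nm × Nm × Nm) × List (T3 Nm) × List (Nm × Nm))
    (r : Bool × List (T3 Nm)) (D : List (Nm × Nm)) : Bool :=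
  (x.2.2.1.all fun t => decide ((t.2.1, t.2.2, t.1) ∈ x.2.2.1)) &&
    (x.2.2.1.all fun t => decide (t.1 ≠ t.2.1)) &&
    pw (fun e e' => decide (e ≠ e')) ([], []) D &&
    (D.all fun e => decide ((e.2, e.1) ∈ D)) && (r.1 && r.2.isEmpty) &&
    (x.1.flatten.all fun v => x.2.2.1.any fun t => decide (t.1 = v)) &&
    (x.1.all fun l => l.all fun a => l.all fun b => !decide (a ≠ b) ||
      x.2.2.1.any fun t => decide (t.1 = a) && decide (t.2.1 = b)) &&
    x.1.all fun l => l.all fun a => l.all fun b => l.all fun c =>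
      !decide (a ≠ b) || (!decide (a ≠ c) || (!decide (b ≠ c) ||
        (decide ((a, b, c) ∈ x.2.2.1) || decide ((a, c, b) ∈ x.2.2.1))))

theorem pt_chkB : PT fun p : (List (List Nm) × (Nm × Nm × Nm) × List (T3 Nm) × List (Nm × Nm)) ×
    (Bool × List (T3 Nm)) × List (Nm × Nm) => chkB p.1 p.2.1 p.2.2 := by
  unfold chkB pw
  fun_prop

/-- Boolean version of `Cert`; `Steps` by a left fold over the steps with state
`Bool × List (T3 Nm)` (filter and map; `PT.foldl` with the bound: the list does not get longer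
and every name in it is a name of the input). `pw` of `Member.lean` checks `Nodup`. -/
theorem exists_chk : ∃ chk : List (List Nm) × (Nm × Nm × Nm) × List (T3 Nm) × List (Nm × Nm) → Bool,
    PT chk ∧ ∀ L A B C T st, chk (L, (A, B, C), T, st) = true ↔ Cert L A B C T st := by
  refine ⟨fun x => chkB x (x.2.2.2.foldl stepB (true, x.2.2.1))
    (dirs x.2.1.1 x.2.1.2.1 x.2.1.2.2 x.2.2.1), ?_, fun L A B C T st => ?_⟩
  · have h1 : PT fun x : List (List Nm) × (Nm × Nm × Nm) × List (T3 Nm) × List (Nm × Nm) =>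
        x.2.2.2.foldl stepB (true, x.2.2.1) :=
      (PT.comp pt_fold (PT.snd (PT.snd PT.id'))).congr fun _ => rfl
    have h2 : PT fun x : List (List Nm) × (Nm × Nm × Nm) × List (T3 Nm) × List (Nm × Nm) =>
        dirs x.2.1.1 x.2.1.2.1 x.2.1.2.2 x.2.2.1 := by
      unfold dirs
      fun_prop
    exact (PT.comp pt_chkB (PT.mk PT.id' (PT.mk h1 h2))).congr fun _ => rfl
  · have h := stepB_iff st true T
    simp only [true_and] at h
    unfold chkB Cert
    rw [← h]
    simp only [Bool.and_eq_true, pw_iff, List.all_eq_true, List.any_eq_true, Bool.or_eq_true,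
      decide_eq_true_eq, Bool.not_eq_true', ← Bool.not_eq_true, and_assoc, List.Nodup]
    simp only [← imp_iff_not_or]

end Pool.Agent.P.MP_2b4a47_lc.Pl
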