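import Pool.Agent.P.MP_2b4a47_lc.Circ
import Pool.Agent.P.MP_2b4a47_lc.Gadget

/-! The local complex in dimension three. -/

namespace Pool.Agent.P.MP_2b4a47_lc.R3

open Finset Module Pool.Agent.Lib.ETR

/-- Local coordinates (along the line, height, normal, homogenising) of the eleven vertices. -/
def vec : List (ℤ × ℤ × ℤ × ℤ) := [(0, 1, 0, 0), (-17, -16, 0, 1), (1, -8, 0, 1), (-4, -19, 4, 1),
  (5, -10, -1, 1), (11, 20, -9, 1), (-9, 5, 20, 1), (-10, -3, -9, 1), (-9, 4, 3, 1), (0, 0, 1, 0),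
  (0, 0, -1, 0)]

def vz (i : Fin 11) : ℤ × ℤ × ℤ × ℤ := vec.getD i 0

def val (f : ℤ × ℤ × ℤ × ℤ) (i : Fin 11) : ℤ :=
  f.1 * (vz i).1 + f.2.1 * (vz i).2.1 + f.2.2.1 * (vz i).2.2.1 + f.2.2.2 * (vz i).2.2.2

def certs : List (ℤ × ℤ × ℤ × ℤ) := [(12, 1, 2, 61), (-1, 3, 2, 19), (-6, -1, -1, -3),
  (6, -5, -1, 35), (9, -1, 5, -13), (2, -2, -2, -1), (0, 2, 6, 15), (0, -2, 2, -17), (1, 1, -2, 4),
  (-16, -1, -22, 7), (-12, -2, 1, -113), (-5, 3, -1, -38), (4, 1, 11, 3), (88, -33, 1, 932),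
  (0, -1, -6, -12), (11, 2, -1, 97), (5, -3, 1, 38), (39, -1, -1, 377), (12, -1, 7, -26),
  (-2, 9, 12, 114), (1, -2, -3, -21), (3, -3, -1, 8), (-3, -1, -10, 8), (0, 1, 3, 10),
  (6, -2, 1, 66), (-5, -2, -12, -8), (-12, -1, -1, -75), (-11, 1, -1, 69), (6, 1, 11, 2),
  (-2, 3, 6, 26), (-6, 5, 1, -32), (0, 2, 1, 32), (2, -9, -12, -113), (-6, 1, -4, 14),
  (6, -1, -1, 84), (-113, 1, -80, 500), (-654, 67, -1, -6200), (88, -1, 60, -400)]

def tip (s : Bool) : Fin 11 := bif s then 9 else 10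

def base : List (List (Fin 11)) := [[0, 1], [0, 2], [1, 2], [0, 3, 4], [0, 4, 5], [0, 3, 5],
  [1, 3, 4], [1, 4, 5], [1, 3, 5], [2, 3, 4], [2, 4, 5], [2, 3, 5], [6, 3, 4], [6, 4, 5],
  [7, 3, 4], [7, 4, 5], [8, 5, 3], [8, 3, 6], [8, 6, 7], [8, 7, 5]]

def tf (s : Bool) : List (List (Fin 11)) :=
  bif s then [[9, 6, 7], [9, 6, 5]] else [[10, 6, 7], [10, 7, 3]]

def faces (s : Bool) : List (List (Fin 11)) := base ++ tf s

def Sub (s : Bool) (A : Finset (Fin 11)) : Prop := ∃ φ ∈ faces s, ∀ x ∈ A, x ∈ φ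

instance (s : Bool) (A : Finset (Fin 11)) : Decidable (Sub s A) := by unfold Sub; infer_instance

/-- The swaps `(Q, a, b)`. -/
def sw (s : Bool) : List (Finset (Fin 11) × Fin 11 × Fin 11) :=
  [({6, 3, 4, 5}, 6, 4), ({7, 3, 4, 5}, 7, 4), ({8, 5, 3, 6}, 8, 3), ({8, 6, 7, 5}, 8, 7),
    ({6, 7, 4, 5}, 4, 5), ({6, 7, 3, 4}, 3, 4), ({8, 5, 3, 7}, 8, 5),
    bif s then ({9, 6, 7, 5}, 9, 6) else ({10, 6, 7, 3}, 10, 7)]

theorem sw_ok : ∀ s, ∀ q ∈ sw s, #q.1 = 4 ∧ q.2.1 ∈ q.1 ∧ q.2.2 ∈ q.1 ∧ q.2.1 ≠ q.2.2 ∧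
    (∀ i ∈ q.1, 3 ≤ i) ∧ ∀ x ∈ q.1, x ≠ q.2.1 → x ≠ q.2.2 → Sub s (q.1.erase x) := by
  intro s
  cases s <;> exact ball_of (by decide +kernel)

theorem cg_ok : ∀ s, ∀ A ∈ (powersetCard 3 ({0, 1, 2, 3, 4, 5} : Finset (Fin 11))).filter
    (fun A => 0 ∈ A), A ≠ {0, 1, 2} →
    (Sub s A ∧ ∀ j ∈ {0, 1, 2, 3, 4, 5} \ A, Sub s (({0, 1, 2, 3, 4, 5} \ A).erase j)) ∨
    (Sub s ({0, 1, 2, 3, 4, 5} \ A) ∧ ∀ j ∈ A, Sub s (A.erase j)) := by
  decide +kernel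

theorem local_sound {E : Type} [AddCommGroup E] [Module ℝ E] [FiniteDimensional ℝ E]
    {u : Fin 11 → E} (hn : finrank ℝ E = 4)
    (hu : ∀ s : Finset (Fin 11), #s ≤ finrank ℝ E → Ind u s) {s : Bool}
    (h : ∀ A B, Sub s A → Sub s B → Disjoint A B → Good u A B) (F : E →ₗ[ℝ] ℝ)
    (hF : ∀ x ∈ ({0, 1, 2} : Finset (Fin 11)), F (u x) = 0) (h6 : 0 < F (u 6)) :
    0 < sg s * F (u (tip s)) := by
  let S : Finset (Fin 11) := {0, 1, 2}
  have hd : ∀ A : Finset (Fin 11), (∀ i ∈ A, 3 ≤ i) → Disjoint S A :=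
    fun A hA => disjoint_right.2 fun i hi => by have := hA i hi; simp [S]; omega
  have hS : ∀ j ∈ S, Sub s (S.erase j) := by cases s <;> decide +kernel
  have h0 : Lk u S {3, 4, 5} = 1 := by
    have h1 := Lk_sum hu hn (U := {0, 1, 2, 3, 4, 5}) (by decide) (m := 0) (by decide)
    rw [sum_eq_single_of_mem S (by decide +kernel) fun A hA hA' => ?_] at h1
    · exact (congrArg _ (by decide)).trans h1
    · rcases cg_ok s A hA hA' with ⟨a, b⟩ | ⟨a, b⟩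
      · exact sum_eq_zero fun j hj => by
          simp [ind, h _ _ a (b j hj) (disjoint_sdiff.mono_right (erase_subset _ _))]
      · refine Lk_face hu disjoint_sdiff ?_ fun j hj =>
          h _ _ (b j hj) a (disjoint_sdiff.mono_left (erase_subset _ _))
        rw [union_sdiff_of_subset (mem_powersetCard.1 (mem_filter.1 hA).1).1, hn]
        decide
  have hsw : ∀ q ∈ sw s, Lk u S (q.1.erase q.2.1) = Lk u S (q.1.erase q.2.2) := fun q hq => by
    obtain ⟨a1, a2, a3, a4, a5, a6⟩ := sw_ok s q hq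
    refine Lk_swap S a2 a3 a4 fun x hx b1 b2 => ?_
    have b4 := (hd _ a5).mono_right (erase_subset x _)
    refine Lk_face hu b4 ?_ fun j hj =>
      h _ _ (hS j hj) (a6 x hx b1 b2) (b4.mono_left (erase_subset _ _))
    rw [card_union_of_disjoint b4, card_erase_of_mem hx, a1, hn]
    rfl
  have hne : ∀ j : Fin 11, 3 ≤ j → F (u j) ≠ 0 := fun j hj e => by
    have a1 : j ∉ S := by simp [S]; omega
    have a2 : j ≠ 6 := fun h => h6.ne' (h ▸ e)
    have a3 : #(insert 6 (insert j S)) = finrank ℝ E + 1 := by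
      rw [card_insert_of_notMem (by simp [S, a2.symm]), card_insert_of_notMem a1, hn]
      rfl
    refine absurd (Ind.card_le (v := u) fun z hz => dep_zero hu a3 hz (j := 6) (by simp) ?_)
      (by omega)
    have a4 := congrArg F hz
    rw [map_sum, map_zero, sum_eq_single_of_mem 6 (by simp) fun x hx hx' => by
      rw [map_smul, smul_eq_zero]
      rcases mem_insert.1 ((mem_insert.1 hx).resolve_left hx') with rfl | h
      exacts [.inr e, .inr (hF x h)]] at a4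
    simpa [h6.ne'] using a4
  have side : ∀ x y z : Fin 11, 3 ≤ x → 3 ≤ y → 3 ≤ z → Lk u S {x, y, z} = 1 →
      ¬ (0 < F (u x) ∧ 0 < F (u y) ∧ 0 < F (u z)) ∧
      ¬ (¬ 0 < F (u x) ∧ ¬ 0 < F (u y) ∧ ¬ 0 < F (u z)) := by
    intro x y z hx hy hz hl
    have a1 := hd {x, y, z} (by simp; omega)
    have a3 : #(S ∪ ∅) ≤ finrank ℝ E := by rw [hn]; decide
    constructor
    · simpa using not_side hu a1 a3 hl F (by rwa [union_empty])
    · rintro ⟨b1, b2, b3⟩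
      refine not_side hu a1 a3 hl (-F) (by simpa [S] using hF) ?_
      simpa using ⟨(not_lt.1 b1).lt_of_ne (hne x hx), (not_lt.1 b2).lt_of_ne (hne y hy),
        (not_lt.1 b3).lt_of_ne (hne z hz)⟩
  have tr : ∀ A B : Finset (Fin 11), Lk u S A = 1 →
      (∃ q ∈ sw s, q.1.erase q.2.1 = B ∧ q.1.erase q.2.2 = A ∨
        q.1.erase q.2.1 = A ∧ q.1.erase q.2.2 = B) → Lk u S B = 1 := by
    rintro A B h1 ⟨q, hq, ⟨rfl, rfl⟩ | ⟨rfl, rfl⟩⟩
    · exact (hsw q hq).trans h1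
    · exact (hsw q hq).symm.trans h1
  have l1 := tr _ {6, 3, 5} h0 (bex_of (by cases s <;> decide +kernel))
  have l2 := tr _ {7, 3, 5} h0 (bex_of (by cases s <;> decide +kernel))
  have l3 := tr _ {8, 6, 5} l1 (bex_of (by cases s <;> decide +kernel))
  have l4 := tr _ {6, 7, 5} l3 (bex_of (by cases s <;> decide +kernel))
  have l5 := tr _ {6, 7, 4} l4 (bex_of (by cases s <;> decide +kernel))
  have l6 := tr _ {6, 7, 3} l5 (bex_of (by cases s <;> decide +kernel))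
  have l7 := tr _ {8, 7, 3} l2 (bex_of (by cases s <;> decide +kernel))
  have s0 := side _ _ _ (by decide) (by decide) (by decide) h0
  have s1 := side _ _ _ (by decide) (by decide) (by decide) l1
  have s2 := side _ _ _ (by decide) (by decide) (by decide) l2
  have s3 := side _ _ _ (by decide) (by decide) (by decide) l3
  have s4 := side _ _ _ (by decide) (by decide) (by decide) l4
  have s5 := side _ _ _ (by decide) (by decide) (by decide) l5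
  have s6 := side _ _ _ (by decide) (by decide) (by decide) l6
  have s7 := side _ _ _ (by decide) (by decide) (by decide) l7
  have a7 : ¬ 0 < F (u 7) := fun a =>
    s0.2 ⟨fun b => s6.1 ⟨h6, a, b⟩, fun b => s5.1 ⟨h6, a, b⟩, fun b => s4.1 ⟨h6, a, b⟩⟩
  have a3 : 0 < F (u 3) := by_contra fun a => s3.1
    ⟨by_contra fun b => s7.2 ⟨b, a7, a⟩, h6, by_contra fun b => s2.2 ⟨a7, a, b⟩⟩
  have a5 : ¬ 0 < F (u 5) := fun a => s1.1 ⟨h6, a3, a⟩
  cases s
  · have s8 := side _ _ _ (by decide) (by decide) (by decide) (tr _ {10, 6, 3} l6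
      (bex_of (by decide +kernel)))
    simpa [tip] using (not_lt.1 fun a => s8.1 ⟨a, h6, a3⟩).lt_of_ne (hne 10 (by decide))
  · have s8 := side _ _ _ (by decide) (by decide) (by decide) (tr _ {9, 7, 5} l4
      (bex_of (by decide +kernel)))
    simpa [tip] using by_contra fun a => s8.2 ⟨a, a7, a5⟩

theorem face_ok : ∀ s, ∀ φ ∈ faces s, φ ≠ [] ∧ φ.Nodup ∧ φ.length ≤ 3 ∧ tip (!s) ∉ φ ∧
    (tip s ∈ φ → 0 ∉ φ) := by
  decide +kernel

theorem Sub.eq {s : Bool} {A : Finset (Fin 11)} (hA : Sub s A) (h3 : #A = 3) :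
    ∃ φ ∈ faces s, φ.length = 3 ∧ ∀ x, x ∈ A ↔ x ∈ φ := by
  obtain ⟨φ, hφ, a1⟩ := hA
  have a2 : A ⊆ φ.toFinset := fun x hx => List.mem_toFinset.2 (a1 x hx)
  have a3 := (face_ok s φ hφ).2.2.1
  have a4 := φ.toFinset_card_le
  have a5 := card_le_card a2
  exact ⟨φ, hφ, by omega, fun x => by rw [eq_of_subset_of_card_le a2 (by omega), List.mem_toFinset]⟩

theorem cert_aux : ((base ++ tf true ++ tf false).all fun φ => (base ++ tf true ++ tf false).all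
    fun ψ => ψ.all fun i => ψ.all fun j => φ.length != 3 || φ.contains i || φ.contains j ||
      i == j || certs.any fun f => decide (val f i < 0) && decide (val f j < 0) &&
        φ.all fun x => decide (0 < val f x)) = true := by
  decide +kernel

theorem local_cert {s s' : Bool} {A B : Finset (Fin 11)} (hA : Sub s A) (hB : Sub s' B)
    (h3 : #A = 3) (h2 : #B = 2) (hd : Disjoint A B) :
    ∃ f, (∀ i ∈ A, 0 < val f i) ∧ ∀ i ∈ B, val f i < 0 := by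
  obtain ⟨φ, hφ, a0, a1⟩ := hA.eq h3
  obtain ⟨ψ, hψ, a2⟩ := hB
  have hm : ∀ s, ∀ φ ∈ faces s, φ ∈ base ++ tf true ++ tf false := fun s φ h => by
    cases s <;> simp only [faces, List.mem_append] at h ⊢ <;> tauto
  obtain ⟨i, j, hij, rfl⟩ := card_eq_two.1 h2
  have := cert_aux
  simp only [List.all_eq_true, Bool.or_eq_true, List.any_eq_true, Bool.and_eq_true,
    decide_eq_true_eq, bne_iff_ne, List.contains_iff_mem, beq_iff_eq] at this
  obtain ⟨f, -, b1, b2⟩ := (this φ (hm _ _ hφ) ψ (hm _ _ hψ) i (a2 i (by simp)) j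
    (a2 j (by simp))).resolve_left (by
      simpa [a0, hij, ← a1] using disjoint_right.1 hd)
  exact ⟨f, fun x hx => b2 x ((a1 x).1 hx), by simpa using b1⟩

set_option synthInstance.maxSize 2000 in
theorem twin_aux : ∀ s, ∀ φ ∈ faces s, tip s ∈ φ → ∀ ψ ∈ faces s, tip s ∈ ψ → ∀ w ∈ ψ, w ∉ φ →
    ∃ g ∈ [((1 : ℤ), (10 : ℤ)), (-1, 10), (1, 0), (-1, 0)],
      (∀ x ∈ φ, x ≠ tip s → 0 < g.1 * (vz x).2.1 + g.2) ∧ g.1 * (vz w).2.1 + g.2 < 0 := by
  decide +kernel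

theorem local_twin {s : Bool} {A B : Finset (Fin 11)} (hA : Sub s A) (hB : Sub s B)
    (h3 : #A = 3) (h2 : #B = 2) (ha : tip s ∈ A) (hb : tip s ∈ B)
    (hd : ∀ i ∈ A, i ≠ tip s → i ∉ B) : ∃ e g : ℤ,
      (∀ i ∈ A, i ≠ tip s → 0 < e * (vz i).2.1 + g) ∧
        ∀ i ∈ B, i ≠ tip s → e * (vz i).2.1 + g < 0 := by
  obtain ⟨φ, hφ, -, a1⟩ := hA.eq h3
  obtain ⟨ψ, hψ, a2⟩ := hB
  obtain ⟨w, hw⟩ := card_eq_one.1 (show #(B.erase (tip s)) = 1 by rw [card_erase_of_mem hb, h2])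
  have a3 := mem_erase.1 (hw ▸ mem_singleton_self w)
  obtain ⟨g, -, b1, b2⟩ := twin_aux s φ hφ ((a1 _).1 ha) ψ hψ (a2 _ hb) w (a2 _ a3.2)
    fun h => hd w ((a1 _).2 h) a3.1 a3.2
  exact ⟨g.1, g.2, fun i hi => b1 i ((a1 _).1 hi),
    fun i hi hi' => mem_singleton.1 (hw ▸ mem_erase.2 ⟨hi', hi⟩) ▸ b2⟩

theorem face_sub : ∀ s s', ∀ φ ∈ faces s, ∀ ψ ∈ faces s',
    (∀ x ∈ φ, x ∈ ψ ∨ x = tip s ∧ tip s' ∈ ψ) → ψ.length ≤ φ.length := by
  decide +kernel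

end Pool.Agent.P.MP_2b4a47_lc.R3
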