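import Pool.Agent.P.MP_2b4a47_lc.R3Gadget
import Pool.Agent.P.MP_2b4a47_lc.Assemble

/-! The layout in dimension three. -/

namespace Pool.Agent.P.MP_2b4a47_lc.R3

open Finset Filter Topology Sum Pool.Agent.Lib.ETR

variable {κ : Type}

abbrev Lab (κ : Type) := (Fin 11 ⊕ ℕ) × List κ

def lab (c : Bool × κ × κ) (x : Fin 11) : Lab κ :=
  if x = tip c.1 then (inl 9, [c.2.2, c.2.2]) else (inl x, if x = 0 then [] else [c.2.1])

theorem lab_inj (c : Bool × κ × κ) : Function.Injective (lab c) := by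
  intro x y h
  unfold lab at h
  by_cases h1 : x = tip c.1 <;> by_cases h2 : y = tip c.1
  · rw [h1, h2]
  · rw [if_pos h1, if_neg h2] at h
    split_ifs at h <;> simp at h
  · rw [if_neg h1, if_pos h2] at h
    split_ifs at h <;> simp at h
  · simpa [h1, h2] using congrArg Prod.fst h

theorem tip_ge (s : Bool) : 9 ≤ tip s := by cases s <;> decide

theorem lab_zero (c : Bool × κ × κ) : lab c 0 = (inl 0, []) := by
  have : (0 : Fin 11) ≠ tip c.1 := by have := tip_ge c.1; omega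
  simp [lab, this]

theorem lab_tip (c : Bool × κ × κ) : lab c (tip c.1) = (inl 9, [c.2.2, c.2.2]) := if_pos rfl

theorem lab_in (c : Bool × κ × κ) {i : Fin 11} (h : 1 ≤ i) (h' : i ≤ 8) :
    lab c i = (inl i, [c.2.1]) := by
  have := tip_ge c.1
  have h1 : i ≠ tip c.1 := by omega
  have h2 : i ≠ 0 := by omega
  simp [lab, h1, h2]

theorem Sub.forall {s : Bool} {A : Finset (Fin 11)} (h : Sub s A) {p : Fin 11 → Prop}
    (h0 : 0 ∈ A → p 0) (h4 : tip s ∈ A → p (tip s))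
    (h5 : ∀ i, 1 ≤ i → i ≤ 8 → i ∈ A → p i) : ∀ x ∈ A, p x := by
  intro i hx
  have : i = 0 ∨ (1 ≤ i ∧ i ≤ 8) ∨ i = tip s ∨ i = tip !s := by
    clear * -
    revert i s
    decide
  obtain ⟨φ, hφ, a⟩ := h
  rcases this with rfl | a | rfl | rfl
  exacts [h0 hx, h5 i a.1 a.2 hx, h4 hx, absurd (a _ hx) (face_ok s φ hφ).2.2.2.1]

theorem Sub.tip {s : Bool} {A : Finset (Fin 11)} (h : Sub s A) (h1 : tip s ∈ A) : 0 ∉ A := by
  obtain ⟨φ, hφ, a⟩ := h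
  exact fun h2 => (face_ok s φ hφ).2.2.2.2 (a _ h1) (a _ h2)

theorem exists_lines3 {S : Asg κ} (h : S.Sat) : ∃ (p : κ → ℝ × ℝ) (T : ℝ) (A B C τ : κ → ℝ),
    (∀ c ∈ S, 0 < (p c.2.2).2 + T ∧ 0 ≤ τ c.2.2 ∧ A c.2.1 ≠ 0 ∧
      0 < sg c.1 * (A c.2.1 * (p c.2.2).1 + B c.2.1 * (p c.2.2).2 + C c.2.1)) ∧
    ∀ c ∈ S, ∀ c' ∈ S, (c.2.2 ≠ c'.2.2 → τ c.2.2 ≠ τ c'.2.2 ∧
      (A c.2.1 * (p c.2.2).1 + B c.2.1 * (p c.2.2).2 + C c.2.1) * ((p c'.2.2).2 + T) -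
      (A c.2.1 * (p c'.2.2).1 + B c.2.1 * (p c'.2.2).2 + C c.2.1) * ((p c.2.2).2 + T) ≠ 0) ∧
      (c.2.1 ≠ c'.2.1 →
        (B c.2.1 * T - C c.2.1) / A c.2.1 ≠ (B c'.2.1 * T - C c'.2.1) / A c'.2.1) := by
  obtain ⟨p, T, A, B, C, τ, h1, h2⟩ := exists_lines h
  have e1 : ∀ᶠ ε in 𝓝[>] (0 : ℝ), ∀ c ∈ S, 0 < sg c.1 * (A c.2.1 * ((p c.2.2).1 +
      ε * (τ c.2.2 * ((p c.2.2).2 + T))) + B c.2.1 * (p c.2.2).2 + C c.2.1) :=
    ev_list _ fun c hc => ev_pos (by fun_prop) (by simpa using (h1 c hc).2.2.2)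
  have e2 : ∀ᶠ ε in 𝓝[>] (0 : ℝ), ∀ c ∈ S, ∀ c' ∈ S, c.2.2 ≠ c'.2.2 →
      (A c.2.1 * ((p c.2.2).1 + ε * (τ c.2.2 * ((p c.2.2).2 + T))) + B c.2.1 * (p c.2.2).2 +
        C c.2.1) * ((p c'.2.2).2 + T) -
      (A c.2.1 * ((p c'.2.2).1 + ε * (τ c'.2.2 * ((p c'.2.2).2 + T))) + B c.2.1 * (p c'.2.2).2 +
        C c.2.1) * ((p c.2.2).2 + T) ≠ 0 := by
    refine ev_list _ fun c hc => ev_list _ fun c' hc' => eventually_all.2 fun hne => ?_
    filter_upwards [MP_881548_lc.ev_ne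
      ((A c.2.1 * (p c.2.2).1 + B c.2.1 * (p c.2.2).2 + C c.2.1) * ((p c'.2.2).2 + T) -
        (A c.2.1 * (p c'.2.2).1 + B c.2.1 * (p c'.2.2).2 + C c.2.1) * ((p c.2.2).2 + T)) _ 0
      (.inr (mul_ne_zero (mul_ne_zero (h1 c hc).2.2.1 (mul_pos (h1 c hc).1 (h1 c' hc').1).ne')
        (sub_ne_zero.2 ((h2 c hc c' hc').1 hne))))] with ε hε h3
    exact hε (by linear_combination h3)
  obtain ⟨ε, a1, a2⟩ := (e1.and e2).exists
  exact ⟨fun b => ((p b).1 + ε * (τ b * ((p b).2 + T)), (p b).2), T, A, B, C, τ,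
    fun c hc => ⟨(h1 c hc).1, (h1 c hc).2.1, (h1 c hc).2.2.1, a1 c hc⟩, fun c hc c' hc' =>
      ⟨fun hne => ⟨(h2 c hc c' hc').1 hne, a2 c hc c' hc' hne⟩, (h2 c hc c' hc').2⟩⟩

abbrev Sp := ℝ × ℝ × ℝ × ℝ

def fn (a b c d : ℝ) : Sp →ₗ[ℝ] ℝ where
  toFun x := a * x.1 + b * x.2.1 + c * x.2.2.1 + d * x.2.2.2
  map_add' x y := by simp; ring
  map_smul' t x := by simp; ring

noncomputable def pos (p : κ → ℝ × ℝ) (T : ℝ) (A B C τ : κ → ℝ) (δ : ℝ) : Lab κ → Sp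
  | (inl _, []) => (0, 0, 0, 1)
  | (inl i, [a]) => ((δ ^ 3 * (vz i).2.2.1 - B a * (δ ^ 2 * (vz i).1 - T) - C a) / A a,
      δ ^ 2 * (vz i).1 - T, 1, δ * (vz i).2.1)
  | (inl _, b :: _ :: _) => ((p b).1, (p b).2, 1, ((p b).2 + T) * τ b)
  | (inr _, _) => 0

variable {p : κ → ℝ × ℝ} {T : ℝ} {A B C τ : κ → ℝ} {c : Bool × κ × κ} {φ : Finset (Fin 11)}

theorem vz_one {i : Fin 11} (h : 1 ≤ i) (h' : i ≤ 8) : (vz i).2.2.2 = 1 := by
  revert i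
  decide

theorem loc_side (h : Sub c.1 φ) (hA : A c.2.1 ≠ 0)
    (hs : 0 < sg c.1 * (A c.2.1 * (p c.2.2).1 + B c.2.1 * (p c.2.2).2 + C c.2.1)) (t : ℝ)
    (f : ℤ × ℤ × ℤ × ℤ) (h1 : ∀ i ∈ φ, 0 < t * val f i) :
    ∀ x ∈ φ, ∀ᶠ δ in 𝓝[>] (0 : ℝ), 0 < t * fn (f.2.2.1 * A c.2.1) (δ * f.1 + f.2.2.1 * B c.2.1)
      (δ ^ 3 * f.2.2.2 + δ * f.1 * T + f.2.2.1 * C c.2.1) (δ ^ 2 * f.2.1)
      (pos p T A B C τ δ (lab c x)) := by
  refine h.forall (fun hx => ?_) (fun hx => ?_) fun i a1 a2 hx => ?_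
  · filter_upwards [self_mem_nhdsWithin] with δ hδ
    refine (mul_pos (pow_pos hδ 2) (h1 _ hx)).trans_eq ?_
    simp [lab_zero, pos, fn, val, vz, vec]
    ring
  · simp only [lab_tip, pos, fn, LinearMap.coe_mk, AddHom.coe_mk]
    refine ev_pos (by fun_prop) ((mul_pos (h1 _ hx) hs).trans_eq ?_)
    cases c.1 <;> simp [tip, val, vz, vec, sg] <;> ring
  · filter_upwards [self_mem_nhdsWithin] with δ hδ
    refine (mul_pos (pow_pos hδ 3) (h1 _ hx)).trans_eq ?_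
    simp only [lab_in c a1 a2, pos, fn, LinearMap.coe_mk, AddHom.coe_mk, val, vz_one a1 a2]
    push_cast
    field_simp
    ring

theorem twin_side (h : Sub c.1 φ) (hA : A c.2.1 ≠ 0) (ht : tip c.1 ∈ φ) (t η α : ℝ) (e g : ℤ)
    (h1 : ∀ i ∈ φ, i ≠ tip c.1 → 0 < t * (e * (vz i).2.1 + g : ℤ))
    (h2 : 0 < t * (η * (A c.2.1 * (p c.2.2).1 + B c.2.1 * (p c.2.2).2 + C c.2.1) +
      ((p c.2.2).2 + T) * (α + e * τ c.2.2))) :
    ∀ x ∈ φ, ∀ᶠ δ in 𝓝[>] (0 : ℝ), 0 < t * fn (η * A c.2.1) (α + η * B c.2.1)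
      (δ * g + α * T + η * C c.2.1) e (pos p T A B C τ δ (lab c x)) := by
  refine h.forall (fun hx => absurd hx (h.tip ht)) (fun hx => ?_) fun i a1 a2 hx => ?_
  · simp only [lab_tip, pos, fn, LinearMap.coe_mk, AddHom.coe_mk]
    refine ev_pos (by fun_prop) (h2.trans_eq ?_)
    ring
  · have a3 : i ≠ tip c.1 := by have := tip_ge c.1; omega
    filter_upwards [ev_mul_pos 1 (f := fun δ => t * (e * (vz i).2.1 + g + δ * (α * (vz i).1 +
      δ * η * (vz i).2.2.1))) (by fun_prop) (by simpa using h1 i hx a3)] with δ hδ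
    refine hδ.trans_eq ?_
    simp only [lab_in c a1 a2, pos, fn, LinearMap.coe_mk, AddHom.coe_mk]
    field_simp
    ring

theorem cross_side (h : Sub c.1 φ) (t a u b w : ℝ)
    (h0 : 0 < t * (a * ((B c.2.1 * T - C c.2.1) / A c.2.1) + b)) (h1 : 0 ∈ φ → 0 < t * w)
    (h5 : tip c.1 ∈ φ →
      0 < t * (a * (p c.2.2).1 + b + ((p c.2.2).2 + T) * (u + w * τ c.2.2))) :
    ∀ x ∈ φ, ∀ᶠ δ in 𝓝[>] (0 : ℝ),
      0 < t * fn a u (b + u * T) w (pos p T A B C τ δ (lab c x)) := by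
  refine h.forall (fun hx => .of_forall fun δ => ?_) (fun hx => .of_forall fun δ => ?_)
    fun i a1 a2 hx => ?_
  · simpa [lab_zero, pos, fn] using h1 hx
  · refine (h5 hx).trans_eq ?_
    simp only [lab_tip, pos, fn, LinearMap.coe_mk, AddHom.coe_mk]
    ring
  · simp only [lab_in c a1 a2, pos, fn, LinearMap.coe_mk, AddHom.coe_mk]
    refine ev_pos (by fun_prop) (h0.trans_eq ?_)
    ring

theorem solve_two {N N' Y Y' : ℝ} (h : N * Y' - N' * Y ≠ 0) (a a' : ℝ) :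
    ∃ η α : ℝ, η * N + Y * (α + a) = 1 ∧ η * N' + Y' * (α + a') = -1 :=
  ⟨((1 - Y * a) * Y' - (-1 - Y' * a') * Y) / (N * Y' - N' * Y),
    (N * (-1 - Y' * a') - N' * (1 - Y * a)) / (N * Y' - N' * Y),
    by rw [div_mul_eq_mul_div, mul_add, ← mul_div_assoc, ← add_assoc, ← add_div,
      ← eq_sub_iff_add_eq, div_eq_iff h]; ring,
    by rw [div_mul_eq_mul_div, mul_add, ← mul_div_assoc, ← add_assoc, ← add_div,
      ← eq_sub_iff_add_eq, div_eq_iff h]; ring⟩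

theorem layout [DecidableEq κ] {S : Asg κ} (h : S.Sat) :
    ∃ v : Lab κ → Sp, (∀ c ∈ S, ∀ φ, Sub c.1 φ → ∀ x ∈ φ, 0 < fn 0 0 1 1 (v (lab c x))) ∧
      ∀ c ∈ S, ∀ c' ∈ S, ∀ φ ψ, Sub c.1 φ → Sub c'.1 ψ → #φ = 3 ∧ #ψ = 2 →
        Disjoint (φ.image (lab c)) (ψ.image (lab c')) →
        SepR v (φ.image (lab c)) (ψ.image (lab c')) := by
  obtain ⟨p, T, A, B, C, τ, h1, h2⟩ := exists_lines3 h
  have e1 : ∀ᶠ δ in 𝓝[>] (0 : ℝ), ∀ c ∈ S, ∀ φ, Sub c.1 φ → ∀ x ∈ φ,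
      0 < 1 * fn 0 0 (1 + 0 * T) 1 (pos p T A B C τ δ (lab c x)) :=
    ev_list _ fun c hc => eventually_all.2 fun φ => eventually_all.2 fun hφ =>
      (eventually_all_finset _).2 (cross_side hφ _ _ _ _ _ (by simp) (by simp) fun _ => by
          obtain ⟨a1, a2, -⟩ := h1 c hc
          simp only [one_mul, zero_mul, zero_add]
          positivity)
  suffices e2 : ∀ᶠ δ in 𝓝[>] (0 : ℝ), ∀ c ∈ S, ∀ c' ∈ S, ∀ φ ψ, Sub c.1 φ → Sub c'.1 ψ →
      #φ = 3 ∧ #ψ = 2 → Disjoint (φ.image (lab c)) (ψ.image (lab c')) →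
      SepR (pos p T A B C τ δ) (φ.image (lab c)) (ψ.image (lab c')) by
    obtain ⟨δ, a1, a2⟩ := (e1.and e2).exists
    exact ⟨_, by simpa only [one_mul, zero_mul, add_zero] using a1, a2⟩
  refine ev_list _ fun c hc => ev_list _ fun c' hc' => eventually_all.2 fun φ =>
    eventually_all.2 fun ψ => eventually_all.2 fun hφ => eventually_all.2 fun hψ =>
      eventually_all.2 fun hn => eventually_all.2 fun hd => ?_
  suffices ∃ F : ℝ → Sp →ₗ[ℝ] ℝ,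
      (∀ x ∈ φ, ∀ᶠ δ in 𝓝[>] (0 : ℝ), 0 < 1 * F δ (pos p T A B C τ δ (lab c x))) ∧
      ∀ x ∈ ψ, ∀ᶠ δ in 𝓝[>] (0 : ℝ), 0 < -1 * F δ (pos p T A B C τ δ (lab c' x)) by
    obtain ⟨F, a1, a2⟩ := this
    filter_upwards [(eventually_all_finset _).2 a1, (eventually_all_finset _).2 a2] with δ b1 b2
    refine ⟨F δ, ?_, ?_, fun i a b => absurd b (disjoint_left.1 hd a)⟩
    · simp only [forall_mem_image]
      exact fun x hx _ => by simpa using b1 x hx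
    · simp only [forall_mem_image]
      exact fun x hx _ => by simpa using b2 x hx
  have hne : ∀ x ∈ φ, ∀ y ∈ ψ, lab c x ≠ lab c' y := fun x hx y hy e =>
    disjoint_left.1 hd (mem_image_of_mem _ hx) (e ▸ mem_image_of_mem _ hy)
  have hg : 0 ∈ φ → 0 ∉ ψ := fun a b => hne 0 a 0 b (by rw [lab_zero, lab_zero])
  obtain ⟨a1, -, a3, a4⟩ := h1 c hc
  obtain ⟨b1, -, b3, b4⟩ := h1 c' hc'
  by_cases hl : c.2.1 = c'.2.1
  · have hin : ∀ i, 1 ≤ i → i ≤ 8 → i ∈ φ → i ∉ ψ := fun i a b hx hy =>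
      hne _ hx _ hy (by rw [lab_in c a b, lab_in c' a b, hl])
    by_cases ht : tip c.1 ∈ φ ∧ tip c.1 ∈ ψ
    · have e : c'.1 = c.1 := by
        by_contra hn
        obtain ⟨l, hl, a⟩ := hψ
        exact (face_ok _ l hl).2.2.2.1 (a _ (by rw [Bool.eq_not_iff.2 hn, Bool.not_not]; exact ht.2))
      obtain ⟨e', g, c1, c2⟩ := local_twin hφ (e ▸ hψ) hn.1 hn.2 ht.1 ht.2
        (hφ.forall (p := fun x => x ≠ tip c.1 → x ∉ ψ) (fun a _ => hg a) (fun _ a => absurd rfl a)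
          fun i a b d _ => hin i a b d)
      have c3 := ((h2 c hc c' hc').1 fun e2 => hne _ ht.1 _ (e ▸ ht.2) (by
        rw [lab_tip, lab_tip, e2])).2
      obtain ⟨η, α, c4, c5⟩ := solve_two c3 (e' * τ c.2.2) (e' * τ c'.2.2)
      exact ⟨_, twin_side hφ a3 ht.1 1 η α e' g
        (fun i a b => by rw [one_mul]; exact_mod_cast c1 i a b) (by rw [c4]; norm_num),
        hl ▸ twin_side hψ b3 (e ▸ ht.2) (-1) η α e' g
        (fun i a b => by rw [neg_one_mul, neg_pos]; exact_mod_cast c2 i a (e ▸ b))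
        (by rw [← hl, c5]; norm_num)⟩
    · have hd' : Disjoint φ ψ := disjoint_left.2 fun x hx => hφ.forall (p := fun x => x ∉ ψ)
        hg (fun a b => ht ⟨a, b⟩) hin x hx
      obtain ⟨f, c1, c2⟩ := local_cert hφ hψ hn.1 hn.2 hd'
      exact ⟨_, loc_side hφ a3 a4 1 f (fun i h => by simpa using c1 i h),
        hl ▸ loc_side hψ b3 b4 (-1) f fun i h => by simpa using c2 i h⟩
  · have hx := sub_ne_zero.2 ((h2 c hc c' hc').2 hl)
    set x := (B c.2.1 * T - C c.2.1) / A c.2.1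
    set x' := (B c'.2.1 * T - C c'.2.1) / A c'.2.1
    have hx2 := mul_self_pos.2 hx
    obtain ⟨u, w, c1, c2, c3, c4⟩ : ∃ u w : ℝ, (0 ∈ φ → 0 < 1 * w) ∧ (0 ∈ ψ → 0 < -1 * w) ∧
        (tip c.1 ∈ φ → u + w * τ c.2.2 =
          (1 - ((x - x') * (p c.2.2).1 + -(x - x') * (x + x') / 2)) / ((p c.2.2).2 + T)) ∧
        (tip c'.1 ∈ ψ → u + w * τ c'.2.2 =
          (-1 - ((x - x') * (p c'.2.2).1 + -(x - x') * (x + x') / 2)) / ((p c'.2.2).2 + T)) := by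
      generalize (1 - _) / ((p c.2.2).2 + T) = R
      generalize (-1 - _) / ((p c'.2.2).2 + T) = R'
      by_cases t1 : tip c.1 ∈ φ <;> by_cases t2 : tip c'.1 ∈ ψ
      · have := sub_ne_zero.2 ((h2 c hc c' hc').1 fun e => hne _ t1 _ t2 (by
          rw [lab_tip, lab_tip, e])).1
        exact ⟨R - (R - R') / (τ c.2.2 - τ c'.2.2) * τ c.2.2, (R - R') / (τ c.2.2 - τ c'.2.2),
          fun h => absurd h (hφ.tip t1), fun h => absurd h (hψ.tip t2), fun _ => by ring,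
          fun _ => by field_simp; ring⟩
      · exact ⟨R + τ c.2.2, -1, fun h => absurd h (hφ.tip t1), by simp, fun _ => by ring,
          fun h => absurd h t2⟩
      · exact ⟨R' - τ c'.2.2, 1, by simp, fun h => absurd h (hψ.tip t2), fun h => absurd h t1,
          fun _ => by ring⟩
      · exact ⟨0, if 0 ∈ φ then 1 else -1, fun h => by simp [h],
          fun h => by simp [show 0 ∉ φ from fun h' => hg h' h], fun h => absurd h t1,
          fun h => absurd h t2⟩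
    refine ⟨_, cross_side hφ 1 (x - x') u (-(x - x') * (x + x') / 2) w (by nlinarith) c1
      fun h => ?_, cross_side hψ (-1) _ _ _ _ (by nlinarith) c2 fun h => ?_⟩
    · rw [c3 h, mul_div_cancel₀ _ a1.ne']
      linarith
    · rw [c4 h, mul_div_cancel₀ _ b1.ne']
      linarith

end Pool.Agent.P.MP_2b4a47_lc.R3
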