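import Pool.Agent.P.MP_2b4a47_lc.Assemble
import Pool.Agent.Lib.ETR.Hard

/-! The reduction, and hardness. -/

namespace Pool.Agent.P.MP_2b4a47_lc

open Finset Sum Pool.Agent.Lib.ETR Pool.Agent.Lib.NP N487b59b3 N68a2faeb N793a5b8e Polynomial

theorem Good.image {V W E : Type} [DecidableEq V] [DecidableEq W] [AddCommGroup E] [Module ℝ E]
    {v : V → E} {g : W → V} (hg : Function.Injective g) {s t : Finset W} (h : Good (v ∘ g) s t) :
    Good v (s.image g) (t.image g) := by
  intro z a1 a2 a3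
  rw [← image_union] at a3 ⊢
  rw [sum_image hg.injOn] at a3
  simp only [forall_mem_image, hg.mem_finset_image] at a1 a2 ⊢
  exact h (z ∘ g) a1 a2 a3

def Fmt {α : Type} (k : ℕ) (L : List (List α)) : Prop :=
  (∀ l ∈ L, l ≠ [] ∧ l.Nodup ∧ l.length ≤ k + 1) ∧ (∃ l ∈ L, l.length = k + 1) ∧
    L.Pairwise fun l l' => ¬ l ⊆ l' ∧ ¬ l' ⊆ l

theorem EMB_enc (k d : ℕ) (L : List (List (List Bool))) : EMB k d (enc L) = true ↔ Fmt k L ∧
    ∃ f : List Bool → Fin d → ℝ, ∀ l ∈ L, ∀ l' ∈ L, Good (hom f) l.toFinset l'.toFinset := by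
  simp only [EMB, decide_eq_true_eq]
  constructor
  · rintro ⟨L', h, h1, h2, h3, f, hf⟩
    obtain rfl : L = L' := Enc.inj h
    exact ⟨⟨h1, h2, h3⟩, f, (emb_iff fun l hl => (h1 l hl).1).1 hf⟩
  · rintro ⟨⟨h1, h2, h3⟩, f, hf⟩
    exact ⟨L, rfl, h1, h2, h3, f, (emb_iff fun l hl => (h1 l hl).1).2 hf⟩

theorem Fmt.map {α β : Type} {k : ℕ} {L : List (List α)} (h : Fmt k L) {g : α → β}
    (hg : Function.Injective g) : Fmt k (L.map (List.map g)) := by
  obtain ⟨h1, ⟨l, hl, h2⟩, h3⟩ := h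
  refine ⟨List.forall_mem_map.2 fun l hl => ⟨by simpa using (h1 l hl).1, (h1 l hl).2.1.map hg,
    by simpa using (h1 l hl).2.2⟩, ⟨_, List.mem_map_of_mem hl, by simpa using h2⟩,
    List.pairwise_map.2 (h3.imp fun h => ?_)⟩
  rwa [List.map_subset_iff g hg, List.map_subset_iff g hg]

section mx

variable {α : Type} [DecidableEq α]

def mxStep (s : List (List α)) (a : List α) : List (List α) :=
  bif s.any (fun b => a.all fun x => decide (x ∈ b)) then s else a :: s

theorem mx_aux (L s : List (List α)) (hs : s.Pairwise fun a b => ¬ a ⊆ b) :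
    (L.foldl mxStep s).Pairwise (fun a b => ¬ a ⊆ b) ∧
      (∀ a ∈ L.foldl mxStep s, a ∈ s ∨ a ∈ L) ∧
      ∀ a, a ∈ s ∨ a ∈ L → ∃ b ∈ L.foldl mxStep s, a ⊆ b := by
  induction L generalizing s with
  | nil => exact ⟨hs, fun a ha => .inl ha, fun a ha => ⟨a, by simpa using ha, List.Subset.refl _⟩⟩
  | cons a L ih =>
    rw [List.foldl_cons]
    by_cases h : ∃ b ∈ s, a ⊆ b
    · have e : mxStep s a = s := by
        rw [mxStep, show (s.any fun b => a.all fun x => decide (x ∈ b)) = true by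
          simpa [List.subset_def] using h]
        rfl
      obtain ⟨h1, h2, h3⟩ := ih s hs
      rw [e]
      refine ⟨h1, fun x hx => (h2 x hx).imp_right (List.mem_cons_of_mem _), fun x hx => ?_⟩
      rcases hx with hx | hx
      · exact h3 x (.inl hx)
      · rcases List.mem_cons.1 hx with rfl | hx
        · obtain ⟨b, hb, hb'⟩ := h
          obtain ⟨c, hc, hc'⟩ := h3 b (.inl hb)
          exact ⟨c, hc, List.Subset.trans hb' hc'⟩
        · exact h3 x (.inr hx)
    · have e : mxStep s a = a :: s := by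
        rw [mxStep, show (s.any fun b => a.all fun x => decide (x ∈ b)) = false by
          simpa [List.subset_def] using h]
        rfl
      obtain ⟨h1, h2, h3⟩ := ih (a :: s) (List.pairwise_cons.2 ⟨fun b hb h' => h ⟨b, hb, h'⟩, hs⟩)
      rw [e]
      refine ⟨h1, fun x hx => ?_, fun x hx => h3 x ?_⟩
      · have := h2 x hx
        simp only [List.mem_cons] at this ⊢
        tauto
      · simp only [List.mem_cons] at hx ⊢
        tauto

theorem pt_mx [Enc α] : PT fun L : List (List α) => L.foldl mxStep [] := by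
  refine PT.foldl_add (f := fun _ s a => mxStep s a) (by unfold mxStep; fun_prop) (by fun_prop)
    (by fun_prop) (2 * X + 1) fun l s a => ?_
  unfold mxStep
  cases s.any fun b => a.all fun x => decide (x ∈ b) <;> simp
  omega

end mx

theorem pt_map_const {α β γ : Type} [Enc α] [Enc γ] {f : α → β → γ} (h : ∀ b, PT fun a => f a b)
    (l : List β) : PT fun a => l.map (f a) := by
  induction l with
  | nil => exact PT.const _
  | cons b l ih => exact (h b).cons ih

variable {r : ℕ} {κ : Type} [DecidableEq κ] {S : Asg κ} {q k d : ℕ}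

instance : Enc (Sh r ⊕ ℕ) :=
  ⟨fun x => enc (Encodable.encode x), Enc.inj.comp Encodable.encode_injective⟩

def segL (a n : ℕ) : List (Lab r κ) := (List.range n).map fun i => (inr (a + i), [])

open Classical in
noncomputable def faceL (q : ℕ) (s : Bool) (c : Bool × κ × κ) : List (List (Lab r κ)) :=
  (univ.filter (Face s)).toList.map fun φ => φ.toList.map (lab c) ++ segL 0 q

noncomputable def tops (r q k : ℕ) (S : Asg κ) : List (List (Lab r κ)) :=
  segL q (k + 1) :: S.flatMap fun c => faceL q c.1 c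

theorem pt_tops [Enc κ] : PT (tops r q k : Asg κ → _) := by
  have h1 : ∀ s (x : Sh r), PT fun c : Bool × κ × κ => lab (s, c.2) x := fun s x => by
    unfold lab
    by_cases h : x = inl (tip s)
    · simp only [if_pos h]; fun_prop
    · simp only [if_neg h]; fun_prop
  have h2 : ∀ s, PT fun c : Bool × κ × κ => faceL (r := r) q s (s, c.2) := fun s =>
    pt_map_const (fun φ => (pt_map_const (h1 s) _).append (PT.const _)) _
  have h3 : PT fun c : Bool × κ × κ => faceL (r := r) q c.1 c :=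
    (PT.cond (PT.fst PT.id') (h2 true) (h2 false)).congr fun ⟨s, c⟩ => by cases s <;> rfl
  exact (PT.const _).cons (PT.flatMap (h3.comp (PT.snd PT.id')) PT.id')

theorem toFinset_segL (a n : ℕ) : (segL a n : List (Lab r κ)).toFinset = seg a n := by
  ext; simp [segL, seg]

theorem nodup_segL (a n : ℕ) : (segL a n : List (Lab r κ)).Nodup :=
  List.nodup_range.map fun i j h => by simpa using h

theorem tops_top [Countable κ] {l} (h : l ∈ tops r q k S) : l.Nodup ∧ Top S q k l.toFinset := by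
  rcases List.mem_cons.1 h with rfl | h
  · exact ⟨nodup_segL _ _, .inr (toFinset_segL _ _)⟩
  · obtain ⟨c, hc, h⟩ := List.mem_flatMap.1 h
    obtain ⟨φ, hφ, rfl⟩ := List.mem_map.1 h
    refine ⟨List.nodup_append'.2 ⟨φ.nodup_toList.map (lab_inj c), nodup_segL _ _, fun x h1 h2 => ?_⟩,
      .inl ⟨c, hc, φ, by simpa using hφ, ?_⟩⟩
    · obtain ⟨y, -, rfl⟩ := List.mem_map.1 h1
      exact lab_notMem c y 0 q (toFinset_segL (r := r) (κ := κ) 0 q ▸ List.mem_toFinset.2 h2)
    · rw [List.toFinset_append, toFinset_segL]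
      congr 1
      ext; simp

theorem Top.tops {σ : Finset (Lab r κ)} (h : Top S q k σ) : ∃ l ∈ tops r q k S, l.toFinset = σ := by
  rcases h with ⟨c, hc, φ, hφ, rfl⟩ | rfl
  · refine ⟨_, List.mem_cons_of_mem _ (List.mem_flatMap.2 ⟨c, hc, List.mem_map.2
      ⟨φ, by simpa using hφ, rfl⟩⟩), ?_⟩
    rw [List.toFinset_append, toFinset_segL]
    congr 1
    ext; simp
  · exact ⟨_, List.mem_cons_self, toFinset_segL _ _⟩

theorem Top.cases [Countable κ] {σ : Finset (Lab r κ)} (h : Top S q k σ) :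
    (#σ = r + 3 + q ∧ Disjoint σ (seg q (k + 1))) ∨ σ = seg q (k + 1) := by
  refine h.imp_left ?_
  rintro ⟨c, hc, φ, hφ, rfl⟩
  have : ∀ a n, Disjoint (φ.image (lab c)) (seg a n) := fun a n => disjoint_left.2 fun x hx => by
    obtain ⟨y, -, rfl⟩ := mem_image.1 hx
    exact lab_notMem _ _ _ _
  exact ⟨by rw [card_union_of_disjoint (this _ _), card_image_of_injective _ (lab_inj c), hφ.card,
    card_seg], disjoint_union_left.2 ⟨this _ _, seg_disj⟩⟩

theorem Top.subset [Countable κ] {σ τ : Finset (Lab r κ)} (h : Top S q k σ) (h' : Top S q k τ)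
    (hs : σ ⊆ τ) : τ ⊆ σ := by
  rcases h.cases with ⟨a, b⟩ | rfl <;> rcases h'.cases with ⟨a', b'⟩ | rfl
  · exact (eq_of_subset_of_card_le hs (by omega)).superset
  · rw [b.eq_bot_of_le hs] at a
    simp at a
    omega
  · have := card_seg (r := r) (κ := κ) q (k + 1)
    rw [b'.symm.eq_bot_of_le hs] at this
    simp at this
  · exact Subset.rfl

noncomputable def red [Enc κ] (r q k : ℕ) (S : Asg κ) : List Bool :=
  enc (((tops r q k S).foldl mxStep []).map (List.map enc))

theorem pt_red [Enc κ] : PT (red r q k : Asg κ → _) := by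
  have := pt_mx.comp (pt_tops (r := r) (q := q) (k := k) (κ := κ))
  unfold red
  fun_prop

theorem EMB_red [Enc κ] [Countable κ] (h : r + 3 + q ≤ k + 1) : EMB k d (red r q k S) = true ↔
    ∃ f : Lab r κ → Fin d → ℝ, ∀ σ τ, Top S q k σ → Top S q k τ → Good (hom f) σ τ := by
  obtain ⟨h1, h2, h3⟩ := mx_aux (tops r q k S) [] .nil
  simp only [List.not_mem_nil, false_or] at h2 h3
  have e : ∀ l : List (Lab r κ), (l.map enc).toFinset = l.toFinset.image enc := fun l => by
    ext; simp
  have h4 : ∀ a ∈ (tops r q k S).foldl mxStep [], #a.toFinset = a.length := fun a ha =>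
    List.toFinset_card_of_nodup (tops_top (h2 a ha)).1
  have h5 : ∀ {a b : List (Lab r κ)}, a.toFinset ⊆ b.toFinset ↔ a ⊆ b := by
    simp [subset_iff, List.subset_def]
  rw [red, EMB_enc]
  simp only [List.forall_mem_map, e]
  constructor
  · rintro ⟨-, f, hf⟩
    refine ⟨f ∘ enc, fun σ τ hσ hτ => ?_⟩
    obtain ⟨a, ha, rfl⟩ := hσ.tops
    obtain ⟨b, hb, rfl⟩ := hτ.tops
    obtain ⟨a', ha', ea⟩ := h3 a ha
    obtain ⟨b', hb', eb⟩ := h3 b hb
    exact ((hf a' ha' b' hb').comp Enc.inj).mono (h5.2 ea) (h5.2 eb)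
  · rintro ⟨f, hf⟩
    refine ⟨Fmt.map ⟨fun l hl => ?_, ?_, h1.imp_of_mem fun ha hb hab => ⟨hab, fun hba => hab ?_⟩⟩
      Enc.inj, Function.extend enc f 0, fun a ha b hb => Good.image Enc.inj ?_⟩
    · have a1 := h4 l hl
      have a2 : 0 < l.length ∧ l.length ≤ k + 1 := by
        rcases (tops_top (h2 l hl)).2.cases with ⟨a, -⟩ | a
        · omega
        · rw [a, card_seg] at a1; omega
      exact ⟨List.length_pos_iff.1 a2.1, (tops_top (h2 l hl)).1, a2.2⟩
    · obtain ⟨b, hb, eb⟩ := h3 _ List.mem_cons_self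
      refine ⟨b, hb, ?_⟩
      rw [← h4 b hb, ← card_seg (r := r) (κ := κ) q (k + 1), ← toFinset_segL]
      exact congrArg _ (Subset.antisymm ((tops_top List.mem_cons_self).2.subset
        (tops_top (h2 b hb)).2 (h5.2 eb)) (h5.2 eb))
    · exact h5.1 ((tops_top (h2 _ hb)).2.subset (tops_top (h2 _ ha)).2 (h5.2 hba))
    · exact (hf _ _ (tops_top (h2 a ha)).2 (tops_top (h2 b hb)).2).congr fun i _ => by
        simp [hom, Enc.inj.extend_apply]

theorem sat_of_hsat {F : Bil} (h : HSat F.toAsg) : F.Sat := by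
  obtain ⟨l, p, h⟩ := h
  obtain ⟨u, hu⟩ := exact_of_clus Ob.lev (lev_par F)
    (fun k => if 6 ≤ k.1.1 then l k else p k) fun c hc => by
      have h1 := h _ (List.mem_map_of_mem hc)
      rcases bip_clus F c hc with ⟨h2, h3⟩ | ⟨h2, h3⟩
      · simpa [h2, h3.not_ge] using h1
      · rw [dot_comm]
        simpa [h2.not_ge, h3] using h1
  exact sat_of_exact hu

theorem emb_hard (h1 : 4 ≤ d) (h2 : d ≤ 2 * k) (h3 : k ≤ d) :
    ∀ L ∈ ExistsR, ManyOneReducible L (EMB k d) := by
  have hd : d = 2 * (d / 2 - 2 + 2) + d % 2 := by omega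
  refine ERHardPT.hard (bil_hard.reduce
    ((pt_red (r := d / 2 - 2) (q := d % 2) (k := k)).comp pt_toAsg) fun F => ?_)
  rw [EMB_red (by omega)]
  exact ⟨fun h => complete (F.sat_iff.1 h) hd h3, fun ⟨_, h⟩ => sat_of_hsat (sound hd h)⟩

end Pool.Agent.P.MP_2b4a47_lc
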