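import Pool.Agent.P.MP_2b4a47_lc.R3Layout
import Pool.Agent.P.MP_2b4a47_lc.Red

/-! Dimension three: soundness, completeness, and hardness. -/

namespace Pool.Agent.P.MP_2b4a47_lc

open Finset Filter Topology Sum Module Pool.Agent.Lib.ETR Pool.Agent.Lib.NP N68a2faeb N793a5b8e

theorem EMB_gen {V : Type} [DecidableEq V] [Enc V] {k d : ℕ} {L : List (List V)}
    (a1 : ∀ l ∈ L, l ≠ [] ∧ l.Nodup ∧ l.length ≤ k + 1) (a2 : ∃ l ∈ L, l.length = k + 1)
    (a3 : ∀ a ∈ L, ∀ b ∈ L, a ⊆ b → b.length ≤ a.length) :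
    EMB k d (enc ((L.foldl mxStep []).map (List.map enc))) = true ↔
      ∃ f : V → Fin d → ℝ, ∀ a ∈ L, ∀ b ∈ L, Good (hom f) a.toFinset b.toFinset := by
  obtain ⟨h1, h2, h3⟩ := mx_aux L [] .nil
  simp only [List.not_mem_nil, false_or] at h2 h3
  have e : ∀ l : List V, (l.map enc).toFinset = l.toFinset.image enc := fun l => by
    ext; simp
  have h5 : ∀ {a b : List V}, a.toFinset ⊆ b.toFinset ↔ a ⊆ b := by
    simp [subset_iff, List.subset_def]
  rw [EMB_enc]
  simp only [List.forall_mem_map, e]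
  constructor
  · rintro ⟨-, f, hf⟩
    refine ⟨f ∘ enc, fun a ha b hb => ?_⟩
    obtain ⟨a', ha', ea⟩ := h3 a ha
    obtain ⟨b', hb', eb⟩ := h3 b hb
    exact ((hf a' ha' b' hb').comp Enc.inj).mono (h5.2 ea) (h5.2 eb)
  · rintro ⟨f, hf⟩
    obtain ⟨l, hl, el⟩ := a2
    obtain ⟨b, hb, eb⟩ := h3 l hl
    refine ⟨Fmt.map ⟨fun l hl => a1 l (h2 l hl), ⟨b, hb, le_antisymm (a1 b (h2 b hb)).2.2
      (el ▸ ((a1 l hl).2.1.subperm eb).length_le)⟩,
      h1.imp_of_mem fun ha hb hab => ⟨hab, fun hba => hab ?_⟩⟩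
      Enc.inj, Function.extend enc f 0, fun a ha b hb => Good.image Enc.inj ?_⟩
    · exact (((a1 _ (h2 _ hb)).2.1.subperm hba).perm_of_length_le
        (a3 _ (h2 _ hb) _ (h2 _ ha) hba)).symm.subset
    · exact (hf _ (h2 a ha) _ (h2 b hb)).congr fun i _ => by simp [hom, Enc.inj.extend_apply]

namespace R3

variable {κ : Type} [DecidableEq κ] [Countable κ] {S : Asg κ} {k : ℕ}

def seg (n : ℕ) : Finset (Lab κ) := (range n).image fun i => (inr i, [])

def Top (S : Asg κ) (k : ℕ) (σ : Finset (Lab κ)) : Prop :=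
  (∃ c ∈ S, ∃ φ, Sub c.1 φ ∧ σ = φ.image (lab c)) ∨ σ = seg (k + 1)

omit [Countable κ] in
theorem card_seg (n : ℕ) : #(seg n : Finset (Lab κ)) = n := by
  rw [seg, card_image_of_injective _ fun i j h => by simpa using h, card_range]

omit [Countable κ] in
theorem lab_notMem (c : Bool × κ × κ) (x : Fin 11) (n : ℕ) : lab c x ∉ seg n := by
  unfold lab
  split_ifs <;> simp [seg]

def verts (S : Asg κ) : Finset (Lab κ) := S.toFinset.biUnion fun c => univ.image (lab c)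

omit [Countable κ] in
theorem sub_verts {c : Bool × κ × κ} (hc : c ∈ S) (φ : Finset (Fin 11)) :
    φ.image (lab c) ⊆ verts S := fun _ hx =>
  mem_biUnion.2 ⟨c, List.mem_toFinset.2 hc, image_subset_image (subset_univ _) hx⟩

theorem perturb {E : Type} [AddCommGroup E] [Module ℝ E] [FiniteDimensional ℝ E]
    {v : Lab κ → E} (R : Finset (Fin 11) → Finset (Fin 11) → Prop)
    (h : ∀ c ∈ S, ∀ c' ∈ S, ∀ φ ψ, Sub c.1 φ → Sub c'.1 ψ → R φ ψ →
      Disjoint (φ.image (lab c)) (ψ.image (lab c')) →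
      SepR v (φ.image (lab c)) (ψ.image (lab c'))) :
    ∃ w : Lab κ → E, ∀ᶠ ε in 𝓝[>] (0 : ℝ),
      (∀ s ⊆ verts S, #s ≤ finrank ℝ E → Ind (fun i => v i + ε • w i) s) ∧
      ∀ c ∈ S, ∀ c' ∈ S, ∀ φ ψ, Sub c.1 φ → Sub c'.1 ψ → R φ ψ →
        Disjoint (φ.image (lab c)) (ψ.image (lab c')) →
        Good (fun i => v i + ε • w i) (φ.image (lab c)) (ψ.image (lab c')) := by
  obtain ⟨w, hw⟩ := exists_gp v (verts S)
  exact ⟨w, hw.and (ev_list _ fun c hc => ev_list _ fun c' hc' => eventually_all.2 fun φ =>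
    eventually_all.2 fun ψ => eventually_all.2 fun hφ => eventually_all.2 fun hψ =>
      eventually_all.2 fun hR => eventually_all.2 fun hd =>
        ((h c hc c' hc' φ ψ hφ hψ hR hd).ev hd w).mono fun _ h => h.good' hd)⟩

theorem Sub.mono {s : Bool} {A B : Finset (Fin 11)} (h : Sub s B) (hA : A ⊆ B) : Sub s A :=
  h.imp fun _ h => ⟨h.1, fun x hx => h.2 x (hA hx)⟩

theorem Sub.card {s : Bool} {A : Finset (Fin 11)} (h : Sub s A) : #A ≤ 3 := by
  obtain ⟨φ, hφ, a⟩ := h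
  exact (card_le_card fun x hx => List.mem_toFinset.2 (a x hx)).trans
    (φ.toFinset_card_le.trans (face_ok s φ hφ).2.2.1)

theorem complete (h : S.Sat) (hk : k ≤ 3) :
    ∃ f : Lab κ → Fin 3 → ℝ, ∀ σ τ, Top S k σ → Top S k τ → Good (hom f) σ τ := by
  classical
  obtain ⟨v, h1, h2⟩ := layout h
  obtain ⟨w, hw⟩ := perturb _ h2
  have hr : finrank ℝ Sp = 4 := by simp
  obtain ⟨ε, ⟨h3, h4⟩, h5⟩ := (hw.and (ev_list S fun c hc => eventually_all.2 fun φ =>
    eventually_all.2 fun hφ : Sub c.1 φ => (eventually_all_finset φ).2 fun x hx =>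
      ev_lin _ _ (w (lab c x)) (h1 c hc φ hφ x hx))).exists
  have h6 : ∀ c ∈ S, ∀ c' ∈ S, ∀ φ ψ, Sub c.1 φ → Sub c'.1 ψ →
      Good (fun i => v i + ε • w i) (φ.image (lab c)) (ψ.image (lab c')) := by
    intro c hc c' hc' φ ψ hφ hψ
    refine good_of_circuits (fun s hs => h3 s
      (hs.trans (union_subset (sub_verts hc φ) (sub_verts hc' ψ)))) fun A hA B hB hd hn => ?_
    obtain ⟨A, a1, rfl⟩ := subset_image_iff.1 hA
    obtain ⟨B, a2, rfl⟩ := subset_image_iff.1 hB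
    rw [card_image_of_injective _ (lab_inj c), card_image_of_injective _ (lab_inj c'), hr] at hn
    have a3 := (hφ.mono a1).card
    have a4 := (hψ.mono a2).card
    by_cases a5 : #A = 3
    · exact h4 c hc c' hc' A B (hφ.mono a1) (hψ.mono a2) ⟨a5, by omega⟩ hd
    · exact (h4 c' hc' c hc B A (hψ.mono a2) (hφ.mono a1) ⟨by omega, by omega⟩ hd.symm).symm
  let U := (verts S).filter fun x => ∃ c ∈ S, ∃ φ, Sub c.1 φ ∧ ∃ y ∈ φ, lab c y = x
  have hU : ∀ c ∈ S, ∀ φ, Sub c.1 φ → φ.image (lab c) ⊆ U := fun c hc φ hφ x hx =>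
    mem_filter.2 ⟨sub_verts hc φ hx, c, hc, φ, hφ, mem_image.1 hx⟩
  have h9 : ∀ i ∈ U, 0 < fn 0 0 1 1 (v i + ε • w i) := fun i hi => by
    obtain ⟨-, c, hc, φ, hφ, y, hy, rfl⟩ := mem_filter.1 hi
    exact h5 c hc φ hφ y hy
  have hdis : Disjoint U (seg (k + 1)) := disjoint_left.2 fun i hi => by
    obtain ⟨-, c, -, -, -, y, -, rfl⟩ := mem_filter.1 hi
    exact lab_notMem c y _
  have hb : fn 0 0 1 1 (0, 0, 1, 0) = 1 := by simp [fn]
  obtain ⟨u, a1, a2, a3, a4⟩ := exists_extra _ U (seg (k + 1)) _ (fn 1 0 0 0) h9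
    (a := (1, 0, 0, 0)) (by simp [fn]) (by simp [fn]) hb (by rw [card_seg, hr]; omega) hdis
  obtain ⟨f, hf⟩ := dehom (d := 3) hr u _ hb
  have a5 : ∀ σ, Top S k σ → ∀ i ∈ σ, 0 < fn 0 0 1 1 (u i) := by
    rintro _ (⟨c, hc, φ, hφ, rfl⟩ | rfl) i hi
    · rw [a1 i (hU c hc φ hφ hi)]
      exact h9 i (hU c hc φ hφ hi)
    · exact a2 i hi
  refine ⟨f, fun σ τ hσ hτ => hf σ τ (forall_mem_union.2 ⟨a5 σ hσ, a5 τ hτ⟩) ?_⟩
  rcases hσ with ⟨c, hc, φ, hφ, rfl⟩ | rfl <;> rcases hτ with ⟨c', hc', ψ, hψ, rfl⟩ | rfl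
  · exact (h6 c hc c' hc' φ ψ hφ hψ).congr fun i hi =>
      a1 i (union_subset (hU c hc φ hφ) (hU c' hc' ψ hψ) hi)
  · exact (a4.good' hdis).mono (hU c hc φ hφ) Subset.rfl
  · exact ((a4.good' hdis).mono (hU c' hc' ψ hψ) Subset.rfl).symm
  · exact Ind.good (by rwa [union_self])

theorem sound {f : Lab κ → Fin 3 → ℝ}
    (h : ∀ σ τ, Top S k σ → Top S k τ → Good (hom f) σ τ) : HSat S := by
  rcases S.eq_nil_or_concat' with rfl | ⟨L, c0, e⟩
  · exact ⟨0, 0, by simp⟩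
  have hc0 : c0 ∈ S := by simp [e]
  obtain ⟨w, hw⟩ := perturb (S := S) (v := hom f) (fun _ _ => True)
    fun c hc c' hc' φ ψ hφ hψ _ _ =>
      (h _ _ (.inl ⟨c, hc, φ, hφ, rfl⟩) (.inl ⟨c', hc', ψ, hψ, rfl⟩)).sepR
  obtain ⟨ε, h1, h2⟩ := hw.exists
  set u := fun i => hom f i + ε • w i
  have hr : finrank ℝ ((Fin 3 → ℝ) × ℝ) = 4 := by simp
  have h3 : ∀ c ∈ S, ∀ s : Finset (Fin 11), #s ≤ finrank ℝ ((Fin 3 → ℝ) × ℝ) →
      Ind (u ∘ lab c) s := fun c hc s hs =>
    (h1 _ (sub_verts hc s) (card_image_le.trans hs)).comp (lab_inj c)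
  obtain ⟨P, hP⟩ := exists_proj (h3 c0 hc0 {0} (by simp)) (m := 3) (by simp)
  have h4 : ∀ a : κ, ∃ l : V3, ∀ c ∈ S, c.2.1 = a →
      0 < sg c.1 * dot l (P (u (inl 9, [c.2.2, c.2.2])) 0,
        P (u (inl 9, [c.2.2, c.2.2])) 1, P (u (inl 9, [c.2.2, c.2.2])) 2) := by
    intro a
    by_cases ha : ∃ c1 ∈ S, c1.2.1 = a
    · obtain ⟨c1, hc1, rfl⟩ := ha
      obtain ⟨F, a1, -, a2⟩ := Good.sepR (σ := {6, 0, 1, 2}) (τ := {0, 1, 2})
        (h3 c1 hc1 _ (by rw [hr]; decide)).good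
      obtain ⟨F', hF'⟩ := hP F fun x hx => by
        simpa only [mem_singleton.1 hx, Function.comp_apply, lab_zero] using
          a2 0 (by decide) (by decide)
      refine ⟨(F' (Pi.single 0 1), F' (Pi.single 1 1), F' (Pi.single 2 1)), fun c hc e => ?_⟩
      have a3 := local_sound hr (h3 c hc) (s := c.1) (fun φ ψ a b hd => (h2 c hc c hc φ ψ a b
        trivial ((disjoint_image (lab_inj c)).2 hd)).comp (lab_inj c)) F (fun x hx => by
          have := a2 x (mem_insert_of_mem hx) hx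
          simp only [mem_insert, mem_singleton] at hx
          rcases hx with rfl | rfl | rfl
          · simpa only [Function.comp_apply, lab_zero] using this
          all_goals
            rw [Function.comp_apply, lab_in _ (by decide) (by decide)] at this ⊢
            rwa [e]) (by
          have := a1 6 (by decide) (by decide)
          rw [Function.comp_apply, lab_in _ (by decide) (by decide)] at this ⊢
          rwa [e])
      rw [Function.comp_apply, lab_tip, hF', F'.pi_apply_eq_sum_univ, Fin.sum_univ_three] at a3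
      refine a3.trans_eq ?_
      simp only [dot, smul_eq_mul, mul_comm]
      congr <;> ext <;> simp [Pi.single_apply, eq_comm]
    · exact ⟨0, fun c hc e => absurd ⟨c, hc, e⟩ ha⟩
  choose l hl using h4
  exact ⟨l, fun b => (P (u (inl 9, [b, b])) 0, P (u (inl 9, [b, b])) 1,
    P (u (inl 9, [b, b])) 2), fun c hc => hl _ c hc rfl⟩

instance : Enc (Fin 11 ⊕ ℕ) :=
  ⟨fun x => enc (Encodable.encode x), Enc.inj.comp Encodable.encode_injective⟩

def segL (n : ℕ) : List (Lab κ) := (List.range n).map fun i => (inr i, [])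

def tops (k : ℕ) (S : Asg κ) : List (List (Lab κ)) :=
  segL (k + 1) :: S.flatMap fun c => (faces c.1).map (List.map (lab c))

omit [DecidableEq κ] [Countable κ] in
theorem pt_tops [Enc κ] : PT (tops k : Asg κ → _) := by
  have h1 : ∀ s (x : Fin 11), PT fun c : Bool × κ × κ => lab (s, c.2) x := fun s x => by
    unfold lab
    by_cases h : x = tip s
    · simp only [if_pos h]; fun_prop
    · by_cases h' : x = 0
      · simp only [if_neg h, if_pos h']; fun_prop
      · simp only [if_neg h, if_neg h']; fun_prop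
  have h2 : ∀ s, PT fun c : Bool × κ × κ => (faces s).map (List.map (lab (s, c.2))) := fun s =>
    pt_map_const (fun φ => pt_map_const (h1 s) φ) _
  have h3 : PT fun c : Bool × κ × κ => (faces c.1).map (List.map (lab c)) :=
    (PT.cond (PT.fst PT.id') (h2 true) (h2 false)).congr fun ⟨s, c⟩ => by cases s <;> rfl
  exact (PT.const _).cons (PT.flatMap (h3.comp (PT.snd PT.id')) PT.id')

omit [DecidableEq κ] [Countable κ] in
theorem mem_tops {l : List (Lab κ)} : l ∈ tops k S ↔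
    l = segL (k + 1) ∨ ∃ c ∈ S, ∃ φ ∈ faces c.1, φ.map (lab c) = l := by simp [tops]

omit [Countable κ] in
theorem toFinset_segL (n : ℕ) : (segL n : List (Lab κ)).toFinset = seg n := by
  ext; simp [segL, seg]

omit [DecidableEq κ] [Countable κ] in
theorem lab_eq {c c' : Bool × κ × κ} {x y : Fin 11} (h : lab c' y = lab c x) :
    y = x ∨ x = tip c.1 ∧ y = tip c'.1 := by
  unfold lab at h
  by_cases h1 : x = tip c.1 <;> by_cases h2 : y = tip c'.1
  · exact .inr ⟨h1, h2⟩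
  · rw [if_pos h1, if_neg h2] at h
    split_ifs at h <;> simp at h
  · rw [if_neg h1, if_pos h2] at h
    split_ifs at h <;> simp at h
  · exact .inl (by simpa [h1, h2] using congrArg Prod.fst h)

def red [Enc κ] (k : ℕ) (S : Asg κ) : List Bool :=
  enc (((tops k S).foldl mxStep []).map (List.map enc))

omit [Countable κ] in
theorem pt_red [Enc κ] : PT (red k : Asg κ → _) := by
  have := pt_mx.comp (pt_tops (k := k) (κ := κ))
  unfold red
  fun_prop

omit [Countable κ] in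
theorem EMB_red [Enc κ] (hk : 2 ≤ k) : EMB k 3 (red k S) = true ↔
    ∃ f : Lab κ → Fin 3 → ℝ, ∀ σ τ, Top S k σ → Top S k τ → Good (hom f) σ τ := by
  have e : ∀ (c : Bool × κ × κ) (φ : List (Fin 11)),
      (φ.map (lab c)).toFinset = φ.toFinset.image (lab c) := fun c φ => by ext; simp
  have h0 : ∀ (c : Bool × κ × κ) x, lab c x ∉ segL (k + 1) := fun c x h =>
    lab_notMem c x _ (toFinset_segL (κ := κ) _ ▸ List.mem_toFinset.2 h)
  rw [red, EMB_gen (L := tops k S) (fun l hl => ?_) ⟨_, List.mem_cons_self, by simp [segL]⟩ fun a ha b hb hab => ?_]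
  · refine exists_congr fun f => ⟨fun h σ τ hσ hτ => ?_, fun h a ha b hb => ?_⟩
    · have : ∀ σ, Top S k σ → ∃ l ∈ tops k S, σ ⊆ l.toFinset := by
        rintro _ (⟨c, hc, A, ⟨φ, hφ, a⟩, rfl⟩ | rfl)
        · exact ⟨_, mem_tops.2 (.inr ⟨c, hc, φ, hφ, rfl⟩), e c φ ▸ image_subset_image
            fun x hx => List.mem_toFinset.2 (a x hx)⟩
        · exact ⟨_, List.mem_cons_self, (toFinset_segL _).superset⟩
      obtain ⟨a, ha, ea⟩ := this σ hσ
      obtain ⟨b, hb, eb⟩ := this τ hτ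
      exact (h a ha b hb).mono ea eb
    · have : ∀ l ∈ tops k S, Top S k l.toFinset := fun l hl => by
        rcases mem_tops.1 hl with rfl | ⟨c, hc, φ, hφ, rfl⟩
        · exact .inr (toFinset_segL _)
        · exact .inl ⟨c, hc, _, ⟨φ, hφ, fun x => List.mem_toFinset.1⟩, e c φ⟩
      exact h _ _ (this a ha) (this b hb)
  · rcases mem_tops.1 hl with rfl | ⟨c, hc, φ, hφ, rfl⟩
    · exact ⟨by simp [segL], List.nodup_range.map fun i j h => by simpa using h, by simp [segL]⟩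
    · obtain ⟨a1, a2, a3, -⟩ := face_ok _ φ hφ
      exact ⟨by simpa, a2.map (lab_inj c), by simp; omega⟩
  · rcases mem_tops.1 ha with rfl | ⟨c, hc, φ, hφ, rfl⟩ <;>
      rcases mem_tops.1 hb with rfl | ⟨c', hc', ψ, hψ, rfl⟩
    · exact le_rfl
    · have := (face_ok _ ψ hψ).2.2.1
      simp [segL]
      omega
    · obtain ⟨x, hx⟩ := List.exists_mem_of_ne_nil _ (face_ok _ φ hφ).1
      exact absurd (hab (List.mem_map_of_mem hx)) (h0 c x)
    · simp only [List.length_map]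
      refine face_sub _ _ φ hφ ψ hψ fun x hx => ?_
      obtain ⟨y, hy, e⟩ := List.mem_map.1 (hab (List.mem_map_of_mem hx))
      rcases lab_eq e with rfl | ⟨a, rfl⟩
      exacts [.inl hy, .inr ⟨a, hy⟩]

end R3

theorem emb_hard3 {k : ℕ} (h2 : 2 ≤ k) (h3 : k ≤ 3) :
    ∀ L ∈ ExistsR, ManyOneReducible L (EMB k 3) := by
  refine ERHardPT.hard (bil_hard.reduce ((R3.pt_red (k := k)).comp pt_toAsg) fun F => ?_)
  rw [R3.EMB_red h2]
  exact ⟨fun h => R3.complete (F.sat_iff.1 h) h3, fun ⟨_, h⟩ => sat_of_hsat (R3.sound h)⟩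

end Pool.Agent.P.MP_2b4a47_lc
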